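import Pool.Agent.Work.MP_0fcc57_gt.ManifoldDefs

/-!
# The statement of the counterexample
-/

open scoped ContDiff Manifold Topology

noncomputable section

namespace Pool.Agent.Work.MP_0fcc57_gt

section general
variable {E : Type} [NormedAddCommGroup E] [NormedSpace ℝ E]
variable {M : Type} [TopologicalSpace M] [ChartedSpace E M] [IsManifold 𝓘(ℝ, E) ∞ M]
variable {N : Type} [TopologicalSpace N] [ChartedSpace E N]

variable (E M) in
/-- A smooth Riemannian metric on a smooth manifold `M` modelled on `E` (Mathlib's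
`ContMDiffRiemannianMetric` on the tangent bundle). -/
abbrev SmoothMetric := Bundle.ContMDiffRiemannianMetric 𝓘(ℝ, E) ∞ E
    (fun x : M => TangentSpace 𝓘(ℝ, E) x)

/-- The inner product of the metric at `x`, as a bilinear form (in Mathlib the tangent space of a
manifold modelled on `E` is a copy of `E`). -/
def tipL (g : SmoothMetric E M) (x : M) : E →L[ℝ] E →L[ℝ] ℝ := g.inner x

/-- The inner product of two tangent vectors. -/
def tip (g : SmoothMetric E M) (x : M) (v w : TangentSpace 𝓘(ℝ, E) x) : ℝ := tipL g x v w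

/-- The differential of a map at a point. -/
def tmap (f : N → M) (x : N) (v : TangentSpace 𝓘(ℝ, E) x) : TangentSpace 𝓘(ℝ, E) (f x) :=
  mfderiv 𝓘(ℝ, E) 𝓘(ℝ, E) f x v

/-- The differential of `f` at `x`, from a vector of `E` (for a map defined on `E`). -/
def tvec (Ψ : E → M) (y : E) (v : E) : TangentSpace 𝓘(ℝ, E) (Ψ y) :=
  mfderiv 𝓘(ℝ, E) 𝓘(ℝ, E) Ψ y v

/-- `Ψ : E → M` is a diffeomorphism from a neighbourhood of `y` onto a neighbourhood of `Ψ y`. -/
def LocParam (Ψ : E → M) (y : E) : Prop := IsLocalDiffeomorphAt 𝓘(ℝ, E) 𝓘(ℝ, E) ∞ Ψ y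

/-- `f` is smooth. -/
def SmoothMap (f : N → M) : Prop := ContMDiff 𝓘(ℝ, E) 𝓘(ℝ, E) ∞ f

end general

/-- A closed Riemannian `n`-manifold: compact, connected, Hausdorff, second countable, without
boundary, with a smooth Riemannian metric. -/
structure ClosedRiemannian (n : ℕ) where
  carrier : Type
  [top : TopologicalSpace carrier]
  [charts : ChartedSpace (Fin n → ℝ) carrier]
  [smooth : IsManifold 𝓘(ℝ, Fin n → ℝ) ∞ carrier]
  [t2 : T2Space carrier]
  [secondCountable : SecondCountableTopology carrier]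
  [compact : CompactSpace carrier]
  [connected : ConnectedSpace carrier]
  metric : SmoothMetric (Fin n → ℝ) carrier

attribute [instance] ClosedRiemannian.top ClosedRiemannian.charts ClosedRiemannian.smooth

namespace ClosedRiemannian
variable {n : ℕ}

/-- The matrix `g(∂_i Ψ, ∂_j Ψ)` of the metric in a parametrisation `Ψ`. -/
def coord (M : ClosedRiemannian n) (Ψ : (Fin n → ℝ) → M.carrier) : CoordMetric n :=
  fun y => Matrix.of fun i j =>
    tip M.metric (Ψ y) (tvec Ψ y (Pi.single i 1)) (tvec Ψ y (Pi.single j 1))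

/-- All sectional curvatures are negative at every point. -/
def NegCurved (M : ClosedRiemannian n) : Prop :=
  ∀ p : M.carrier, ∃ (Ψ : (Fin n → ℝ) → M.carrier) (y : Fin n → ℝ),
    LocParam Ψ y ∧ Ψ y = p ∧ NegAt (M.coord Ψ) y

/-- The tension field of `f` vanishes at every point. -/
def Harmonic (N M : ClosedRiemannian n) (f : N.carrier → M.carrier) : Prop :=
  ∀ p : N.carrier, ∃ (Φ : (Fin n → ℝ) → N.carrier) (Ψ : (Fin n → ℝ) → M.carrier)
    (F : (Fin n → ℝ) → (Fin n → ℝ)) (y : Fin n → ℝ),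
    LocParam Φ y ∧ Φ y = p ∧ LocParam Ψ (F y) ∧
    (∃ U : Set (Fin n → ℝ), IsOpen U ∧ y ∈ U ∧ ContDiffOn ℝ ∞ F U) ∧
    (∀ᶠ z in 𝓝 y, f (Φ z) = Ψ (F z)) ∧
    ∀ a, tension (N.coord Φ) (M.coord Ψ) F a y = 0

/-- The differential of `f` at `p` is not injective. -/
def SingularAt (N M : ClosedRiemannian n) (f : N.carrier → M.carrier) (p : N.carrier) : Prop :=
  ¬ Function.Injective (tmap (E := Fin n → ℝ) f p)

end ClosedRiemannian

/-- The differential of the smooth homeomorphism is singular somewhere. -/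
theorem statement_of (h : Counterexample) :
    ∃ (N M : ClosedRiemannian 3) (f : N.carrier ≃ₜ M.carrier),
      N.NegCurved ∧ M.NegCurved ∧ SmoothMap (E := Fin 3 → ℝ) f ∧ N.Harmonic M f ∧
      ∃ p, N.SingularAt M f p := by
  obtain ⟨N, M, _, _, _, _, _, _, h, g, f, ⟨_, _, _, _⟩, ⟨_, _, _, _⟩, h1, h2, h3, h4, p, hp⟩ := h
  exact ⟨⟨N, h⟩, ⟨M, g⟩, f, h1, h2, h3, h4, p, hp⟩

end Pool.Agent.Work.MP_0fcc57_gt
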