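import Pool.Agent.Work.MP_0fcc57_gt.Polar

/-!
# The Cartesian form of the metric
-/

open scoped ContDiff Topology
open Real Set Filter

noncomputable section

namespace Pool.Agent.Work.MP_0fcc57_gt

/-- the `(r,x)` coordinates of a point -/
def Yc (p : Fin 3 → ℝ) : ℝ × ℝ := (arsinh (√(sq p)), p 2 / √(sq p))
/-- the `(r,x)` coordinates of a point as a vector -/
def Yv (p : Fin 3 → ℝ) : Fin 3 → ℝ := ![(Yc p).1, (Yc p).2, 0]

lemma Yc_Psi {y : Fin 3 → ℝ} (hy : y ∈ liftS PR) : Yc (Psi y) = (y 0, y 1) := by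
  have hs := sinh_pos' hy
  unfold Yc
  rw [sq_Psi hy, Real.sqrt_sq hs.le, Real.arsinh_sinh]
  simp [Psi]
  field_simp

lemma sinh_Yc {p : Fin 3 → ℝ} : sinh (Yc p).1 ^ 2 = sq p := by
  unfold Yc
  rw [Real.sinh_arsinh, Real.sq_sqrt (sq_nonneg' p)]

lemma Yc_snd_sq {p : Fin 3 → ℝ} : (Yc p).2 ^ 2 = p 2 ^ 2 / sq p := by
  unfold Yc
  rw [div_pow, Real.sq_sqrt (sq_nonneg' p)]

lemma Yc_mem {p : Fin 3 → ℝ} (h : 0 < ax p) : Yc p ∈ PR := by
  have hu := sq_pos_of_ax h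
  refine ⟨?_, ?_⟩
  · unfold Yc
    exact Real.arsinh_pos_iff.mpr (Real.sqrt_pos.mpr hu)
  · rw [Yc_snd_sq, div_lt_one hu, sq_eq_ax]
    linarith

lemma exists_Psi {p : Fin 3 → ℝ} (h : 0 < ax p) : ∃ y ∈ liftS PR, Psi y = p := by
  have hu := sq_pos_of_ax h
  have hY := Yc_mem h
  set θ := Complex.arg ⟨p 0, p 1⟩ with hθ
  have hne : (⟨p 0, p 1⟩ : ℂ) ≠ 0 := by
    intro h0
    have h1 := congrArg Complex.re h0
    have h2 := congrArg Complex.im h0
    simp at h1 h2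
    unfold ax at h
    rw [h1, h2] at h
    simp at h
  have hnorm : ‖(⟨p 0, p 1⟩ : ℂ)‖ = √(ax p) := by
    rw [Complex.norm_def, Complex.normSq_mk]
    congr 1
    unfold ax; ring
  have hc : cos θ = p 0 / √(ax p) := by
    rw [hθ, Complex.cos_arg hne, hnorm]
  have hs : sin θ = p 1 / √(ax p) := by
    rw [hθ, Complex.sin_arg, hnorm]
  refine ⟨![(Yc p).1, (Yc p).2, θ], ?_, ?_⟩
  · show ((Yc p).1, (Yc p).2) ∈ PR
    exact hY
  · have h1 : sinh (Yc p).1 = √(sq p) := by unfold Yc; rw [Real.sinh_arsinh]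
    have h2 : √(1 - (Yc p).2 ^ 2) = √(ax p) / √(sq p) := by
      rw [Yc_snd_sq, ← Real.sqrt_div' _ hu.le]
      congr 1
      rw [sq_eq_ax]
      have : ax p + p 2 ^ 2 ≠ 0 := by rw [← sq_eq_ax]; exact hu.ne'
      field_simp
      ring
    have h3 : (Yc p).2 = p 2 / √(sq p) := rfl
    have h4 := Real.sqrt_pos.mpr h
    have h5 := Real.sqrt_pos.mpr hu
    ext i
    fin_cases i
    · simp only [Psi, Fin.zero_eta, Matrix.cons_val_zero, Matrix.cons_val_one, Matrix.cons_val]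
      rw [h1, h2, hc]; field_simp
    · simp only [Psi, Fin.mk_one, Matrix.cons_val_zero, Matrix.cons_val_one, Matrix.cons_val]
      rw [h1, h2, hs]; field_simp
    · simp only [Psi, Fin.reduceFinMk, Matrix.cons_val_zero, Matrix.cons_val_one, Matrix.cons_val]
      rw [h1, h3]; field_simp

/-- `u/w` -/
def RData.rho (D : RData) (u : ℝ) : ℝ := 1 + u * D.k u

lemma RData.rho_eq (D : RData) {u : ℝ} (hu : 0 < u) : D.rho u = u / D.w u := by
  unfold RData.rho RData.k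
  field_simp
  ring

lemma RData.rho_pos (D : RData) {u : ℝ} (hu : 0 ≤ u) : 0 < D.rho u := by
  rcases hu.eq_or_lt with h | h
  · rw [← h]; unfold RData.rho; simp
  · rw [D.rho_eq h]; exact div_pos h (D.hpos u h)

/-- first coefficient of the radial metric -/
def cA (D : RData) (κ u : ℝ) : ℝ := exp (2 * (D.I u + κ)) * D.rho u
/-- second coefficient of the radial metric -/
def cE (D : RData) (κ u : ℝ) : ℝ := cA D κ u * ((D.k u - 1) / (1 + u))

/-- the radial metric in Cartesian coordinates -/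
def H0 (D : RData) (κ : ℝ) : CoordMetric 3 := fun p =>
  Matrix.of fun i j : Fin 3 => cA D κ (sq p) * (if i = j then 1 else 0) +
    cE D κ (sq p) * (p i * p j)

/-- the radial metric in polar coordinates -/
def radPol (D : RData) (κ : ℝ) : CoordMetric 3 := fun z =>
  Matrix.diagonal ![exp (2 * (D.I (sinh (z 0) ^ 2) + κ)) * D.rho (sinh (z 0) ^ 2) ^ 2,
    exp (2 * (D.I (sinh (z 0) ^ 2) + κ)) * D.rho (sinh (z 0) ^ 2) * sinh (z 0) ^ 2 / (1 - z 1 ^ 2),
    exp (2 * (D.I (sinh (z 0) ^ 2) + κ)) * D.rho (sinh (z 0) ^ 2) * sinh (z 0) ^ 2 *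
      (1 - z 1 ^ 2)]

lemma H0_Wf {D : RData} {κ : ℝ} {y : Fin 3 → ℝ} (hy : y ∈ liftS PR) :
    H0 D κ (Psi y) = (Wf (Psi y)).transpose * radPol D κ y * Wf (Psi y) := by
  have h1 := cart_eq (ax_Psi_pos hy) (cA D κ (sq (Psi y))) (cE D κ (sq (Psi y)))
  unfold H0
  rw [h1]
  congr 2
  unfold radPol
  rw [ax_Psi hy, sq_Psi hy]
  have hs := sinh_pos' hy
  have hp := one_sub_pos hy
  congr 1
  have h2 : 1 + sinh (y 0) ^ 2 ≠ 0 := by positivity
  ext i
  fin_cases i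
  · simp only [Fin.zero_eta, Matrix.cons_val_zero]
    unfold cE cA RData.rho
    field_simp
    ring
  · simp only [Fin.mk_one, Matrix.cons_val_one, Matrix.cons_val_zero]
    unfold cA
    field_simp
  · simp only [Fin.reduceFinMk, Matrix.cons_val]
    unfold cA
    ring

lemma H0_pull {D : RData} {κ : ℝ} {y : Fin 3 → ℝ} (hy : y ∈ liftS PR) :
    pull (H0 D κ) Psi y = radPol D κ y := pull_Wf hy _ _ (H0_Wf hy)

/-- the metric of a zero perturbation (or outside of the support) is the radial one -/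
lemma LD_radial {D : RData} {P : PData} (h : AllGoodD D P) (κ : ℝ) {z : Fin 3 → ℝ}
    (hz : z ∈ liftS PR)
    (hb : log (P.bh (iW D.w (z 0)) (z 0, z 1)) = Brad (z 0, z 1))
    (hc : log (P.ch (iW D.w (z 0)) (z 0, z 1)) = Crad (z 0, z 1)) :
    diagM (LD D P h κ) z = radPol D κ z := by
  have hs := sinh_pos' hz
  have hp := one_sub_pos hz
  have hr : 0 < z 0 := hz.1
  have hj := sinh2_pos hr
  have hu : 0 < sinh (z 0) ^ 2 := by positivity
  have hw := D.hpos _ hu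
  have hi := D.iW_pos' hz
  simp only at hi
  have hrho := D.rho_eq hu
  have hrp := D.rho_pos hu.le
  have eM : D.M (z 0) = log (sinh (z 0) ^ 2) + D.I (sinh (z 0) ^ 2) := rfl
  have eI : log (iW D.w (z 0)) = log (D.w (sinh (z 0) ^ 2)) - log (sinh (2 * z 0)) := by
    unfold iW; rw [Real.log_div hw.ne' hj.ne']
  have eB : Brad (z 0, z 1) = log (1 - z 1 ^ 2) - log (sinh (2 * z 0)) := rfl
  have eC : Crad (z 0, z 1) = -log (1 - z 1 ^ 2) - log (sinh (2 * z 0)) := rfl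
  have e1 : 2 * (LD D P h κ).a (z 0, z 1) = 2 * (D.I (sinh (z 0) ^ 2) + κ)
      + (log (D.rho (sinh (z 0) ^ 2)) + log (D.rho (sinh (z 0) ^ 2))) := by
    unfold LData.a LD
    simp only
    rw [hb, hc, eM, eI, eB, eC, hrho, Real.log_div hu.ne' hw.ne']
    ring
  have e2 : 2 * (LD D P h κ).b (z 0, z 1) = 2 * (D.I (sinh (z 0) ^ 2) + κ)
      + log (D.rho (sinh (z 0) ^ 2)) + log (sinh (z 0) ^ 2) - log (1 - z 1 ^ 2) := by
    unfold LData.b LD
    simp only
    rw [hc, eM, eI, eC, hrho, Real.log_div hu.ne' hw.ne']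
    ring
  have e3 : 2 * (LD D P h κ).c (z 0, z 1) = 2 * (D.I (sinh (z 0) ^ 2) + κ)
      + log (D.rho (sinh (z 0) ^ 2)) + log (sinh (z 0) ^ 2) + log (1 - z 1 ^ 2) := by
    unfold LData.c LD
    simp only
    rw [hb, eM, eI, eB, hrho, Real.log_div hu.ne' hw.ne']
    ring
  unfold diagM radPol
  rw [e1, e2, e3, Real.exp_add, Real.exp_add, Real.exp_sub, Real.exp_add, Real.exp_add,
    Real.exp_add, Real.exp_log hrp, Real.exp_log hu, Real.exp_log hp, Real.exp_add,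
    Real.exp_log hu, Real.exp_add, Real.exp_log hrp]
  congr 2
  ring

/-! ### smoothness and positivity of the radial metric -/

lemma sq_contDiff : ContDiff ℝ ∞ sq := by
  unfold sq
  exact ContDiff.sum fun k _ => (contDiff_apply ℝ ℝ k).pow 2

lemma one_add_sq_pos (p : Fin 3 → ℝ) : 0 < 1 + sq p := by
  have := sq_nonneg' p
  linarith

lemma cA_contDiff (D : RData) (κ : ℝ) : ContDiff ℝ ∞ (cA D κ) := by
  unfold cA RData.rho
  exact (contDiff_const.mul (D.I_contDiff.add contDiff_const)).exp.mul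
    (contDiff_const.add (contDiff_id.mul D.k_contDiff))

lemma H0_smooth (D : RData) (κ : ℝ) (i j : Fin 3) : ContDiff ℝ ∞ (fun p => H0 D κ p i j) := by
  unfold H0
  simp only [Matrix.of_apply]
  have h1 : ContDiff ℝ ∞ (fun p => cA D κ (sq p)) := (cA_contDiff D κ).comp sq_contDiff
  apply ContDiff.add
  · exact h1.mul contDiff_const
  · apply ContDiff.mul
    · unfold cE
      apply h1.mul
      exact ((D.k_contDiff.comp sq_contDiff).sub contDiff_const).div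
        (contDiff_const.add sq_contDiff) (fun p => (one_add_sq_pos p).ne')
    · exact (contDiff_apply ℝ ℝ i).mul (contDiff_apply ℝ ℝ j)

lemma H0_symm (D : RData) (κ : ℝ) (p : Fin 3 → ℝ) (i j : Fin 3) : H0 D κ p i j = H0 D κ p j i := by
  simp only [H0, Matrix.of_apply, eq_comm, mul_comm]

lemma H0_pos (D : RData) (κ : ℝ) (p v : Fin 3 → ℝ) (hv : v ≠ 0) : 0 < ip (H0 D κ) p v v := by
  have h0 := sq_nonneg' p
  have h1 := one_add_sq_pos p
  have hv' : 0 < ∑ k, v k ^ 2 := by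
    rcases Function.ne_iff.1 hv with ⟨k, hk⟩
    apply Finset.sum_pos' (fun k _ => sq_nonneg _) ⟨k, Finset.mem_univ _, ?_⟩
    exact sq_pos_of_ne_zero hk
  have hcs : (∑ k, p k * v k) ^ 2 ≤ sq p * ∑ k, v k ^ 2 :=
    Finset.sum_mul_sq_le_sq_mul_sq _ _ _
  have key : ip (H0 D κ) p v v = cA D κ (sq p) / (1 + sq p) *
      ((1 + sq p) * ∑ k, v k ^ 2 + (D.k (sq p) - 1) * (∑ k, p k * v k) ^ 2) := by
    simp only [ip, H0, Matrix.of_apply, Fin.sum_univ_three]
    unfold cE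
    simp
    field_simp
    ring
  rw [key]
  have hA : 0 < cA D κ (sq p) := mul_pos (Real.exp_pos _) (D.rho_pos h0)
  apply mul_pos (div_pos hA h1)
  have hrho : 0 < 1 + sq p * D.k (sq p) := D.rho_pos h0
  set S := ∑ k, v k ^ 2
  set Q := (∑ k, p k * v k) ^ 2
  have hQ : 0 ≤ Q := sq_nonneg _
  rcases le_or_gt 0 (D.k (sq p)) with hk | hk
  · have := mul_nonneg hk hQ
    nlinarith
  · have h3 : D.k (sq p) * (sq p * S) ≤ D.k (sq p) * Q := mul_le_mul_of_nonpos_left hcs hk.le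
    have h4 : 0 < (1 + sq p * D.k (sq p)) * S := mul_pos hrho hv'
    nlinarith

lemma H0_isMetric (D : RData) (κ : ℝ) : IsMetric (H0 D κ) :=
  ⟨H0_smooth D κ, H0_symm D κ, H0_pos D κ⟩

lemma H0_right (D : RData) {p : Fin 3 → ℝ} (h : D.Bd ≤ sq p) : H0 D 0 p = hyp p := by
  ext i j
  simp only [H0, hyp, Matrix.of_apply]
  unfold cE cA RData.rho
  rw [D.k_right h, D.I_right h]
  have h1 := (one_add_sq_pos p).ne'
  show _ = (if i = j then (1:ℝ) else 0) - p i * p j / (1 + sq p)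
  simp
  field_simp
  ring

/-! ### smoothness of the coordinates -/

section
variable {p : Fin 3 → ℝ}

lemma sqrt_sq_contDiffAt (h : 0 < sq p) : ContDiffAt ℝ ∞ (fun q : Fin 3 → ℝ => √(sq q)) p :=
  (sq_contDiff.contDiffAt).sqrt h.ne'

lemma Yc_contDiffAt (h : 0 < sq p) : ContDiffAt ℝ ∞ Yc p := by
  have h1 := sqrt_sq_contDiffAt h
  unfold Yc
  apply ContDiffAt.prodMk
  · exact (Real.contDiff_arsinh.contDiffAt).comp p h1
  · exact (contDiff_apply ℝ ℝ (2 : Fin 3)).contDiffAt.div h1 (Real.sqrt_pos.mpr h).ne'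

lemma ax_contDiff : ContDiff ℝ ∞ ax := by
  unfold ax
  exact ((contDiff_apply ℝ ℝ (0 : Fin 3)).pow 2).add ((contDiff_apply ℝ ℝ (1 : Fin 3)).pow 2)

lemma Wf_contDiffAt (h : 0 < ax p) (i j : Fin 3) : ContDiffAt ℝ ∞ (fun q => Wf q i j) p := by
  have hu := sq_pos_of_ax h
  have c0 : ContDiffAt ℝ ∞ (fun q : Fin 3 → ℝ => q 0) p := (contDiff_apply ℝ ℝ (0 : Fin 3)).contDiffAt
  have c1 : ContDiffAt ℝ ∞ (fun q : Fin 3 → ℝ => q 1) p := (contDiff_apply ℝ ℝ (1 : Fin 3)).contDiffAt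
  have c2 : ContDiffAt ℝ ∞ (fun q : Fin 3 → ℝ => q 2) p := (contDiff_apply ℝ ℝ (2 : Fin 3)).contDiffAt
  have h1 : ContDiffAt ℝ ∞ (fun q : Fin 3 → ℝ => √(sq q * (1 + sq q))) p :=
    ((sq_contDiff.mul (contDiff_const.add sq_contDiff)).contDiffAt).sqrt
      (mul_pos hu (one_add_sq_pos p)).ne'
  have h1' : √(sq p * (1 + sq p)) ≠ 0 := (Real.sqrt_pos.mpr (mul_pos hu (one_add_sq_pos p))).ne'
  have h2 : ContDiffAt ℝ ∞ (fun q : Fin 3 → ℝ => sq q * √(sq q)) p :=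
    sq_contDiff.contDiffAt.mul (sqrt_sq_contDiffAt hu)
  have h2' : sq p * √(sq p) ≠ 0 := (mul_pos hu (Real.sqrt_pos.mpr hu)).ne'
  have h3 : ContDiffAt ℝ ∞ ax p := ax_contDiff.contDiffAt
  unfold Wf
  fin_cases i <;> fin_cases j
  · exact c0.div h1 h1'
  · exact c1.div h1 h1'
  · exact c2.div h1 h1'
  · exact ((c2.mul c0).neg).div h2 h2'
  · exact ((c2.mul c1).neg).div h2 h2'
  · exact h3.div h2 h2'
  · exact (c1.neg).div h3 h.ne'
  · exact c0.div h3 h.ne'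
  · exact contDiffAt_const
end

/-! ### the metric -/

/-- the metric in Cartesian coordinates off the axis -/
def Hpol {U : Set (ℝ × ℝ)} (L : LData U) : CoordMetric 3 := fun p =>
  (Wf p).transpose * diagM L (Yv p) * Wf p

lemma Hpol_pull {U : Set (ℝ × ℝ)} (L : LData U) {y : Fin 3 → ℝ} (hy : y ∈ liftS PR) :
    pull (Hpol L) Psi y = diagM L y := by
  apply pull_Wf hy
  unfold Hpol
  congr 2
  unfold diagM Yv
  rw [Yc_Psi hy]
  simp

lemma Hpol_apply {U : Set (ℝ × ℝ)} (L : LData U) (p : Fin 3 → ℝ) (i j : Fin 3) :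
    Hpol L p i j = Wf p 0 i * exp (2 * L.a (Yc p)) * Wf p 0 j +
      Wf p 1 i * exp (2 * L.b (Yc p)) * Wf p 1 j + Wf p 2 i * exp (2 * L.c (Yc p)) * Wf p 2 j := by
  unfold Hpol diagM Yv
  rw [Matrix.mul_apply, Fin.sum_univ_three]
  simp [Matrix.mul_diagonal]

lemma Hpol_smooth (L : LData PR) {p : Fin 3 → ℝ} (h : 0 < ax p) (i j : Fin 3) :
    ContDiffAt ℝ ∞ (fun q => Hpol L q i j) p := by
  have hu := sq_pos_of_ax h
  have hY := Yc_mem h
  have hYc := Yc_contDiffAt hu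
  have e : (fun q => Hpol L q i j) = fun q => Wf q 0 i * exp (2 * L.a (Yc q)) * Wf q 0 j +
      Wf q 1 i * exp (2 * L.b (Yc q)) * Wf q 1 j + Wf q 2 i * exp (2 * L.c (Yc q)) * Wf q 2 j :=
    funext fun q => Hpol_apply L q i j
  rw [e]
  have ha : ContDiffAt ℝ ∞ (fun q => L.a (Yc q)) p :=
    ((L.ha).contDiffAt (PR_isOpen.mem_nhds hY)).comp p hYc
  have hb : ContDiffAt ℝ ∞ (fun q => L.b (Yc q)) p :=
    ((L.hb).contDiffAt (PR_isOpen.mem_nhds hY)).comp p hYc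
  have hc : ContDiffAt ℝ ∞ (fun q => L.c (Yc q)) p :=
    ((L.hc).contDiffAt (PR_isOpen.mem_nhds hY)).comp p hYc
  have hW := fun k l => Wf_contDiffAt h k l
  exact ((((hW 0 i).mul (contDiffAt_const.mul ha).exp).mul (hW 0 j)).add
    (((hW 1 i).mul (contDiffAt_const.mul hb).exp).mul (hW 1 j))).add
    (((hW 2 i).mul (contDiffAt_const.mul hc).exp).mul (hW 2 j))

lemma Hpol_pos (L : LData PR) {p : Fin 3 → ℝ} (h : 0 < ax p) (v : Fin 3 → ℝ) (hv : v ≠ 0) :
    0 < ip (Hpol L) p v v := by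
  obtain ⟨y, hy, rfl⟩ := exists_Psi h
  have h1 := Wf_jac hy
  have h2 : jac Psi y * Wf (Psi y) = 1 := mul_eq_one_comm.mp h1
  set v' := (Wf (Psi y)).mulVec v with hv'
  have e : (jac Psi y).mulVec v' = v := by
    rw [hv', Matrix.mulVec_mulVec, h2, Matrix.one_mulVec]
  have hne : v' ≠ 0 := by
    intro h0
    rw [h0, Matrix.mulVec_zero] at e
    exact hv e.symm
  have h3 := ip_pull (Hpol L) Psi y v' v'
  rw [e] at h3
  rw [← h3]
  have h4 : ip (pull (Hpol L) Psi) y v' v' = exp (2 * L.a (y 0, y 1)) * v' 0 ^ 2 +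
      exp (2 * L.b (y 0, y 1)) * v' 1 ^ 2 + exp (2 * L.c (y 0, y 1)) * v' 2 ^ 2 := by
    unfold ip
    rw [Hpol_pull L hy]
    simp [diagM, Fin.sum_univ_three, Matrix.diagonal_apply]
    ring
  rw [h4]
  rcases Function.ne_iff.1 hne with ⟨k, hk⟩
  have ea := Real.exp_pos (2 * L.a (y 0, y 1))
  have eb := Real.exp_pos (2 * L.b (y 0, y 1))
  have ec := Real.exp_pos (2 * L.c (y 0, y 1))
  have hk2 : 0 < v' k ^ 2 := sq_pos_of_ne_zero hk
  fin_cases k
  · simp only [Fin.zero_eta] at hk2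
    positivity
  · simp only [Fin.mk_one] at hk2
    positivity
  · simp only [Fin.reduceFinMk] at hk2
    positivity

end Pool.Agent.Work.MP_0fcc57_gt
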