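import Pool.Agent.Work.MP_0fcc57_gt.Defs

/-!
# Curvature of a diagonal metric depending on two coordinates
-/

open scoped ContDiff Manifold Topology

noncomputable section

namespace Pool.Agent.Work.MP_0fcc57_gt

namespace DiagC

variable {n : ℕ}

lemma pd_congr {F F' : (Fin n → ℝ) → ℝ} {y : Fin n → ℝ} (h : F =ᶠ[𝓝 y] F') (i : Fin n) :
    pd i F y = pd i F' y := by
  unfold pd; rw [h.fderiv_eq]

lemma pd_const (i : Fin n) (r : ℝ) (y : Fin n → ℝ) : pd i (fun _ => r) y = 0 := by
  unfold pd; simp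

lemma pd_add {F F' : (Fin n → ℝ) → ℝ} {y : Fin n → ℝ} (h : DifferentiableAt ℝ F y)
    (h' : DifferentiableAt ℝ F' y) (i : Fin n) :
    pd i (fun z => F z + F' z) y = pd i F y + pd i F' y := by
  unfold pd; rw [fderiv_fun_add h h']; rfl

lemma pd_sub {F F' : (Fin n → ℝ) → ℝ} {y : Fin n → ℝ} (h : DifferentiableAt ℝ F y)
    (h' : DifferentiableAt ℝ F' y) (i : Fin n) :
    pd i (fun z => F z - F' z) y = pd i F y - pd i F' y := by
  unfold pd; rw [fderiv_fun_sub h h']; rfl

lemma pd_mul {F F' : (Fin n → ℝ) → ℝ} {y : Fin n → ℝ} (h : DifferentiableAt ℝ F y)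
    (h' : DifferentiableAt ℝ F' y) (i : Fin n) :
    pd i (fun z => F z * F' z) y = pd i F y * F' y + F y * pd i F' y := by
  unfold pd; rw [fderiv_fun_mul h h']; simp; ring

lemma pd_exp {F : (Fin n → ℝ) → ℝ} {y : Fin n → ℝ} (h : DifferentiableAt ℝ F y) (i : Fin n) :
    pd i (fun z => Real.exp (F z)) y = pd i F y * Real.exp (F y) := by
  unfold pd
  rw [fderiv_exp h]
  simp; ring

lemma diffAt {f : (Fin n → ℝ) → ℝ} {U : Set (Fin n → ℝ)} (hU : IsOpen U)
    (hf : ContDiffOn ℝ ∞ f U) {y : Fin n → ℝ} (hy : y ∈ U) : ContDiffAt ℝ ∞ f y :=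
  hf.contDiffAt (hU.mem_nhds hy)

lemma contDiffAt_pd {f : (Fin n → ℝ) → ℝ} {y : Fin n → ℝ} (hf : ContDiffAt ℝ ∞ f y) (i : Fin n) :
    ContDiffAt ℝ ∞ (pd i f) y := by
  unfold pd
  exact (hf.fderiv_right (m := ∞) (by simp)).clm_apply contDiffAt_const

lemma pd_comm {f : (Fin n → ℝ) → ℝ} {y : Fin n → ℝ} (hf : ContDiffAt ℝ ∞ f y) (i j : Fin n) :
    pd i (pd j f) y = pd j (pd i f) y := by
  have hs : IsSymmSndFDerivAt ℝ f y :=
    (hf.of_le (show (2 : ℕ∞ω) ≤ ∞ from ENat.LEInfty.out)).isSymmSndFDerivAt (by simp)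
  have hd : DifferentiableAt ℝ (fderiv ℝ f) y :=
    ((hf.fderiv_right (m := ∞) (by simp)).differentiableAt (by simp))
  have key : ∀ a b : Fin n, pd a (pd b f) y
      = fderiv ℝ (fderiv ℝ f) y (Pi.single a 1) (Pi.single b 1) := by
    intro a b
    unfold pd
    rw [fderiv_clm_apply hd (differentiableAt_const _)]
    simp
  rw [key, key, hs]

/-- The Christoffel symbols of a diagonal metric. -/
lemma christoffel_diag (G : CoordMetric n) (f : Fin n → (Fin n → ℝ) → ℝ)
    (U : Set (Fin n → ℝ)) (hU : IsOpen U) (hf : ∀ i, ContDiffOn ℝ ∞ (f i) U)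
    (hG : ∀ z ∈ U, G z = Matrix.diagonal (fun i => Real.exp (2 * f i z)))
    {z : Fin n → ℝ} (hz : z ∈ U) (k i j : Fin n) :
    christoffel G k i j z = (if j = k then pd i (f k) z else 0)
      + (if i = k then pd j (f k) z else 0)
      - (if i = j then pd k (f i) z * Real.exp (2 * f i z - 2 * f k z) else 0) := by
  have hinv : (G z)⁻¹ = Matrix.diagonal (fun i => Real.exp (-(2 * f i z))) := by
    apply Matrix.inv_eq_right_inv
    rw [hG z hz, Matrix.diagonal_mul_diagonal, ← Matrix.diagonal_one]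
    congr 1
    funext i
    rw [← Real.exp_add]; simp
  have hpd : ∀ i j l, pd i (fun z => G z j l) z
      = if j = l then 2 * pd i (f j) z * Real.exp (2 * f j z) else 0 := by
    intro i j l
    have h1 : (fun z => G z j l) =ᶠ[𝓝 z]
        fun z => if j = l then Real.exp (2 * f j z) else 0 := by
      filter_upwards [hU.mem_nhds hz] with w hw
      rw [hG w hw, Matrix.diagonal_apply]
    rw [pd_congr h1]
    split_ifs with h
    · have hd : DifferentiableAt ℝ (f j) z := (diffAt hU (hf j) hz).differentiableAt (by simp)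
      have hd2 : DifferentiableAt ℝ (fun z => 2 * f j z) z := hd.const_mul 2
      rw [pd_exp hd2, pd_mul (differentiableAt_const _) hd, pd_const]
      ring
    · exact pd_const _ _ _
  unfold christoffel
  rw [hinv]
  simp_rw [hpd, Matrix.diagonal_apply]
  rw [Finset.sum_eq_single k]
  · simp only [if_true]
    have hexp : ∀ m, Real.exp (2 * f m z - 2 * f k z)
        = Real.exp (2 * f m z) * Real.exp (-(2 * f k z)) := by
      intro m; rw [← Real.exp_add]; congr 1
    have hk : Real.exp (2 * f k z) * Real.exp (-(2 * f k z)) = 1 := by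
      rw [← Real.exp_add]; simp
    rw [hexp]
    by_cases hjk : j = k
    · subst hjk
      by_cases hik : i = j
      · subst hik
        simp only [if_true]
        linear_combination (2 * pd i (f i) z) * hk
      · simp only [if_true, hik, if_false]
        linear_combination (pd i (f j) z) * hk
    · by_cases hik : i = k
      · subst hik
        simp only [hjk, if_true, if_false, Ne.symm hjk]
        linear_combination (pd j (f i) z) * hk
      · by_cases hij : i = j
        · subst hij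
          simp only [hjk, if_true, if_false]
          ring
        · simp only [hjk, hik, hij, if_false]
          ring
  · intro l _ hl
    simp [Ne.symm hl]
  · simp

/-- derivatives of the Christoffel symbols of a diagonal metric. -/
lemma pd_christoffel_diag (G : CoordMetric n) (f : Fin n → (Fin n → ℝ) → ℝ)
    (U : Set (Fin n → ℝ)) (hU : IsOpen U) (hf : ∀ i, ContDiffOn ℝ ∞ (f i) U)
    (hG : ∀ z ∈ U, G z = Matrix.diagonal (fun i => Real.exp (2 * f i z)))
    {z : Fin n → ℝ} (hz : z ∈ U) (m k i j : Fin n) :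
    pd m (christoffel G k i j) z = (if j = k then pd m (pd i (f k)) z else 0)
      + (if i = k then pd m (pd j (f k)) z else 0)
      - (if i = j then (pd m (pd k (f i)) z
          + pd k (f i) z * (2 * pd m (f i) z - 2 * pd m (f k) z))
            * Real.exp (2 * f i z - 2 * f k z) else 0) := by
  have h1 : christoffel G k i j =ᶠ[𝓝 z] fun z => (if j = k then pd i (f k) z else 0)
      + (if i = k then pd j (f k) z else 0)
      - (if i = j then pd k (f i) z * Real.exp (2 * f i z - 2 * f k z) else 0) := by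
    filter_upwards [hU.mem_nhds hz] with w hw
    exact christoffel_diag G f U hU hf hG hw k i j
  rw [pd_congr h1]
  have hd : ∀ a b, DifferentiableAt ℝ (pd a (f b)) z := fun a b =>
    (contDiffAt_pd (diffAt hU (hf b) hz) a).differentiableAt (by simp)
  have hd0 : ∀ b, DifferentiableAt ℝ (f b) z := fun b =>
    (diffAt hU (hf b) hz).differentiableAt (by simp)
  have e1 : DifferentiableAt ℝ (fun z => if j = k then pd i (f k) z else 0) z := by
    split_ifs
    · exact hd _ _
    · exact differentiableAt_const _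
  have e2 : DifferentiableAt ℝ (fun z => if i = k then pd j (f k) z else 0) z := by
    split_ifs
    · exact hd _ _
    · exact differentiableAt_const _
  have e4 : DifferentiableAt ℝ (fun z => 2 * f i z - 2 * f k z) z :=
    ((hd0 i).const_mul 2).sub ((hd0 k).const_mul 2)
  have e3 : DifferentiableAt ℝ
      (fun z => if i = j then pd k (f i) z * Real.exp (2 * f i z - 2 * f k z) else 0) z := by
    split_ifs
    · exact (hd _ _).mul e4.exp
    · exact differentiableAt_const _
  rw [pd_sub (e1.fun_add e2) e3, pd_add e1 e2]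
  congr 1
  · congr 1
    · split_ifs
      · rfl
      · exact pd_const _ _ _
    · split_ifs
      · rfl
      · exact pd_const _ _ _
  · split_ifs
    · rw [pd_mul (hd _ _) e4.exp, pd_exp e4, pd_sub ((hd0 i).const_mul 2) ((hd0 k).const_mul 2),
        pd_mul (differentiableAt_const _) (hd0 i), pd_mul (differentiableAt_const _) (hd0 k),
        pd_const]
      ring
    · exact pd_const _ _ _

lemma quad_neg {X Y Z K A B C P Q R : ℝ} (hX : 0 < X) (hY : 0 < Y) (hZ : 0 < Z) (hK : 0 < K)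
    (hA : 0 < A) (hdet : B ^ 2 < A * C) (hne : ¬ (P = 0 ∧ Q = 0 ∧ R = 0)) :
    -(Y * K * P ^ 2 + Z * (A * Q ^ 2 + 2 * B * Q * R + C * R ^ 2))
      / (X * Y * P ^ 2 + X * Z * Q ^ 2 + Y * Z * R ^ 2) < 0 := by
  have hid : A * (A * Q ^ 2 + 2 * B * Q * R + C * R ^ 2)
      = (A * Q + B * R) ^ 2 + (A * C - B ^ 2) * R ^ 2 := by ring
  have hD : 0 < A * C - B ^ 2 := sub_pos.2 hdet
  have hquad' : ¬ (Q = 0 ∧ R = 0) → 0 < A * Q ^ 2 + 2 * B * Q * R + C * R ^ 2 := by
    intro hQR
    have h1 : 0 < A * (A * Q ^ 2 + 2 * B * Q * R + C * R ^ 2) := by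
      rw [hid]
      by_cases hR0 : R = 0
      · have hQ0 : Q ≠ 0 := fun h => hQR ⟨h, hR0⟩
        rw [hR0]
        have : 0 < (A * Q) ^ 2 := by positivity
        simpa using this
      · have h2 : 0 < (A * C - B ^ 2) * R ^ 2 := mul_pos hD (by positivity)
        have h3 := sq_nonneg (A * Q + B * R)
        linarith
    exact (pos_iff_pos_of_mul_pos h1).1 hA
  have hnum : 0 < Y * K * P ^ 2 + Z * (A * Q ^ 2 + 2 * B * Q * R + C * R ^ 2) := by
    by_cases hQR : Q = 0 ∧ R = 0
    · have hP0 : P ≠ 0 := fun h => hne ⟨h, hQR.1, hQR.2⟩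
      have h1 : 0 < Y * K * P ^ 2 := by positivity
      rw [hQR.1, hQR.2]
      simpa using h1
    · have h1 : 0 ≤ Y * K * P ^ 2 := by positivity
      have h2 : 0 < Z * (A * Q ^ 2 + 2 * B * Q * R + C * R ^ 2) :=
        mul_pos hZ (hquad' hQR)
      linarith
  have hden : 0 < X * Y * P ^ 2 + X * Z * Q ^ 2 + Y * Z * R ^ 2 := by
    have h1 : 0 ≤ X * Y * P ^ 2 := by positivity
    have h2 : 0 ≤ X * Z * Q ^ 2 := by positivity
    have h3 : 0 ≤ Y * Z * R ^ 2 := by positivity
    by_cases hP0 : P = 0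
    · by_cases hQ0 : Q = 0
      · have hR0 : R ≠ 0 := fun h => hne ⟨hP0, hQ0, h⟩
        have : 0 < Y * Z * R ^ 2 := by positivity
        linarith
      · have : 0 < X * Z * Q ^ 2 := by positivity
        linarith
    · have : 0 < X * Y * P ^ 2 := by positivity
      linarith
  exact div_neg_of_neg_of_pos (neg_neg_of_pos hnum) hden

end DiagC

open DiagC in
theorem negAt_diag (G : CoordMetric 3) (a b c : (Fin 3 → ℝ) → ℝ) (U : Set (Fin 3 → ℝ))
    (hU : IsOpen U) (y : Fin 3 → ℝ) (hy : y ∈ U)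
    (ha : ContDiffOn ℝ ∞ a U) (hb : ContDiffOn ℝ ∞ b U) (hc : ContDiffOn ℝ ∞ c U)
    (ha2 : ∀ z ∈ U, pd 2 a z = 0) (hb2 : ∀ z ∈ U, pd 2 b z = 0) (hc2 : ∀ z ∈ U, pd 2 c z = 0)
    (hG : ∀ z ∈ U, G z = Matrix.diagonal
      ![Real.exp (2 * a z), Real.exp (2 * b z), Real.exp (2 * c z)])
    (hK : 0 < pd 0 (pd 0 b) y + pd 0 b y ^ 2 - pd 0 a y * pd 0 b y
      + Real.exp (2 * a y - 2 * b y) * (pd 1 (pd 1 a) y + pd 1 a y ^ 2 - pd 1 a y * pd 1 b y))
    (hrr : 0 < pd 0 (pd 0 c) y + pd 0 c y ^ 2 - pd 0 a y * pd 0 c y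
      + Real.exp (2 * a y - 2 * b y) * (pd 1 a y * pd 1 c y))
    (hdet : (pd 0 (pd 1 c) y + pd 0 c y * pd 1 c y - pd 1 a y * pd 0 c y
        - pd 0 b y * pd 1 c y) ^ 2 <
      (pd 0 (pd 0 c) y + pd 0 c y ^ 2 - pd 0 a y * pd 0 c y
        + Real.exp (2 * a y - 2 * b y) * (pd 1 a y * pd 1 c y)) *
      (pd 1 (pd 1 c) y + pd 1 c y ^ 2 - pd 1 b y * pd 1 c y
        + Real.exp (2 * b y - 2 * a y) * (pd 0 b y * pd 0 c y))) :
    NegAt G y := by
  set f : Fin 3 → (Fin 3 → ℝ) → ℝ := ![a, b, c] with hfdef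
  have hf : ∀ i, ContDiffOn ℝ ∞ (f i) U := by
    intro i; fin_cases i
    · exact ha
    · exact hb
    · exact hc
  have hf2 : ∀ i, ∀ z ∈ U, pd 2 (f i) z = 0 := by
    intro i; fin_cases i
    · exact ha2
    · exact hb2
    · exact hc2
  have hG' : ∀ z ∈ U, G z = Matrix.diagonal (fun i => Real.exp (2 * f i z)) := by
    intro z hz
    rw [hG z hz]
    congr 1
    funext i
    fin_cases i <;> rfl
  have hC := fun k i j => christoffel_diag G f U hU hf hG' hy k i j
  have hD := fun m k i j => pd_christoffel_diag G f U hU hf hG' hy m k i j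
  have hcomm : ∀ k i j, pd i (pd j (f k)) y = pd j (pd i (f k)) y := fun k i j =>
    pd_comm (diffAt hU (hf k) hy) i j
  have hf2' : ∀ k i, pd i (pd 2 (f k)) y = 0 := by
    intro k i
    have h1 : pd 2 (f k) =ᶠ[𝓝 y] fun _ => 0 := by
      filter_upwards [hU.mem_nhds hy] with w hw
      exact hf2 k w hw
    rw [pd_congr h1, pd_const]
  have hf2'' : ∀ k i, pd 2 (pd i (f k)) y = 0 := by
    intro k i
    rw [hcomm, hf2']
  have f0 : f 0 = a := rfl
  have f1 : f 1 = b := rfl
  have f2 : f 2 = c := rfl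
  have key : ∀ v w : Fin 3 → ℝ,
      (∑ i, ∑ j, ∑ k, ∑ l, riemann G i j k l y * v i * w j * v k * w l)
        = -(Real.exp (2 * b y) * (pd 0 (pd 0 b) y + pd 0 b y ^ 2 - pd 0 a y * pd 0 b y
              + Real.exp (2 * a y - 2 * b y) *
                (pd 1 (pd 1 a) y + pd 1 a y ^ 2 - pd 1 a y * pd 1 b y))
              * (v 0 * w 1 - v 1 * w 0) ^ 2
            + Real.exp (2 * c y) *
              ((pd 0 (pd 0 c) y + pd 0 c y ^ 2 - pd 0 a y * pd 0 c y
                + Real.exp (2 * a y - 2 * b y) * (pd 1 a y * pd 1 c y))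
                  * (v 0 * w 2 - v 2 * w 0) ^ 2
              + 2 * (pd 0 (pd 1 c) y + pd 0 c y * pd 1 c y - pd 1 a y * pd 0 c y
                - pd 0 b y * pd 1 c y) * (v 0 * w 2 - v 2 * w 0) * (v 1 * w 2 - v 2 * w 1)
              + (pd 1 (pd 1 c) y + pd 1 c y ^ 2 - pd 1 b y * pd 1 c y
                + Real.exp (2 * b y - 2 * a y) * (pd 0 b y * pd 0 c y))
                  * (v 1 * w 2 - v 2 * w 1) ^ 2)) := by
    intro v w
    have E : ∀ p q : ℝ, Real.exp (2 * p - 2 * q) = Real.exp (2 * p) / Real.exp (2 * q) :=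
      fun p q => Real.exp_sub _ _
    unfold riemann
    simp only [hC, hD, hG' y hy, Matrix.diagonal_apply, Fin.sum_univ_three]
    simp only [Fin.isValue, Fin.reduceEq, if_true, if_false, hf2', hf2'', hf2 _ y hy,
      zero_mul, mul_zero, add_zero, zero_add, sub_zero, zero_sub, sub_self, E,
      hcomm 0 1 0, hcomm 1 1 0, hcomm 2 1 0, Real.exp_zero, mul_one]
    simp only [f0, f1, f2]
    have hX := (Real.exp_pos (2 * a y)).ne'
    have hY := (Real.exp_pos (2 * b y)).ne'
    have hZ := (Real.exp_pos (2 * c y)).ne'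
    generalize Real.exp (2 * a y) = X at hX ⊢
    generalize Real.exp (2 * b y) = Y at hY ⊢
    generalize Real.exp (2 * c y) = Z at hZ ⊢
    field_simp
    ring
  intro v w hvw
  have hX := Real.exp_pos (2 * a y)
  have hY := Real.exp_pos (2 * b y)
  have hZ := Real.exp_pos (2 * c y)
  have hGr : ip G y v v * ip G y w w - ip G y v w ^ 2
      = Real.exp (2 * a y) * Real.exp (2 * b y) * (v 0 * w 1 - v 1 * w 0) ^ 2
        + Real.exp (2 * a y) * Real.exp (2 * c y) * (v 0 * w 2 - v 2 * w 0) ^ 2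
        + Real.exp (2 * b y) * Real.exp (2 * c y) * (v 1 * w 2 - v 2 * w 1) ^ 2 := by
    unfold ip
    simp only [hG' y hy, Matrix.diagonal_apply, Fin.sum_univ_three]
    simp only [Fin.isValue, Fin.reduceEq, if_true, if_false, zero_mul, add_zero, zero_add, f0, f1,
      f2]
    ring
  unfold sectional
  rw [key v w, hGr]
  -- the minors do not all vanish
  have hne : ¬ (v 0 * w 1 - v 1 * w 0 = 0 ∧ v 0 * w 2 - v 2 * w 0 = 0
      ∧ v 1 * w 2 - v 2 * w 1 = 0) := by
    rintro ⟨h1, h2, h3⟩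
    rw [LinearIndependent.pair_iff] at hvw
    have hv : ∀ i, v i = 0 := by
      intro i
      have := hvw (w i) (-(v i)) (by
        funext j
        fin_cases i <;> fin_cases j <;> simp <;> linarith)
      simpa using this.2
    have hw := hvw 1 0 (by funext j; simp [hv j])
    exact one_ne_zero hw.1
  exact quad_neg hX hY hZ hK hrr hdet hne

end Pool.Agent.Work.MP_0fcc57_gt
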