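import Pool.Agent.Work.MP_0fcc57_gt.Lift

/-!
# The limit `δ → 0` of the curvature conditions
-/

open scoped ContDiff Topology
open Real Set Filter

noncomputable section

namespace Pool.Agent.Work.MP_0fcc57_gt

/-- `r`-derivative of a function of `(δ, (r, x))` -/
def dr (F : ℝ × ℝ × ℝ → ℝ) (ξ : ℝ × ℝ × ℝ) : ℝ := fderiv ℝ F ξ (0, (1, 0))
/-- `x`-derivative of a function of `(δ, (r, x))` -/
def dx (F : ℝ × ℝ × ℝ → ℝ) (ξ : ℝ × ℝ × ℝ) : ℝ := fderiv ℝ F ξ (0, (0, 1))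

/-- `-(log ν)'` -/
def lam (ν : ℝ → ℝ) (r : ℝ) : ℝ := -(deriv ν r / ν r)

section
variable (ν : ℝ → ℝ) (fB fC : ℝ × ℝ × ℝ → ℝ)

/-- the small parameter `i = δ ν(r)` -/
def ii (ξ : ℝ × ℝ × ℝ) : ℝ := ξ.1 * ν ξ.2.1
/-- `n_r/μ` -/
def nrc (ξ : ℝ × ℝ × ℝ) : ℝ := 1 + ii ν ξ * (1 / 2 * lam ν ξ.2.1 + 1 / 2 * dr fC ξ)
/-- `σ_r/μ` -/
def src (ξ : ℝ × ℝ × ℝ) : ℝ := 1 + ii ν ξ * (1 / 2 * lam ν ξ.2.1 + 1 / 2 * dr fB ξ)
/-- first curvature condition -/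
def Kc (ξ : ℝ × ℝ × ℝ) : ℝ := lam ν ξ.2.1
  + ii ν ξ * (1 / 2 * deriv (lam ν) ξ.2.1 + 1 / 2 * dr (dr fC) ξ)
  - 1 / 2 * nrc ν fC ξ * (lam ν ξ.2.1 + dr fB ξ)
  + exp (fB ξ) * (1 / 2 * (dx (dx fB) ξ + dx (dx fC) ξ)
    + 1 / 4 * (dx fB ξ + dx fC ξ) * dx fB ξ)
/-- second curvature condition -/
def Hrrc (ξ : ℝ × ℝ × ℝ) : ℝ := lam ν ξ.2.1
  + ii ν ξ * (1 / 2 * deriv (lam ν) ξ.2.1 + 1 / 2 * dr (dr fB) ξ)
  - 1 / 2 * src ν fB ξ * (lam ν ξ.2.1 + dr fC ξ)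
  + 1 / 4 * exp (fB ξ) * (dx fB ξ + dx fC ξ) * dx fB ξ
/-- `H_xx/(ρ μ)` -/
def Hxxc (ξ : ℝ × ℝ × ℝ) : ℝ :=
  ii ν ξ * (1 / 2 * dx (dx fB) ξ + 1 / 4 * dx fB ξ ^ 2 - 1 / 4 * dx fC ξ * dx fB ξ)
  + nrc ν fC ξ * src ν fB ξ * exp (-fB ξ)
/-- `H_rx/(ρ μ)` -/
def Hrxc (ξ : ℝ × ℝ × ℝ) : ℝ := 1 / 2 * ii ν ξ * dr (dx fB) ξ
  - 1 / 2 * src ν fB ξ * dx fC ξ - 1 / 2 * nrc ν fC ξ * dx fB ξ

end

lemma dr_contDiffOn {F : ℝ × ℝ × ℝ → ℝ} {Ω : Set (ℝ × ℝ × ℝ)} (hΩ : IsOpen Ω)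
    (h : ContDiffOn ℝ ∞ F Ω) : ContDiffOn ℝ ∞ (dr F) Ω := fderiv_apply_contDiffOn hΩ h _
lemma dx_contDiffOn {F : ℝ × ℝ × ℝ → ℝ} {Ω : Set (ℝ × ℝ × ℝ)} (hΩ : IsOpen Ω)
    (h : ContDiffOn ℝ ∞ F Ω) : ContDiffOn ℝ ∞ (dx F) Ω := fderiv_apply_contDiffOn hΩ h _

lemma contAt_of {F : ℝ × ℝ × ℝ → ℝ} {Ω : Set (ℝ × ℝ × ℝ)} (hΩ : IsOpen Ω)
    (h : ContDiffOn ℝ ∞ F Ω) {ξ : ℝ × ℝ × ℝ} (hξ : ξ ∈ Ω) : ContinuousAt F ξ :=
  h.continuousOn.continuousAt (hΩ.mem_nhds hξ)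

lemma lam_contDiffOn {ν : ℝ → ℝ} (hν : ContDiff ℝ ∞ ν) : ContDiffOn ℝ ∞ (lam ν) {r | 0 < ν r} := by
  unfold lam
  apply ContDiffOn.neg
  apply ContDiffOn.div
  · exact (contDiff_infty_iff_deriv.mp hν).2.contDiffOn
  · exact hν.contDiffOn
  · intro r hr; exact ne_of_gt hr

theorem limit_cond {ν : ℝ → ℝ} {fB fC : ℝ × ℝ × ℝ → ℝ} {Ω : Set (ℝ × ℝ × ℝ)} (hΩ : IsOpen Ω)
    (hν : ContDiff ℝ ∞ ν) (hνpos : ∀ ξ ∈ Ω, 0 < ν ξ.2.1)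
    (hB : ContDiffOn ℝ ∞ fB Ω) (hC : ContDiffOn ℝ ∞ fC Ω)
    {K : Set (ℝ × ℝ)} (hK : IsCompact K) (hKΩ : ∀ p ∈ K, ((0:ℝ), p) ∈ Ω)
    (h1 : ∀ p ∈ K, 0 < Kc ν fB fC (0, p)) (h2 : ∀ p ∈ K, 0 < Hrrc ν fB fC (0, p))
    (h3 : ∀ p ∈ K, Hrxc ν fB fC (0, p) ^ 2 < Hrrc ν fB fC (0, p) * Hxxc ν fB fC (0, p)) :
    ∀ᶠ δ in 𝓝 (0:ℝ), ∀ p ∈ K, ((δ, p) ∈ Ω ∧ 0 < Kc ν fB fC (δ, p) ∧ 0 < Hrrc ν fB fC (δ, p) ∧
      Hrxc ν fB fC (δ, p) ^ 2 < Hrrc ν fB fC (δ, p) * Hxxc ν fB fC (δ, p)) := by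
  apply hK.eventually_forall_of_forall_eventually
  intro p hp
  have hmem := hKΩ p hp
  have hopen : IsOpen {r | 0 < ν r} := isOpen_lt continuous_const hν.continuous
  have cν : ContinuousAt (fun ξ : ℝ × ℝ × ℝ => ν ξ.2.1) (0, p) :=
    (hν.continuous.comp (continuous_fst.comp continuous_snd)).continuousAt
  have c21 : ContinuousAt (fun ξ : ℝ × ℝ × ℝ => ξ.2.1) (0, p) :=
    (continuous_fst.comp continuous_snd).continuousAt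
  have hνp : 0 < ν ((0:ℝ), p).2.1 := hνpos _ hmem
  have clam : ContinuousAt (fun ξ : ℝ × ℝ × ℝ => lam ν ξ.2.1) (0, p) := by
    have := (lam_contDiffOn hν).continuousOn.continuousAt (hopen.mem_nhds hνp)
    exact ContinuousAt.comp (g := lam ν) this c21
  have clam' : ContinuousAt (fun ξ : ℝ × ℝ × ℝ => deriv (lam ν) ξ.2.1) (0, p) := by
    have := ((contDiffOn_infty_iff_deriv_of_isOpen hopen).mp (lam_contDiffOn hν)).2.continuousOn.continuousAt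
      (hopen.mem_nhds hνp)
    exact ContinuousAt.comp (g := deriv (lam ν)) this c21
  have ci : ContinuousAt (ii ν) (0, p) := continuousAt_fst.mul cν
  have cB := contAt_of hΩ hB hmem
  have cBr := contAt_of hΩ (dr_contDiffOn hΩ hB) hmem
  have cBx := contAt_of hΩ (dx_contDiffOn hΩ hB) hmem
  have cCr := contAt_of hΩ (dr_contDiffOn hΩ hC) hmem
  have cCx := contAt_of hΩ (dx_contDiffOn hΩ hC) hmem
  have cBrr := contAt_of hΩ (dr_contDiffOn hΩ (dr_contDiffOn hΩ hB)) hmem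
  have cCrr := contAt_of hΩ (dr_contDiffOn hΩ (dr_contDiffOn hΩ hC)) hmem
  have cBxx := contAt_of hΩ (dx_contDiffOn hΩ (dx_contDiffOn hΩ hB)) hmem
  have cCxx := contAt_of hΩ (dx_contDiffOn hΩ (dx_contDiffOn hΩ hC)) hmem
  have cBrx := contAt_of hΩ (dr_contDiffOn hΩ (dx_contDiffOn hΩ hB)) hmem
  have cE : ContinuousAt (fun ξ => exp (fB ξ)) (0, p) := cB.rexp
  have cE' : ContinuousAt (fun ξ => exp (-fB ξ)) (0, p) := cB.neg.rexp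
  have k : ∀ a : ℝ, ContinuousAt (fun _ : ℝ × ℝ × ℝ => a) (0, p) := fun _ => continuousAt_const
  have cn : ContinuousAt (nrc ν fC) (0, p) :=
    (k 1).add (ci.mul (((k _).mul clam).add ((k _).mul cCr)))
  have cs : ContinuousAt (src ν fB) (0, p) :=
    (k 1).add (ci.mul (((k _).mul clam).add ((k _).mul cBr)))
  have cK : ContinuousAt (Kc ν fB fC) (0, p) :=
    ((clam.add (ci.mul (((k _).mul clam').add ((k _).mul cCrr)))).sub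
      (((k _).mul cn).mul (clam.add cBr))).add
      (cE.mul (((k _).mul (cBxx.add cCxx)).add ((((k _).mul (cBx.add cCx))).mul cBx)))
  have cHrr : ContinuousAt (Hrrc ν fB fC) (0, p) :=
    ((clam.add (ci.mul (((k _).mul clam').add ((k _).mul cBrr)))).sub
      (((k _).mul cs).mul (clam.add cCr))).add
      ((((k _).mul cE).mul (cBx.add cCx)).mul cBx)
  have cHxx : ContinuousAt (Hxxc ν fB fC) (0, p) :=
    (ci.mul ((((k _).mul cBxx).add ((k _).mul (cBx.pow 2))).sub (((k _).mul cCx).mul cBx))).add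
      ((cn.mul cs).mul cE')
  have cHrx : ContinuousAt (Hrxc ν fB fC) (0, p) :=
    ((((k _).mul ci).mul cBrx).sub (((k _).mul cs).mul cCx)).sub (((k _).mul cn).mul cBx)
  have e1 : ∀ᶠ ξ : ℝ × ℝ × ℝ in 𝓝 (0, p), ξ ∈ Ω := hΩ.mem_nhds hmem
  have e2 := cK.eventually_const_lt (h1 p hp)
  have e3 := cHrr.eventually_const_lt (h2 p hp)
  have cD : ContinuousAt (fun ξ => Hrrc ν fB fC ξ * Hxxc ν fB fC ξ - Hrxc ν fB fC ξ ^ 2) (0, p) :=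
    (cHrr.mul cHxx).sub (cHrx.pow 2)
  have e4 := cD.eventually_const_lt (show (0:ℝ) < _ from sub_pos.mpr (h3 p hp))
  filter_upwards [e1, e2, e3, e4] with ξ a1 a2 a3 a4
  exact ⟨a1, a2, a3, sub_pos.mp a4⟩

/-! ### Slices -/

section slices
variable {F : ℝ × ℝ × ℝ → ℝ} {Ω : Set (ℝ × ℝ × ℝ)} (hΩ : IsOpen Ω) (h : ContDiffOn ℝ ∞ F Ω)
  (δ : ℝ)

/-- slice of a set -/
def sliceS (Ω : Set (ℝ × ℝ × ℝ)) (δ : ℝ) : Set (ℝ × ℝ) := {p | (δ, p) ∈ Ω}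

lemma sliceS_isOpen (hΩ : IsOpen Ω) : IsOpen (sliceS Ω δ) :=
  hΩ.preimage (continuous_const.prodMk continuous_id)

/-- slice of a function -/
def slice (F : ℝ × ℝ × ℝ → ℝ) (δ : ℝ) : ℝ × ℝ → ℝ := fun p => F (δ, p)

include hΩ h in
lemma slice_contDiffOn : ContDiffOn ℝ ∞ (slice F δ) (sliceS Ω δ) := by
  have h1 : ContDiff ℝ ∞ (fun p : ℝ × ℝ => (δ, p)) := contDiff_const.prodMk contDiff_id
  exact h.comp h1.contDiffOn (fun p hp => hp)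

include hΩ h in
lemma slice_fderiv {p : ℝ × ℝ} (hp : p ∈ sliceS Ω δ) (v : ℝ × ℝ) :
    fderiv ℝ (slice F δ) p v = fderiv ℝ F (δ, p) (0, v) := by
  have h1 : DifferentiableAt ℝ F (δ, p) := diffAt_of_open hΩ h hp
  have h2 : HasFDerivAt (fun p : ℝ × ℝ => (δ, p))
      ((0 : ℝ × ℝ →L[ℝ] ℝ).prod (ContinuousLinearMap.id ℝ (ℝ × ℝ))) p :=
    (hasFDerivAt_const δ p).prodMk (hasFDerivAt_id p)
  have h3 := h1.hasFDerivAt.comp p h2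
  have h4 : fderiv ℝ (slice F δ) p = _ := h3.fderiv
  rw [h4]
  simp

include hΩ h in
lemma D1_slice {p : ℝ × ℝ} (hp : p ∈ sliceS Ω δ) : D1 (slice F δ) p = slice (dr F) δ p :=
  slice_fderiv hΩ h δ hp _

include hΩ h in
lemma D2_slice {p : ℝ × ℝ} (hp : p ∈ sliceS Ω δ) : D2 (slice F δ) p = slice (dx F) δ p :=
  slice_fderiv hΩ h δ hp _

lemma D1_congr_on {φ ψ : ℝ × ℝ → ℝ} {U : Set (ℝ × ℝ)} (hU : IsOpen U)
    (h : ∀ z ∈ U, φ z = ψ z) {p : ℝ × ℝ} (hp : p ∈ U) : D1 φ p = D1 ψ p :=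
  D1_congr (by filter_upwards [hU.mem_nhds hp] with z hz using h z hz)

lemma D2_congr_on {φ ψ : ℝ × ℝ → ℝ} {U : Set (ℝ × ℝ)} (hU : IsOpen U)
    (h : ∀ z ∈ U, φ z = ψ z) {p : ℝ × ℝ} (hp : p ∈ U) : D2 φ p = D2 ψ p :=
  D2_congr (by filter_upwards [hU.mem_nhds hp] with z hz using h z hz)

include hΩ h in
lemma D11_slice {p : ℝ × ℝ} (hp : p ∈ sliceS Ω δ) :
    D1 (D1 (slice F δ)) p = slice (dr (dr F)) δ p := by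
  rw [D1_congr_on (sliceS_isOpen δ hΩ) (fun z hz => D1_slice hΩ h δ hz) hp]
  exact D1_slice hΩ (dr_contDiffOn hΩ h) δ hp

include hΩ h in
lemma D12_slice {p : ℝ × ℝ} (hp : p ∈ sliceS Ω δ) :
    D1 (D2 (slice F δ)) p = slice (dr (dx F)) δ p := by
  rw [D1_congr_on (sliceS_isOpen δ hΩ) (fun z hz => D2_slice hΩ h δ hz) hp]
  exact D1_slice hΩ (dx_contDiffOn hΩ h) δ hp

include hΩ h in
lemma D22_slice {p : ℝ × ℝ} (hp : p ∈ sliceS Ω δ) :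
    D2 (D2 (slice F δ)) p = slice (dx (dx F)) δ p := by
  rw [D2_congr_on (sliceS_isOpen δ hΩ) (fun z hz => D2_slice hΩ h δ hz) hp]
  exact D2_slice hΩ (dx_contDiffOn hΩ h) δ hp

end slices

end Pool.Agent.Work.MP_0fcc57_gt
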