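import Pool.Agent.Work.MP_0fcc57_gt.Lift
import Pool.Agent.Work.MP_0fcc57_gt.DiagCurv
import Pool.Agent.Work.MP_0fcc57_gt.LimitD

/-!
# Curvature of the polar metrics in logarithmic form
-/

open scoped ContDiff Topology
open Real Set Filter

noncomputable section

namespace Pool.Agent.Work.MP_0fcc57_gt

lemma hasDerivAt_D1 {φ : ℝ × ℝ → ℝ} {r x : ℝ} (h : DifferentiableAt ℝ φ (r, x)) :
    HasDerivAt (fun t => φ (t, x)) (D1 φ (r, x)) r := by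
  have h1 : HasDerivAt (fun t : ℝ => (t, x)) ((1 : ℝ), (0 : ℝ)) r :=
    (hasDerivAt_id' r).prodMk (hasDerivAt_const r x)
  exact h.hasFDerivAt.comp_hasDerivAt r h1

lemma hasDerivAt_D2 {φ : ℝ × ℝ → ℝ} {r x : ℝ} (h : DifferentiableAt ℝ φ (r, x)) :
    HasDerivAt (fun t => φ (r, t)) (D2 φ (r, x)) x := by
  have h1 : HasDerivAt (fun t : ℝ => (r, t)) ((0 : ℝ), (1 : ℝ)) x :=
    (hasDerivAt_const x r).prodMk (hasDerivAt_id' x)
  exact h.hasFDerivAt.comp_hasDerivAt x h1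

/-- Polar metric data on an open set `U` of the `(r,x)`-plane. -/
structure LData (U : Set (ℝ × ℝ)) where
  M : ℝ → ℝ
  i : ℝ → ℝ
  B : ℝ × ℝ → ℝ
  C : ℝ × ℝ → ℝ
  hU : IsOpen U
  hi : ContDiffOn ℝ ∞ (fun p : ℝ × ℝ => i p.1) U
  hipos : ∀ p ∈ U, 0 < i p.1
  hM : ∀ p ∈ U, HasDerivAt M (1 / i p.1) p.1
  hMs : ContDiffOn ℝ ∞ (fun p : ℝ × ℝ => M p.1) U
  hB : ContDiffOn ℝ ∞ B U
  hC : ContDiffOn ℝ ∞ C U

namespace LData
variable {U : Set (ℝ × ℝ)} (L : LData U)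

/-- `log` of the `r`-coefficient -/
def a (p : ℝ × ℝ) : ℝ := L.M p.1 - log (L.i p.1) + 1 / 2 * (L.B p + L.C p)
/-- `log` of the `x`-coefficient -/
def b (p : ℝ × ℝ) : ℝ := L.M p.1 - 1 / 2 * log (L.i p.1) + 1 / 2 * L.C p
/-- `log` of the `θ`-coefficient -/
def c (p : ℝ × ℝ) : ℝ := L.M p.1 - 1 / 2 * log (L.i p.1) + 1 / 2 * L.B p

/-- `λ` as a function on the plane -/
def lm (p : ℝ × ℝ) : ℝ := lam L.i p.1

lemma ha : ContDiffOn ℝ ∞ L.a U := by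
  unfold a
  exact (L.hMs.sub (L.hi.log (fun p hp => (L.hipos p hp).ne'))).add
    (contDiffOn_const.mul (L.hB.add L.hC))
lemma hb : ContDiffOn ℝ ∞ L.b U := by
  unfold b
  exact (L.hMs.sub (contDiffOn_const.mul (L.hi.log (fun p hp => (L.hipos p hp).ne')))).add
    (contDiffOn_const.mul L.hC)
lemma hc : ContDiffOn ℝ ∞ L.c U := by
  unfold c
  exact (L.hMs.sub (contDiffOn_const.mul (L.hi.log (fun p hp => (L.hipos p hp).ne')))).add
    (contDiffOn_const.mul L.hB)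

lemma i_diff {p : ℝ × ℝ} (hp : p ∈ U) : DifferentiableAt ℝ L.i p.1 := by
  have h := diffAt_of_open L.hU L.hi hp
  have h2 := (hasDerivAt_D1 (r := p.1) (x := p.2) h).differentiableAt
  exact h2

lemma logi_hasDerivAt {p : ℝ × ℝ} (hp : p ∈ U) :
    HasDerivAt (fun t => log (L.i t)) (-(L.lm p)) p.1 := by
  have h := (L.i_diff hp).hasDerivAt.log (L.hipos p hp).ne'
  unfold lm lam
  rw [neg_neg]; exact h

lemma dB {p : ℝ × ℝ} (hp : p ∈ U) : DifferentiableAt ℝ L.B p := diffAt_of_open L.hU L.hB hp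
lemma dC {p : ℝ × ℝ} (hp : p ∈ U) : DifferentiableAt ℝ L.C p := diffAt_of_open L.hU L.hC hp

lemma D1a {p : ℝ × ℝ} (hp : p ∈ U) :
    D1 L.a p = 1 / L.i p.1 + L.lm p + 1 / 2 * (D1 L.B p + D1 L.C p) := by
  obtain ⟨r, x⟩ := p
  apply D1_of_hasDerivAt (diffAt_of_open L.hU L.ha hp)
  have h := ((L.hM _ hp).fun_sub (L.logi_hasDerivAt hp)).fun_add
    (((hasDerivAt_D1 (L.dB hp)).fun_add (hasDerivAt_D1 (L.dC hp))).const_mul (1/2))
  exact h.congr_deriv (by ring)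

lemma D1b {p : ℝ × ℝ} (hp : p ∈ U) :
    D1 L.b p = 1 / L.i p.1 + 1 / 2 * L.lm p + 1 / 2 * D1 L.C p := by
  obtain ⟨r, x⟩ := p
  apply D1_of_hasDerivAt (diffAt_of_open L.hU L.hb hp)
  have h := ((L.hM _ hp).fun_sub ((L.logi_hasDerivAt hp).const_mul (1/2))).fun_add
    ((hasDerivAt_D1 (L.dC hp)).const_mul (1/2))
  exact h.congr_deriv (by ring)

lemma D1c {p : ℝ × ℝ} (hp : p ∈ U) :
    D1 L.c p = 1 / L.i p.1 + 1 / 2 * L.lm p + 1 / 2 * D1 L.B p := by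
  obtain ⟨r, x⟩ := p
  apply D1_of_hasDerivAt (diffAt_of_open L.hU L.hc hp)
  have h := ((L.hM _ hp).fun_sub ((L.logi_hasDerivAt hp).const_mul (1/2))).fun_add
    ((hasDerivAt_D1 (L.dB hp)).const_mul (1/2))
  exact h.congr_deriv (by ring)

lemma D2a {p : ℝ × ℝ} (hp : p ∈ U) : D2 L.a p = 1 / 2 * (D2 L.B p + D2 L.C p) := by
  obtain ⟨r, x⟩ := p
  apply D2_of_hasDerivAt (diffAt_of_open L.hU L.ha hp)
  have h := (((hasDerivAt_D2 (L.dB hp)).fun_add (hasDerivAt_D2 (L.dC hp))).const_mul (1/2)).const_add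
    (L.M r - log (L.i r))
  exact h

lemma D2b {p : ℝ × ℝ} (hp : p ∈ U) : D2 L.b p = 1 / 2 * D2 L.C p := by
  obtain ⟨r, x⟩ := p
  apply D2_of_hasDerivAt (diffAt_of_open L.hU L.hb hp)
  exact ((hasDerivAt_D2 (L.dC hp)).const_mul (1/2)).const_add (L.M r - 1 / 2 * log (L.i r))

lemma D2c {p : ℝ × ℝ} (hp : p ∈ U) : D2 L.c p = 1 / 2 * D2 L.B p := by
  obtain ⟨r, x⟩ := p
  apply D2_of_hasDerivAt (diffAt_of_open L.hU L.hc hp)
  exact ((hasDerivAt_D2 (L.dB hp)).const_mul (1/2)).const_add (L.M r - 1 / 2 * log (L.i r))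

lemma i1_hasDerivAt {p : ℝ × ℝ} (hp : p ∈ U) :
    HasDerivAt (fun t => 1 / L.i t) (L.lm p / L.i p.1) p.1 := by
  have h := (hasDerivAt_const p.1 (1:ℝ)).fun_div (L.i_diff hp).hasDerivAt (L.hipos p hp).ne'
  refine h.congr_deriv ?_
  unfold lm lam
  have := (L.hipos p hp).ne'
  field_simp
  ring

/-- the `r`-range of `U` -/
lemma lam_diff {p : ℝ × ℝ} (hp : p ∈ U) : DifferentiableAt ℝ (lam L.i) p.1 := by
  have h1 : DifferentiableAt ℝ (deriv L.i) p.1 := by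
    -- `deriv i` is the restriction of `D1`
    have hD : ContDiffOn ℝ ∞ (D1 fun p : ℝ × ℝ => L.i p.1) U := D1_contDiffOn L.hU L.hi
    have h2 := (hasDerivAt_D1 (r := p.1) (x := p.2) (diffAt_of_open L.hU hD hp)).differentiableAt
    have hev : (deriv L.i) =ᶠ[𝓝 p.1] fun t => D1 (fun p : ℝ × ℝ => L.i p.1) (t, p.2) := by
      have hcont : ContinuousAt (fun t : ℝ => (t, p.2)) p.1 := by fun_prop
      filter_upwards [hcont.preimage_mem_nhds (L.hU.mem_nhds hp)] with t ht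
      have h3 := diffAt_of_open L.hU L.hi ht
      exact (D1_of_hasDerivAt h3 (hasDerivAt_D1 h3).differentiableAt.hasDerivAt).symm
    exact h2.congr_of_eventuallyEq hev
  unfold lam
  exact ((h1.div (L.i_diff hp) (L.hipos p hp).ne')).neg

lemma lm_hasDerivAt {p : ℝ × ℝ} (hp : p ∈ U) :
    HasDerivAt (lam L.i) (deriv (lam L.i) p.1) p.1 := (L.lam_diff hp).hasDerivAt

lemma D11b {p : ℝ × ℝ} (hp : p ∈ U) : D1 (D1 L.b) p =
    L.lm p / L.i p.1 + 1 / 2 * deriv (lam L.i) p.1 + 1 / 2 * D1 (D1 L.C) p := by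
  have hcong := D1_congr_on L.hU (fun z hz => L.D1b hz) hp
  rw [hcong]
  obtain ⟨r, x⟩ := p
  have hCd := diffAt_of_open L.hU (D1_contDiffOn L.hU L.hC) hp
  apply D1_of_hasDerivAt
  · have : DifferentiableAt ℝ (D1 L.b) (r, x) := diffAt_of_open L.hU (D1_contDiffOn L.hU L.hb) hp
    exact this.congr_of_eventuallyEq
      (by filter_upwards [L.hU.mem_nhds hp] with z hz using (L.D1b hz).symm)
  · exact ((L.i1_hasDerivAt hp).fun_add ((L.lm_hasDerivAt hp).const_mul (1/2))).fun_add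
      ((hasDerivAt_D1 hCd).const_mul (1/2))

lemma D11c {p : ℝ × ℝ} (hp : p ∈ U) : D1 (D1 L.c) p =
    L.lm p / L.i p.1 + 1 / 2 * deriv (lam L.i) p.1 + 1 / 2 * D1 (D1 L.B) p := by
  have hcong := D1_congr_on L.hU (fun z hz => L.D1c hz) hp
  rw [hcong]
  obtain ⟨r, x⟩ := p
  have hBd := diffAt_of_open L.hU (D1_contDiffOn L.hU L.hB) hp
  apply D1_of_hasDerivAt
  · have : DifferentiableAt ℝ (D1 L.c) (r, x) := diffAt_of_open L.hU (D1_contDiffOn L.hU L.hc) hp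
    exact this.congr_of_eventuallyEq
      (by filter_upwards [L.hU.mem_nhds hp] with z hz using (L.D1c hz).symm)
  · exact ((L.i1_hasDerivAt hp).fun_add ((L.lm_hasDerivAt hp).const_mul (1/2))).fun_add
      ((hasDerivAt_D1 hBd).const_mul (1/2))

lemma D12c {p : ℝ × ℝ} (hp : p ∈ U) : D1 (D2 L.c) p = 1 / 2 * D1 (D2 L.B) p := by
  have hcong := D1_congr_on L.hU (fun z hz => L.D2c hz) hp
  rw [hcong]
  obtain ⟨r, x⟩ := p
  have hBd := diffAt_of_open L.hU (D2_contDiffOn L.hU L.hB) hp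
  apply D1_of_hasDerivAt
  · exact hBd.const_mul (1/2)
  · exact (hasDerivAt_D1 hBd).const_mul (1/2)

lemma D22c {p : ℝ × ℝ} (hp : p ∈ U) : D2 (D2 L.c) p = 1 / 2 * D2 (D2 L.B) p := by
  have hcong := D2_congr_on L.hU (fun z hz => L.D2c hz) hp
  rw [hcong]
  obtain ⟨r, x⟩ := p
  have hBd := diffAt_of_open L.hU (D2_contDiffOn L.hU L.hB) hp
  apply D2_of_hasDerivAt
  · exact hBd.const_mul (1/2)
  · exact (hasDerivAt_D2 hBd).const_mul (1/2)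

lemma D22a {p : ℝ × ℝ} (hp : p ∈ U) :
    D2 (D2 L.a) p = 1 / 2 * (D2 (D2 L.B) p + D2 (D2 L.C) p) := by
  have hcong := D2_congr_on L.hU (fun z hz => L.D2a hz) hp
  rw [hcong]
  obtain ⟨r, x⟩ := p
  have hBd := diffAt_of_open L.hU (D2_contDiffOn L.hU L.hB) hp
  have hCd := diffAt_of_open L.hU (D2_contDiffOn L.hU L.hC) hp
  apply D2_of_hasDerivAt
  · exact (hBd.add hCd).const_mul (1/2)
  · exact ((hasDerivAt_D2 hBd).fun_add (hasDerivAt_D2 hCd)).const_mul (1/2)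

/-- `n_r/μ` -/
def nr (p : ℝ × ℝ) : ℝ := 1 + L.i p.1 * (1 / 2 * L.lm p + 1 / 2 * D1 L.C p)
/-- `σ_r/μ` -/
def sr (p : ℝ × ℝ) : ℝ := 1 + L.i p.1 * (1 / 2 * L.lm p + 1 / 2 * D1 L.B p)
/-- first curvature expression -/
def cK (p : ℝ × ℝ) : ℝ := L.lm p
  + L.i p.1 * (1 / 2 * deriv (lam L.i) p.1 + 1 / 2 * D1 (D1 L.C) p)
  - 1 / 2 * L.nr p * (L.lm p + D1 L.B p)
  + exp (L.B p) * (1 / 2 * (D2 (D2 L.B) p + D2 (D2 L.C) p)
    + 1 / 4 * (D2 L.B p + D2 L.C p) * D2 L.B p)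
/-- second curvature expression -/
def cHrr (p : ℝ × ℝ) : ℝ := L.lm p
  + L.i p.1 * (1 / 2 * deriv (lam L.i) p.1 + 1 / 2 * D1 (D1 L.B) p)
  - 1 / 2 * L.sr p * (L.lm p + D1 L.C p)
  + 1 / 4 * exp (L.B p) * (D2 L.B p + D2 L.C p) * D2 L.B p
/-- third curvature expression -/
def cHxx (p : ℝ × ℝ) : ℝ :=
  L.i p.1 * (1 / 2 * D2 (D2 L.B) p + 1 / 4 * D2 L.B p ^ 2 - 1 / 4 * D2 L.C p * D2 L.B p)
  + L.nr p * L.sr p * exp (-L.B p)
/-- fourth curvature expression -/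
def cHrx (p : ℝ × ℝ) : ℝ := 1 / 2 * L.i p.1 * D1 (D2 L.B) p
  - 1 / 2 * L.sr p * D2 L.C p - 1 / 2 * L.nr p * D2 L.B p

lemma exp_ab {p : ℝ × ℝ} (hp : p ∈ U) :
    exp (2 * L.a p - 2 * L.b p) = exp (L.B p) / L.i p.1 := by
  have h := L.hipos p hp
  have e : 2 * L.a p - 2 * L.b p = L.B p - log (L.i p.1) := by unfold a b; ring
  rw [e, Real.exp_sub, Real.exp_log h]

lemma exp_ba {p : ℝ × ℝ} (hp : p ∈ U) :
    exp (2 * L.b p - 2 * L.a p) = exp (-L.B p) * L.i p.1 := by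
  have h := L.hipos p hp
  have e : 2 * L.b p - 2 * L.a p = -L.B p + log (L.i p.1) := by unfold a b; ring
  rw [e, Real.exp_add, Real.exp_log h]

/-- The negativity criterion. -/
theorem negAt (G : CoordMetric 3) (y : Fin 3 → ℝ) (hy : (y 0, y 1) ∈ U)
    (hG : ∀ z ∈ liftS U, G z = Matrix.diagonal
      ![exp (2 * L.a (z 0, z 1)), exp (2 * L.b (z 0, z 1)), exp (2 * L.c (z 0, z 1))])
    (hK : 0 < L.cK (y 0, y 1)) (hrr : 0 < L.cHrr (y 0, y 1))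
    (hdet : L.cHrx (y 0, y 1) ^ 2 < L.cHrr (y 0, y 1) * L.cHxx (y 0, y 1)) : NegAt G y := by
  have hy' : y ∈ liftS U := hy
  have hi := L.hipos _ hy
  simp only at hi
  apply negAt_diag G (lift2 L.a) (lift2 L.b) (lift2 L.c) (liftS U) (liftS_isOpen L.hU) y hy'
    (lift2_contDiffOn L.ha) (lift2_contDiffOn L.hb) (lift2_contDiffOn L.hc)
    (fun z hz => pd2_on L.hU L.ha hz) (fun z hz => pd2_on L.hU L.hb hz)
    (fun z hz => pd2_on L.hU L.hc hz) hG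
  · rw [pd00_on L.hU L.hb hy', pd0_on L.hU L.hb hy', pd0_on L.hU L.ha hy',
      pd11_on L.hU L.ha hy', pd1_on L.hU L.ha hy', pd1_on L.hU L.hb hy']
    unfold lift2
    rw [L.exp_ab hy, L.D11b hy, L.D1b hy, L.D1a hy, L.D22a hy, L.D2a hy, L.D2b hy]
    have e : L.lm (y 0, y 1) / L.i (y 0, y 1).1 + 1 / 2 * deriv (lam L.i) (y 0, y 1).1
        + 1 / 2 * D1 (D1 L.C) (y 0, y 1)
        + (1 / L.i (y 0, y 1).1 + 1 / 2 * L.lm (y 0, y 1) + 1 / 2 * D1 L.C (y 0, y 1)) ^ 2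
        - (1 / L.i (y 0, y 1).1 + L.lm (y 0, y 1) + 1 / 2 * (D1 L.B (y 0, y 1) + D1 L.C (y 0, y 1)))
          * (1 / L.i (y 0, y 1).1 + 1 / 2 * L.lm (y 0, y 1) + 1 / 2 * D1 L.C (y 0, y 1))
        + exp (L.B (y 0, y 1)) / L.i (y 0, y 1).1 *
          (1 / 2 * (D2 (D2 L.B) (y 0, y 1) + D2 (D2 L.C) (y 0, y 1))
          + (1 / 2 * (D2 L.B (y 0, y 1) + D2 L.C (y 0, y 1))) ^ 2
          - 1 / 2 * (D2 L.B (y 0, y 1) + D2 L.C (y 0, y 1)) * (1 / 2 * D2 L.C (y 0, y 1)))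
        = 1 / L.i (y 0, y 1).1 * L.cK (y 0, y 1) := by
      unfold cK nr
      simp only
      field_simp
      ring
    rw [e]
    exact mul_pos (by positivity) hK
  · rw [pd00_on L.hU L.hc hy', pd0_on L.hU L.hc hy', pd0_on L.hU L.ha hy',
      pd1_on L.hU L.ha hy', pd1_on L.hU L.hc hy']
    unfold lift2
    rw [L.exp_ab hy, L.D11c hy, L.D1c hy, L.D1a hy, L.D2a hy, L.D2c hy]
    have e : L.lm (y 0, y 1) / L.i (y 0, y 1).1 + 1 / 2 * deriv (lam L.i) (y 0, y 1).1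
        + 1 / 2 * D1 (D1 L.B) (y 0, y 1)
        + (1 / L.i (y 0, y 1).1 + 1 / 2 * L.lm (y 0, y 1) + 1 / 2 * D1 L.B (y 0, y 1)) ^ 2
        - (1 / L.i (y 0, y 1).1 + L.lm (y 0, y 1) + 1 / 2 * (D1 L.B (y 0, y 1) + D1 L.C (y 0, y 1)))
          * (1 / L.i (y 0, y 1).1 + 1 / 2 * L.lm (y 0, y 1) + 1 / 2 * D1 L.B (y 0, y 1))
        + exp (L.B (y 0, y 1)) / L.i (y 0, y 1).1 *
          (1 / 2 * (D2 L.B (y 0, y 1) + D2 L.C (y 0, y 1)) * (1 / 2 * D2 L.B (y 0, y 1)))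
        = 1 / L.i (y 0, y 1).1 * L.cHrr (y 0, y 1) := by
      unfold cHrr sr
      simp only
      field_simp
      ring
    rw [e]
    exact mul_pos (by positivity) hrr
  · rw [pd00_on L.hU L.hc hy', pd0_on L.hU L.hc hy', pd0_on L.hU L.ha hy', pd0_on L.hU L.hb hy',
      pd1_on L.hU L.ha hy', pd1_on L.hU L.hc hy', pd1_on L.hU L.hb hy', pd01_on L.hU L.hc hy',
      pd11_on L.hU L.hc hy']
    unfold lift2
    rw [L.exp_ab hy, L.exp_ba hy, L.D11c hy, L.D1c hy, L.D1a hy, L.D1b hy, L.D2a hy, L.D2c hy,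
      L.D2b hy, L.D12c hy, L.D22c hy]
    have e : L.lm (y 0, y 1) / L.i (y 0, y 1).1 + 1 / 2 * deriv (lam L.i) (y 0, y 1).1
        + 1 / 2 * D1 (D1 L.B) (y 0, y 1)
        + (1 / L.i (y 0, y 1).1 + 1 / 2 * L.lm (y 0, y 1) + 1 / 2 * D1 L.B (y 0, y 1)) ^ 2
        - (1 / L.i (y 0, y 1).1 + L.lm (y 0, y 1) + 1 / 2 * (D1 L.B (y 0, y 1) + D1 L.C (y 0, y 1)))
          * (1 / L.i (y 0, y 1).1 + 1 / 2 * L.lm (y 0, y 1) + 1 / 2 * D1 L.B (y 0, y 1))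
        + exp (L.B (y 0, y 1)) / L.i (y 0, y 1).1 *
          (1 / 2 * (D2 L.B (y 0, y 1) + D2 L.C (y 0, y 1)) * (1 / 2 * D2 L.B (y 0, y 1)))
        = 1 / L.i (y 0, y 1).1 * L.cHrr (y 0, y 1) := by
      unfold cHrr sr
      simp only
      field_simp
      ring
    have e2 : 1 / 2 * D1 (D2 L.B) (y 0, y 1)
        + (1 / L.i (y 0, y 1).1 + 1 / 2 * L.lm (y 0, y 1) + 1 / 2 * D1 L.B (y 0, y 1))
          * (1 / 2 * D2 L.B (y 0, y 1))
        - 1 / 2 * (D2 L.B (y 0, y 1) + D2 L.C (y 0, y 1)) *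
          (1 / L.i (y 0, y 1).1 + 1 / 2 * L.lm (y 0, y 1) + 1 / 2 * D1 L.B (y 0, y 1))
        - (1 / L.i (y 0, y 1).1 + 1 / 2 * L.lm (y 0, y 1) + 1 / 2 * D1 L.C (y 0, y 1))
          * (1 / 2 * D2 L.B (y 0, y 1))
        = 1 / L.i (y 0, y 1).1 * L.cHrx (y 0, y 1) := by
      unfold cHrx sr nr
      simp only
      field_simp
      ring
    have e3 : 1 / 2 * D2 (D2 L.B) (y 0, y 1) + (1 / 2 * D2 L.B (y 0, y 1)) ^ 2
        - 1 / 2 * D2 L.C (y 0, y 1) * (1 / 2 * D2 L.B (y 0, y 1))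
        + exp (-L.B (y 0, y 1)) * L.i (y 0, y 1).1 *
          ((1 / L.i (y 0, y 1).1 + 1 / 2 * L.lm (y 0, y 1) + 1 / 2 * D1 L.C (y 0, y 1))
            * (1 / L.i (y 0, y 1).1 + 1 / 2 * L.lm (y 0, y 1) + 1 / 2 * D1 L.B (y 0, y 1)))
        = 1 / L.i (y 0, y 1).1 * L.cHxx (y 0, y 1) := by
      unfold cHxx sr nr
      simp only
      field_simp
      ring
    rw [e, e2, e3]
    have hpos : 0 < (1 / L.i (y 0, y 1).1) ^ 2 := by positivity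
    have := mul_lt_mul_of_pos_left hdet hpos
    calc _ = (1 / L.i (y 0, y 1).1) ^ 2 * L.cHrx (y 0, y 1) ^ 2 := by ring
      _ < (1 / L.i (y 0, y 1).1) ^ 2 * (L.cHrr (y 0, y 1) * L.cHxx (y 0, y 1)) := this
      _ = _ := by ring

end LData

end Pool.Agent.Work.MP_0fcc57_gt
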