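import Mathlib

/-!
# Coordinate Riemannian geometry used for MP_0fcc57_gt

Everything here is written in coordinates: a metric on (an open subset of) `Fin n → ℝ` is a
matrix valued function.
-/

open scoped ContDiff Manifold Topology

noncomputable section

namespace Pool.Agent.Work.MP_0fcc57_gt

/-- The partial derivative of `F` in the direction of the `i`-th coordinate. -/
def pd {n : ℕ} (i : Fin n) (F : (Fin n → ℝ) → ℝ) (y : Fin n → ℝ) : ℝ :=
  fderiv ℝ F y (Pi.single i 1)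

/-- A (coordinate) metric: a matrix valued function `y ↦ (g_{ij}(y))`. -/
abbrev CoordMetric (n : ℕ) := (Fin n → ℝ) → Matrix (Fin n) (Fin n) ℝ

/-- The Christoffel symbols `Γ^k_{ij} = 1/2 g^{kl} (∂_i g_{jl} + ∂_j g_{il} - ∂_l g_{ij})`. -/
def christoffel {n : ℕ} (G : CoordMetric n) (k i j : Fin n) (y : Fin n → ℝ) : ℝ :=
  (1 / 2) * ∑ l, (G y)⁻¹ k l *
    (pd i (fun z => G z j l) y + pd j (fun z => G z i l) y - pd l (fun z => G z i j) y)

/-- The curvature tensor `R_{ijkl} = ⟨R(∂_k, ∂_l) ∂_j, ∂_i⟩`. -/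
def riemann {n : ℕ} (G : CoordMetric n) (i j k l : Fin n) (y : Fin n → ℝ) : ℝ :=
  ∑ m, G y i m * (pd k (christoffel G m l j) y - pd l (christoffel G m k j) y
    + ∑ p, (christoffel G m k p y * christoffel G p l j y
      - christoffel G m l p y * christoffel G p k j y))

/-- The inner product of two vectors for a coordinate metric. -/
def ip {n : ℕ} (G : CoordMetric n) (y v w : Fin n → ℝ) : ℝ :=
  ∑ i, ∑ j, G y i j * v i * w j

/-- The sectional curvature
`K(v,w) = ⟨R(v,w)w,v⟩ / (⟨v,v⟩⟨w,w⟩ - ⟨v,w⟩²)` at the point `y`. -/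
def sectional {n : ℕ} (G : CoordMetric n) (y v w : Fin n → ℝ) : ℝ :=
  (∑ i, ∑ j, ∑ k, ∑ l, riemann G i j k l y * v i * w j * v k * w l) /
    (ip G y v v * ip G y w w - ip G y v w ^ 2)

/-- All sectional curvatures at `y` are negative. -/
def NegAt {n : ℕ} (G : CoordMetric n) (y : Fin n → ℝ) : Prop :=
  ∀ v w : Fin n → ℝ, LinearIndependent ℝ ![v, w] → sectional G y v w < 0

/-- The tension field (component `a`) at `y` of a map `F` from the coordinate metric `H` to
the coordinate metric `G`: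
`τ^a = h^{ij} (∂_i∂_j F^a - Γ(h)^k_{ij} ∂_k F^a + Γ(g)^a_{bc}(F) ∂_i F^b ∂_j F^c)`. -/
def tension {m n : ℕ} (H : CoordMetric m) (G : CoordMetric n)
    (F : (Fin m → ℝ) → (Fin n → ℝ)) (a : Fin n) (y : Fin m → ℝ) : ℝ :=
  ∑ i, ∑ j, (H y)⁻¹ i j *
    (pd i (pd j (fun z => F z a)) y
      - ∑ k, christoffel H k i j y * pd k (fun z => F z a) y
      + ∑ b, ∑ c, christoffel G a b c (F y) * pd i (fun z => F z b) y
          * pd j (fun z => F z c) y)

/-- The pull-back of a coordinate metric under a map `Ψ`. -/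
def pull {n : ℕ} (G : CoordMetric n) (Ψ : (Fin n → ℝ) → (Fin n → ℝ)) : CoordMetric n :=
  fun y => Matrix.of fun i j =>
    ∑ a, ∑ b, G (Ψ y) a b * pd i (fun z => Ψ z a) y * pd j (fun z => Ψ z b) y

/-- A smooth Riemannian metric on `Fin n → ℝ`. -/
structure IsMetric {n : ℕ} (G : CoordMetric n) : Prop where
  smooth : ∀ i j, ContDiff ℝ ∞ (fun p => G p i j)
  symm : ∀ p i j, G p i j = G p j i
  pos : ∀ p v, v ≠ 0 → 0 < ip G p v v

/-- `Ψ` is a smooth map near `y` with invertible differential at `y`, i.e. (by the inverse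
function theorem) a smooth local parametrisation near `y`. -/
def IsParam {n : ℕ} (Ψ : (Fin n → ℝ) → (Fin n → ℝ)) (y : Fin n → ℝ) : Prop :=
  (∃ U : Set (Fin n → ℝ), IsOpen U ∧ y ∈ U ∧ ContDiffOn ℝ ∞ Ψ U) ∧
    Function.Bijective (fderiv ℝ Ψ y)

/-- The metric `G` has negative sectional curvature at the point `p`, computed in some local
parametrisation. -/
def NegCurvAt {n : ℕ} (G : CoordMetric n) (p : Fin n → ℝ) : Prop :=
  ∃ (Ψ : (Fin n → ℝ) → (Fin n → ℝ)) (y : Fin n → ℝ),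
    IsParam Ψ y ∧ Ψ y = p ∧ NegAt (pull G Ψ) y

/-- The map `f` from `(ℝ^n, H)` to `(ℝ^n, G)` has vanishing tension field at `p`, computed in
local parametrisations of the source near `p` and of the target near `f p`. -/
def HarmAt {n : ℕ} (H G : CoordMetric n) (f : (Fin n → ℝ) → (Fin n → ℝ))
    (p : Fin n → ℝ) : Prop :=
  ∃ (Φ Ψ F : (Fin n → ℝ) → (Fin n → ℝ)) (y : Fin n → ℝ),
    IsParam Φ y ∧ Φ y = p ∧ IsParam Ψ (F y) ∧
    (∃ U : Set (Fin n → ℝ), IsOpen U ∧ y ∈ U ∧ ContDiffOn ℝ ∞ F U) ∧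
    (∀ᶠ z in 𝓝 y, f (Φ z) = Ψ (F z)) ∧
    ∀ a, tension (pull H Φ) (pull G Ψ) F a y = 0

/-- The standard hyperbolic metric on `ℝ³` in the coordinates of the hyperboloid model
(`p ↦ (p, √(1+|p|²))`): `g_{ij}(p) = δ_{ij} - p_i p_j / (1 + |p|²)`. -/
def hyp : CoordMetric 3 := fun p => Matrix.of fun i j =>
  (if i = j then 1 else 0) - p i * p j / (1 + ∑ k, p k ^ 2)

/-- squared Euclidean norm -/
def sq (p : Fin 3 → ℝ) : ℝ := ∑ k, p k ^ 2

end Pool.Agent.Work.MP_0fcc57_gt
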