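import Pool.Agent.Work.MP_0fcc57_gt.QuotMetric

/-!
# Passing to the compact quotient manifold
-/

open scoped ContDiff Manifold Topology
open Filter Set

noncomputable section

namespace Pool.Agent.Work.MP_0fcc57_gt

section quot

variable {n : ℕ} {Γ : Type} [Group Γ] [MulAction Γ (Fin n → ℝ)]
variable [ContinuousConstSMul Γ (Fin n → ℝ)]
  [ProperlyDiscontinuousSMul Γ (Fin n → ℝ)] [IsCancelSMul Γ (Fin n → ℝ)]

/-- the fibrewise inner product -/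
def pinner (H : CoordMetric n) (q : QS n Γ) : (Fin n → ℝ) →L[ℝ] (Fin n → ℝ) →L[ℝ] ℝ :=
  bil (H (chartAt (Fin n → ℝ) q q))

/-- the differential of the projection as a linear map of `ℝ^n` -/
def dprj (x : Fin n → ℝ) : (Fin n → ℝ) →L[ℝ] (Fin n → ℝ) :=
  mfderiv 𝓘(ℝ, Fin n → ℝ) 𝓘(ℝ, Fin n → ℝ) (prj Γ) x

theorem pinner_dprj (hsm : ∀ γ : Γ, ContDiff ℝ ∞ (fun p : Fin n → ℝ => γ • p))
    {H : CoordMetric n} (hinv : ∀ γ : Γ, pull H (fun p => γ • p) = H) (x v w : Fin n → ℝ) :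
    pinner H (prj Γ x) (dprj (Γ := Γ) x v) (dprj (Γ := Γ) x w) = ip H x v w := by
  obtain ⟨γ, h1, h2⟩ := mfderiv_prj hsm x
  have hd : DifferentiableAt ℝ (fun p : Fin n → ℝ => γ • p) x :=
    (hsm γ).contDiffAt.differentiableAt (by simp)
  have h3 : dprj (Γ := Γ) x = fderiv ℝ (fun p : Fin n → ℝ => γ • p) x := h2
  rw [pinner, ← h1, bil_eq_ip, h3, ← jac_mulVec hd, ← jac_mulVec hd]
  have := ip_pull H (fun p : Fin n → ℝ => γ • p) x v w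
  rw [hinv γ] at this
  exact this.symm

theorem pinner_symm {H : CoordMetric n} (hH : IsMetric H) (q : QS n Γ) (v w : Fin n → ℝ) :
    pinner H q v w = pinner H q w v := by
  rw [pinner, bil_apply, bil_apply, Finset.sum_comm]
  refine Finset.sum_congr rfl fun i _ => Finset.sum_congr rfl fun j _ => ?_
  rw [hH.symm]
  ring

theorem pinner_pos {H : CoordMetric n} (hH : IsMetric H) (q : QS n Γ) (v : Fin n → ℝ)
    (hv : v ≠ 0) : 0 < pinner H q v v := by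
  rw [pinner, bil_eq_ip]
  exact hH.pos _ v hv

/-- the coordinate expression of the pushed metric near a point of the quotient -/
def pcoord (H : CoordMetric n) [IsManifold 𝓘(ℝ, Fin n → ℝ) ∞ (QS n Γ)] (q q' : QS n Γ) :
    (Fin n → ℝ) →L[ℝ] (Fin n → ℝ) →L[ℝ] ℝ :=
  ContinuousLinearMap.inCoordinates (Fin n → ℝ)
    (fun x : QS n Γ => TangentSpace 𝓘(ℝ, Fin n → ℝ) x) ((Fin n → ℝ) →L[ℝ] ℝ)
    (fun x : QS n Γ => TangentSpace 𝓘(ℝ, Fin n → ℝ) x →L[ℝ] ℝ)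
    q q' q q' (pinner H q')

theorem pcoord_eq (hsm : ∀ γ : Γ, ContDiff ℝ ∞ (fun p : Fin n → ℝ => γ • p))
    [IsManifold 𝓘(ℝ, Fin n → ℝ) ∞ (QS n Γ)]
    {H : CoordMetric n} (hinv : ∀ γ : Γ, pull H (fun p => γ • p) = H) (q : QS n Γ)
    {z : Fin n → ℝ} (hz : z ∈ (chartAt (Fin n → ℝ) q).target) :
    pcoord H q (prj Γ z) = bil (H z) := by
  have hz1 : prj Γ z ∈ (chartAt (Fin n → ℝ) q).source := by
    have := (chartAt (Fin n → ℝ) q).map_target hz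
    rwa [symm_chartAt_quot] at this
  have hz2 : chartAt (Fin n → ℝ) q (prj Γ z) = z := by
    have := (chartAt (Fin n → ℝ) q).right_inv hz
    rwa [symm_chartAt_quot] at this
  ext v w
  have h1 : prj Γ z ∈ (trivializationAt (Fin n → ℝ)
      (fun x : QS n Γ => TangentSpace 𝓘(ℝ, Fin n → ℝ) x) q).baseSet := by
    rw [TangentBundle.trivializationAt_baseSet]
    exact hz1
  let φ : TangentSpace 𝓘(ℝ, Fin n → ℝ) (prj Γ z) →L[ℝ]
    TangentSpace 𝓘(ℝ, Fin n → ℝ) (prj Γ z) →L[ℝ] (Bundle.Trivial (QS n Γ) ℝ (prj Γ z)) :=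
      pinner H (prj Γ z)
  have h3 : prj Γ z ∈ (trivializationAt ℝ (Bundle.Trivial (QS n Γ) ℝ) q).baseSet :=
    Set.mem_univ _
  have e := inCoordinates_apply_eq₂ (𝕜 := ℝ) (x₀ := q) (x := prj Γ z)
    (E₁ := fun x : QS n Γ => TangentSpace 𝓘(ℝ, Fin n → ℝ) x)
    (E₂ := fun x : QS n Γ => TangentSpace 𝓘(ℝ, Fin n → ℝ) x) (E₃ := Bundle.Trivial (QS n Γ) ℝ)
    (F₃ := ℝ) (ϕ := φ) (v := v) (w := w) h1 h1 h3
  refine Eq.trans e ?_
  have h2 : ∀ u : Fin n → ℝ, (trivializationAt (Fin n → ℝ)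
      (fun x : QS n Γ => TangentSpace 𝓘(ℝ, Fin n → ℝ) x) q).symm (prj Γ z) u
        = dprj (Γ := Γ) z u := by
    intro u
    have e2 := TangentBundle.symmL_trivializationAt (I := 𝓘(ℝ, Fin n → ℝ)) hz1
    have e3 := (trivializationAt (Fin n → ℝ)
      (fun x : QS n Γ => TangentSpace 𝓘(ℝ, Fin n → ℝ) x) q).symmL_apply (R := ℝ) h1 u
    refine e3.symm.trans ?_
    have e4 : (mfderivWithin 𝓘(ℝ, Fin n → ℝ) 𝓘(ℝ, Fin n → ℝ)
      (extChartAt 𝓘(ℝ, Fin n → ℝ) q).symm (range 𝓘(ℝ, Fin n → ℝ))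
      (extChartAt 𝓘(ℝ, Fin n → ℝ) q (prj Γ z)) : (Fin n → ℝ) →L[ℝ] (Fin n → ℝ))
        = dprj (Γ := Γ) z := by
      have e5 : extChartAt 𝓘(ℝ, Fin n → ℝ) q (prj Γ z) = z := hz2
      have e6 : ∀ (a : Fin n → ℝ) (g : (Fin n → ℝ) → QS n Γ), g = prj Γ → a = z →
          (mfderivWithin 𝓘(ℝ, Fin n → ℝ) 𝓘(ℝ, Fin n → ℝ) g
          (range 𝓘(ℝ, Fin n → ℝ)) a : (Fin n → ℝ) →L[ℝ] (Fin n → ℝ)) = dprj (Γ := Γ) z := by
        rintro a g rfl rfl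
        rw [dprj]
        rw [modelWithCornersSelf_coe, Set.range_id, mfderivWithin_univ]
      exact e6 _ _ (symm_extChartAt_quot q) e5
    rw [← e4]
    exact congrArg (fun L : (Fin n → ℝ) →L[ℝ] (Fin n → ℝ) => L u) e2
  have e7 := pinner_dprj hsm hinv z v w
  rw [bil_eq_ip, ← e7, ← h2, ← h2]
  have e8 : (trivializationAt ℝ (Bundle.Trivial (QS n Γ) ℝ) q).linearMapAt ℝ (prj Γ z)
      = LinearMap.id := Bundle.Trivial.linearMapAt_trivialization ℝ (QS n Γ) ℝ (prj Γ z)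
  exact congrArg (fun L : ℝ →ₗ[ℝ] ℝ => L (pinner H (prj Γ z)
    ((trivializationAt (Fin n → ℝ)
      (fun x : QS n Γ => TangentSpace 𝓘(ℝ, Fin n → ℝ) x) q).symm (prj Γ z) v)
    ((trivializationAt (Fin n → ℝ)
      (fun x : QS n Γ => TangentSpace 𝓘(ℝ, Fin n → ℝ) x) q).symm (prj Γ z) w))) e8

/-- The metric pushed forward to the quotient. -/
def pushMetric (hsm : ∀ γ : Γ, ContDiff ℝ ∞ (fun p : Fin n → ℝ => γ • p))
    [IsManifold 𝓘(ℝ, Fin n → ℝ) ∞ (QS n Γ)]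
    (H : CoordMetric n) (hH : IsMetric H) (hinv : ∀ γ : Γ, pull H (fun p => γ • p) = H) :
    RiemMetric n (QS n Γ) where
  inner q := pinner H q
  symm q v w := pinner_symm hH q v w
  pos q v hv := pinner_pos hH q v hv
  isVonNBounded q := bounded_bil (fun v hv => pinner_pos hH q v hv)
  contMDiff := by
    intro q
    rw [contMDiffAt_hom_bundle]
    refine ⟨contMDiffAt_id, ?_⟩
    set x := chartAt (Fin n → ℝ) q q with hx
    have hq : prj Γ x = q := by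
      have := (chartAt (Fin n → ℝ) q).left_inv (mem_chart_source _ q)
      rwa [symm_chartAt_quot] at this
    have key : ContMDiffAt 𝓘(ℝ, Fin n → ℝ) 𝓘(ℝ, (Fin n → ℝ) →L[ℝ] (Fin n → ℝ) →L[ℝ] ℝ) ∞
        (fun z => pcoord H q (prj Γ z)) x := by
      refine (contDiff_bil hH.smooth).contMDiff.contMDiffAt.congr_of_eventuallyEq ?_
      have hxt : x ∈ (chartAt (Fin n → ℝ) q).target := mem_chart_target _ q
      filter_upwards [(chartAt (Fin n → ℝ) q).open_target.mem_nhds hxt] with z hz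
      exact pcoord_eq hsm hinv q hz
    have := contMDiffAt_of_prj hsm 𝓘(ℝ, (Fin n → ℝ) →L[ℝ] (Fin n → ℝ) →L[ℝ] ℝ)
      (F := fun q' => pcoord H q q') key
    rw [hq] at this
    exact this

end quot

/-- a parametrisation is a local diffeomorphism (inverse function theorem) -/
theorem IsParam.isLocalDiffeomorphAt {n : ℕ} {Ψ : (Fin n → ℝ) → (Fin n → ℝ)} {y : Fin n → ℝ}
    (h : IsParam Ψ y) : IsLocalDiffeomorphAt 𝓘(ℝ, Fin n → ℝ) 𝓘(ℝ, Fin n → ℝ) ∞ Ψ y := by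
  obtain ⟨⟨U, hU, hyU, hΨ⟩, hb⟩ := h
  have hca : ∀ z ∈ U, ContDiffAt ℝ ∞ Ψ z := fun z hz => hΨ.contDiffAt (hU.mem_nhds hz)
  have hda : ∀ z ∈ U, DifferentiableAt ℝ Ψ z := fun z hz =>
    (hca z hz).differentiableAt (by simp)
  let L : (Fin n → ℝ) ≃L[ℝ] (Fin n → ℝ) :=
    ContinuousLinearEquiv.ofBijective (fderiv ℝ Ψ y)
      (LinearMap.ker_eq_bot.2 hb.1) (LinearMap.range_eq_top.2 hb.2)
  have hL : (L : (Fin n → ℝ) →L[ℝ] (Fin n → ℝ)) = fderiv ℝ Ψ y := by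
    ext v; rfl
  have hf' : HasFDerivAt Ψ (L : (Fin n → ℝ) →L[ℝ] (Fin n → ℝ)) y := by
    rw [hL]; exact (hda y hyU).hasFDerivAt
  let e := (hca y hyU).toOpenPartialHomeomorph Ψ hf' (by simp)
  have he : (e : (Fin n → ℝ) → (Fin n → ℝ)) = Ψ := rfl
  have hye : y ∈ e.source := (hca y hyU).mem_toOpenPartialHomeomorph_source hf' (by simp)
  -- the good open set
  let W : Set (Fin n → ℝ) := U ∩ fderiv ℝ Ψ ⁻¹' (range
    ((↑) : ((Fin n → ℝ) ≃L[ℝ] (Fin n → ℝ)) → ((Fin n → ℝ) →L[ℝ] (Fin n → ℝ))))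
  have hW : IsOpen W := by
    have hc : ContinuousOn (fderiv ℝ Ψ) U :=
      (hΨ.continuousOn_fderiv_of_isOpen hU (by simp))
    exact hc.isOpen_inter_preimage hU ContinuousLinearEquiv.isOpen
  have hyW : y ∈ W := ⟨hyU, L, hL⟩
  let e' := e.restrOpen W hW
  refine ⟨⟨e'.toPartialEquiv, e'.open_source, e'.open_target, ?_, ?_⟩, ⟨hye, hyW⟩, ?_⟩
  · intro z hz
    have : ContMDiffAt 𝓘(ℝ, Fin n → ℝ) 𝓘(ℝ, Fin n → ℝ) ∞ Ψ z :=
      (hca z hz.2.1).contMDiffAt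
    exact this.contMDiffWithinAt
  · intro z hz
    have hz1 : e'.symm z ∈ e'.source := e'.map_target hz
    obtain ⟨hz2, hz3, ⟨L', hL'⟩⟩ := hz1
    have hf1 : HasFDerivAt e' (L' : (Fin n → ℝ) →L[ℝ] (Fin n → ℝ)) (e'.symm z) := by
      rw [hL']
      exact (hda _ hz3).hasFDerivAt
    have hcs : ContDiffAt ℝ ∞ e'.symm z :=
      e'.contDiffAt_symm hz hf1 (hca _ hz3)
    exact hcs.contMDiffAt.contMDiffWithinAt
  · intro z _
    rfl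

section geom

variable {n : ℕ} {Γ : Type} [Group Γ] [MulAction Γ (Fin n → ℝ)]
variable [ContinuousConstSMul Γ (Fin n → ℝ)]
  [ProperlyDiscontinuousSMul Γ (Fin n → ℝ)] [IsCancelSMul Γ (Fin n → ℝ)]

theorem coordMetric_push (hsm : ∀ γ : Γ, ContDiff ℝ ∞ (fun p : Fin n → ℝ => γ • p))
    [IsManifold 𝓘(ℝ, Fin n → ℝ) ∞ (QS n Γ)]
    (H : CoordMetric n) (hH : IsMetric H) (hinv : ∀ γ : Γ, pull H (fun p => γ • p) = H)
    {Ψ : (Fin n → ℝ) → (Fin n → ℝ)} {y : Fin n → ℝ} (h : DifferentiableAt ℝ Ψ y) :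
    coordMetric (pushMetric hsm H hH hinv) (fun z => prj Γ (Ψ z)) y = pull H Ψ y := by
  have hm : mfderiv 𝓘(ℝ, Fin n → ℝ) 𝓘(ℝ, Fin n → ℝ) (fun z => prj Γ (Ψ z)) y =
      (mfderiv 𝓘(ℝ, Fin n → ℝ) 𝓘(ℝ, Fin n → ℝ) (prj Γ) (Ψ y)).comp
        (mfderiv 𝓘(ℝ, Fin n → ℝ) 𝓘(ℝ, Fin n → ℝ) Ψ y) :=
    mfderiv_comp y ((contMDiff_prj hsm).mdifferentiable (by simp) _) h.mdifferentiableAt
  refine Matrix.ext fun i j => ?_
  rw [pull_apply h]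
  refine Eq.trans ?_ (pinner_dprj hsm hinv (Ψ y) (fderiv ℝ Ψ y (Pi.single i 1))
    (fderiv ℝ Ψ y (Pi.single j 1)))
  have hm2 : ∀ v : Fin n → ℝ, (mfderiv 𝓘(ℝ, Fin n → ℝ) 𝓘(ℝ, Fin n → ℝ)
      (fun z => prj Γ (Ψ z)) y v : Fin n → ℝ) = dprj (Γ := Γ) (Ψ y) (fderiv ℝ Ψ y v) := by
    intro v
    rw [hm, mfderiv_eq_fderiv]
    rfl
  show pinner H (prj Γ (Ψ y)) _ _ = _
  rw [hm2, hm2]

theorem isLocalDiffeomorphAt_prj_comp (hsm : ∀ γ : Γ, ContDiff ℝ ∞ (fun p : Fin n → ℝ => γ • p))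
    {Ψ : (Fin n → ℝ) → (Fin n → ℝ)} {y : Fin n → ℝ} (h : IsParam Ψ y) :
    IsLocalDiffeomorphAt 𝓘(ℝ, Fin n → ℝ) 𝓘(ℝ, Fin n → ℝ) ∞ (fun z => prj Γ (Ψ z)) y :=
  IsLocalDiffeomorphAt.comp (K := 𝓘(ℝ, Fin n → ℝ)) (hf := h.isLocalDiffeomorphAt)
    (hg := isLocalDiffeomorph_prj hsm (Ψ y))

theorem IsParam.eventually_differentiable {n : ℕ} {Ψ : (Fin n → ℝ) → (Fin n → ℝ)}
    {y : Fin n → ℝ} (h : IsParam Ψ y) : ∀ᶠ z in 𝓝 y, DifferentiableAt ℝ Ψ z := by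
  obtain ⟨⟨U, hU, hyU, hΨ⟩, hb⟩ := h
  filter_upwards [hU.mem_nhds hyU] with z hz
  exact (hΨ.contDiffAt (hU.mem_nhds hz)).differentiableAt (by simp)

theorem coordMetric_push_ev (hsm : ∀ γ : Γ, ContDiff ℝ ∞ (fun p : Fin n → ℝ => γ • p))
    [IsManifold 𝓘(ℝ, Fin n → ℝ) ∞ (QS n Γ)]
    (H : CoordMetric n) (hH : IsMetric H) (hinv : ∀ γ : Γ, pull H (fun p => γ • p) = H)
    {Ψ : (Fin n → ℝ) → (Fin n → ℝ)} {y : Fin n → ℝ} (h : IsParam Ψ y) :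
    coordMetric (pushMetric hsm H hH hinv) (fun z => prj Γ (Ψ z)) =ᶠ[𝓝 y] pull H Ψ := by
  filter_upwards [h.eventually_differentiable] with z hz
  exact coordMetric_push hsm H hH hinv hz

theorem negCurved_push (hsm : ∀ γ : Γ, ContDiff ℝ ∞ (fun p : Fin n → ℝ => γ • p))
    [IsManifold 𝓘(ℝ, Fin n → ℝ) ∞ (QS n Γ)]
    (H : CoordMetric n) (hH : IsMetric H) (hinv : ∀ γ : Γ, pull H (fun p => γ • p) = H)
    (hneg : ∀ p, NegCurvAt H p) : NegativelyCurved (pushMetric hsm H hH hinv) := by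
  intro q
  obtain ⟨x, rfl⟩ := prj_surjective q
  obtain ⟨Ψ, y, hΨ, hy, hN⟩ := hneg x
  refine ⟨fun z => prj Γ (Ψ z), y, isLocalDiffeomorphAt_prj_comp hsm hΨ, by
    simp only [hy], ?_⟩
  exact NegAt_congr (coordMetric_push_ev hsm H hH hinv hΨ).symm hN

/-- an equivariant homeomorphism descends -/
def descHomeo (f : (Fin n → ℝ) ≃ₜ (Fin n → ℝ))
    (hequiv : ∀ (γ : Γ) (p : Fin n → ℝ), f (γ • p) = γ • f p) : QS n Γ ≃ₜ QS n Γ where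
  toFun := Quotient.map f (by
    rintro a b ⟨γ, rfl⟩
    exact ⟨γ, (hequiv γ b).symm⟩)
  invFun := Quotient.map f.symm (by
    rintro a b ⟨γ, rfl⟩
    refine ⟨γ, ?_⟩
    show γ • f.symm b = f.symm (γ • b)
    rw [eq_comm, f.symm_apply_eq, hequiv, f.apply_symm_apply])
  left_inv := by
    intro q
    obtain ⟨x, rfl⟩ := prj_surjective q
    show Quotient.map _ _ (Quotient.map _ _ (Quotient.mk _ x)) = Quotient.mk _ x
    rw [Quotient.map_mk, Quotient.map_mk, f.symm_apply_apply]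
  right_inv := by
    intro q
    obtain ⟨x, rfl⟩ := prj_surjective q
    show Quotient.map _ _ (Quotient.map _ _ (Quotient.mk _ x)) = Quotient.mk _ x
    rw [Quotient.map_mk, Quotient.map_mk, f.apply_symm_apply]
  continuous_toFun := Continuous.quotient_map' f.continuous _
  continuous_invFun := Continuous.quotient_map' f.symm.continuous _

theorem descHomeo_prj (f : (Fin n → ℝ) ≃ₜ (Fin n → ℝ))
    (hequiv : ∀ (γ : Γ) (p : Fin n → ℝ), f (γ • p) = γ • f p) (x : Fin n → ℝ) :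
    descHomeo f hequiv (prj Γ x) = prj Γ (f x) := rfl

end geom

theorem descend (Γ : Type) [Group Γ] [MulAction Γ (Fin 3 → ℝ)]
    (hsm : ∀ γ : Γ, ContDiff ℝ ∞ (fun p : Fin 3 → ℝ => γ • p))
    [ProperlyDiscontinuousSMul Γ (Fin 3 → ℝ)]
    (hfree : ∀ (γ : Γ) (p : Fin 3 → ℝ), γ • p = p → γ = 1)
    (hco : ∃ K : Set (Fin 3 → ℝ), IsCompact K ∧ ∀ p : Fin 3 → ℝ, ∃ γ : Γ, γ • p ∈ K)
    (H G : CoordMetric 3) (hH : IsMetric H) (hG : IsMetric G)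
    (hHinv : ∀ γ : Γ, pull H (fun p => γ • p) = H) (hGinv : ∀ γ : Γ, pull G (fun p => γ • p) = G)
    (hHneg : ∀ p, NegCurvAt H p) (hGneg : ∀ p, NegCurvAt G p)
    (f : (Fin 3 → ℝ) ≃ₜ (Fin 3 → ℝ)) (hf : ContDiff ℝ ∞ f)
    (hequiv : ∀ (γ : Γ) (p : Fin 3 → ℝ), f (γ • p) = γ • f p)
    (hharm : ∀ p, HarmAt H G f p)
    (p₀ : Fin 3 → ℝ) (hsing : ¬ Function.Injective (fderiv ℝ f p₀)) : Counterexample := by
  have : ContinuousConstSMul Γ (Fin 3 → ℝ) := ⟨fun γ => (hsm γ).continuous⟩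
  have : IsCancelSMul Γ (Fin 3 → ℝ) := isCancelSMul_iff_eq_one_of_smul_eq.2 hfree
  have hman : IsManifold 𝓘(ℝ, Fin 3 → ℝ) ∞ (QS 3 Γ) := isManifold_quot hsm
  have hcont : Continuous (prj (n := 3) Γ) := (hloc (Γ := Γ)).continuous
  have htop : T2Space (QS 3 Γ) ∧ SecondCountableTopology (QS 3 Γ) ∧ CompactSpace (QS 3 Γ) ∧
      ConnectedSpace (QS 3 Γ) := by
    refine ⟨t2Space_of_properlyDiscontinuousSMul_of_t2Space,
      ContinuousConstSMul.secondCountableTopology, ?_, ?_⟩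
    · obtain ⟨K, hK, hcov⟩ := hco
      refine ⟨?_⟩
      have : (univ : Set (QS 3 Γ)) = prj Γ '' K := by
        symm
        rw [Set.eq_univ_iff_forall]
        intro q
        obtain ⟨x, rfl⟩ := prj_surjective q
        obtain ⟨γ, hγ⟩ := hcov x
        exact ⟨γ • x, hγ, prj_smul γ x⟩
      rw [this]
      exact hK.image hcont
    · exact prj_surjective.connectedSpace hcont
  refine ⟨QS 3 Γ, QS 3 Γ, inferInstance, inferInstance, hman, inferInstance, inferInstance, hman,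
    pushMetric hsm H hH hHinv, pushMetric hsm G hG hGinv, descHomeo f hequiv, htop, htop,
    negCurved_push hsm H hH hHinv hHneg, negCurved_push hsm G hG hGinv hGneg, ?_, ?_, prj Γ p₀, ?_⟩
  · -- smoothness
    intro q
    obtain ⟨x, rfl⟩ := prj_surjective q
    apply contMDiffAt_of_prj hsm
    have : ContMDiff 𝓘(ℝ, Fin 3 → ℝ) 𝓘(ℝ, Fin 3 → ℝ) ∞ (fun z => prj Γ (f z)) :=
      (contMDiff_prj hsm).comp hf.contMDiff
    exact this.contMDiffAt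
  · -- harmonicity
    intro q
    obtain ⟨x, rfl⟩ := prj_surjective q
    obtain ⟨Φ, Ψ, F, y, hΦ, hy, hΨ, hF, hcomm, ht⟩ := hharm x
    refine ⟨fun z => prj Γ (Φ z), fun z => prj Γ (Ψ z), F, y,
      isLocalDiffeomorphAt_prj_comp hsm hΦ, by simp only [hy],
      isLocalDiffeomorphAt_prj_comp hsm hΨ, hF, ?_, ?_⟩
    · filter_upwards [hcomm] with z hz
      rw [descHomeo_prj, hz]
    · intro a
      rw [← ht a]
      exact tension_congr (coordMetric_push_ev hsm H hH hHinv hΦ) (Filter.EventuallyEq.refl _ _)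
        (coordMetric_push_ev hsm G hG hGinv hΨ) a
  · -- the singular point
    intro hinj
    apply hsing
    have hfd : DifferentiableAt ℝ f p₀ := hf.contDiffAt.differentiableAt (by simp)
    have hsmooth : ContMDiffAt 𝓘(ℝ, Fin 3 → ℝ) 𝓘(ℝ, Fin 3 → ℝ) ∞ (descHomeo f hequiv)
        (prj Γ p₀) := by
      apply contMDiffAt_of_prj hsm
      have : ContMDiff 𝓘(ℝ, Fin 3 → ℝ) 𝓘(ℝ, Fin 3 → ℝ) ∞ (fun z => prj Γ (f z)) :=
        (contMDiff_prj hsm).comp hf.contMDiff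
      exact this.contMDiffAt
    have hpd : ∀ x, MDifferentiableAt 𝓘(ℝ, Fin 3 → ℝ) 𝓘(ℝ, Fin 3 → ℝ) (prj (n := 3) Γ) x :=
      (contMDiff_prj hsm).mdifferentiable (by simp)
    have h1 : mfderiv 𝓘(ℝ, Fin 3 → ℝ) 𝓘(ℝ, Fin 3 → ℝ) (descHomeo f hequiv ∘ prj Γ) p₀ =
        (mfderiv 𝓘(ℝ, Fin 3 → ℝ) 𝓘(ℝ, Fin 3 → ℝ) (descHomeo f hequiv) (prj Γ p₀)).comp
          (mfderiv 𝓘(ℝ, Fin 3 → ℝ) 𝓘(ℝ, Fin 3 → ℝ) (prj Γ) p₀) :=
      mfderiv_comp p₀ (hsmooth.mdifferentiableAt (by simp)) (hpd p₀)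
    have h2 : mfderiv 𝓘(ℝ, Fin 3 → ℝ) 𝓘(ℝ, Fin 3 → ℝ) (prj Γ ∘ f) p₀ =
        (mfderiv 𝓘(ℝ, Fin 3 → ℝ) 𝓘(ℝ, Fin 3 → ℝ) (prj Γ) (f p₀)).comp
          (mfderiv 𝓘(ℝ, Fin 3 → ℝ) 𝓘(ℝ, Fin 3 → ℝ) f p₀) :=
      mfderiv_comp p₀ (hpd (f p₀)) hfd.mdifferentiableAt
    have hπinj : Function.Injective (mfderiv 𝓘(ℝ, Fin 3 → ℝ) 𝓘(ℝ, Fin 3 → ℝ) (prj Γ) p₀) :=
      ((isLocalDiffeomorph_prj hsm p₀).mfderivToContinuousLinearEquiv (by simp)).injective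
    intro v w hvw
    have h3 : ∀ u : Fin 3 → ℝ, (mfderiv 𝓘(ℝ, Fin 3 → ℝ) 𝓘(ℝ, Fin 3 → ℝ) (descHomeo f hequiv)
        (prj Γ p₀)) (mfderiv 𝓘(ℝ, Fin 3 → ℝ) 𝓘(ℝ, Fin 3 → ℝ) (prj Γ) p₀ u) =
        (mfderiv 𝓘(ℝ, Fin 3 → ℝ) 𝓘(ℝ, Fin 3 → ℝ) (prj Γ) (f p₀)) (fderiv ℝ f p₀ u) := by
      intro u
      have e1 := congrArg (fun L : (Fin 3 → ℝ) →L[ℝ] (Fin 3 → ℝ) => L u) h1
      have e2 := congrArg (fun L : (Fin 3 → ℝ) →L[ℝ] (Fin 3 → ℝ) => L u) h2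
      rw [mfderiv_eq_fderiv] at e2
      exact e1.symm.trans e2
    apply hπinj
    apply hinj
    rw [h3, h3, hvw]

end Pool.Agent.Work.MP_0fcc57_gt
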