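import Mathlib
import Pool.Agent.Work.MP_0fcc57_gt.Defs

/-!
Tension field of a map `(V, y1, y2)` between diagonal metrics.
-/

open scoped ContDiff Manifold Topology

noncomputable section

namespace Pool.Agent.Work.MP_0fcc57_gt

namespace Tens

theorem pd_congr {n : ℕ} {l : Fin n} {f g : (Fin n → ℝ) → ℝ} {y : Fin n → ℝ}
    (h : f =ᶠ[𝓝 y] g) : pd l f y = pd l g y := by
  unfold pd
  rw [h.fderiv_eq]

theorem pd_const {n : ℕ} (l : Fin n) (c : ℝ) (y : Fin n → ℝ) :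
    pd l (fun _ => c) y = 0 := by
  unfold pd
  simp

theorem pd_apply {n : ℕ} (l i : Fin n) (y : Fin n → ℝ) :
    pd l (fun z => z i) y = if l = i then 1 else 0 := by
  unfold pd
  have h : HasFDerivAt (fun z : Fin n → ℝ => z i) (ContinuousLinearMap.proj (R := ℝ) i) y :=
    hasFDerivAt_apply i y
  rw [h.fderiv]
  simp [Pi.single_apply, eq_comm]

theorem christoffel_diag {G : CoordMetric 3} {g : Fin 3 → (Fin 3 → ℝ) → ℝ} {y : Fin 3 → ℝ}
    (hG : ∀ᶠ z in 𝓝 y, G z = Matrix.diagonal (fun i => g i z)) (hpos : ∀ i, g i y ≠ 0)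
    (k i j : Fin 3) :
    christoffel G k i j y = (1 / 2) * ((g k y)⁻¹ *
      ((if j = k then pd i (g k) y else 0) + (if i = k then pd j (g k) y else 0)
        - (if i = j then pd k (g i) y else 0))) := by
  have hinv : (G y)⁻¹ = Matrix.diagonal (fun i => (g i y)⁻¹) := by
    rw [hG.self_of_nhds]
    apply Matrix.inv_eq_right_inv
    rw [Matrix.diagonal_mul_diagonal]
    rw [← Matrix.diagonal_one]
    congr 1
    funext i
    exact mul_inv_cancel₀ (hpos i)
  have hpd : ∀ l p q : Fin 3, pd l (fun z => G z p q) y = if p = q then pd l (g p) y else 0 := by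
    intro l p q
    split_ifs with h
    · subst h
      apply pd_congr
      filter_upwards [hG] with z hz
      rw [hz, Matrix.diagonal_apply_eq]
    · rw [← pd_const l 0 y]
      apply pd_congr
      filter_upwards [hG] with z hz
      rw [hz, Matrix.diagonal_apply_ne _ h]
  unfold christoffel
  rw [hinv]
  simp only [hpd]
  rw [Finset.sum_eq_single k]
  · rw [Matrix.diagonal_apply_eq]
    congr 2
    by_cases h1 : j = k <;> by_cases h2 : i = k <;> simp [h1, h2]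
  · intro l _ hl
    rw [Matrix.diagonal_apply_ne _ (Ne.symm hl), zero_mul]
  · intro h
    exact absurd (Finset.mem_univ _) h

theorem pd_exp {a : (Fin 3 → ℝ) → ℝ} {y : Fin 3 → ℝ} (ha : DifferentiableAt ℝ a y) (l : Fin 3) :
    pd l (fun z => Real.exp (2 * a z)) y = 2 * pd l a y * Real.exp (2 * a y) := by
  unfold pd
  have h := (ha.hasFDerivAt.const_mul 2).exp
  rw [h.fderiv]
  simp
  ring

theorem pd_mul {f g : (Fin 3 → ℝ) → ℝ} {y : Fin 3 → ℝ} (hf : DifferentiableAt ℝ f y)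
    (hg : DifferentiableAt ℝ g y) (l : Fin 3) :
    pd l (fun z => f z * g z) y = f y * pd l g y + g y * pd l f y := by
  unfold pd
  have h := hf.hasFDerivAt.mul hg.hasFDerivAt
  have h2 : (fun z => f z * g z) = f * g := rfl
  rw [h2, h.fderiv]
  simp

theorem pd_diff {V : (Fin 3 → ℝ) → ℝ} {U : Set (Fin 3 → ℝ)} (hU : IsOpen U) {y : Fin 3 → ℝ}
    (hy : y ∈ U) (hV : ContDiffOn ℝ ∞ V U) (l : Fin 3) : DifferentiableAt ℝ (pd l V) y := by
  have h1 : ContDiffAt ℝ ∞ V y := hV.contDiffAt (hU.mem_nhds hy)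
  have h2 : ContDiffAt ℝ 1 (fderiv ℝ V) y := h1.fderiv_right (m := 1) (by norm_cast)
  have h3 : DifferentiableAt ℝ (fderiv ℝ V) y := h2.differentiableAt (by norm_num)
  exact h3.clm_apply (differentiableAt_const _)

theorem pd_exp_gen {a : (Fin 3 → ℝ) → ℝ} {y : Fin 3 → ℝ} (ha : DifferentiableAt ℝ a y)
    (l : Fin 3) : pd l (fun z => Real.exp (a z)) y = Real.exp (a y) * pd l a y := by
  unfold pd
  rw [ha.hasFDerivAt.exp.fderiv]
  simp

theorem pd_comb {a b c : (Fin 3 → ℝ) → ℝ} {y : Fin 3 → ℝ} (ha : DifferentiableAt ℝ a y)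
    (hb : DifferentiableAt ℝ b y) (hc : DifferentiableAt ℝ c y) (l : Fin 3) :
    pd l (fun z => a z + b z + c z) y = pd l a y + pd l b y + pd l c y := by
  unfold pd
  have h := (ha.hasFDerivAt.add hb.hasFDerivAt).add hc.hasFDerivAt
  have h2 : (fun z => a z + b z + c z) = a + b + c := rfl
  rw [h2, h.fderiv]
  simp

theorem pd_neg {a : (Fin 3 → ℝ) → ℝ} {y : Fin 3 → ℝ} (ha : DifferentiableAt ℝ a y) (l : Fin 3) :
    pd l (fun z => -a z) y = -pd l a y := by
  unfold pd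
  have h := ha.hasFDerivAt.neg
  have h2 : (fun z => -a z) = -a := rfl
  rw [h2, h.fderiv]
  simp

/-- The target functions. -/
def tg : Fin 3 → (Fin 3 → ℝ) → ℝ :=
  ![fun _ => 1, fun z => Real.sinh (z 0) ^ 2 / (1 - z 1 ^ 2),
    fun z => Real.sinh (z 0) ^ 2 * (1 - z 1 ^ 2)]

theorem pd_tg1 (p : Fin 3 → ℝ) (hp : p 1 ^ 2 < 1) (l : Fin 3) :
    pd l (tg 1) p = 2 * Real.sinh (p 0) * Real.cosh (p 0) / (1 - p 1 ^ 2) * (if l = 0 then 1 else 0)
      + Real.sinh (p 0) ^ 2 * (2 * p 1) / (1 - p 1 ^ 2) ^ 2 * (if l = 1 then 1 else 0) := by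
  have h0 : HasFDerivAt (fun z : Fin 3 → ℝ => z 0)
    (ContinuousLinearMap.proj (R := ℝ) (φ := fun _ : Fin 3 => ℝ) 0) p := hasFDerivAt_apply 0 p
  have h1 : HasFDerivAt (fun z : Fin 3 → ℝ => z 1)
    (ContinuousLinearMap.proj (R := ℝ) (φ := fun _ : Fin 3 => ℝ) 1) p := hasFDerivAt_apply 1 p
  have hne : (1 - p 1 ^ 2) ≠ 0 := by linarith
  have h2 := (h1.pow 2).const_sub 1
  have h3 := (hasDerivAt_inv hne).comp_hasFDerivAt p h2
  have h4 := (h0.sinh.pow 2).mul h3
  have h5 : tg 1 = (fun z : Fin 3 → ℝ => Real.sinh (z 0) ^ 2) * (Inv.inv ∘ fun z : Fin 3 → ℝ => 1 - z 1 ^ 2) := by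
    funext z
    simp [tg, div_eq_mul_inv]
  unfold pd
  rw [h5]
  erw [h4.fderiv]
  simp [Pi.single_apply]
  have e0 : ((0 : Fin 3) = l) = (l = 0) := propext eq_comm
  have e1 : ((1 : Fin 3) = l) = (l = 1) := propext eq_comm
  simp only [e0, e1]
  by_cases hl0 : l = 0 <;> by_cases hl1 : l = 1 <;> simp [hl0, hl1] <;> field_simp

theorem pd_tg2 (p : Fin 3 → ℝ) (l : Fin 3) :
    pd l (tg 2) p = 2 * Real.sinh (p 0) * Real.cosh (p 0) * (1 - p 1 ^ 2) * (if l = 0 then 1 else 0)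
      - Real.sinh (p 0) ^ 2 * (2 * p 1) * (if l = 1 then 1 else 0) := by
  have h0 : HasFDerivAt (fun z : Fin 3 → ℝ => z 0)
    (ContinuousLinearMap.proj (R := ℝ) (φ := fun _ : Fin 3 => ℝ) 0) p := hasFDerivAt_apply 0 p
  have h1 : HasFDerivAt (fun z : Fin 3 → ℝ => z 1)
    (ContinuousLinearMap.proj (R := ℝ) (φ := fun _ : Fin 3 => ℝ) 1) p := hasFDerivAt_apply 1 p
  have h2 := (h1.pow 2).const_sub 1
  have h4 := (h0.sinh.pow 2).mul h2
  have h5 : tg 2 = (fun z : Fin 3 → ℝ => Real.sinh (z 0) ^ 2) *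
      (fun z : Fin 3 → ℝ => 1 - z 1 ^ 2) := by
    funext z
    simp [tg]
  unfold pd
  rw [h5]
  erw [h4.fderiv]
  simp [Pi.single_apply]
  have e0 : ((0 : Fin 3) = l) = (l = 0) := propext eq_comm
  have e1 : ((1 : Fin 3) = l) = (l = 1) := propext eq_comm
  simp only [e0, e1]
  by_cases hl0 : l = 0 <;> by_cases hl1 : l = 1 <;> simp [hl0, hl1] <;> ring

theorem pd_E2 (W V : (Fin 3 → ℝ) → ℝ) (p : Fin 3 → ℝ) (hp : p 1 ^ 2 < 1)
    (hW : DifferentiableAt ℝ W p) (hV : DifferentiableAt ℝ V p) :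
    pd 1 (fun z => W z * Real.sinh (V z) ^ 2 / (1 - z 1 ^ 2)) p =
      pd 1 W p * Real.sinh (V p) ^ 2 / (1 - p 1 ^ 2)
      + W p * (2 * Real.sinh (V p) * Real.cosh (V p) * pd 1 V p) / (1 - p 1 ^ 2)
      + W p * Real.sinh (V p) ^ 2 * (2 * p 1) / (1 - p 1 ^ 2) ^ 2 := by
  have h1 : HasFDerivAt (fun z : Fin 3 → ℝ => z 1)
    (ContinuousLinearMap.proj (R := ℝ) (φ := fun _ : Fin 3 => ℝ) 1) p := hasFDerivAt_apply 1 p
  have hne : (1 - p 1 ^ 2) ≠ 0 := by linarith
  have h2 := (h1.pow 2).const_sub 1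
  have h3 := (hasDerivAt_inv hne).comp_hasFDerivAt p h2
  have h4 := (hW.hasFDerivAt.mul (hV.hasFDerivAt.sinh.pow 2)).mul h3
  have h5 : (fun z => W z * Real.sinh (V z) ^ 2 / (1 - z 1 ^ 2)) =
      (W * (fun z : Fin 3 → ℝ => Real.sinh (V z) ^ 2)) *
        (Inv.inv ∘ fun z : Fin 3 → ℝ => 1 - z 1 ^ 2) := by
    funext z
    simp [div_eq_mul_inv]
  unfold pd
  rw [h5]
  erw [h4.fderiv]
  simp
  field_simp
  ring

end Tens

open Tens in
theorem tension_diag (a b c V : (Fin 3 → ℝ) → ℝ) (H G : CoordMetric 3)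
    (F : (Fin 3 → ℝ) → (Fin 3 → ℝ)) (U : Set (Fin 3 → ℝ)) (hU : IsOpen U)
    (y : Fin 3 → ℝ) (hy : y ∈ U)
    (ha : ContDiffOn ℝ ∞ a U) (hb : ContDiffOn ℝ ∞ b U) (hc : ContDiffOn ℝ ∞ c U)
    (hV : ContDiffOn ℝ ∞ V U)
    (ha2 : ∀ z ∈ U, pd 2 a z = 0) (hb2 : ∀ z ∈ U, pd 2 b z = 0) (hc2 : ∀ z ∈ U, pd 2 c z = 0)
    (hV2 : ∀ z ∈ U, pd 2 V z = 0)
    (hH : ∀ z ∈ U, H z = Matrix.diagonal
      ![Real.exp (2 * a z), Real.exp (2 * b z), Real.exp (2 * c z)])
    (hVpos : 0 < V y) (hy1 : y 1 ^ 2 < 1)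
    (hF : ∀ z ∈ U, F z = ![V z, z 1, z 2])
    (hG : ∀ᶠ z in 𝓝 (F y), G z = Matrix.diagonal
      ![1, Real.sinh (z 0) ^ 2 / (1 - z 1 ^ 2), Real.sinh (z 0) ^ 2 * (1 - z 1 ^ 2)])
    (E1 : pd 0 (fun z => Real.exp (-a z + b z + c z) * pd 0 V z) y
        + pd 1 (fun z => Real.exp (a z - b z + c z) * pd 1 V z) y
      = Real.sinh (V y) * Real.cosh (V y) *
        (Real.exp (a y - b y + c y) / (1 - y 1 ^ 2)
          + Real.exp (a y + b y - c y) * (1 - y 1 ^ 2)))
    (E2 : pd 1 (fun z => Real.exp (a z - b z + c z) * Real.sinh (V z) ^ 2 / (1 - z 1 ^ 2)) y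
      = y 1 * Real.sinh (V y) ^ 2 *
        (Real.exp (a y - b y + c y) / (1 - y 1 ^ 2) ^ 2 - Real.exp (a y + b y - c y))) :
    ∀ i, tension H G F i y = 0 := by
  have hUy : U ∈ 𝓝 y := hU.mem_nhds hy
  have da : DifferentiableAt ℝ a y := (ha.contDiffAt hUy).differentiableAt (by norm_num)
  have db : DifferentiableAt ℝ b y := (hb.contDiffAt hUy).differentiableAt (by norm_num)
  have dc : DifferentiableAt ℝ c y := (hc.contDiffAt hUy).differentiableAt (by norm_num)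
  have dV : DifferentiableAt ℝ V y := (hV.contDiffAt hUy).differentiableAt (by norm_num)
  set gh : Fin 3 → (Fin 3 → ℝ) → ℝ := ![fun z => Real.exp (2 * a z), fun z => Real.exp (2 * b z),
    fun z => Real.exp (2 * c z)] with hgh
  have hH' : ∀ᶠ z in 𝓝 y, H z = Matrix.diagonal (fun i => gh i z) := by
    filter_upwards [hUy] with z hz
    rw [hH z hz]
    congr 1
    funext i
    fin_cases i <;> rfl
  have hhpos : ∀ i, gh i y ≠ 0 := by
    intro i
    fin_cases i <;> exact (Real.exp_pos _).ne'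
  have hG' : ∀ᶠ z in 𝓝 (F y), G z = Matrix.diagonal (fun i => tg i z) := by
    filter_upwards [hG] with z hz
    rw [hz]
    congr 1
    funext i
    fin_cases i <;> rfl
  have hF0 : F y 0 = V y := by rw [hF y hy]; rfl
  have hF1 : F y 1 = y 1 := by rw [hF y hy]; rfl
  have hx : (0 : ℝ) < 1 - y 1 ^ 2 := by linarith
  have hs : 0 < Real.sinh (V y) := Real.sinh_pos_iff.mpr hVpos
  have hgpos : ∀ i, tg i (F y) ≠ 0 := by
    intro i
    fin_cases i
    · exact one_ne_zero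
    · change Real.sinh (F y 0) ^ 2 / (1 - F y 1 ^ 2) ≠ 0
      rw [hF0, hF1]
      positivity
    · change Real.sinh (F y 0) ^ 2 * (1 - F y 1 ^ 2) ≠ 0
      rw [hF0, hF1]
      positivity
  have hinv : (H y)⁻¹ = Matrix.diagonal (fun i => (gh i y)⁻¹) := by
    rw [hH'.self_of_nhds]
    apply Matrix.inv_eq_right_inv
    rw [Matrix.diagonal_mul_diagonal, ← Matrix.diagonal_one]
    congr 1
    funext i
    exact mul_inv_cancel₀ (hhpos i)
  -- components of F
  have hFe : ∀ q : Fin 3, ∀ z ∈ U, (fun w => F w q) =ᶠ[𝓝 z] (fun w => (![V w, w 1, w 2] : Fin 3 → ℝ) q) := by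
    intro q z hz
    filter_upwards [hU.mem_nhds hz] with w hw
    rw [hF w hw]
  have hpF : ∀ l q : Fin 3, ∀ z ∈ U, pd l (fun w => F w q) z =
      pd l (fun w => (![V w, w 1, w 2] : Fin 3 → ℝ) q) z := fun l q z hz => pd_congr (hFe q z hz)
  have hppF : ∀ l m q : Fin 3, pd l (pd m (fun w => F w q)) y =
      pd l (pd m (fun w => (![V w, w 1, w 2] : Fin 3 → ℝ) q)) y := by
    intro l m q
    apply pd_congr
    filter_upwards [hUy] with z hz
    exact hpF m q z hz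
  have hF0' : ∀ l, pd l (fun w => F w 0) y = pd l V y := fun l => hpF l 0 y hy
  have hF1' : ∀ l, pd l (fun w => F w 1) y = if l = 1 then 1 else 0 := fun l => by
    rw [hpF l 1 y hy]
    exact pd_apply l 1 y
  have hF2' : ∀ l, pd l (fun w => F w 2) y = if l = 2 then 1 else 0 := fun l => by
    rw [hpF l 2 y hy]
    exact pd_apply l 2 y
  have hF0'' : ∀ l m, pd l (pd m (fun w => F w 0)) y = pd l (pd m V) y := fun l m => hppF l m 0
  have hF1'' : ∀ l m, pd l (pd m (fun w => F w 1)) y = 0 := fun l m => by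
    rw [hppF l m 1]
    have : pd m (fun w : Fin 3 → ℝ => (![V w, w 1, w 2] : Fin 3 → ℝ) 1) =
        fun _ => if m = 1 then 1 else 0 := by
      funext z
      exact pd_apply m 1 z
    rw [this]
    exact pd_const l _ y
  have hF2'' : ∀ l m, pd l (pd m (fun w => F w 2)) y = 0 := fun l m => by
    rw [hppF l m 2]
    have : pd m (fun w : Fin 3 → ℝ => (![V w, w 1, w 2] : Fin 3 → ℝ) 2) =
        fun _ => if m = 2 then 1 else 0 := by
      funext z
      exact pd_apply m 2 z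
    rw [this]
    exact pd_const l _ y
  have hV22 : pd 2 (pd 2 V) y = 0 := by
    have : pd 2 V =ᶠ[𝓝 y] fun _ => 0 := by
      filter_upwards [hUy] with z hz
      exact hV2 z hz
    rw [pd_congr this, pd_const]
  have hCH := fun k i j => christoffel_diag hH' hhpos k i j
  have hCG := fun k i j => christoffel_diag hG' hgpos k i j
  have hg0 : ∀ l, pd l (gh 0) y = 2 * pd l a y * Real.exp (2 * a y) := fun l => pd_exp da l
  have hg1 : ∀ l, pd l (gh 1) y = 2 * pd l b y * Real.exp (2 * b y) := fun l => pd_exp db l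
  have hg2 : ∀ l, pd l (gh 2) y = 2 * pd l c y * Real.exp (2 * c y) := fun l => pd_exp dc l
  have ht0 : ∀ l, pd l (tg 0) (F y) = 0 := fun l => pd_const l 1 _
  have ht1 := fun l => pd_tg1 (F y) (by rw [hF1]; exact hy1) l
  have ht2 := fun l => pd_tg2 (F y) l
  have v0 : gh 0 y = Real.exp (2 * a y) := rfl
  have v1 : gh 1 y = Real.exp (2 * b y) := rfl
  have v2 : gh 2 y = Real.exp (2 * c y) := rfl
  have w0 : tg 0 (F y) = 1 := rfl
  have w1 : tg 1 (F y) = Real.sinh (V y) ^ 2 / (1 - y 1 ^ 2) := by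
    change Real.sinh (F y 0) ^ 2 / (1 - F y 1 ^ 2) = _
    rw [hF0, hF1]
  have w2 : tg 2 (F y) = Real.sinh (V y) ^ 2 * (1 - y 1 ^ 2) := by
    change Real.sinh (F y 0) ^ 2 * (1 - F y 1 ^ 2) = _
    rw [hF0, hF1]
  rw [hF0, hF1] at ht1 ht2
  have ea : Real.exp (2 * a y) = Real.exp (a y) ^ 2 := by rw [← Real.exp_nat_mul]; norm_num
  have eb : Real.exp (2 * b y) = Real.exp (b y) ^ 2 := by rw [← Real.exp_nat_mul]; norm_num
  have ec : Real.exp (2 * c y) = Real.exp (c y) ^ 2 := by rw [← Real.exp_nat_mul]; norm_num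
  -- expand the hypotheses
  have d1 : DifferentiableAt ℝ (fun z => -a z + b z + c z) y := by fun_prop
  have d1' : DifferentiableAt ℝ (fun z => Real.exp (-a z + b z + c z)) y := d1.exp
  have d2 : DifferentiableAt ℝ (fun z => a z + -b z + c z) y := by fun_prop
  have d2' : DifferentiableAt ℝ (fun z => Real.exp (a z + -b z + c z)) y := d2.exp
  have dna : DifferentiableAt ℝ (fun z => -a z) y := by fun_prop
  have dnb : DifferentiableAt ℝ (fun z => -b z) y := by fun_prop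
  have hPa := Real.exp_pos (a y)
  have hPb := Real.exp_pos (b y)
  have hPc := Real.exp_pos (c y)
  have X1 : pd 0 (fun z => Real.exp (-a z + b z + c z) * pd 0 V z) y =
      Real.exp (b y) * Real.exp (c y) / Real.exp (a y) * (pd 0 (pd 0 V) y
        + (-pd 0 a y + pd 0 b y + pd 0 c y) * pd 0 V y) := by
    rw [pd_mul d1' (pd_diff hU hy hV 0) 0, pd_exp_gen d1 0, pd_comb dna db dc, pd_neg da,
      Real.exp_add, Real.exp_add, Real.exp_neg]
    field_simp
  have X2 : pd 1 (fun z => Real.exp (a z - b z + c z) * pd 1 V z) y =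
      Real.exp (a y) * Real.exp (c y) / Real.exp (b y) * (pd 1 (pd 1 V) y
        + (pd 1 a y - pd 1 b y + pd 1 c y) * pd 1 V y) := by
    simp only [sub_eq_add_neg (a _) (b _)]
    rw [pd_mul d2' (pd_diff hU hy hV 1) 1, pd_exp_gen d2 1, pd_comb da dnb dc, pd_neg db,
      Real.exp_add, Real.exp_add, Real.exp_neg]
    field_simp
    ring
  have X3 : pd 1 (fun z => Real.exp (a z - b z + c z) * Real.sinh (V z) ^ 2 / (1 - z 1 ^ 2)) y =
      Real.exp (a y) * Real.exp (c y) / Real.exp (b y) *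
        ((pd 1 a y - pd 1 b y + pd 1 c y) * Real.sinh (V y) ^ 2 / (1 - y 1 ^ 2)
        + 2 * Real.sinh (V y) * Real.cosh (V y) * pd 1 V y / (1 - y 1 ^ 2)
        + Real.sinh (V y) ^ 2 * (2 * y 1) / (1 - y 1 ^ 2) ^ 2) := by
    simp only [sub_eq_add_neg (a _) (b _)]
    rw [pd_E2 _ V y hy1 d2' dV, pd_exp_gen d2 1, pd_comb da dnb dc, pd_neg db,
      Real.exp_add, Real.exp_add, Real.exp_neg]
    field_simp
    ring
  rw [X1, X2, Real.exp_add, Real.exp_sub, Real.exp_sub, Real.exp_add] at E1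
  rw [X3, Real.exp_add, Real.exp_sub, Real.exp_sub, Real.exp_add] at E2
  have ha2y := ha2 y hy
  have hb2y := hb2 y hy
  have hc2y := hc2 y hy
  have hV2y := hV2 y hy
  intro i
  unfold tension
  simp only [hCH, hCG]
  rw [hinv]
  fin_cases i
  · simp only [Fin.sum_univ_three, Matrix.diagonal_apply, Fin.zero_eta, Fin.isValue, hF0', hF1',
      hF2', hF0'', hg0, hg1, hg2, ht0, ht1, ht2, v0, v1, v2, w0, w1, w2, ea, eb, ec, ha2y, hb2y,
      hc2y, hV2y, hV22]
    simp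
    field_simp
    field_simp at E1
    linear_combination E1
  · simp only [Fin.sum_univ_three, Matrix.diagonal_apply, Fin.mk_one, Fin.isValue, hF0', hF1',
      hF2', hF1'', hg0, hg1, hg2, ht0, ht1, ht2, v0, v1, v2, w0, w1, w2, ea, eb, ec, ha2y, hb2y,
      hc2y, hV2y, hV22]
    simp
    field_simp
    field_simp at E2
    linear_combination E2
  · simp only [Fin.sum_univ_three, Matrix.diagonal_apply, Fin.reduceFinMk, Fin.isValue, hF0', hF1',
      hF2', hF2'', hg0, hg1, hg2, ht0, ht1, ht2, v0, v1, v2, w0, w1, w2, ea, eb, ec, ha2y, hb2y,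
      hc2y, hV2y, hV22]
    simp

end Pool.Agent.Work.MP_0fcc57_gt
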