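import Pool.Agent.Work.MP_0fcc57_gt.Setup

/-!
# Existence of the data
-/

open scoped ContDiff Topology
open Real Set Filter

noncomputable section

namespace Pool.Agent.Work.MP_0fcc57_gt

/-- radial profile of the layer -/
def nu (Λ r : ℝ) : ℝ := 1 / 2 * (sinh r / cosh r) * exp (log (1 + sinh r ^ 2) / 8 - Λ * sinh r ^ 2)

lemma nu_contDiff (Λ : ℝ) : ContDiff ℝ ∞ (nu Λ) := by
  unfold nu
  apply ContDiff.mul
  · apply contDiff_const.mul
    exact Real.contDiff_sinh.div Real.contDiff_cosh (fun r => (Real.cosh_pos r).ne')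
  · apply ContDiff.exp
    apply ContDiff.sub
    · apply ContDiff.div_const
      apply ContDiff.log
      · exact contDiff_const.add (Real.contDiff_sinh.pow 2)
      · intro r; positivity
    · exact contDiff_const.mul (Real.contDiff_sinh.pow 2)

lemma nu_pos {Λ r : ℝ} (h : 0 < r) : 0 < nu Λ r := by
  unfold nu
  have := Real.sinh_pos_iff.mpr h
  have := Real.cosh_pos r
  positivity

lemma nu_hasDerivAt {Λ r : ℝ} (h : 0 < r) : HasDerivAt (nu Λ)
    (nu Λ r * (1 / (sinh r * cosh r) + sinh (2 * r) / (8 * (1 + sinh r ^ 2)) - Λ * sinh (2 * r))) r := by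
  have hs := Real.sinh_pos_iff.mpr h
  have hc := Real.cosh_pos r
  have h1 := ((Real.hasDerivAt_sinh r).fun_div (Real.hasDerivAt_cosh r) hc.ne').const_mul (1/2)
  have h0 : HasDerivAt (fun t => sinh t ^ 2) (sinh (2 * r)) r := by
    refine ((Real.hasDerivAt_sinh r).fun_pow 2).congr_deriv ?_
    rw [Real.sinh_two_mul]; simp
  have h2 := (((h0.const_add 1).log (by positivity : (1:ℝ) + sinh r ^ 2 ≠ 0)).div_const 8).fun_sub
    (h0.const_mul Λ)
  refine (h1.fun_mul h2.exp).congr_deriv ?_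
  unfold nu
  have hcs : cosh r ^ 2 = 1 + sinh r ^ 2 := Real.cosh_sq' _
  have h3 : (1:ℝ) + sinh r ^ 2 ≠ 0 := by positivity
  field_simp
  rw [hcs]
  ring

lemma lam_nu {Λ r : ℝ} (h : 0 < r) : lam (nu Λ) r =
    Λ * sinh (2 * r) - 1 / (sinh r * cosh r) - sinh (2 * r) / (8 * (1 + sinh r ^ 2)) := by
  unfold lam
  rw [(nu_hasDerivAt h).deriv, mul_div_assoc]
  have := (nu_pos (Λ := Λ) h).ne'
  field_simp
  ring

lemma lam_nu_ge {Λ r : ℝ} (hΛ : 0 ≤ Λ) (h : 1 ≤ r) : Λ - 2 ≤ lam (nu Λ) r := by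
  have hr : 0 < r := by linarith
  rw [lam_nu hr]
  have hs := Real.sinh_pos_iff.mpr hr
  have hc := Real.cosh_pos r
  have hs1 : 1 ≤ sinh r := by
    have := Real.self_le_sinh_iff.mpr hr.le
    linarith
  have hc1 : 1 ≤ cosh r := Real.one_le_cosh r
  have hcs : cosh r ^ 2 = 1 + sinh r ^ 2 := Real.cosh_sq' _
  have h2 : 1 ≤ sinh (2 * r) := by
    rw [Real.sinh_two_mul]; nlinarith
  have h3 : 1 / (sinh r * cosh r) ≤ 1 := by
    rw [div_le_one (by positivity)]; nlinarith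
  have h4 : sinh (2 * r) / (8 * (1 + sinh r ^ 2)) ≤ 1 := by
    rw [div_le_one (by positivity), Real.sinh_two_mul]
    nlinarith [sq_nonneg (sinh r - cosh r)]
  nlinarith

namespace Setup
variable (T : Setup)

/-- The condition that all positivity requirements hold on the polar region. -/
def AllGood : Prop := ∀ p ∈ PR, T.P.Good (iW T.w p.1) p

variable {T}

lemma goodSet_eq (h : T.AllGood) :
    T.P.GoodSet PR (fun p : ℝ × ℝ => iW T.w p.1) id = PR := by
  ext p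
  constructor
  · exact fun hp => hp.1
  · exact fun hp => ⟨hp, h p hp⟩

/-- The perturbed polar metric. -/
def L (h : T.AllGood) : LData PR where
  M := T.toRData.M
  i := iW T.w
  B := fun p => log (T.P.bh (iW T.w p.1) p)
  C := fun p => log (T.P.ch (iW T.w p.1) p)
  hU := PR_isOpen
  hi := T.toRData.iW_contDiffOn
  hipos := fun _ hp => T.toRData.iW_pos' hp
  hM := fun _ hp => T.toRData.M_hasDerivAt hp.1
  hMs := T.toRData.M_contDiffOn
  hB := by
    have := T.P.lb_smooth (O := PR) (i := fun p : ℝ × ℝ => iW T.w p.1) (pr := id)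
      T.toRData.iW_contDiffOn contDiffOn_id
    rw [goodSet_eq h] at this
    exact this
  hC := by
    have := T.P.lc_smooth (O := PR) (i := fun p : ℝ × ℝ => iW T.w p.1) (pr := id)
      T.toRData.iW_contDiffOn contDiffOn_id
    rw [goodSet_eq h] at this
    exact this

/-- The curvature conditions everywhere. -/
def AllCurv (h : T.AllGood) : Prop := ∀ p ∈ PR, 0 < (L h).cK p ∧ 0 < (L h).cHrr p ∧
  (L h).cHrx p ^ 2 < (L h).cHrr p * (L h).cHxx p

end Setup

/-- curvature quantities of an `LData` that is locally a slice -/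
lemma curv_of_slice {U : Set (ℝ × ℝ)} (L : LData U) {ν : ℝ → ℝ} {fB fC : ℝ × ℝ × ℝ → ℝ}
    {Ω : Set (ℝ × ℝ × ℝ)} (hΩ : IsOpen Ω) (hfB : ContDiffOn ℝ ∞ fB Ω) (hfC : ContDiffOn ℝ ∞ fC Ω)
    {δ : ℝ} (hδ : 0 < δ) {p : ℝ × ℝ} (hmem : (δ, p) ∈ Ω)
    (hi : L.i =ᶠ[𝓝 p.1] fun r => δ * ν r)
    (hB : L.B =ᶠ[𝓝 p] slice fB δ) (hC : L.C =ᶠ[𝓝 p] slice fC δ) :
    L.cK p = Kc ν fB fC (δ, p) ∧ L.cHrr p = Hrrc ν fB fC (δ, p) ∧
      L.cHxx p = Hxxc ν fB fC (δ, p) ∧ L.cHrx p = Hrxc ν fB fC (δ, p) := by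
  have hp : p ∈ sliceS Ω δ := hmem
  have hlam0 : lam (fun r => δ * ν r) = lam ν := by
    funext r
    unfold lam
    rw [deriv_const_mul_field, mul_div_mul_left _ _ hδ.ne']
  have hlamev : lam L.i =ᶠ[𝓝 p.1] lam ν := by
    filter_upwards [hi.eventuallyEq_nhds] with t ht
    have : lam L.i t = lam (fun r => δ * ν r) t := by
      unfold lam; rw [ht.deriv_eq, ht.eq_of_nhds]
    rw [this, hlam0]
  have elm : L.lm p = lam ν p.1 := hlamev.eq_of_nhds
  have elm' : deriv (lam L.i) p.1 = deriv (lam ν) p.1 := hlamev.deriv_eq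
  have ei : L.i p.1 = ii ν (δ, p) := hi.eq_of_nhds
  have eB : L.B p = fB (δ, p) := hB.eq_of_nhds
  have eB1 : D1 L.B p = dr fB (δ, p) := by rw [D1_congr hB, D1_slice hΩ hfB δ hp]; rfl
  have eC1 : D1 L.C p = dr fC (δ, p) := by rw [D1_congr hC, D1_slice hΩ hfC δ hp]; rfl
  have eB2 : D2 L.B p = dx fB (δ, p) := by rw [D2_congr hB, D2_slice hΩ hfB δ hp]; rfl
  have eC2 : D2 L.C p = dx fC (δ, p) := by rw [D2_congr hC, D2_slice hΩ hfC δ hp]; rfl
  have eB11 : D1 (D1 L.B) p = dr (dr fB) (δ, p) := by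
    rw [D1_congr (D1_eventually_congr hB), D11_slice hΩ hfB δ hp]; rfl
  have eC11 : D1 (D1 L.C) p = dr (dr fC) (δ, p) := by
    rw [D1_congr (D1_eventually_congr hC), D11_slice hΩ hfC δ hp]; rfl
  have eB12 : D1 (D2 L.B) p = dr (dx fB) (δ, p) := by
    rw [D1_congr (D2_eventually_congr hB), D12_slice hΩ hfB δ hp]; rfl
  have eB22 : D2 (D2 L.B) p = dx (dx fB) (δ, p) := by
    rw [D2_congr (D2_eventually_congr hB), D22_slice hΩ hfB δ hp]; rfl
  have eC22 : D2 (D2 L.C) p = dx (dx fC) (δ, p) := by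
    rw [D2_congr (D2_eventually_congr hC), D22_slice hΩ hfC δ hp]; rfl
  refine ⟨?_, ?_, ?_, ?_⟩
  · unfold LData.cK LData.nr Kc nrc
    rw [elm, elm', ei, eB, eB1, eC1, eB2, eC2, eC11, eB22, eC22]
  · unfold LData.cHrr LData.sr Hrrc src
    rw [elm, elm', ei, eB, eB1, eC1, eB2, eC2, eB11]
  · unfold LData.cHxx LData.sr LData.nr Hxxc nrc src
    rw [elm, ei, eB, eB1, eC1, eB2, eC2, eB22]
  · unfold LData.cHrx LData.sr LData.nr Hrxc nrc src
    rw [elm, ei, eB1, eC1, eB2, eC2, eB12]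

theorem setup_exists : ∃ (T : Setup) (h : T.AllGood), Setup.AllCurv h := by
  obtain ⟨H, b, Bt, S, τ₁, hS, hτ₁, hH, hb, hBt, hHout, hbout, hH0, hb0, hle, heq, hpos⟩ :=
    profiles_exist
  obtain ⟨r0, hr0def⟩ : ∃ r0 : ℝ, r0 = 4 := ⟨4, rfl⟩
  have hr0 : 0 < r0 := by rw [hr0def]; norm_num
  set q := sinh r0 * cosh r0 with hq
  have hqpos : 0 < q := mul_pos (Real.sinh_pos_iff.mpr hr0) (Real.cosh_pos r0)
  obtain ⟨η, hη, hηe⟩ := Metric.eventually_nhds_iff.mp
    (scaled_eventually (S := S) (τ₁ := τ₁) hr0 hH hb hBt hpos)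
  set e := min (η / 2) (min (1 / (S + 1)) (q / (4 * τ₁))) with he
  have hepos : 0 < e := by
    apply lt_min (by linarith) (lt_min (by positivity) (by positivity))
  have heη : e < η := lt_of_le_of_lt (min_le_left _ _) (by linarith)
  have heS : e * (S + 1) ≤ 1 := by
    have : e ≤ 1 / (S + 1) := le_trans (min_le_right _ _) (min_le_left _ _)
    rwa [le_div_iff₀ (by linarith)] at this
  have heτ : e * τ₁ / q < 1 / 2 := by
    have h1 : e ≤ q / (4 * τ₁) := le_trans (min_le_right _ _) (min_le_right _ _)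
    rw [le_div_iff₀ (by positivity)] at h1
    rw [div_lt_iff₀ hqpos]; linarith
  set P : PData := ⟨H, b, Bt, r0, q, e, hH, hb, hBt, hr0, hqpos, hepos⟩ with hP
  -- the compact set
  set K : Set (ℝ × ℝ) := {p | |P.s p| ≤ S ∧ P.τ p ≤ τ₁} with hKdef
  have hPe : P.e = e := rfl
  have hPr : P.r0 = r0 := rfl
  have hPq : P.q = q := rfl
  have hsr : ∀ p : ℝ × ℝ, |P.s p| ≤ S → p.1 ∈ Icc (r0 - e * S) (r0 + e * S) := by
    intro p hp
    unfold PData.s at hp
    rw [hPe, hPr, abs_div, abs_of_pos hepos, div_le_iff₀ hepos, abs_le] at hp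
    constructor <;> nlinarith [hp.1, hp.2]
  have hxx : ∀ p : ℝ × ℝ, P.τ p ≤ τ₁ → p.2 ^ 2 ≤ 1 / 2 := by
    intro p hp
    unfold PData.τ at hp
    rw [hPe, hPq, div_le_iff₀ hepos] at hp
    have h1 : p.2 ^ 2 ≤ τ₁ * e / q := by rw [le_div_iff₀ hqpos]; exact hp
    have h2 : τ₁ * e / q = e * τ₁ / q := by ring
    linarith
  have hKcl : IsClosed K := by
    apply IsClosed.inter
    · exact isClosed_le P.s_contDiff.continuous.abs continuous_const
    · exact isClosed_le P.τ_contDiff.continuous continuous_const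
  have hKsub : K ⊆ Icc (r0 - e * S) (r0 + e * S) ×ˢ Icc (-1) 1 := by
    intro p hp
    refine ⟨hsr p hp.1, ?_⟩
    have := hxx p hp.2
    constructor <;> nlinarith
  have hK : IsCompact K := (isCompact_Icc.prod isCompact_Icc).of_isClosed_subset hKcl hKsub
  have hτnn : ∀ p : ℝ × ℝ, 0 ≤ P.τ p := fun p => by
    unfold PData.τ; have := P.hq; have := P.he; positivity
  have hgood0 : ∀ p ∈ K, P.Good 0 p := by
    intro p hp
    apply P.good_of_scaled
    have := hηe (y := e) (by simpa [abs_of_pos hepos] using heη) (P.s p, P.τ p)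
      ⟨abs_le.mp hp.1, ⟨hτnn p, hp.2⟩⟩
    exact this
  set rm := r0 - e * (S + 1) with hrm
  set rp := r0 + e * (S + 1) with hrp
  have heS0 : 0 < e * S := mul_pos hepos hS
  have heS1 : e * (S + 1) = e * S + e := by ring
  have hrm3 : 3 ≤ rm := by rw [hrm, hr0def]; linarith
  have hrmrp : rm < rp := by rw [hrm, hrp]; nlinarith
  have hKr : ∀ p ∈ K, p.1 ∈ Ioo rm rp := by
    intro p hp
    have := hsr p hp.1
    rw [hrm, hrp, heS1]
    exact ⟨by linarith [this.1], by linarith [this.2]⟩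
  have hKU : K ⊆ P.U0 rm rp := fun p hp => ⟨hKr p hp, hgood0 p hp⟩
  obtain ⟨Λ₀, hΛ₀⟩ := P.pertD hK hKU
  set Λ := |Λ₀| + 2 with hΛ
  have hΛpos : 0 ≤ Λ := by positivity
  have hev := hΛ₀ (nu Λ) (nu_contDiff Λ) (fun r hr => nu_pos (by linarith [hr.1]))
    (fun p hp => by
      have h1 := lam_nu_ge hΛpos (show 1 ≤ p.1 by linarith [(hKr p hp).1])
      have h2 := le_abs_self Λ₀
      linarith)
  obtain ⟨δ₀, hδ₀, hδ⟩ := Metric.eventually_nhds_iff.mp hev
  have hsrm : 3 ≤ sinh rm := by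
    have := Real.self_le_sinh_iff.mpr (show 0 ≤ rm by linarith)
    linarith
  have hum : 2 < sinh rm ^ 2 := by nlinarith
  have hup : sinh rm ^ 2 < sinh rp ^ 2 :=
    pow_lt_pow_left₀ (Real.sinh_lt_sinh.mpr hrmrp) (by linarith) (by norm_num)
  obtain ⟨ε₀, hε₀, hε⟩ := radial_exists hum hup hΛpos
  set δ := min δ₀ ε₀ / 2 with hδdef
  have hmin : 0 < min δ₀ ε₀ := lt_min hδ₀ hε₀
  have hδpos : 0 < δ := by rw [hδdef]; linarith
  have hδlt : δ < δ₀ := lt_of_lt_of_le (by rw [hδdef]; linarith) (min_le_left δ₀ ε₀)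
  have hδlt' : δ < ε₀ := lt_of_lt_of_le (by rw [hδdef]; linarith) (min_le_right δ₀ ε₀)
  obtain ⟨w, Bd, hw, hwl, hwr, hB, hwpos, hwlayer, hX⟩ := hε δ hδpos hδlt'
  have hr2 : 2 < r0 - e * S := by linarith [hrm3]
  have hB2 : sinh (r0 + e * S) ^ 2 < Bd := by
    have h1 : sinh (r0 + e * S) < sinh rp := Real.sinh_lt_sinh.mpr (by rw [hrp]; nlinarith)
    have h2 : 0 < sinh (r0 + e * S) := Real.sinh_pos_iff.mpr (by positivity)
    have h3 : sinh (r0 + e * S) ^ 2 < sinh rp ^ 2 := pow_lt_pow_left₀ h1 h2.le (by norm_num)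
    linarith
  have hBpos : 0 < Bd := lt_trans (by positivity) hB
  set T : Setup :=
    { w := w
      Bd := Bd
      hw := hw
      hleft := hwl
      hright := hwr
      hBd := hBpos
      hpos := hwpos
      hX := hX
      P := P
      S := S
      τ₁ := τ₁
      hS := hS
      hτ₁ := hτ₁
      hHout := hHout
      hbout := hbout
      hH0 := hH0
      hb0 := hb0
      hle := hle
      heq := heq
      hr2 := hr2
      hT := heτ
      hB2 := hB2 } with hT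
  have hTw : T.w = w := rfl
  have hTP : T.P = P := rfl
  -- on the layer
  have hiW : ∀ r ∈ Icc rm rp, iW w r = δ * nu Λ r := by
    intro r hr
    have hr0' : 0 < r := by linarith [hr.1]
    have hs := Real.sinh_pos_iff.mpr hr0'
    have hc := Real.cosh_pos r
    have h1 : sinh rm ^ 2 ≤ sinh r ^ 2 :=
      pow_le_pow_left₀ (by linarith) (Real.sinh_le_sinh.mpr hr.1) 2
    have h2 : sinh r ^ 2 ≤ sinh rp ^ 2 :=
      pow_le_pow_left₀ hs.le (Real.sinh_le_sinh.mpr hr.2) 2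
    unfold iW nu
    rw [hwlayer _ ⟨h1, h2⟩, Real.sinh_two_mul]
    field_simp
  have hout_or : ∀ p : ℝ × ℝ, p ∉ K → P.Out S τ₁ p := by
    intro p hp
    rw [hKdef] at hp
    unfold PData.Out
    by_contra hcon
    push Not at hcon
    exact hp hcon
  have hKdata : ∀ p ∈ K, ((δ, p) ∈ P.Om rm rp (nu Λ) ∧
      0 < Kc (nu Λ) (P.fB (nu Λ)) (P.fC (nu Λ)) (δ, p) ∧
      0 < Hrrc (nu Λ) (P.fB (nu Λ)) (P.fC (nu Λ)) (δ, p) ∧
      Hrxc (nu Λ) (P.fB (nu Λ)) (P.fC (nu Λ)) (δ, p) ^ 2 <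
        Hrrc (nu Λ) (P.fB (nu Λ)) (P.fC (nu Λ)) (δ, p) *
        Hxxc (nu Λ) (P.fB (nu Λ)) (P.fC (nu Λ)) (δ, p)) :=
    hδ (y := δ) (by simpa [abs_of_pos hδpos] using hδlt)
  have hAG : T.AllGood := by
    intro p hp
    rw [hTw, hTP]
    by_cases hpK : p ∈ K
    · have h1 := (hKdata p hpK).1.2
      have h2 := hKr p hpK
      rw [hiW p.1 ⟨h2.1.le, h2.2.le⟩]
      exact h1
    · exact P.out_good hHout hbout hp (hout_or p hpK) _
  refine ⟨T, hAG, ?_⟩
  intro p hp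
  by_cases hpK : p ∈ K
  · obtain ⟨k1, k2, k3, k4⟩ := hKdata p hpK
    have hrr := hKr p hpK
    have hev1 : iW w =ᶠ[𝓝 p.1] fun r => δ * nu Λ r := by
      filter_upwards [Ioo_mem_nhds hrr.1 hrr.2] with r hr using hiW r ⟨hr.1.le, hr.2.le⟩
    have hopen : IsOpen {z : ℝ × ℝ | z.1 ∈ Ioo rm rp} := isOpen_Ioo.preimage continuous_fst
    have hev2 : (Setup.L hAG).B =ᶠ[𝓝 p] slice (P.fB (nu Λ)) δ := by
      filter_upwards [hopen.mem_nhds hrr] with z hz
      show log (P.bh (iW w z.1) z) = log (P.bh (ii (nu Λ) (δ, z)) z)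
      rw [hiW z.1 ⟨hz.1.le, hz.2.le⟩]; rfl
    have hev3 : (Setup.L hAG).C =ᶠ[𝓝 p] slice (P.fC (nu Λ)) δ := by
      filter_upwards [hopen.mem_nhds hrr] with z hz
      show log (P.ch (iW w z.1) z) = log (P.ch (ii (nu Λ) (δ, z)) z)
      rw [hiW z.1 ⟨hz.1.le, hz.2.le⟩]; rfl
    obtain ⟨c1, c2, c3, c4⟩ := curv_of_slice (Setup.L hAG) (P.Om_isOpen rm rp (nu_contDiff Λ))
      (P.fB_smooth rm rp (nu_contDiff Λ)) (P.fC_smooth rm rp (nu_contDiff Λ)) hδpos k1
      hev1 hev2 hev3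
    rw [c1, c2, c3, c4]
    exact ⟨k2, k3, k4⟩
  · have hout := hout_or p hpK
    have hopen := (P.out_isOpen S τ₁).inter PR_isOpen
    have hev2 : (Setup.L hAG).B =ᶠ[𝓝 p] Brad := by
      filter_upwards [hopen.mem_nhds ⟨hout, hp⟩] with z hz
      exact (P.out_bh hHout hbout hz.2 hz.1 _).1
    have hev3 : (Setup.L hAG).C =ᶠ[𝓝 p] Crad := by
      filter_upwards [hopen.mem_nhds ⟨hout, hp⟩] with z hz
      exact (P.out_bh hHout hbout hz.2 hz.1 _).2
    exact radial_cond (Setup.L hAG) hw hwpos hwl hX hp hp (Filter.EventuallyEq.refl _ _) hev2 hev3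

end Pool.Agent.Work.MP_0fcc57_gt
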