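import Pool.Agent.Work.MP_0fcc57_gt.Local
import Pool.Agent.Work.MP_0fcc57_gt.Descend

/-!
# The counterexample
-/

open scoped ContDiff Topology
open Real Set Filter

noncomputable section

namespace Pool.Agent.Work.MP_0fcc57_gt

namespace Setup
variable {T : Setup} (h : T.AllGood)

/-- the metric on `ℝ³` -/
def Hm (h : T.AllGood) : CoordMetric 3 := fun p =>
  if 0 < ax p then Hpol (LD T.toRData T.P h 0) p else H0 T.toRData 0 p

lemma Hm_off {p : Fin 3 → ℝ} (hp : 0 < ax p) : Hm h p = Hpol (LD T.toRData T.P h 0) p :=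
  if_pos hp

lemma Hm_out {p : Fin 3 → ℝ} (ho : T.OutAt p) : Hm h p = H0 T.toRData 0 p := by
  unfold Hm
  split_ifs with hp
  · obtain ⟨y, hy, rfl⟩ := exists_Psi hp
    have ho' : T.P.Out T.S T.τ₁ (y 0, y 1) := by
      have := ho
      unfold OutAt at this
      rwa [Yc_Psi hy] at this
    have hb := T.P.out_bh T.hHout T.hbout hy ho' (iW T.toRData.w (y 0))
    have h1 := LD_radial (D := T.toRData) (P := T.P) h 0 hy hb.1 hb.2
    rw [H0_Wf hy, ← h1]
    unfold Hpol
    congr 2
    unfold diagM Yv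
    rw [Yc_Psi hy]
    simp
  · rfl

lemma Hm_small {p : Fin 3 → ℝ} (hp : sq p < 2) : Hm h p = H0 T.toRData 0 p :=
  Hm_out h (out_of_small hp)

lemma Hm_axis {p : Fin 3 → ℝ} (hp : sq p / 2 < p 2 ^ 2) : Hm h p = H0 T.toRData 0 p :=
  Hm_out h (out_of_axis hp)

lemma axis_isOpen : IsOpen {p : Fin 3 → ℝ | sq p / 2 < p 2 ^ 2} :=
  isOpen_lt (sq_contDiff.continuous.div_const 2) ((continuous_apply 2).pow 2)

lemma small_isOpen : IsOpen {p : Fin 3 → ℝ | sq p < 2} :=
  isOpen_lt sq_contDiff.continuous continuous_const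

/-- near points of the axis the metric is radial and the map is the identity -/
lemma near_axis {p : Fin 3 → ℝ} (hp : ax p = 0) :
    (∀ᶠ q in 𝓝 p, Hm h q = H0 T.toRData 0 q) ∧ (∀ᶠ q in 𝓝 p, T.f0 q = q) := by
  by_cases h2 : p 2 = 0
  · have hs : sq p < 2 := by rw [sq_eq_ax, hp, h2]; norm_num
    have := small_isOpen.mem_nhds hs
    refine ⟨?_, ?_⟩
    · filter_upwards [this] with q hq using Hm_small h hq
    · filter_upwards [this] with q hq using f0_out (out_of_small hq)
  · have h3 : 0 < p 2 ^ 2 := by positivity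
    have hs : sq p / 2 < p 2 ^ 2 := by rw [sq_eq_ax, hp]; linarith
    have := axis_isOpen.mem_nhds hs
    refine ⟨?_, ?_⟩
    · filter_upwards [this] with q hq using Hm_axis h hq
    · filter_upwards [this] with q hq using f0_out (out_of_axis hq)

lemma ax_isOpen : IsOpen {p : Fin 3 → ℝ | 0 < ax p} :=
  isOpen_lt continuous_const ax_contDiff.continuous

lemma Hm_smooth (i j : Fin 3) : ContDiff ℝ ∞ (fun p => Hm h p i j) := by
  rw [contDiff_iff_contDiffAt]
  intro p
  rcases (ax_nonneg p).eq_or_lt with h0 | h0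
  · have hev : (fun p => Hm h p i j) =ᶠ[𝓝 p] fun p => H0 T.toRData 0 p i j := by
      filter_upwards [(near_axis h h0.symm).1] with q hq
      rw [hq]
    exact (H0_smooth T.toRData 0 i j).contDiffAt.congr_of_eventuallyEq hev
  · have hev : (fun p => Hm h p i j) =ᶠ[𝓝 p] fun p => Hpol (LD T.toRData T.P h 0) p i j := by
      filter_upwards [ax_isOpen.mem_nhds h0] with q hq
      rw [Hm_off h hq]
    exact (Hpol_smooth _ h0 i j).congr_of_eventuallyEq hev

lemma Hm_isMetric : IsMetric (Hm h) where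
  smooth := Hm_smooth h
  symm p i j := by
    rcases (ax_nonneg p).eq_or_lt with h0 | h0
    · rw [(near_axis h h0.symm).1.self_of_nhds]
      exact H0_symm _ _ _ _ _
    · rw [Hm_off h h0, Hpol_apply, Hpol_apply]
      ring
  pos p v hv := by
    rcases (ax_nonneg p).eq_or_lt with h0 | h0
    · have := H0_pos T.toRData 0 p v hv
      unfold ip at this ⊢
      rw [(near_axis h h0.symm).1.self_of_nhds]
      exact this
    · have := Hpol_pos (LD T.toRData T.P h 0) h0 v hv
      unfold ip at this ⊢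
      rw [Hm_off h h0]
      exact this

lemma Hm_pull {z : Fin 3 → ℝ} (hz : z ∈ liftS PR) :
    pull (Hm h) Psi z = diagM (LD T.toRData T.P h 0) z := by
  rw [← Hpol_pull _ hz]
  exact pull_congr_metric (Hm_off h (ax_Psi_pos hz))

variable (hc : Setup.AllCurv h)
include hc

theorem local_Hm (p : Fin 3 → ℝ) : NegCurvAt (Hm h) p ∧ HarmAt (Hm h) hyp T.fH p := by
  rcases chart_cases p with h0 | ⟨h1, _, h0⟩ | h0
  · obtain ⟨y, hy, rfl⟩ := exists_Psi h0
    have hopen := (liftS_isOpen PR_isOpen).mem_nhds hy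
    have hpull : ∀ᶠ z in 𝓝 y, pull (Hm h) Psi z = diagM (LD T.toRData T.P h 0) z := by
      filter_upwards [hopen] with z hz using Hm_pull h hz
    have hpullh : ∀ᶠ z in 𝓝 (FV T.P y), pull hyp Psi z = hypPol z := by
      filter_upwards [(liftS_isOpen PR_isOpen).mem_nhds (FV_mem (T := T) hy)] with z hz
        using pull_hyp_Psi hz
    constructor
    · refine ⟨Psi, y, Psi_isParam hy, rfl, ?_⟩
      obtain ⟨c1, c2, c3⟩ := hc _ hy
      have := (LD T.toRData T.P h 0).negAt (diagM (LD T.toRData T.P h 0)) y hy (fun z _ => rfl)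
        c1 c2 c3
      exact NegAt_congr (hpull.mono fun z hz => hz.symm) this
    · refine ⟨Psi, Psi, FV T.P, y, Psi_isParam hy, rfl, Psi_isParam (FV_mem hy),
        ⟨univ, isOpen_univ, mem_univ _, (FV_contDiff T.P).contDiffOn⟩, ?_, ?_⟩
      · filter_upwards [hopen] with z hz using f0_Psi hz
      · exact harm_polar (D := T.toRData) (P := T.P) h 0 _ _ y hy hpull hpullh
  · obtain ⟨y, hy, hyp'⟩ := exists_Psi h0
    have e : rot (Psi y) = p := by rw [hyp', rot_rot]
    have hn := near_axis h h1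
    rw [← e] at hn ⊢
    exact local_rad T.toRData 0 (Hm h) T.fH rot_contDiff pull_rot_hyp (pull_rot _ _) hy hn.1 hn.2
  · obtain ⟨L, hL, hLiso, hL0⟩ := exists_boost (Psi ![1, 0, 0])
    have hy : (![1, 0, 0] : Fin 3 → ℝ) ∈ liftS PR := by
      refine ⟨one_pos, ?_⟩
      show (0:ℝ) ^ 2 < 1
      norm_num
    have h20 : sq (0 : Fin 3 → ℝ) < 1 / 20 := by rw [sq_zero']; norm_num
    have hopen : {q : Fin 3 → ℝ | sq q < 1 / 20} ∈ 𝓝 (0 : Fin 3 → ℝ) :=
      (isOpen_lt sq_contDiff.continuous continuous_const).mem_nhds h20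
    rw [h0, ← hL0]
    rw [← hL0] at hopen
    apply local_rad D1d (T.toRData.I 0) (Hm h) T.fH hL hLiso (pull_H0_D1d hLiso _) hy
    · filter_upwards [hopen] with q hq
      have hq' : sq q < 1 / 20 := hq
      rw [Hm_small h (by linarith), H0_small _ hq'.le]
    · filter_upwards [hopen] with q hq
      have hq' : sq q < 1 / 20 := hq
      exact f0_out (out_of_small (by linarith))

end Setup

/-- A closed negatively curved 3-manifold with a harmonic homeomorphism onto a closed hyperbolic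
3-manifold that is not a diffeomorphism. -/
theorem counterexample : Counterexample := by
  obtain ⟨T, h, hc⟩ := setup_exists
  obtain ⟨Γ, _, _, hsm, hiso, _, hfree, hco, hdisj⟩ := exists_lattice (T.Bd + 1)
  obtain ⟨H', f', hH', hinv, hneg, hf', hequiv, hharm, hin⟩ := glue T.Bd T.hBd (Setup.Hm h) T.fH
    (Setup.Hm_isMetric h) (fun p => (Setup.local_Hm h hc p).1) Setup.f0_contDiff
    (fun p => (Setup.local_Hm h hc p).2)
    (fun p hp => ⟨by rw [Setup.Hm_out h (Setup.out_of_big hp), H0_right _ hp],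
      Setup.f0_out (Setup.out_of_big hp)⟩)
    (fun p => (local_hyp p).1) (fun p => (local_hyp p).2) Γ hsm hiso hdisj
  apply descend Γ hsm hfree hco H' hyp hH' isMetric_hyp hinv hiso hneg
    (fun p => (local_hyp p).1) f' hf' hequiv hharm (Psi T.ys)
  have hsq : sq (Psi T.ys) < T.Bd + 1 := by
    rw [sq_Psi Setup.ys_mem]
    have h1 : sinh T.P.r0 ≤ sinh (T.P.r0 + T.P.e * T.S) :=
      Real.sinh_le_sinh.mpr (by have := T.P.he; have := T.hS; nlinarith)
    have h2 : 0 < sinh T.P.r0 := Real.sinh_pos_iff.mpr T.P.hr0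
    have h3 : sinh T.P.r0 ^ 2 ≤ sinh (T.P.r0 + T.P.e * T.S) ^ 2 :=
      pow_le_pow_left₀ h2.le h1 2
    have h4 := T.hB2
    show sinh T.P.r0 ^ 2 < T.Bd + 1
    linarith
  have hev : (f' : (Fin 3 → ℝ) → (Fin 3 → ℝ)) =ᶠ[𝓝 (Psi T.ys)] T.f0 := by
    filter_upwards [(isOpen_lt sq_contDiff.continuous continuous_const).mem_nhds hsq] with q hq
      using (hin q hq).2
  rw [hev.fderiv_eq]
  exact Setup.f0_singular

end Pool.Agent.Work.MP_0fcc57_gt
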