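import Pool.Agent.Work.MP_0fcc57_gt.Defs

/-!
# Germs, pull-backs and the chain rule for coordinate metrics
-/

open scoped ContDiff Manifold Topology
open Filter

noncomputable section

namespace Pool.Agent.Work.MP_0fcc57_gt

variable {n m : ℕ}

theorem pd_congr {i : Fin n} {F F' : (Fin n → ℝ) → ℝ} {y : Fin n → ℝ} (h : F =ᶠ[𝓝 y] F') :
    pd i F y = pd i F' y := by
  unfold pd; rw [h.fderiv_eq]

theorem pd_congr' {i : Fin n} {F F' : (Fin n → ℝ) → ℝ} {y : Fin n → ℝ} (h : F =ᶠ[𝓝 y] F') :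
    pd i F =ᶠ[𝓝 y] pd i F' := by
  filter_upwards [h.eventuallyEq_nhds] with z hz using pd_congr hz

theorem christoffel_congr {G G' : CoordMetric n} {y : Fin n → ℝ} (h : G =ᶠ[𝓝 y] G')
    (k i j : Fin n) : christoffel G k i j y = christoffel G' k i j y := by
  unfold christoffel
  rw [h.eq_of_nhds]
  have e : ∀ (l a b : Fin n), pd l (fun z => G z a b) y = pd l (fun z => G' z a b) y := by
    intro l a b
    apply pd_congr
    filter_upwards [h] with z hz
    rw [hz]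
  simp only [e]

theorem christoffel_congr' {G G' : CoordMetric n} {y : Fin n → ℝ} (h : G =ᶠ[𝓝 y] G')
    (k i j : Fin n) : christoffel G k i j =ᶠ[𝓝 y] christoffel G' k i j := by
  filter_upwards [h.eventuallyEq_nhds] with z hz using christoffel_congr hz k i j

theorem riemann_congr {G G' : CoordMetric n} {y : Fin n → ℝ} (h : G =ᶠ[𝓝 y] G')
    (i j k l : Fin n) : riemann G i j k l y = riemann G' i j k l y := by
  unfold riemann
  rw [h.eq_of_nhds]
  have e1 : ∀ a b c : Fin n, christoffel G a b c y = christoffel G' a b c y :=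
    fun a b c => christoffel_congr h a b c
  have e2 : ∀ d a b c : Fin n, pd d (christoffel G a b c) y = pd d (christoffel G' a b c) y :=
    fun d a b c => pd_congr (christoffel_congr' h a b c)
  simp only [e1, e2]

theorem sectional_congr {G G' : CoordMetric n} {y : Fin n → ℝ} (h : G =ᶠ[𝓝 y] G')
    (v w : Fin n → ℝ) : sectional G y v w = sectional G' y v w := by
  unfold sectional ip
  rw [h.eq_of_nhds]
  simp only [riemann_congr h]

theorem NegAt_congr {G G' : CoordMetric n} {y : Fin n → ℝ} (h : G =ᶠ[𝓝 y] G')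
    (hG : NegAt G y) : NegAt G' y := by
  intro v w hvw
  rw [← sectional_congr h]
  exact hG v w hvw

theorem tension_congr {H H' : CoordMetric m} {G G' : CoordMetric n}
    {F F' : (Fin m → ℝ) → (Fin n → ℝ)} {y : Fin m → ℝ} (hH : H =ᶠ[𝓝 y] H')
    (hF : F =ᶠ[𝓝 y] F') (hG : G =ᶠ[𝓝 (F y)] G') (a : Fin n) :
    tension H G F a y = tension H' G' F' a y := by
  unfold tension
  rw [← hF.eq_of_nhds, hH.eq_of_nhds]
  have e1 : ∀ b c d : Fin m, christoffel H b c d y = christoffel H' b c d y :=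
    fun b c d => christoffel_congr hH b c d
  have e2 : ∀ b c d : Fin n, christoffel G b c d (F y) = christoffel G' b c d (F y) :=
    fun b c d => christoffel_congr hG b c d
  have e3 : ∀ (i : Fin m) (b : Fin n), pd i (fun z => F z b) =ᶠ[𝓝 y] pd i (fun z => F' z b) := by
    intro i b
    apply pd_congr'
    filter_upwards [hF] with z hz
    rw [hz]
  have e4 : ∀ (i : Fin m) (b : Fin n), pd i (fun z => F z b) y = pd i (fun z => F' z b) y :=
    fun i b => (e3 i b).eq_of_nhds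
  have e5 : ∀ (i j : Fin m) (b : Fin n),
      pd i (pd j (fun z => F z b)) y = pd i (pd j (fun z => F' z b)) y :=
    fun i j b => pd_congr (e3 j b)
  simp only [e1, e2, e4, e5]

/-- Jacobian matrix. -/
def jac (Ψ : (Fin n → ℝ) → (Fin n → ℝ)) (y : Fin n → ℝ) : Matrix (Fin n) (Fin n) ℝ :=
  Matrix.of fun a i => pd i (fun z => Ψ z a) y

theorem pull_eq (G : CoordMetric n) (Ψ : (Fin n → ℝ) → (Fin n → ℝ)) (y : Fin n → ℝ) :
    pull G Ψ y = (jac Ψ y).transpose * G (Ψ y) * jac Ψ y := by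
  ext i j
  simp only [pull, jac, Matrix.of_apply, Matrix.mul_apply, Matrix.transpose_apply]
  rw [Finset.sum_comm]
  refine Finset.sum_congr rfl fun b _ => ?_
  rw [Finset.sum_mul]
  refine Finset.sum_congr rfl fun a _ => ?_
  ring

theorem jac_mulVec {Ψ : (Fin n → ℝ) → (Fin n → ℝ)} {y : Fin n → ℝ}
    (h : DifferentiableAt ℝ Ψ y) (v : Fin n → ℝ) :
    (jac Ψ y).mulVec v = fderiv ℝ Ψ y v := by
  ext a
  have h1 : fderiv ℝ Ψ y v a = fderiv ℝ (fun z => Ψ z a) y v := by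
    have := fderiv_pi (𝕜 := ℝ) (φ := fun (a : Fin n) (z : Fin n → ℝ) => Ψ z a) (x := y)
      (fun a => by exact (differentiableAt_pi.1 h a))
    have h2 : fderiv ℝ Ψ y = ContinuousLinearMap.pi fun i => fderiv ℝ (fun z => Ψ z i) y := this
    rw [h2]; rfl
  rw [h1]
  simp only [jac, Matrix.mulVec, dotProduct, Matrix.of_apply, pd]
  have hv : v = ∑ i, v i • (Pi.single i (1 : ℝ) : Fin n → ℝ) := by
    ext k
    simp [Finset.sum_apply, Pi.single_apply]
  conv_rhs => rw [hv]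
  rw [map_sum]
  refine Finset.sum_congr rfl fun i _ => ?_
  rw [map_smul, smul_eq_mul, mul_comm]

theorem jac_apply {Ψ : (Fin n → ℝ) → (Fin n → ℝ)} {y : Fin n → ℝ}
    (h : DifferentiableAt ℝ Ψ y) (a i : Fin n) :
    jac Ψ y a i = fderiv ℝ Ψ y (Pi.single i 1) a := by
  rw [← jac_mulVec h]
  simp

theorem jac_comp {Ξ Ψ : (Fin n → ℝ) → (Fin n → ℝ)} {y : Fin n → ℝ}
    (hΞ : DifferentiableAt ℝ Ξ (Ψ y)) (hΨ : DifferentiableAt ℝ Ψ y) :
    jac (fun z => Ξ (Ψ z)) y = jac Ξ (Ψ y) * jac Ψ y := by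
  have hc : DifferentiableAt ℝ (fun z => Ξ (Ψ z)) y := hΞ.comp y hΨ
  have h1 : fderiv ℝ (fun z => Ξ (Ψ z)) y = (fderiv ℝ Ξ (Ψ y)).comp (fderiv ℝ Ψ y) :=
    fderiv_comp y hΞ hΨ
  ext a i
  rw [jac_apply hc, h1, ContinuousLinearMap.comp_apply, ← jac_mulVec hΨ, ← jac_mulVec hΞ,
    Matrix.mulVec_mulVec]
  simp

theorem pull_comp (G : CoordMetric n) {Ξ Ψ : (Fin n → ℝ) → (Fin n → ℝ)} {y : Fin n → ℝ}
    (hΞ : DifferentiableAt ℝ Ξ (Ψ y)) (hΨ : DifferentiableAt ℝ Ψ y) :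
    pull (pull G Ξ) Ψ y = pull G (fun z => Ξ (Ψ z)) y := by
  rw [pull_eq, pull_eq, pull_eq, jac_comp hΞ hΨ, Matrix.transpose_mul]
  simp only [Matrix.mul_assoc]

theorem pull_congr_map {G : CoordMetric n} {Ψ Ψ' : (Fin n → ℝ) → (Fin n → ℝ)} {y : Fin n → ℝ}
    (h : Ψ =ᶠ[𝓝 y] Ψ') : pull G Ψ y = pull G Ψ' y := by
  unfold pull
  rw [h.eq_of_nhds]
  have e : ∀ (i a : Fin n), pd i (fun z => Ψ z a) y = pd i (fun z => Ψ' z a) y := by
    intro i a
    apply pd_congr
    filter_upwards [h] with z hz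
    rw [hz]
  simp only [e]

theorem pull_congr_map' {G : CoordMetric n} {Ψ Ψ' : (Fin n → ℝ) → (Fin n → ℝ)} {y : Fin n → ℝ}
    (h : Ψ =ᶠ[𝓝 y] Ψ') : pull G Ψ =ᶠ[𝓝 y] pull G Ψ' := by
  filter_upwards [h.eventuallyEq_nhds] with z hz using pull_congr_map hz

theorem pull_congr_metric {G G' : CoordMetric n} {Ψ : (Fin n → ℝ) → (Fin n → ℝ)}
    {y : Fin n → ℝ} (h : G (Ψ y) = G' (Ψ y)) : pull G Ψ y = pull G' Ψ y := by
  rw [pull_eq, pull_eq, h]

theorem ip_eq (G : CoordMetric n) (y v w : Fin n → ℝ) :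
    ip G y v w = v ⬝ᵥ (G y).mulVec w := by
  simp only [ip, Matrix.mulVec, dotProduct, Finset.mul_sum]
  refine Finset.sum_congr rfl fun i _ => Finset.sum_congr rfl fun j _ => ?_
  ring

theorem ip_pull (G : CoordMetric n) (Ψ : (Fin n → ℝ) → (Fin n → ℝ)) (y v w : Fin n → ℝ) :
    ip (pull G Ψ) y v w = ip G (Ψ y) ((jac Ψ y).mulVec v) ((jac Ψ y).mulVec w) := by
  rw [ip_eq, ip_eq, pull_eq, ← Matrix.mulVec_mulVec, ← Matrix.mulVec_mulVec,
    Matrix.dotProduct_mulVec, Matrix.vecMul_transpose]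

theorem pull_apply {G : CoordMetric n} {Ψ : (Fin n → ℝ) → (Fin n → ℝ)} {y : Fin n → ℝ}
    (h : DifferentiableAt ℝ Ψ y) (i j : Fin n) :
    pull G Ψ y i j = ip G (Ψ y) (fderiv ℝ Ψ y (Pi.single i 1)) (fderiv ℝ Ψ y (Pi.single j 1)) := by
  rw [← jac_mulVec h, ← jac_mulVec h, ← ip_pull, ip_eq]
  simp

/-- The hyperbolic metric is smooth and positive. -/
theorem isMetric_hyp : IsMetric hyp where
  smooth i j := by
    unfold hyp
    simp only [Matrix.of_apply]
    apply ContDiff.sub contDiff_const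
    apply ContDiff.div
    · exact (contDiff_apply ℝ ℝ i).mul (contDiff_apply ℝ ℝ j)
    · exact contDiff_const.add (ContDiff.sum fun k _ => (contDiff_apply ℝ ℝ k).pow 2)
    · intro x
      have : 0 ≤ ∑ k, x k ^ 2 := Finset.sum_nonneg fun k _ => sq_nonneg _
      positivity
  symm p i j := by
    simp only [hyp, Matrix.of_apply, eq_comm, mul_comm]
  pos p v hv := by
    have h0 : 0 ≤ ∑ k, p k ^ 2 := Finset.sum_nonneg fun k _ => sq_nonneg _
    have hv' : 0 < ∑ k, v k ^ 2 := by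
      rcases Function.ne_iff.1 hv with ⟨k, hk⟩
      apply Finset.sum_pos' (fun k _ => sq_nonneg _) ⟨k, Finset.mem_univ _, ?_⟩
      exact sq_pos_of_ne_zero hk
    have hcs : (∑ k, p k * v k) ^ 2 ≤ (∑ k, p k ^ 2) * ∑ k, v k ^ 2 :=
      Finset.sum_mul_sq_le_sq_mul_sq _ _ _
    have key : ip hyp p v v = ∑ k, v k ^ 2 - (∑ k, p k * v k) ^ 2 / (1 + ∑ k, p k ^ 2) := by
      simp only [ip, hyp, Matrix.of_apply, Fin.sum_univ_three]
      simp
      field_simp
      ring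
    rw [key, sub_pos, div_lt_iff₀ (by positivity)]
    nlinarith

end Pool.Agent.Work.MP_0fcc57_gt
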