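import Pool.Agent.Work.MP_0fcc57_gt.Germ

/-!
# Equivariant gluing of a compactly supported modification
-/

open scoped ContDiff Manifold Topology
open Filter

noncomputable section

namespace Pool.Agent.Work.MP_0fcc57_gt

theorem continuous_sq : Continuous sq := by
  unfold sq
  exact continuous_finsetSum _ fun k _ => (continuous_apply k).pow 2

theorem isCompact_sq_le (R : ℝ) : IsCompact {p : Fin 3 → ℝ | sq p ≤ R} := by
  apply Metric.isCompact_of_isClosed_isBounded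
  · exact isClosed_le continuous_sq continuous_const
  · rw [isBounded_iff_forall_norm_le]
    refine ⟨Real.sqrt R, fun p hp => ?_⟩
    rw [pi_norm_le_iff_of_nonneg (Real.sqrt_nonneg _)]
    intro i
    rw [Real.norm_eq_abs]
    apply Real.abs_le_sqrt
    refine le_trans ?_ hp
    exact Finset.single_le_sum (f := fun k => p k ^ 2) (fun k _ => sq_nonneg _)
      (Finset.mem_univ i)

section action
variable (R : ℝ) (Γ : Type) [Group Γ] [MulAction Γ (Fin 3 → ℝ)]

open Classical in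
/-- glued metric -/
def glH (H : CoordMetric 3) : CoordMetric 3 := fun p =>
  if h : ∃ γ : Γ, sq (γ • p) < R + 1 then
    pull H (fun q => h.choose • q) p else hyp p

open Classical in
/-- glued map -/
def glf (f : (Fin 3 → ℝ) → (Fin 3 → ℝ)) : (Fin 3 → ℝ) → (Fin 3 → ℝ) := fun p =>
  if h : ∃ γ : Γ, sq (γ • p) < R + 1 then
    (h.choose)⁻¹ • f (h.choose • p) else p

variable {R Γ}

theorem uniq (hdisj : ∀ (γ : Γ) (p : Fin 3 → ℝ), γ ≠ 1 → sq p ≤ R + 1 → R + 1 < sq (γ • p))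
    {γ δ : Γ} {p : Fin 3 → ℝ} (h1 : sq (γ • p) < R + 1) (h2 : sq (δ • p) < R + 1) : γ = δ := by
  by_contra hne
  have h3 : δ * γ⁻¹ ≠ 1 := by
    intro h
    exact hne (mul_inv_eq_one.1 h).symm
  have h4 := hdisj (δ * γ⁻¹) (γ • p) h3 h1.le
  rw [mul_smul, inv_smul_smul] at h4
  exact absurd h4 (not_lt.2 h2.le)

theorem glH_in (hdisj : ∀ (γ : Γ) (p : Fin 3 → ℝ), γ ≠ 1 → sq p ≤ R + 1 → R + 1 < sq (γ • p))
    (H : CoordMetric 3) {γ : Γ} {p : Fin 3 → ℝ} (h : sq (γ • p) < R + 1) :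
    glH R Γ H p = pull H (fun q => γ • q) p := by
  have hex : ∃ γ : Γ, sq (γ • p) < R + 1 := ⟨γ, h⟩
  unfold glH
  rw [dif_pos hex, uniq hdisj hex.choose_spec h]

theorem glf_in (hdisj : ∀ (γ : Γ) (p : Fin 3 → ℝ), γ ≠ 1 → sq p ≤ R + 1 → R + 1 < sq (γ • p))
    (f : (Fin 3 → ℝ) → (Fin 3 → ℝ)) {γ : Γ} {p : Fin 3 → ℝ} (h : sq (γ • p) < R + 1) :
    glf R Γ f p = γ⁻¹ • f (γ • p) := by
  have hex : ∃ γ : Γ, sq (γ • p) < R + 1 := ⟨γ, h⟩
  unfold glf
  rw [dif_pos hex, uniq hdisj hex.choose_spec h]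

theorem glH_out (hdisj : ∀ (γ : Γ) (p : Fin 3 → ℝ), γ ≠ 1 → sq p ≤ R + 1 → R + 1 < sq (γ • p))
    (hiso : ∀ γ : Γ, pull hyp (fun p => γ • p) = hyp)
    (H : CoordMetric 3) (hout : ∀ p, R ≤ sq p → H p = hyp p) {p : Fin 3 → ℝ}
    (h : ∀ γ : Γ, R < sq (γ • p)) : glH R Γ H p = hyp p := by
  by_cases hex : ∃ γ : Γ, sq (γ • p) < R + 1
  · obtain ⟨γ, hγ⟩ := hex
    rw [glH_in hdisj H hγ, pull_congr_metric (G' := hyp) (hout _ (h γ).le)]
    exact congrFun (hiso γ) p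
  · unfold glH
    rw [dif_neg hex]

theorem glf_out (hdisj : ∀ (γ : Γ) (p : Fin 3 → ℝ), γ ≠ 1 → sq p ≤ R + 1 → R + 1 < sq (γ • p))
    (f : (Fin 3 → ℝ) → (Fin 3 → ℝ)) (hout : ∀ p, R ≤ sq p → f p = p) {p : Fin 3 → ℝ}
    (h : ∀ γ : Γ, R < sq (γ • p)) : glf R Γ f p = p := by
  by_cases hex : ∃ γ : Γ, sq (γ • p) < R + 1
  · obtain ⟨γ, hγ⟩ := hex
    rw [glf_in hdisj f hγ, hout _ (h γ).le, inv_smul_smul]
  · unfold glf
    rw [dif_neg hex]

/-- dichotomy: every point is in a translate of the ball or has a neighbourhood of outer points -/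
theorem dich (hsm : ∀ γ : Γ, ContDiff ℝ ∞ (fun p : Fin 3 → ℝ => γ • p))
    [ProperlyDiscontinuousSMul Γ (Fin 3 → ℝ)] (p : Fin 3 → ℝ) :
    (∃ γ : Γ, sq (γ • p) < R + 1 ∧ ∀ᶠ z in 𝓝 p, sq (γ • z) < R + 1) ∨
    (∀ᶠ z in 𝓝 p, ∀ γ : Γ, R < sq (γ • z)) := by
  by_cases h : ∃ γ : Γ, sq (γ • p) < R + 1
  · left
    obtain ⟨γ, hγ⟩ := h
    refine ⟨γ, hγ, ?_⟩
    have hc : Continuous fun z : Fin 3 → ℝ => sq (γ • z) := continuous_sq.comp (hsm γ).continuous
    exact hc.continuousAt.eventually (gt_mem_nhds hγ)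
  · right
    push Not at h
    have hfin := ProperlyDiscontinuousSMul.finite_disjoint_inter_image (Γ := Γ)
      (K := Metric.closedBall p 1) (L := {q : Fin 3 → ℝ | sq q ≤ R})
      (isCompact_closedBall _ _) (isCompact_sq_le R)
    have h1 : ∀ᶠ z in 𝓝 p, ∀ γ ∈ {γ : Γ | ((γ • ·) '' Metric.closedBall p 1 ∩
        {q : Fin 3 → ℝ | sq q ≤ R}).Nonempty}, R < sq (γ • z) := by
      rw [hfin.eventually_all]
      intro γ _
      have hc : Continuous fun z : Fin 3 → ℝ => sq (γ • z) :=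
        continuous_sq.comp (hsm γ).continuous
      exact hc.continuousAt.eventually (lt_mem_nhds (lt_of_lt_of_le (by linarith) (h γ)))
    filter_upwards [h1, Metric.closedBall_mem_nhds p one_pos] with z hz hz1 γ
    by_contra hcon
    push Not at hcon
    have : ((γ • ·) '' Metric.closedBall p 1 ∩ {q : Fin 3 → ℝ | sq q ≤ R}).Nonempty :=
      ⟨γ • z, ⟨z, hz1, rfl⟩, hcon⟩
    exact absurd (hz γ this) (not_lt.2 hcon)

end action


/-- composition of a parametrisation with a group element -/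
theorem IsParam.smul {Γ : Type} [Group Γ] [MulAction Γ (Fin 3 → ℝ)]
    (hsm : ∀ γ : Γ, ContDiff ℝ ∞ (fun p : Fin 3 → ℝ => γ • p)) {Ψ : (Fin 3 → ℝ) → (Fin 3 → ℝ)}
    {y : Fin 3 → ℝ} (h : IsParam Ψ y) (γ : Γ) : IsParam (fun z => γ • Ψ z) y := by
  obtain ⟨⟨U, hU, hyU, hΨ⟩, hb⟩ := h
  refine ⟨⟨U, hU, hyU, (hsm γ).comp_contDiffOn hΨ⟩, ?_⟩
  have hd : DifferentiableAt ℝ Ψ y :=
    ((hΨ.contDiffAt (hU.mem_nhds hyU)).differentiableAt (by simp))
  have hd1 : ∀ (δ : Γ) (q : Fin 3 → ℝ), DifferentiableAt ℝ (fun p : Fin 3 → ℝ => δ • p) q :=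
    fun δ q => (hsm δ).contDiffAt.differentiableAt (by simp)
  have h1 : fderiv ℝ (fun z => γ • Ψ z) y
      = (fderiv ℝ (fun p : Fin 3 → ℝ => γ • p) (Ψ y)).comp (fderiv ℝ Ψ y) :=
    fderiv_comp y (hd1 γ _) hd
  rw [h1, ContinuousLinearMap.coe_comp]
  refine Function.Bijective.comp ?_ hb
  have key : ∀ (δ : Γ) (q : Fin 3 → ℝ),
      (fderiv ℝ (fun p : Fin 3 → ℝ => δ⁻¹ • p) (δ • q)).comp
        (fderiv ℝ (fun p : Fin 3 → ℝ => δ • p) q) = ContinuousLinearMap.id ℝ _ := by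
    intro δ q
    have := fderiv_comp (𝕜 := ℝ) q (hd1 δ⁻¹ (δ • q)) (hd1 δ q)
    rw [← this]
    have h2 : ((fun p : Fin 3 → ℝ => δ⁻¹ • p) ∘ fun p => δ • p) = id := by
      ext1 p; simp
    rw [h2, fderiv_id]
  constructor
  · intro v w hvw
    have e1 := congrArg (fun L : (Fin 3 → ℝ) →L[ℝ] (Fin 3 → ℝ) => L v) (key γ (Ψ y))
    have e2 := congrArg (fun L : (Fin 3 → ℝ) →L[ℝ] (Fin 3 → ℝ) => L w) (key γ (Ψ y))
    simp only [ContinuousLinearMap.comp_apply, ContinuousLinearMap.id_apply] at e1 e2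
    rw [← e1, ← e2, hvw]
  · intro w
    refine ⟨fderiv ℝ (fun p : Fin 3 → ℝ => γ⁻¹ • p) (γ • Ψ y) w, ?_⟩
    have e1 := congrArg (fun L : (Fin 3 → ℝ) →L[ℝ] (Fin 3 → ℝ) => L w) (key γ⁻¹ (γ • Ψ y))
    simp only [ContinuousLinearMap.comp_apply, ContinuousLinearMap.id_apply, inv_inv,
      inv_smul_smul] at e1
    exact e1

theorem IsParam.continuousAt {n : ℕ} {Ψ : (Fin n → ℝ) → (Fin n → ℝ)} {y : Fin n → ℝ}
    (h : IsParam Ψ y) : ContinuousAt Ψ y := by
  obtain ⟨⟨U, hU, hyU, hΨ⟩, hb⟩ := h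
  exact (hΨ.contDiffAt (hU.mem_nhds hyU)).continuousAt

theorem IsParam.differentiable {n : ℕ} {Ψ : (Fin n → ℝ) → (Fin n → ℝ)} {y : Fin n → ℝ}
    (h : IsParam Ψ y) : ∀ᶠ z in 𝓝 y, DifferentiableAt ℝ Ψ z := by
  obtain ⟨⟨U, hU, hyU, hΨ⟩, hb⟩ := h
  filter_upwards [hU.mem_nhds hyU] with z hz
  exact (hΨ.contDiffAt (hU.mem_nhds hz)).differentiableAt (by simp)

theorem contDiff_pull {G : CoordMetric 3} (hG : ∀ i j, ContDiff ℝ ∞ (fun p => G p i j))
    {Ψ : (Fin 3 → ℝ) → (Fin 3 → ℝ)} (hΨ : ContDiff ℝ ∞ Ψ) (i j : Fin 3) :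
    ContDiff ℝ ∞ (fun p => pull G Ψ p i j) := by
  unfold pull
  simp only [Matrix.of_apply]
  have hpd : ∀ i a : Fin 3, ContDiff ℝ ∞ (pd i (fun z => Ψ z a)) := by
    intro i a
    unfold pd
    have h1 : ContDiff ℝ ∞ (fun z => Ψ z a) := contDiff_pi.1 hΨ a
    have h2 : ContDiff ℝ ∞ (fderiv ℝ (fun z => Ψ z a)) := h1.fderiv_right (by simp)
    exact h2.clm_apply contDiff_const
  refine ContDiff.sum fun a _ => ContDiff.sum fun b _ => ?_
  exact (((hG a b).comp hΨ).mul (hpd i a)).mul (hpd j b)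

theorem glf_symm {R : ℝ} {Γ : Type} [Group Γ] [MulAction Γ (Fin 3 → ℝ)]
    (hdisj : ∀ (γ : Γ) (p : Fin 3 → ℝ), γ ≠ 1 → sq p ≤ R + 1 → R + 1 < sq (γ • p))
    (f : (Fin 3 → ℝ) ≃ₜ (Fin 3 → ℝ)) (hout : ∀ p, R ≤ sq p → f p = p) (p : Fin 3 → ℝ) :
    glf R Γ f.symm (glf R Γ f p) = p := by
  by_cases hex : ∃ γ : Γ, sq (γ • p) < R + 1
  · obtain ⟨γ, hγ⟩ := hex
    rw [glf_in hdisj f hγ]
    have h1 : sq (γ • (γ⁻¹ • f (γ • p))) < R + 1 := by
      rw [smul_inv_smul]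
      by_contra hcon
      push Not at hcon
      have h2 := hout (f (γ • p)) (by linarith)
      have h3 := f.injective h2
      rw [h3] at hcon
      linarith
    rw [glf_in hdisj f.symm h1, smul_inv_smul, f.symm_apply_apply, inv_smul_smul]
  · have h1 : ∀ g : (Fin 3 → ℝ) → (Fin 3 → ℝ), glf R Γ g p = p := by
      intro g
      unfold glf
      rw [dif_neg hex]
    rw [h1, h1]

theorem contDiff_glf {R : ℝ} {Γ : Type} [Group Γ] [MulAction Γ (Fin 3 → ℝ)]
    (hdisj : ∀ (γ : Γ) (p : Fin 3 → ℝ), γ ≠ 1 → sq p ≤ R + 1 → R + 1 < sq (γ • p))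
    (hsm : ∀ γ : Γ, ContDiff ℝ ∞ (fun p : Fin 3 → ℝ => γ • p))
    [ProperlyDiscontinuousSMul Γ (Fin 3 → ℝ)] {k : ℕ∞}
    (f : (Fin 3 → ℝ) → (Fin 3 → ℝ)) (hf : ContDiff ℝ k f) (hout : ∀ p, R ≤ sq p → f p = p) :
    ContDiff ℝ k (glf R Γ f) := by
  have hsm' : ∀ γ : Γ, ContDiff ℝ k (fun p : Fin 3 → ℝ => γ • p) := fun γ =>
    (hsm γ).of_le (by exact_mod_cast le_top)
  rw [contDiff_iff_contDiffAt]
  intro p
  rcases dich (R := R) hsm p with ⟨γ, -, hev⟩ | hev
  · have e : glf R Γ f =ᶠ[𝓝 p] fun z => γ⁻¹ • f (γ • z) := by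
      filter_upwards [hev] with z hz using glf_in hdisj f hz
    refine ContDiffAt.congr_of_eventuallyEq ?_ e
    exact ((hsm' γ⁻¹).comp (hf.comp (hsm' γ))).contDiffAt
  · have e : glf R Γ f =ᶠ[𝓝 p] fun z => z := by
      filter_upwards [hev] with z hz using glf_out hdisj f hout hz
    exact contDiffAt_id.congr_of_eventuallyEq e

theorem glue (R : ℝ) (hR : 0 < R) (H : CoordMetric 3) (f : (Fin 3 → ℝ) ≃ₜ (Fin 3 → ℝ))
    (hH : IsMetric H) (hHneg : ∀ p, NegCurvAt H p) (hf : ContDiff ℝ ∞ f)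
    (hharm : ∀ p, HarmAt H hyp f p)
    (hout : ∀ p, R ≤ sq p → H p = hyp p ∧ f p = p)
    (hhyp : ∀ p, NegCurvAt hyp p) (hid : ∀ p, HarmAt hyp hyp id p)
    (Γ : Type) [Group Γ] [MulAction Γ (Fin 3 → ℝ)]
    (hsm : ∀ γ : Γ, ContDiff ℝ ∞ (fun p : Fin 3 → ℝ => γ • p))
    (hiso : ∀ γ : Γ, pull hyp (fun p => γ • p) = hyp)
    [ProperlyDiscontinuousSMul Γ (Fin 3 → ℝ)]
    (hdisj : ∀ (γ : Γ) (p : Fin 3 → ℝ), γ ≠ 1 → sq p ≤ R + 1 → R + 1 < sq (γ • p)) :
    ∃ (H' : CoordMetric 3) (f' : (Fin 3 → ℝ) ≃ₜ (Fin 3 → ℝ)),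
      IsMetric H' ∧ (∀ γ : Γ, pull H' (fun p => γ • p) = H') ∧ (∀ p, NegCurvAt H' p) ∧
      ContDiff ℝ ∞ f' ∧ (∀ (γ : Γ) (p : Fin 3 → ℝ), f' (γ • p) = γ • f' p) ∧
      (∀ p, HarmAt H' hyp f' p) ∧ (∀ p, sq p < R + 1 → H' p = H p ∧ f' p = f p) := by
  have houtf : ∀ p, R ≤ sq p → f p = p := fun p hp => (hout p hp).2
  have houtH : ∀ p, R ≤ sq p → H p = hyp p := fun p hp => (hout p hp).1
  have houtf' : ∀ p, R ≤ sq p → f.symm p = p := fun p hp => by
    rw [f.symm_apply_eq]; exact (houtf p hp).symm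
  have hd1 : ∀ (δ : Γ) (q : Fin 3 → ℝ), DifferentiableAt ℝ (fun p : Fin 3 → ℝ => δ • p) q :=
    fun δ q => (hsm δ).contDiffAt.differentiableAt (by simp)
  have hcf : ContDiff ℝ ∞ (glf R Γ f) := contDiff_glf hdisj hsm f hf houtf
  have hcs : Continuous (glf R Γ f.symm) := by
    have : ContDiff ℝ (0 : ℕ∞) (glf R Γ f.symm) :=
      contDiff_glf hdisj hsm f.symm (contDiff_zero.2 f.symm.continuous) houtf'
    exact this.continuous
  let f' : (Fin 3 → ℝ) ≃ₜ (Fin 3 → ℝ) :=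
    { toFun := glf R Γ f
      invFun := glf R Γ f.symm
      left_inv := glf_symm hdisj f houtf
      right_inv := fun p => glf_symm hdisj f.symm houtf' p
      continuous_toFun := hcf.continuous
      continuous_invFun := hcs }
  have hf' : ∀ p, f' p = glf R Γ f p := fun p => rfl
  -- local description
  have hHin : ∀ (γ : Γ) (p : Fin 3 → ℝ), (∀ᶠ z in 𝓝 p, sq (γ • z) < R + 1) →
      glH R Γ H =ᶠ[𝓝 p] pull H (fun q => γ • q) := by
    intro γ p h
    filter_upwards [h] with z hz using glH_in hdisj H hz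
  have hHout : ∀ (p : Fin 3 → ℝ), (∀ᶠ z in 𝓝 p, ∀ γ : Γ, R < sq (γ • z)) →
      glH R Γ H =ᶠ[𝓝 p] hyp := by
    intro p h
    filter_upwards [h] with z hz using glH_out hdisj hiso H houtH hz
  refine ⟨glH R Γ H, f', ?_, ?_, ?_, hcf, ?_, ?_, ?_⟩
  · -- IsMetric
    refine ⟨?_, ?_, ?_⟩
    · intro i j
      rw [contDiff_iff_contDiffAt]
      intro p
      rcases dich (R := R) hsm p with ⟨γ, -, hev⟩ | hev
      · refine ContDiffAt.congr_of_eventuallyEq
          (contDiff_pull hH.smooth (hsm γ) i j).contDiffAt ?_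
        filter_upwards [hHin γ p hev] with z hz
        rw [hz]
      · refine ContDiffAt.congr_of_eventuallyEq (isMetric_hyp.smooth i j).contDiffAt ?_
        filter_upwards [hHout p hev] with z hz
        rw [hz]
    · intro p i j
      rcases dich (R := R) hsm p with ⟨γ, -, hev⟩ | hev
      · rw [(hHin γ p hev).eq_of_nhds]
        rw [pull_apply (hd1 γ p), pull_apply (hd1 γ p)]
        simp only [ip]
        rw [Finset.sum_comm]
        refine Finset.sum_congr rfl fun a _ => Finset.sum_congr rfl fun b _ => ?_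
        rw [hH.symm (γ • p)]
        ring
      · rw [(hHout p hev).eq_of_nhds]
        exact isMetric_hyp.symm p i j
    · intro p v hv
      rcases dich (R := R) hsm p with ⟨γ, -, hev⟩ | hev
      · have e : ip (glH R Γ H) p v v = ip (pull H (fun q => γ • q)) p v v := by
          unfold ip; rw [(hHin γ p hev).eq_of_nhds]
        rw [e, ip_pull]
        apply hH.pos
        rw [jac_mulVec (hd1 γ p)]
        have hp : IsParam (fun z : Fin 3 → ℝ => γ • z) p := by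
          have h0 : IsParam (fun z : Fin 3 → ℝ => z) p := by
            refine ⟨⟨Set.univ, isOpen_univ, Set.mem_univ _, contDiffOn_id⟩, ?_⟩
            have : fderiv ℝ (fun z : Fin 3 → ℝ => z) p = ContinuousLinearMap.id ℝ _ := fderiv_id
            rw [this]
            exact Function.bijective_id
          exact h0.smul hsm γ
        intro h
        apply hv
        apply hp.2.1
        rw [h, map_zero]
      · have e : ip (glH R Γ H) p v v = ip hyp p v v := by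
          unfold ip; rw [(hHout p hev).eq_of_nhds]
        rw [e]
        exact isMetric_hyp.pos p v hv
  · -- invariance
    intro γ
    funext p
    rcases dich (R := R) hsm p with ⟨δ, hδ, hev⟩ | hev
    · have h1 : sq ((δ * γ⁻¹) • (γ • p)) < R + 1 := by
        rw [mul_smul, inv_smul_smul]; exact hδ
      rw [pull_congr_metric (G' := pull H (fun q => (δ * γ⁻¹) • q)) (glH_in hdisj H h1),
        pull_comp H (hd1 _ _) (hd1 _ _), glH_in hdisj H hδ]
      apply pull_congr_map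
      filter_upwards with z
      rw [mul_smul, inv_smul_smul]
    · have h1 : ∀ δ : Γ, R < sq (δ • p) := hev.self_of_nhds
      have h2 : ∀ δ : Γ, R < sq (δ • (γ • p)) := by
        intro δ
        rw [← mul_smul]
        exact h1 _
      rw [pull_congr_metric (G' := hyp) (glH_out hdisj hiso H houtH h2),
        glH_out hdisj hiso H houtH h1]
      exact congrFun (hiso γ) p
  · -- curvature
    intro p
    rcases dich (R := R) hsm p with ⟨γ, -, hev⟩ | hev
    · obtain ⟨Ψ, y, hΨ, hy, hneg⟩ := hHneg (γ • p)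
      refine ⟨fun z => γ⁻¹ • Ψ z, y, hΨ.smul hsm γ⁻¹, ?_, ?_⟩
      · simp only [hy, inv_smul_smul]
      · refine NegAt_congr ?_ hneg
        have hp : γ⁻¹ • Ψ y = p := by rw [hy, inv_smul_smul]
        have hc : Tendsto (fun z => γ⁻¹ • Ψ z) (𝓝 y) (𝓝 p) := by
          have := (hΨ.smul hsm γ⁻¹).continuousAt
          unfold ContinuousAt at this
          have e : (fun z => γ⁻¹ • Ψ z) y = p := hp
          rwa [e] at this
        have h2 : ∀ᶠ z in 𝓝 y, glH R Γ H (γ⁻¹ • Ψ z) = pull H (fun q => γ • q) (γ⁻¹ • Ψ z) :=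
          hc.eventually (p := fun q => glH R Γ H q = pull H (fun q => γ • q) q)
            (hHin γ p hev)
        filter_upwards [h2, (hΨ.smul hsm γ⁻¹).differentiable] with z hz hz2
        rw [pull_congr_metric (Ψ := fun z => γ⁻¹ • Ψ z) (y := z) hz, pull_comp H (hd1 _ _) hz2]
        apply pull_congr_map
        filter_upwards with w
        rw [smul_inv_smul]
    · obtain ⟨Ψ, y, hΨ, hy, hneg⟩ := hhyp p
      refine ⟨Ψ, y, hΨ, hy, NegAt_congr ?_ hneg⟩
      have h2 : ∀ᶠ z in 𝓝 y, glH R Γ H (Ψ z) = hyp (Ψ z) :=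
        hΨ.continuousAt.eventually (p := fun q => glH R Γ H q = hyp q)
          (by rw [hy]; exact hHout p hev)
      filter_upwards [h2] with z hz
      rw [pull_congr_metric hz]
  · -- equivariance
    intro γ p
    rw [hf', hf']
    by_cases hex : ∃ δ : Γ, sq (δ • p) < R + 1
    · obtain ⟨δ, hδ⟩ := hex
      have h1 : sq ((δ * γ⁻¹) • (γ • p)) < R + 1 := by
        rw [mul_smul, inv_smul_smul]; exact hδ
      rw [glf_in hdisj f h1, glf_in hdisj f hδ, mul_smul, inv_smul_smul, mul_inv_rev, inv_inv,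
        mul_smul]
    · have hex2 : ¬ ∃ δ : Γ, sq (δ • (γ • p)) < R + 1 := by
        rintro ⟨δ, hδ⟩
        exact hex ⟨δ * γ, by rw [mul_smul]; exact hδ⟩
      unfold glf
      rw [dif_neg hex, dif_neg hex2]
  · -- harmonicity
    intro p
    rcases dich (R := R) hsm p with ⟨γ, hγ, hev⟩ | hev
    · obtain ⟨Φ, Ψ, F, y, hΦ, hy, hΨ, hF, hcomm, ht⟩ := hharm (γ • p)
      have hp : γ⁻¹ • Φ y = p := by rw [hy, inv_smul_smul]
      have hc : Tendsto (fun z => γ⁻¹ • Φ z) (𝓝 y) (𝓝 p) := by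
        have := (hΦ.smul hsm γ⁻¹).continuousAt
        unfold ContinuousAt at this
        have e : (fun z => γ⁻¹ • Φ z) y = p := hp
        rwa [e] at this
      refine ⟨fun z => γ⁻¹ • Φ z, fun z => γ⁻¹ • Ψ z, F, y, hΦ.smul hsm γ⁻¹, hp,
        hΨ.smul hsm γ⁻¹, hF, ?_, ?_⟩
      · have h2 : ∀ᶠ z in 𝓝 y, sq (γ • (γ⁻¹ • Φ z)) < R + 1 :=
          hc.eventually (p := fun q => sq (γ • q) < R + 1) hev
        filter_upwards [h2, hcomm] with z hz hz2
        rw [hf', glf_in hdisj f hz, smul_inv_smul, hz2]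
      · intro a
        rw [← ht a]
        apply tension_congr
        · have h2 : ∀ᶠ z in 𝓝 y,
              glH R Γ H (γ⁻¹ • Φ z) = pull H (fun q => γ • q) (γ⁻¹ • Φ z) :=
            hc.eventually (p := fun q => glH R Γ H q = pull H (fun q => γ • q) q)
              (hHin γ p hev)
          filter_upwards [h2, (hΦ.smul hsm γ⁻¹).differentiable] with z hz hz2
          rw [pull_congr_metric (Ψ := fun z => γ⁻¹ • Φ z) (y := z) hz, pull_comp H (hd1 _ _) hz2]
          apply pull_congr_map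
          filter_upwards with w
          rw [smul_inv_smul]
        · rfl
        · filter_upwards [hΨ.differentiable] with z hz
          rw [← pull_comp hyp (hd1 _ _) hz, hiso γ⁻¹]
    · obtain ⟨Φ, Ψ, F, y, hΦ, hy, hΨ, hF, hcomm, ht⟩ := hid p
      refine ⟨Φ, Ψ, F, y, hΦ, hy, hΨ, hF, ?_, ?_⟩
      · have h2 : ∀ᶠ z in 𝓝 y, ∀ γ : Γ, R < sq (γ • Φ z) :=
          hΦ.continuousAt.eventually (p := fun q => ∀ γ : Γ, R < sq (γ • q))
            (by rw [hy]; exact hev)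
        filter_upwards [h2, hcomm] with z hz hz2
        rw [hf', glf_out hdisj f houtf hz]
        exact hz2
      · intro a
        rw [← ht a]
        apply tension_congr
        · have h2 : ∀ᶠ z in 𝓝 y, glH R Γ H (Φ z) = hyp (Φ z) :=
            hΦ.continuousAt.eventually (p := fun q => glH R Γ H q = hyp q)
              (by rw [hy]; exact hHout p hev)
          filter_upwards [h2] with z hz
          rw [pull_congr_metric hz]
        · rfl
        · rfl
  · -- inside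
    intro p hp
    have h1 : sq ((1 : Γ) • p) < R + 1 := by rwa [one_smul]
    constructor
    · rw [glH_in hdisj H h1]
      have e : (fun q : Fin 3 → ℝ => (1 : Γ) • q) = fun q => q := by
        ext1 q; rw [one_smul]
      rw [e]
      have hdi : DifferentiableAt ℝ (fun z : Fin 3 → ℝ => z) p := differentiableAt_id
      refine Matrix.ext fun i j => ?_
      have h3 := pull_apply (G := H) hdi i j
      have h4 : fderiv ℝ (fun z : Fin 3 → ℝ => z) p = ContinuousLinearMap.id ℝ _ := fderiv_id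
      rw [h4, ip_eq] at h3
      refine h3.trans ?_
      simp
    · rw [hf', glf_in hdisj f h1, inv_one, one_smul, one_smul]

end Pool.Agent.Work.MP_0fcc57_gt
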