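import Pool.Agent.Work.MP_0fcc57_gt.Exist
import Pool.Agent.Work.MP_0fcc57_gt.DiagTension

/-!
# Harmonicity in polar coordinates
-/

open scoped ContDiff Topology
open Real Set Filter

noncomputable section

namespace Pool.Agent.Work.MP_0fcc57_gt

/-- positivity on the polar region -/
def AllGoodD (D : RData) (P : PData) : Prop := ∀ p ∈ PR, P.Good (iW D.w p.1) p

/-- The polar metric attached to radial data `D`, a perturbation `P` and a constant `κ`. -/
def LD (D : RData) (P : PData) (h : AllGoodD D P) (κ : ℝ) : LData PR where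
  M := fun r => D.M r + κ
  i := iW D.w
  B := fun p => log (P.bh (iW D.w p.1) p)
  C := fun p => log (P.ch (iW D.w p.1) p)
  hU := PR_isOpen
  hi := D.iW_contDiffOn
  hipos := fun _ hp => D.iW_pos' hp
  hM := fun _ hp => (D.M_hasDerivAt hp.1).add_const κ
  hMs := D.M_contDiffOn.add contDiffOn_const
  hB := by
    have := P.lb_smooth (O := PR) (i := fun p : ℝ × ℝ => iW D.w p.1) (pr := id)
      D.iW_contDiffOn contDiffOn_id
    have e : P.GoodSet PR (fun p : ℝ × ℝ => iW D.w p.1) id = PR := by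
      ext p; exact ⟨fun hp => hp.1, fun hp => ⟨hp, h p hp⟩⟩
    rw [e] at this
    exact this
  hC := by
    have := P.lc_smooth (O := PR) (i := fun p : ℝ × ℝ => iW D.w p.1) (pr := id)
      D.iW_contDiffOn contDiffOn_id
    have e : P.GoodSet PR (fun p : ℝ × ℝ => iW D.w p.1) id = PR := by
      ext p; exact ⟨fun hp => hp.1, fun hp => ⟨hp, h p hp⟩⟩
    rw [e] at this
    exact this

/-- The diagonal metric of an `LData`. -/
def diagM {U : Set (ℝ × ℝ)} (L : LData U) : CoordMetric 3 := fun z =>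
  Matrix.diagonal ![exp (2 * L.a (z 0, z 1)), exp (2 * L.b (z 0, z 1)), exp (2 * L.c (z 0, z 1))]

/-- The hyperbolic metric in polar coordinates. -/
def hypPol : CoordMetric 3 := fun z =>
  Matrix.diagonal ![1, sinh (z 0) ^ 2 / (1 - z 1 ^ 2), sinh (z 0) ^ 2 * (1 - z 1 ^ 2)]

/-- The map in polar coordinates. -/
def FV (P : PData) (z : Fin 3 → ℝ) : Fin 3 → ℝ := ![P.V (z 0, z 1), z 1, z 2]

section
variable {D : RData} {P : PData} (h : AllGoodD D P) (κ : ℝ)

lemma LD_exp1 (z : ℝ × ℝ) : exp (-(LD D P h κ).a z + (LD D P h κ).b z + (LD D P h κ).c z)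
    = exp (D.M z.1 + κ) := by
  congr 1
  unfold LData.a LData.b LData.c LD
  simp only
  ring

lemma LD_exp2 {z : ℝ × ℝ} (hz : z ∈ PR) :
    exp ((LD D P h κ).a z - (LD D P h κ).b z + (LD D P h κ).c z)
    = exp (D.M z.1 + κ) / iW D.w z.1 * P.bh (iW D.w z.1) z := by
  have e : (LD D P h κ).a z - (LD D P h κ).b z + (LD D P h κ).c z =
      (D.M z.1 + κ) - log (iW D.w z.1) + log (P.bh (iW D.w z.1) z) := by
    unfold LData.a LData.b LData.c LD
    simp only
    ring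
  rw [e, Real.exp_add, Real.exp_sub, Real.exp_log (D.iW_pos' hz), Real.exp_log (P.bh_pos (h z hz))]

lemma LD_exp3 {z : ℝ × ℝ} (hz : z ∈ PR) :
    exp ((LD D P h κ).a z + (LD D P h κ).b z - (LD D P h κ).c z)
    = exp (D.M z.1 + κ) / iW D.w z.1 * P.ch (iW D.w z.1) z := by
  have e : (LD D P h κ).a z + (LD D P h κ).b z - (LD D P h κ).c z =
      (D.M z.1 + κ) - log (iW D.w z.1) + log (P.ch (iW D.w z.1) z) := by
    unfold LData.a LData.b LData.c LD
    simp only
    ring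
  rw [e, Real.exp_add, Real.exp_sub, Real.exp_log (D.iW_pos' hz), Real.exp_log (P.ch_pos (h z hz))]

lemma D1V (p : ℝ × ℝ) : D1 P.V p = P.Vr p := by
  obtain ⟨r, x⟩ := p
  exact D1_of_hasDerivAt (P.V_contDiff.differentiable (by simp) _) (P.V_hasDerivAt_r r x)

lemma D2V (p : ℝ × ℝ) : D2 P.V p = 2 * p.2 * P.VT p := by
  obtain ⟨r, x⟩ := p
  exact D2_of_hasDerivAt (P.V_contDiff.differentiable (by simp) _) (P.V_hasDerivAt_x r x)

lemma Vr_contDiff (P : PData) : ContDiff ℝ ∞ P.Vr :=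
  contDiff_const.sub ((P.H1_contDiff.comp P.s_contDiff).mul (P.hb.comp P.τ_contDiff))

include h in
/-- Vanishing of the tension field in polar coordinates. -/
theorem harm_polar (H' G' : CoordMetric 3) (y : Fin 3 → ℝ) (hy : y ∈ liftS PR)
    (hH' : ∀ᶠ z in 𝓝 y, H' z = diagM (LD D P h κ) z)
    (hG' : ∀ᶠ z in 𝓝 (FV P y), G' z = hypPol z) :
    ∀ a, tension H' G' (FV P) a y = 0 := by
  obtain ⟨U1, hU1, hU1o, hyU1⟩ := eventually_nhds_iff.mp hH'
  set L := LD D P h κ with hL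
  set U := liftS PR ∩ U1 with hUdef
  have hU : IsOpen U := (liftS_isOpen PR_isOpen).inter hU1o
  have hyU : y ∈ U := ⟨hy, hyU1⟩
  have hsub : U ⊆ liftS PR := inter_subset_left
  have hyp : (y 0, y 1) ∈ PR := hy
  have hVs : ContDiffOn ℝ ∞ (lift2 P.V) U := (lift2_contDiffOn (P.V_contDiff.contDiffOn (s := PR))).mono hsub
  have hgood := h _ hyp
  have hr : 0 < y 0 := hyp.1
  have hx : y 1 ^ 2 < 1 := hyp.2
  have hx0 : 1 - y 1 ^ 2 ≠ 0 := by linarith
  have hipos : 0 < iW D.w (y 0) := D.iW_pos' hyp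
  have eq1 := P.eq1 (iW D.w (y 0)) (y 0) (y 1) hgood
  have eq2 := P.eq2 (iW D.w (y 0)) (y 0) (y 1) hgood
  set i := iW D.w (y 0) with hi
  set m := exp (D.M (y 0) + κ) with hm
  have hmpos : 0 < m := Real.exp_pos _
  apply tension_diag (lift2 L.a) (lift2 L.b) (lift2 L.c) (lift2 P.V) H' G' (FV P) U hU y hyU
    ((lift2_contDiffOn L.ha).mono hsub) ((lift2_contDiffOn L.hb).mono hsub)
    ((lift2_contDiffOn L.hc).mono hsub) hVs
    (fun z hz => pd2_on PR_isOpen L.ha (hsub hz)) (fun z hz => pd2_on PR_isOpen L.hb (hsub hz))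
    (fun z hz => pd2_on PR_isOpen L.hc (hsub hz))
    (fun z hz => pd2_on PR_isOpen P.V_contDiff.contDiffOn (hsub hz))
    (fun z hz => hU1 z hz.2) hgood.2.1 hx (fun z _ => rfl) hG'
  · -- E1
    have t1 : pd 0 (fun z => exp (-lift2 L.a z + lift2 L.b z + lift2 L.c z) * pd 0 (lift2 P.V) z) y
        = m * (P.Vr (y 0, y 1) / i + P.Vrr (y 0, y 1)) := by
      have e1 : ∀ z ∈ liftS PR, exp (-lift2 L.a z + lift2 L.b z + lift2 L.c z) * pd 0 (lift2 P.V) z
          = lift2 (fun p => exp (D.M p.1 + κ) * P.Vr p) z := by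
        intro z hz
        rw [pd0_on PR_isOpen P.V_contDiff.contDiffOn hz]
        show exp (-L.a (z 0, z 1) + L.b (z 0, z 1) + L.c (z 0, z 1)) * D1 P.V (z 0, z 1) = _
        rw [LD_exp1, D1V]; rfl
      rw [pd_congr_on (liftS_isOpen PR_isOpen) e1 hy]
      have hsm : ContDiffOn ℝ ∞ (fun p : ℝ × ℝ => exp (D.M p.1 + κ) * P.Vr p) PR :=
        ((D.M_contDiffOn.add contDiffOn_const).exp).mul (Vr_contDiff P).contDiffOn
      rw [pd0_on PR_isOpen hsm hy]
      show D1 _ (y 0, y 1) = _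
      apply D1_of_hasDerivAt (diffAt_of_open PR_isOpen hsm hyp)
      have := (((D.M_hasDerivAt hr).add_const κ).exp).fun_mul (P.Vr_hasDerivAt_r (y 0) (y 1))
      refine this.congr_deriv ?_
      rw [← hi, ← hm]
      field_simp
    have t2 : pd 1 (fun z => exp (lift2 L.a z - lift2 L.b z + lift2 L.c z) * pd 1 (lift2 P.V) z) y
        = m / i * (2 * P.bh i (y 0, y 1) * P.VT (y 0, y 1)
          + 4 * y 1 ^ 2 * (P.bhT i (y 0, y 1) * P.VT (y 0, y 1)
            + P.bh i (y 0, y 1) * P.VTT (y 0, y 1))) := by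
      have e1 : ∀ z ∈ liftS PR, exp (lift2 L.a z - lift2 L.b z + lift2 L.c z) * pd 1 (lift2 P.V) z
          = lift2 (fun p => exp (D.M p.1 + κ) / iW D.w p.1 * P.bh (iW D.w p.1) p *
            (2 * p.2 * P.VT p)) z := by
        intro z hz
        rw [pd1_on PR_isOpen P.V_contDiff.contDiffOn hz]
        show exp (L.a (z 0, z 1) - L.b (z 0, z 1) + L.c (z 0, z 1)) * D2 P.V (z 0, z 1) = _
        rw [LD_exp2 h κ hz, D2V]; rfl
      rw [pd_congr_on (liftS_isOpen PR_isOpen) e1 hy]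
      have hsm : ContDiffOn ℝ ∞ (fun p : ℝ × ℝ => exp (D.M p.1 + κ) / iW D.w p.1 *
          P.bh (iW D.w p.1) p * (2 * p.2 * P.VT p)) PR := by
        have e : P.GoodSet PR (fun p : ℝ × ℝ => iW D.w p.1) id = PR := by
          ext p; exact ⟨fun hp => hp.1, fun hp => ⟨hp, h p hp⟩⟩
        have hbh := P.bh_smooth (O := PR) (i := fun p : ℝ × ℝ => iW D.w p.1) (pr := id)
          D.iW_contDiffOn contDiffOn_id
        rw [e] at hbh
        apply ContDiffOn.mul
        · apply ContDiffOn.mul _ hbh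
          exact ((D.M_contDiffOn.add contDiffOn_const).exp).div D.iW_contDiffOn
            (fun p hp => (D.iW_pos' hp).ne')
        · exact ((contDiff_const.mul contDiff_snd).mul P.VT_contDiff).contDiffOn
      rw [pd1_on PR_isOpen hsm hy]
      show D2 _ (y 0, y 1) = _
      apply D2_of_hasDerivAt (diffAt_of_open PR_isOpen hsm hyp)
      have h1 := P.bh_hasDerivAt_x i (y 0) (y 1) hgood.2.2.1.ne'
      have h2 := ((hasDerivAt_id' (y 1)).const_mul 2).fun_mul (P.VT_hasDerivAt_x (y 0) (y 1))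
      have h3 := (h1.const_mul (m / i)).fun_mul h2
      refine h3.congr_deriv ?_
      ring
    rw [t1, t2]
    show _ = sinh (P.V (y 0, y 1)) * cosh (P.V (y 0, y 1)) *
      (exp (L.a (y 0, y 1) - L.b (y 0, y 1) + L.c (y 0, y 1)) / (1 - y 1 ^ 2) +
        exp (L.a (y 0, y 1) + L.b (y 0, y 1) - L.c (y 0, y 1)) * (1 - y 1 ^ 2))
    rw [LD_exp2 h κ hyp, LD_exp3 h κ hyp]
    show _ = sinh (P.V (y 0, y 1)) * cosh (P.V (y 0, y 1)) *
      (m / i * P.bh i (y 0, y 1) / (1 - y 1 ^ 2) + m / i * P.ch i (y 0, y 1) * (1 - y 1 ^ 2))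
    have e5 : sinh (P.V (y 0, y 1)) * cosh (P.V (y 0, y 1)) *
      (m / i * P.bh i (y 0, y 1) / (1 - y 1 ^ 2) + m / i * P.ch i (y 0, y 1) * (1 - y 1 ^ 2)) =
      m / i * (sinh (P.V (y 0, y 1)) * cosh (P.V (y 0, y 1)) *
      (P.bh i (y 0, y 1) / (1 - y 1 ^ 2) + P.ch i (y 0, y 1) * (1 - y 1 ^ 2))) := by ring
    rw [e5, ← eq1]
    field_simp
  · -- E2
    have t1 : pd 1 (fun z => exp (lift2 L.a z - lift2 L.b z + lift2 L.c z) *
        sinh (lift2 P.V z) ^ 2 / (1 - z 1 ^ 2)) y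
        = m / i * (y 1 * ((2 * P.bhT i (y 0, y 1) * sinh (P.V (y 0, y 1)) ^ 2 +
          4 * P.bh i (y 0, y 1) * sinh (P.V (y 0, y 1)) * cosh (P.V (y 0, y 1)) * P.VT (y 0, y 1))
            / (1 - y 1 ^ 2) + 2 * P.bh i (y 0, y 1) * sinh (P.V (y 0, y 1)) ^ 2
            / (1 - y 1 ^ 2) ^ 2)) := by
      have e1 : ∀ z ∈ liftS PR, exp (lift2 L.a z - lift2 L.b z + lift2 L.c z) *
          sinh (lift2 P.V z) ^ 2 / (1 - z 1 ^ 2)
          = lift2 (fun p => exp (D.M p.1 + κ) / iW D.w p.1 * P.bh (iW D.w p.1) p *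
            sinh (P.V p) ^ 2 / (1 - p.2 ^ 2)) z := by
        intro z hz
        show exp (L.a (z 0, z 1) - L.b (z 0, z 1) + L.c (z 0, z 1)) *
          sinh (P.V (z 0, z 1)) ^ 2 / (1 - z 1 ^ 2) = _
        rw [LD_exp2 h κ hz]; rfl
      rw [pd_congr_on (liftS_isOpen PR_isOpen) e1 hy]
      have hsm : ContDiffOn ℝ ∞ (fun p : ℝ × ℝ => exp (D.M p.1 + κ) / iW D.w p.1 *
          P.bh (iW D.w p.1) p * sinh (P.V p) ^ 2 / (1 - p.2 ^ 2)) PR := by
        have e : P.GoodSet PR (fun p : ℝ × ℝ => iW D.w p.1) id = PR := by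
          ext p; exact ⟨fun hp => hp.1, fun hp => ⟨hp, h p hp⟩⟩
        have hbh := P.bh_smooth (O := PR) (i := fun p : ℝ × ℝ => iW D.w p.1) (pr := id)
          D.iW_contDiffOn contDiffOn_id
        rw [e] at hbh
        apply ContDiffOn.div
        · apply ContDiffOn.mul
          · apply ContDiffOn.mul _ hbh
            exact ((D.M_contDiffOn.add contDiffOn_const).exp).div D.iW_contDiffOn
              (fun p hp => (D.iW_pos' hp).ne')
          · exact (P.sinhV_contDiff.pow 2).contDiffOn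
        · exact (contDiff_const.sub (contDiff_snd.pow 2)).contDiffOn
        · intro p hp; have := hp.2; have : 0 < 1 - p.2 ^ 2 := by linarith
          exact this.ne'
      rw [pd1_on PR_isOpen hsm hy]
      show D2 _ (y 0, y 1) = _
      apply D2_of_hasDerivAt (diffAt_of_open PR_isOpen hsm hyp)
      have h1 := P.bh_hasDerivAt_x i (y 0) (y 1) hgood.2.2.1.ne'
      have h2 := ((P.V_hasDerivAt_x (y 0) (y 1)).sinh).fun_pow 2
      have h3 := ((h1.const_mul (m / i)).fun_mul h2).fun_div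
        (((hasDerivAt_id' (y 1)).fun_pow 2).const_sub 1) hx0
      refine h3.congr_deriv ?_
      simp only [Nat.cast_ofNat, Nat.add_one_sub_one, pow_one]
      field_simp
      ring
    rw [t1]
    show _ = y 1 * sinh (P.V (y 0, y 1)) ^ 2 *
      (exp (L.a (y 0, y 1) - L.b (y 0, y 1) + L.c (y 0, y 1)) / (1 - y 1 ^ 2) ^ 2 -
        exp (L.a (y 0, y 1) + L.b (y 0, y 1) - L.c (y 0, y 1)))
    rw [LD_exp2 h κ hyp, LD_exp3 h κ hyp, eq2]
    show _ = y 1 * sinh (P.V (y 0, y 1)) ^ 2 *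
      (m / i * P.bh i (y 0, y 1) / (1 - y 1 ^ 2) ^ 2 - m / i * P.ch i (y 0, y 1))
    ring

end

end Pool.Agent.Work.MP_0fcc57_gt
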