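import Mathlib

/-!
Arithmetic of Lipschitz quaternions over `ℤ[√-7]`: anisotropy of the norm form.
-/

namespace Pool.Agent.Work.MP_0fcc57_gt

open Quaternion

/-- The ring `ℤ[√-7]`. -/
abbrev O7 : Type := Zsqrtd (-7)

/-- `7 n²` is not a sum of three squares of integers unless `n = 0`. -/
theorem three_squares_aux (k : ℕ) : ∀ n x y z : ℤ, n.natAbs ≤ k → x ^ 2 + y ^ 2 + z ^ 2 = 7 * n ^ 2 →
    n = 0 := by
  induction k with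
  | zero => intro n x y z h _; omega
  | succ k ih =>
    intro n x y z hk h
    by_contra hn
    have key : n % 2 = 0 ∧ x % 2 = 0 ∧ y % 2 = 0 ∧ z % 2 = 0 := by
      have h8 : (x ^ 2 + y ^ 2 + z ^ 2) % 8 = (7 * n ^ 2) % 8 := by rw [h]
      have sq : ∀ t : ℤ, (t ^ 2 % 8 = 0 ∧ t % 2 = 0) ∨ (t ^ 2 % 8 = 1 ∧ t % 2 = 1) ∨
          (t ^ 2 % 8 = 4 ∧ t % 2 = 0) := by
        intro t
        have : t % 8 = 0 ∨ t % 8 = 1 ∨ t % 8 = 2 ∨ t % 8 = 3 ∨ t % 8 = 4 ∨ t % 8 = 5 ∨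
          t % 8 = 6 ∨ t % 8 = 7 := by omega
        rcases this with h | h | h | h | h | h | h | h <;> simp [pow_two, Int.mul_emod, h] <;> omega
      rcases sq x with hx | hx | hx <;> rcases sq y with hy | hy | hy <;>
        rcases sq z with hz | hz | hz <;> rcases sq n with hn | hn | hn <;> omega
    obtain ⟨hn2, hx2, hy2, hz2⟩ := key
    obtain ⟨n', rfl⟩ := Int.dvd_of_emod_eq_zero hn2
    obtain ⟨x', rfl⟩ := Int.dvd_of_emod_eq_zero hx2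
    obtain ⟨y', rfl⟩ := Int.dvd_of_emod_eq_zero hy2
    obtain ⟨z', rfl⟩ := Int.dvd_of_emod_eq_zero hz2
    have h' : x' ^ 2 + y' ^ 2 + z' ^ 2 = 7 * n' ^ 2 := by linarith
    have := ih n' x' y' z' (by omega) h'
    apply hn
    rw [this]
    simp

theorem three_squares {n x y z : ℤ} (h : x ^ 2 + y ^ 2 + z ^ 2 = 7 * n ^ 2) : n = 0 :=
  three_squares_aux _ n x y z le_rfl h

theorem four_sq_zero {a b c d : ℤ} (h : a ^ 2 + b ^ 2 + c ^ 2 + d ^ 2 = 0) :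
    a = 0 ∧ b = 0 ∧ c = 0 ∧ d = 0 := by
  refine ⟨?_, ?_, ?_, ?_⟩ <;>
  · apply pow_eq_zero_iff (two_ne_zero) |>.1
    nlinarith [sq_nonneg a, sq_nonneg b, sq_nonneg c, sq_nonneg d]

theorem O7_four_sq {a b c d : O7} (h : a ^ 2 + b ^ 2 + c ^ 2 + d ^ 2 = 0) :
    a = 0 ∧ b = 0 ∧ c = 0 ∧ d = 0 := by
  obtain ⟨u0, v0⟩ := a
  obtain ⟨u1, v1⟩ := b
  obtain ⟨u2, v2⟩ := c
  obtain ⟨u3, v3⟩ := d
  have h1 := congrArg Zsqrtd.re h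
  have h2 := congrArg Zsqrtd.im h
  simp only [pow_two, Zsqrtd.re_add, Zsqrtd.re_mul, Zsqrtd.re_zero, Zsqrtd.im_add, Zsqrtd.im_mul,
    Zsqrtd.im_zero] at h1 h2
  have e1 : u0 ^ 2 + u1 ^ 2 + u2 ^ 2 + u3 ^ 2 = 7 * (v0 ^ 2 + v1 ^ 2 + v2 ^ 2 + v3 ^ 2) := by
    linarith
  have e2 : u0 * v0 + u1 * v1 + u2 * v2 + u3 * v3 = 0 := by linarith
  have e3 : (u1 * v0 - u0 * v1 + (u2 * v3 - u3 * v2)) ^ 2 +
      (u2 * v0 - u0 * v2 + (u3 * v1 - u1 * v3)) ^ 2 +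
      (u3 * v0 - u0 * v3 + (u1 * v2 - u2 * v1)) ^ 2 =
      7 * (v0 ^ 2 + v1 ^ 2 + v2 ^ 2 + v3 ^ 2) ^ 2 := by
    have : (u0 * v0 + u1 * v1 + u2 * v2 + u3 * v3) ^ 2 +
      ((u1 * v0 - u0 * v1 + (u2 * v3 - u3 * v2)) ^ 2 +
      (u2 * v0 - u0 * v2 + (u3 * v1 - u1 * v3)) ^ 2 +
      (u3 * v0 - u0 * v3 + (u1 * v2 - u2 * v1)) ^ 2) =
      (u0 ^ 2 + u1 ^ 2 + u2 ^ 2 + u3 ^ 2) * (v0 ^ 2 + v1 ^ 2 + v2 ^ 2 + v3 ^ 2) := by ring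
    rw [e1, e2] at this
    linarith
  have hv := three_squares e3
  rw [hv] at e1
  obtain ⟨rfl, rfl, rfl, rfl⟩ := four_sq_zero hv
  obtain ⟨rfl, rfl, rfl, rfl⟩ := four_sq_zero (by linarith : u0 ^ 2 + u1 ^ 2 + u2 ^ 2 + u3 ^ 2 = 0)
  exact ⟨rfl, rfl, rfl, rfl⟩

/-- The norm form of the Lipschitz quaternions over `ℤ[√-7]` is anisotropic. -/
theorem normSq_O7_eq_zero {a : ℍ[O7]} (h : normSq a = 0) : a = 0 := by
  rw [normSq_def'] at h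
  obtain ⟨h1, h2, h3, h4⟩ := O7_four_sq h
  exact Quaternion.ext _ _ h1 h2 h3 h4

end Pool.Agent.Work.MP_0fcc57_gt
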