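import Pool.Agent.Work.MP_0fcc57_gt.LatIso

/-!
The order of integral quaternions over the ring of integers combinations of `1` and `√-7`, its
anisotropy, and the displacement estimate for congruence subgroups.
-/

open scoped ContDiff Manifold Topology

noncomputable section

namespace Pool.Agent.Work.MP_0fcc57_gt

namespace Lat

/-- the square root of minus seven -/
def ww : ℂ := ⟨0, Real.sqrt 7⟩

lemma ww_re : ww.re = 0 := rfl
lemma ww_im : ww.im = Real.sqrt 7 := rfl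

lemma sqrt7 : Real.sqrt 7 * Real.sqrt 7 = 7 := Real.mul_self_sqrt (by norm_num)

lemma ww_mul : ww * ww = -7 := by
  apply Complex.ext
  · simp [ww_re, ww_im]
  · simp [ww_re]

/-- the ring generated by `√-7` -/
def SS : Subring ℂ where
  carrier := {z | ∃ a b : ℤ, z = a + b * ww}
  mul_mem' := by
    rintro _ _ ⟨a, b, rfl⟩ ⟨c, d, rfl⟩
    refine ⟨a * c - 7 * b * d, a * d + b * c, ?_⟩
    push_cast
    linear_combination (b * d : ℂ) * ww_mul
  one_mem' := ⟨1, 0, by simp⟩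
  add_mem' := by
    rintro _ _ ⟨a, b, rfl⟩ ⟨c, d, rfl⟩
    exact ⟨a + c, b + d, by push_cast; ring⟩
  zero_mem' := ⟨0, 0, by simp⟩
  neg_mem' := by
    rintro _ ⟨a, b, rfl⟩
    exact ⟨-a, -b, by push_cast; ring⟩

lemma mem_SS {z : ℂ} : z ∈ SS ↔ ∃ a b : ℤ, z = a + b * ww := Iff.rfl

lemma star_mem {z : ℂ} (h : z ∈ SS) : star z ∈ SS := by
  obtain ⟨a, b, rfl⟩ := h
  refine ⟨a, -b, ?_⟩
  have h1 : star ww = -ww := by
    apply Complex.ext <;> simp [ww_re, ww_im]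
  simp only [Complex.star_def, map_add, map_mul, map_intCast] at h1 ⊢
  rw [h1]
  push_cast
  ring

lemma normSq_S (a b : ℤ) : Complex.normSq (a + b * ww) = ((a ^ 2 + 7 * b ^ 2 : ℤ) : ℝ) := by
  rw [Complex.normSq_apply]
  simp only [Complex.add_re, Complex.intCast_re, Complex.mul_re, Complex.intCast_im, ww_re, ww_im,
    Complex.add_im, Complex.mul_im]
  push_cast
  linear_combination (b : ℝ) ^ 2 * sqrt7

lemma S_eq_zero {a b : ℤ} (h : (a : ℂ) + b * ww = 0) : a = 0 ∧ b = 0 := by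
  have h1 := normSq_S a b
  rw [h, map_zero] at h1
  have h2 : a ^ 2 + 7 * b ^ 2 = 0 := by exact_mod_cast h1.symm
  have ha := sq_nonneg a
  have hb := sq_nonneg b
  constructor
  · exact pow_eq_zero_iff (two_ne_zero) |>.1 (by linarith)
  · exact pow_eq_zero_iff (two_ne_zero) |>.1 (by linarith)

lemma one_le_normSq {z : ℂ} (h : z ∈ SS) (h0 : z ≠ 0) : 1 ≤ Complex.normSq z := by
  obtain ⟨a, b, rfl⟩ := h
  rw [normSq_S]
  have h1 : 0 < a ^ 2 + 7 * b ^ 2 := by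
    by_contra hcon
    have ha := sq_nonneg a
    have hb := sq_nonneg b
    have ha0 : a = 0 := pow_eq_zero_iff (two_ne_zero) |>.1 (by linarith)
    have hb0 : b = 0 := pow_eq_zero_iff (two_ne_zero) |>.1 (by linarith)
    apply h0
    simp [ha0, hb0]
  exact_mod_cast h1

lemma one_le_norm {z : ℂ} (h : z ∈ SS) (h0 : z ≠ 0) : 1 ≤ ‖z‖ := by
  have h1 := one_le_normSq h h0
  rw [Complex.normSq_eq_norm_sq] at h1
  have h2 := norm_nonneg z
  nlinarith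

/-- the order of integral quaternions -/
def inO (q : HC) : Prop := q.re ∈ SS ∧ q.imI ∈ SS ∧ q.imJ ∈ SS ∧ q.imK ∈ SS

lemma inO_mul {a b : HC} (ha : inO a) (hb : inO b) : inO (a * b) := by
  obtain ⟨a0, a1, a2, a3⟩ := ha
  obtain ⟨b0, b1, b2, b3⟩ := hb
  refine ⟨?_, ?_, ?_, ?_⟩
  · rw [Quaternion.re_mul]
    exact SS.sub_mem (SS.sub_mem (SS.sub_mem (SS.mul_mem a0 b0) (SS.mul_mem a1 b1))
      (SS.mul_mem a2 b2)) (SS.mul_mem a3 b3)
  · rw [Quaternion.imI_mul]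
    exact SS.sub_mem (SS.add_mem (SS.add_mem (SS.mul_mem a0 b1) (SS.mul_mem a1 b0))
      (SS.mul_mem a2 b3)) (SS.mul_mem a3 b2)
  · rw [Quaternion.imJ_mul]
    exact SS.add_mem (SS.add_mem (SS.sub_mem (SS.mul_mem a0 b2) (SS.mul_mem a1 b3))
      (SS.mul_mem a2 b0)) (SS.mul_mem a3 b1)
  · rw [Quaternion.imK_mul]
    exact SS.add_mem (SS.sub_mem (SS.add_mem (SS.mul_mem a0 b3) (SS.mul_mem a1 b2))
      (SS.mul_mem a2 b1)) (SS.mul_mem a3 b0)

lemma inO_add {a b : HC} (ha : inO a) (hb : inO b) : inO (a + b) := by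
  obtain ⟨a0, a1, a2, a3⟩ := ha
  obtain ⟨b0, b1, b2, b3⟩ := hb
  exact ⟨SS.add_mem a0 b0, SS.add_mem a1 b1, SS.add_mem a2 b2, SS.add_mem a3 b3⟩

lemma inO_neg {a : HC} (ha : inO a) : inO (-a) := by
  obtain ⟨a0, a1, a2, a3⟩ := ha
  exact ⟨SS.neg_mem a0, SS.neg_mem a1, SS.neg_mem a2, SS.neg_mem a3⟩

lemma inO_sub {a b : HC} (ha : inO a) (hb : inO b) : inO (a - b) := by
  rw [sub_eq_add_neg]
  exact inO_add ha (inO_neg hb)

lemma inO_star {a : HC} (ha : inO a) : inO (star a) := by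
  obtain ⟨a0, a1, a2, a3⟩ := ha
  refine ⟨?_, ?_, ?_, ?_⟩
  · rw [Quaternion.re_star]; exact a0
  · rw [Quaternion.imI_star]; exact SS.neg_mem a1
  · rw [Quaternion.imJ_star]; exact SS.neg_mem a2
  · rw [Quaternion.imK_star]; exact SS.neg_mem a3

lemma inO_coe {z : ℂ} (h : z ∈ SS) : inO (z : HC) := by
  refine ⟨?_, ?_, ?_, ?_⟩
  · rw [Quaternion.re_coe]; exact h
  · rw [Quaternion.imI_coe]; exact SS.zero_mem
  · rw [Quaternion.imJ_coe]; exact SS.zero_mem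
  · rw [Quaternion.imK_coe]; exact SS.zero_mem

lemma inO_one : inO 1 := inO_coe SS.one_mem

lemma inO_zero : inO 0 := inO_coe SS.zero_mem

lemma NN_mem {a : HC} (ha : inO a) : NN a ∈ SS := by
  obtain ⟨a0, a1, a2, a3⟩ := ha
  exact SS.add_mem (SS.add_mem (SS.add_mem (SS.pow_mem a0 2) (SS.pow_mem a1 2))
    (SS.pow_mem a2 2)) (SS.pow_mem a3 2)

/-- seven times a square is not a sum of three squares -/
lemma seven (k : ℕ) : ∀ n x y z : ℤ, n.natAbs = k → 7 * n ^ 2 = x ^ 2 + y ^ 2 + z ^ 2 → n = 0 := by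
  induction k using Nat.strong_induction_on with
  | _ k ih =>
    intro n x y z hn h
    by_contra hne
    have hmod : ∀ t : ℤ, (t % 2 = 0 ∧ ∃ s, t = 2 * s ∧ t ^ 2 = 4 * s ^ 2) ∨
        (∃ s, t ^ 2 = 8 * s + 1) := by
      intro t
      rcases Int.emod_two_eq_zero_or_one t with h | h
      · left
        exact ⟨h, t / 2, by omega, by
          have : t = 2 * (t / 2) := by omega
          conv_lhs => rw [this]
          ring⟩
      · right
        obtain ⟨u, hu⟩ : ∃ u, t = 2 * u + 1 := ⟨t / 2, by omega⟩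
        obtain ⟨v, hv⟩ := Int.even_mul_succ_self u
        refine ⟨v, ?_⟩
        rw [hu]
        linear_combination 4 * hv
    have hsq : ∀ t : ℤ, t ^ 2 % 8 = 0 ∨ t ^ 2 % 8 = 4 ∨ t ^ 2 % 8 = 1 := by
      intro t
      have h1 : t % 8 = 0 ∨ t % 8 = 1 ∨ t % 8 = 2 ∨ t % 8 = 3 ∨ t % 8 = 4 ∨ t % 8 = 5 ∨
        t % 8 = 6 ∨ t % 8 = 7 := by omega
      rcases h1 with h | h | h | h | h | h | h | h <;> simp [pow_two, Int.mul_emod, h]
    have pn := hmod n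
    have px := hmod x
    have py := hmod y
    have pz := hmod z
    have sx := hsq x
    have sy := hsq y
    have sz := hsq z
    have sn := hsq n
    rcases pn with ⟨_, n', hn', hn2⟩ | ⟨s, hs⟩
    · rcases px with ⟨_, x', hx', hx2⟩ | ⟨s, hs⟩
      · rcases py with ⟨_, y', hy', hy2⟩ | ⟨s, hs⟩
        · rcases pz with ⟨_, z', hz', hz2⟩ | ⟨s, hs⟩
          · have h2 : 7 * n' ^ 2 = x' ^ 2 + y' ^ 2 + z' ^ 2 := by linarith
            have h3 := ih n'.natAbs (by omega) n' x' y' z' rfl h2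
            exact hne (by rw [hn', h3]; rfl)
          · omega
        · omega
      · omega
    · omega

lemma euler_four (a0 a1 a2 a3 b0 b1 b2 b3 : ℤ) (h : a0 * b0 + a1 * b1 + a2 * b2 + a3 * b3 = 0)
    (h7 : a0 ^ 2 + a1 ^ 2 + a2 ^ 2 + a3 ^ 2 = 7 * (b0 ^ 2 + b1 ^ 2 + b2 ^ 2 + b3 ^ 2)) :
    b0 ^ 2 + b1 ^ 2 + b2 ^ 2 + b3 ^ 2 = 0 := by
  apply seven _ (b0 ^ 2 + b1 ^ 2 + b2 ^ 2 + b3 ^ 2) (a0 * b1 - a1 * b0 - a2 * b3 + a3 * b2)
    (a0 * b2 + a1 * b3 - a2 * b0 - a3 * b1) (a0 * b3 - a1 * b2 + a2 * b1 - a3 * b0) rfl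
  linear_combination (-(b0 ^ 2 + b1 ^ 2 + b2 ^ 2 + b3 ^ 2)) * h7
    + (a0 * b0 + a1 * b1 + a2 * b2 + a3 * b3) * h

theorem anisotropic {q : HC} (hq : inO q) (h : NN q = 0) : q = 0 := by
  obtain ⟨⟨a0, b0, h0⟩, ⟨a1, b1, h1⟩, ⟨a2, b2, h2⟩, ⟨a3, b3, h3⟩⟩ := hq
  unfold NN at h
  rw [h0, h1, h2, h3] at h
  have e : ((a0 ^ 2 + a1 ^ 2 + a2 ^ 2 + a3 ^ 2 - 7 * (b0 ^ 2 + b1 ^ 2 + b2 ^ 2 + b3 ^ 2) : ℤ) : ℂ)
      + ((2 * (a0 * b0 + a1 * b1 + a2 * b2 + a3 * b3) : ℤ) : ℂ) * ww = 0 := by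
    rw [← h]
    push_cast
    linear_combination (-((b0 : ℂ) ^ 2 + b1 ^ 2 + b2 ^ 2 + b3 ^ 2)) * ww_mul
  obtain ⟨e1, e2⟩ := S_eq_zero e
  have hb := euler_four a0 a1 a2 a3 b0 b1 b2 b3 (by omega) (by linarith)
  have ha : a0 ^ 2 + a1 ^ 2 + a2 ^ 2 + a3 ^ 2 = 0 := by rw [hb] at e1; linarith
  have hz : ∀ x y z t : ℤ, x ^ 2 + y ^ 2 + z ^ 2 + t ^ 2 = 0 → x = 0 ∧ y = 0 ∧ z = 0 ∧ t = 0 := by
    intro x y z t h
    have := sq_nonneg x
    have := sq_nonneg y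
    have := sq_nonneg z
    have := sq_nonneg t
    refine ⟨?_, ?_, ?_, ?_⟩ <;> exact pow_eq_zero_iff (two_ne_zero) |>.1 (by linarith)
  obtain ⟨rfl, rfl, rfl, rfl⟩ := hz _ _ _ _ ha
  obtain ⟨rfl, rfl, rfl, rfl⟩ := hz _ _ _ _ hb
  ext
  · rw [h0, Quaternion.re_zero]; simp
  · rw [h1, Quaternion.imI_zero]; simp
  · rw [h2, Quaternion.imJ_zero]; simp
  · rw [h3, Quaternion.imK_zero]; simp

/-- displacement -/
theorem displacement {m : ℕ} (hm : 1 ≤ m) {ε : HC} (hε : inO ε)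
    (hN : NN (1 + ((m : ℂ) : HC) * ε) = 1) (h0 : ε ≠ 0) :
    (m : ℝ) ^ 2 / 2 ≤ ‖(1 + ((m : ℂ) : HC) * ε).re - 1‖ := by
  have hm' : (0 : ℝ) < m := by exact_mod_cast hm
  have hmc : (m : ℂ) ≠ 0 := by exact_mod_cast hm'.ne'
  have hre : (1 + ((m : ℂ) : HC) * ε).re = 1 + m * ε.re := by
    rw [Quaternion.re_add, Quaternion.re_one, Quaternion.re_mul, Quaternion.re_coe,
      Quaternion.imI_coe, Quaternion.imJ_coe, Quaternion.imK_coe]
    ring
  have hI : (1 + ((m : ℂ) : HC) * ε).imI = m * ε.imI := by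
    rw [Quaternion.imI_add, Quaternion.imI_one, Quaternion.imI_mul, Quaternion.re_coe,
      Quaternion.imI_coe, Quaternion.imJ_coe, Quaternion.imK_coe]
    ring
  have hJ : (1 + ((m : ℂ) : HC) * ε).imJ = m * ε.imJ := by
    rw [Quaternion.imJ_add, Quaternion.imJ_one, Quaternion.imJ_mul, Quaternion.re_coe,
      Quaternion.imI_coe, Quaternion.imJ_coe, Quaternion.imK_coe]
    ring
  have hK : (1 + ((m : ℂ) : HC) * ε).imK = m * ε.imK := by
    rw [Quaternion.imK_add, Quaternion.imK_one, Quaternion.imK_mul, Quaternion.re_coe,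
      Quaternion.imI_coe, Quaternion.imJ_coe, Quaternion.imK_coe]
    ring
  unfold NN at hN
  rw [hre, hI, hJ, hK] at hN
  have h1 : (m : ℂ) * (2 * ε.re + m * NN ε) = 0 := by
    unfold NN
    linear_combination hN
  have h2 : 2 * ε.re + m * NN ε = 0 := by
    rcases mul_eq_zero.1 h1 with h | h
    · exact absurd h hmc
    · exact h
  have h3 : NN ε ≠ 0 := fun h => h0 (anisotropic hε h)
  have h4 := one_le_norm (NN_mem hε) h3
  rw [hre]
  have h5 : (1 : ℂ) + m * ε.re - 1 = -((m : ℂ) ^ 2 / 2) * NN ε := by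
    linear_combination (m : ℂ) / 2 * h2
  rw [h5, norm_mul, norm_neg, norm_div, norm_pow, Complex.norm_natCast]
  have h6 : ‖(2 : ℂ)‖ = 2 := by norm_num
  rw [h6]
  have h7 : 0 ≤ (m : ℝ) ^ 2 / 2 := by positivity
  nlinarith

end Lat

end Pool.Agent.Work.MP_0fcc57_gt
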