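import Mathlib

/-!
Minkowski's theorem: a uniformly short lattice vector under all unimodular linear maps.
-/

namespace Pool.Agent.Work.MP_0fcc57_gt

open MeasureTheory Module

theorem exists_short {E : Type*} [NormedAddCommGroup E] [NormedSpace ℝ E] [FiniteDimensional ℝ E]
    [Nontrivial E] {ι : Type*} [Finite ι] (b : Basis ι ℝ E) :
    ∃ c : ℝ, 0 < c ∧ ∀ f : E →ₗ[ℝ] E, |LinearMap.det f| = 1 →
      ∃ x ∈ Submodule.span ℤ (Set.range b), x ≠ 0 ∧ ‖f x‖ ≤ c := by
  classical
  cases nonempty_fintype ι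
  let _ : MeasurableSpace E := borel E
  have : BorelSpace E := ⟨rfl⟩
  let μ : Measure E := Measure.addHaar
  let F : Set E := ZSpan.fundamentalDomain b
  have hF : μ F < ⊤ := (ZSpan.fundamentalDomain_isBounded b).measure_lt_top
  have hB : 0 < μ (Metric.closedBall (0 : E) 1) := Metric.measure_closedBall_pos μ 0 one_pos
  have hA : μ F * 2 ^ finrank ℝ E < ⊤ := ENNReal.mul_lt_top hF (by simp)
  have hn : finrank ℝ E ≠ 0 := (finrank_pos (R := ℝ) (M := E)).ne'
  have hAB : μ F * 2 ^ finrank ℝ E / μ (Metric.closedBall (0 : E) 1) < ⊤ :=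
    ENNReal.div_lt_top hA.ne hB.ne'
  obtain ⟨c, hc1, hc2⟩ : ∃ c : ℝ, 1 ≤ c ∧
      μ F * 2 ^ finrank ℝ E < μ (Metric.closedBall (0 : E) c) := by
    set q := μ F * 2 ^ finrank ℝ E / μ (Metric.closedBall (0 : E) 1) with hq
    refine ⟨q.toReal + 1, by linarith [ENNReal.toReal_nonneg (a := q)], ?_⟩
    have hc0 : (0 : ℝ) ≤ q.toReal + 1 := by linarith [ENNReal.toReal_nonneg (a := q)]
    rw [Measure.addHaar_closedBall' μ _ hc0]
    have h1 : q < ENNReal.ofReal ((q.toReal + 1) ^ finrank ℝ E) := by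
      rw [ENNReal.lt_ofReal_iff_toReal_lt hAB.ne]
      calc q.toReal < q.toReal + 1 := by linarith
        _ ≤ (q.toReal + 1) ^ finrank ℝ E :=
          le_self_pow₀ (by linarith [ENNReal.toReal_nonneg (a := q)]) hn
    have hBt : μ (Metric.closedBall (0 : E) 1) ≠ ⊤ := Metric.isBounded_closedBall.measure_lt_top.ne
    rw [hq, ENNReal.div_lt_iff (Or.inl hB.ne') (Or.inl hBt)] at h1
    exact h1
  refine ⟨c, by linarith, fun f hf => ?_⟩
  have hdet : LinearMap.det f ≠ 0 := by
    intro h0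
    rw [h0, abs_zero] at hf
    exact zero_ne_one hf
  have hpre : μ (f ⁻¹' (Metric.closedBall (0 : E) c)) = μ (Metric.closedBall (0 : E) c) := by
    rw [Measure.addHaar_preimage_linearMap μ hdet, abs_inv, hf]
    simp
  have hfund := ZSpan.isAddFundamentalDomain' b μ
  have : Countable (Submodule.span ℤ (Set.range b)).toAddSubgroup :=
    inferInstanceAs (Countable (Submodule.span ℤ (Set.range b)))
  obtain ⟨x, hx0, hx⟩ := exists_ne_zero_mem_lattice_of_measure_mul_two_pow_lt_measure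
    (s := f ⁻¹' (Metric.closedBall (0 : E) c)) hfund
    (by
      intro x hx
      simp only [Set.mem_preimage, map_neg, mem_closedBall_zero_iff, norm_neg] at hx ⊢
      exact hx)
    ((convex_closedBall (0 : E) c).linear_preimage f)
    (by rw [hpre]; exact hc2)
  refine ⟨(x : E), x.2, ?_, ?_⟩
  · intro h
    exact hx0 (Subtype.ext h)
  · simpa using hx

end Pool.Agent.Work.MP_0fcc57_gt
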