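import Mathlib
import Pool.Agent.Work.MP_0fcc57_gt.LatA
import Pool.Agent.Work.MP_0fcc57_gt.LatB

/-!
Cocompactness of the group of norm one Lipschitz quaternions over `ℤ[√-7]`
in the group of norm one complex quaternions.
-/

namespace Pool.Agent.Work.MP_0fcc57_gt

open Quaternion Module

noncomputable section

theorem sqrt7_sq : (Complex.I * (Real.sqrt 7 : ℂ)) * (Complex.I * (Real.sqrt 7 : ℂ)) = ((-7 : ℤ) : ℂ) := by
  have h : ((Real.sqrt 7 : ℝ) : ℂ) * ((Real.sqrt 7 : ℝ) : ℂ) = 7 := by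
    rw [← Complex.ofReal_mul, Real.mul_self_sqrt (by norm_num)]
    norm_num
  calc (Complex.I * (Real.sqrt 7 : ℂ)) * (Complex.I * (Real.sqrt 7 : ℂ))
      = (Complex.I * Complex.I) * (((Real.sqrt 7 : ℝ) : ℂ) * ((Real.sqrt 7 : ℝ) : ℂ)) := by ring
    _ = _ := by rw [h, Complex.I_mul_I]; norm_num

/-- The embedding `ℤ[√-7] → ℂ`. -/
def jC : O7 →+* ℂ := Zsqrtd.lift ⟨Complex.I * (Real.sqrt 7 : ℂ), sqrt7_sq⟩

theorem jC_apply (a : O7) : jC a = (a.re : ℂ) + (a.im : ℂ) * (Complex.I * (Real.sqrt 7 : ℂ)) := rfl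

theorem jC_re (a : O7) : (jC a).re = a.re := by
  simp [jC_apply]

theorem jC_im (a : O7) : (jC a).im = a.im * Real.sqrt 7 := by
  simp [jC_apply]

theorem normSq_jC (a : O7) : Complex.normSq (jC a) = (a.re : ℝ) ^ 2 + 7 * (a.im : ℝ) ^ 2 := by
  rw [Complex.normSq_apply, jC_re, jC_im]
  have : (Real.sqrt 7) * (Real.sqrt 7) = 7 := Real.mul_self_sqrt (by norm_num)
  calc (a.re : ℝ) * a.re + a.im * Real.sqrt 7 * (a.im * Real.sqrt 7)
      = (a.re : ℝ) ^ 2 + (Real.sqrt 7 * Real.sqrt 7) * (a.im : ℝ) ^ 2 := by ring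
    _ = _ := by rw [this]

theorem jC_injective : Function.Injective jC := by
  intro a b h
  have h1 := congrArg Complex.re h
  have h2 := congrArg Complex.im h
  rw [jC_re, jC_re] at h1
  rw [jC_im, jC_im] at h2
  have h7 : Real.sqrt 7 ≠ 0 := by positivity
  ext
  · exact_mod_cast h1
  · exact_mod_cast mul_right_cancel₀ h7 h2

/-- The ring `ℤ[√-7]` is a domain. -/
theorem O7_mul_cancel {a x y : O7} (ha : a ≠ 0) (h : a * x = a * y) : x = y := by
  apply jC_injective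
  have h1 := congrArg jC h
  rw [map_mul, map_mul] at h1
  exact mul_left_cancel₀ (fun h0 => ha (jC_injective (by rw [h0, map_zero]))) h1

theorem one_le_normSq_jC {a : O7} (ha : a ≠ 0) : 1 ≤ Complex.normSq (jC a) := by
  rw [normSq_jC]
  have h : a.re ≠ 0 ∨ a.im ≠ 0 := by
    by_contra hcon
    push Not at hcon
    exact ha (Zsqrtd.ext hcon.1 hcon.2)
  have h2 : (1 : ℤ) ≤ a.re ^ 2 + 7 * a.im ^ 2 := by
    rcases h with h | h
    · have := Int.one_le_abs h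
      nlinarith [sq_nonneg a.im, sq_abs a.re]
    · have := Int.one_le_abs h
      nlinarith [sq_nonneg a.re, sq_abs a.im]
  exact_mod_cast h2

/-- A complex quaternion from its components. -/
def mkH (a b c d : ℂ) : ℍ[ℂ] := ⟨a, b, c, d⟩

@[simp] theorem mkH_re (a b c d : ℂ) : (mkH a b c d).re = a := rfl
@[simp] theorem mkH_imI (a b c d : ℂ) : (mkH a b c d).imI = b := rfl
@[simp] theorem mkH_imJ (a b c d : ℂ) : (mkH a b c d).imJ = c := rfl
@[simp] theorem mkH_imK (a b c d : ℂ) : (mkH a b c d).imK = d := rfl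

/-- The embedding of the Lipschitz quaternions in the complex quaternions. -/
def JQ : ℍ[O7] →+* ℍ[ℂ] where
  toFun a := mkH (jC a.re) (jC a.imI) (jC a.imJ) (jC a.imK)
  map_one' := by
    apply Quaternion.ext <;> simp
  map_mul' a b := by
    apply Quaternion.ext <;> simp
  map_zero' := by
    apply Quaternion.ext <;> simp
  map_add' a b := by
    apply Quaternion.ext <;> simp

@[simp] theorem JQ_re (a : ℍ[O7]) : (JQ a).re = jC a.re := rfl
@[simp] theorem JQ_imI (a : ℍ[O7]) : (JQ a).imI = jC a.imI := rfl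
@[simp] theorem JQ_imJ (a : ℍ[O7]) : (JQ a).imJ = jC a.imJ := rfl
@[simp] theorem JQ_imK (a : ℍ[O7]) : (JQ a).imK = jC a.imK := rfl

theorem JQ_star (a : ℍ[O7]) : JQ (star a) = star (JQ a) := by
  apply Quaternion.ext <;> simp

theorem normSq_JQ (a : ℍ[O7]) : normSq (JQ a) = jC (normSq a) := by
  rw [normSq_def', normSq_def']
  simp

theorem JQ_smul (r : O7) (a : ℍ[O7]) : JQ (r • a) = jC r • JQ a := by
  apply Quaternion.ext <;> simp

/-- The square of the euclidean norm of a complex quaternion. -/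
def nrm (a : ℍ[ℂ]) : ℝ :=
  Complex.normSq a.re + Complex.normSq a.imI + Complex.normSq a.imJ + Complex.normSq a.imK

theorem nrm_nonneg (a : ℍ[ℂ]) : 0 ≤ nrm a := by
  unfold nrm
  have h1 := Complex.normSq_nonneg a.re
  have h2 := Complex.normSq_nonneg a.imI
  have h3 := Complex.normSq_nonneg a.imJ
  have h4 := Complex.normSq_nonneg a.imK
  linarith

theorem nrm_star (a : ℍ[ℂ]) : nrm (star a) = nrm a := by
  simp [nrm]

theorem nrm_smul (z : ℂ) (a : ℍ[ℂ]) : nrm (z • a) = Complex.normSq z * nrm a := by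
  simp only [nrm, re_smul, imI_smul, imJ_smul, imK_smul, smul_eq_mul, Complex.normSq_mul]
  ring

theorem norm_normSq_le (a : ℍ[ℂ]) : ‖normSq a‖ ≤ nrm a := by
  rw [normSq_def']
  have h : ∀ z : ℂ, ‖z ^ 2‖ = Complex.normSq z := by
    intro z
    rw [norm_pow, Complex.normSq_eq_norm_sq]
  calc ‖a.re ^ 2 + a.imI ^ 2 + a.imJ ^ 2 + a.imK ^ 2‖
      ≤ ‖a.re ^ 2‖ + ‖a.imI ^ 2‖ + ‖a.imJ ^ 2‖ + ‖a.imK ^ 2‖ := norm_add₄_le
    _ = nrm a := by rw [h, h, h, h]; rfl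

theorem cs4 (a b c d x y z w : ℂ) :
    Complex.normSq (a * x + b * y + c * z + d * w) ≤
      (Complex.normSq a + Complex.normSq b + Complex.normSq c + Complex.normSq d) *
      (Complex.normSq x + Complex.normSq y + Complex.normSq z + Complex.normSq w) := by
  simp only [Complex.normSq_eq_norm_sq]
  have h1 : ‖a * x + b * y + c * z + d * w‖ ≤ ‖a‖ * ‖x‖ + ‖b‖ * ‖y‖ + ‖c‖ * ‖z‖ + ‖d‖ * ‖w‖ := by
    refine norm_add₄_le.trans (le_of_eq ?_)
    simp only [norm_mul]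
  have h2 : ‖a * x + b * y + c * z + d * w‖ ^ 2 ≤
      (‖a‖ * ‖x‖ + ‖b‖ * ‖y‖ + ‖c‖ * ‖z‖ + ‖d‖ * ‖w‖) ^ 2 := by
    gcongr
  refine h2.trans ?_
  nlinarith [sq_nonneg (‖a‖ * ‖y‖ - ‖b‖ * ‖x‖), sq_nonneg (‖a‖ * ‖z‖ - ‖c‖ * ‖x‖),
    sq_nonneg (‖a‖ * ‖w‖ - ‖d‖ * ‖x‖), sq_nonneg (‖b‖ * ‖z‖ - ‖c‖ * ‖y‖),
    sq_nonneg (‖b‖ * ‖w‖ - ‖d‖ * ‖y‖), sq_nonneg (‖c‖ * ‖w‖ - ‖d‖ * ‖z‖)]

theorem nrm_mul_le (a b : ℍ[ℂ]) : nrm (a * b) ≤ 4 * (nrm a * nrm b) := by
  have h1 := cs4 a.re (-a.imI) (-a.imJ) (-a.imK) b.re b.imI b.imJ b.imK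
  have h2 := cs4 a.re a.imI a.imJ (-a.imK) b.imI b.re b.imK b.imJ
  have h3 := cs4 a.re (-a.imI) a.imJ a.imK b.imJ b.imK b.re b.imI
  have h4 := cs4 a.re a.imI (-a.imJ) a.imK b.imK b.imJ b.imI b.re
  simp only [Complex.normSq_neg] at h1 h2 h3 h4
  have e1 : (a * b).re = a.re * b.re + -a.imI * b.imI + -a.imJ * b.imJ + -a.imK * b.imK := by
    rw [re_mul]; ring
  have e2 : (a * b).imI = a.re * b.imI + a.imI * b.re + a.imJ * b.imK + -a.imK * b.imJ := by
    rw [imI_mul]; ring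
  have e3 : (a * b).imJ = a.re * b.imJ + -a.imI * b.imK + a.imJ * b.re + a.imK * b.imI := by
    rw [imJ_mul]
    ring
  have e4 : (a * b).imK = a.re * b.imK + a.imI * b.imJ + -a.imJ * b.imI + a.imK * b.re := by
    rw [imK_mul]
    ring
  unfold nrm
  rw [e1, e2, e3, e4]
  nlinarith [h1, h2, h3, h4]

/-! ### the short vector -/

/-- Left multiplication by a complex quaternion, as a matrix. -/
def LMat (a : ℍ[ℂ]) : Matrix (Fin 4) (Fin 4) ℂ :=
  !![a.re, -a.imI, -a.imJ, -a.imK;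
     a.imI, a.re, -a.imK, a.imJ;
     a.imJ, a.imK, a.re, -a.imI;
     a.imK, -a.imJ, a.imI, a.re]

theorem det_LMat (a : ℍ[ℂ]) : (LMat a).det = (normSq a) ^ 2 := by
  rw [normSq_def']
  unfold LMat
  simp [Matrix.det_succ_row_zero, Fin.sum_univ_succ, Fin.succAbove]
  ring

/-- The vector of the components. -/
def vec (b : ℍ[ℂ]) : Fin 4 → ℂ := ![b.re, b.imI, b.imJ, b.imK]

theorem LMat_mulVec (a b : ℍ[ℂ]) : (LMat a).mulVec (vec b) = vec (a * b) := by
  unfold LMat vec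
  ext i
  fin_cases i <;> simp [Matrix.mulVec, dotProduct, Fin.sum_univ_succ] <;> ring

theorem det_LMat_real (a : ℍ[ℂ]) (ha : normSq a = 1) :
    |LinearMap.det ((Matrix.toLin' (LMat a)).restrictScalars ℝ)| = 1 := by
  rw [LinearMap.det_restrictScalars, LinearMap.det_toLin', det_LMat, ha]
  simp

/-- A real basis of `ℂ⁴` spanning the lattice `ℤ[√-7]⁴`. -/
def latBasis : Basis (Σ _ : Fin 4, Fin 2) ℝ (Fin 4 → ℂ) :=
  Pi.basis fun _ => (Complex.basisOneI.unitsSMul ![1, Units.mk0 (Real.sqrt 7) (by positivity)])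

theorem latBasis_mem (k : Σ _ : Fin 4, Fin 2) (i : Fin 4) : latBasis k i ∈ Set.range jC := by
  obtain ⟨k1, k2⟩ := k
  unfold latBasis
  rw [Pi.basis_apply]
  by_cases h : i = k1
  · subst h
    rw [Pi.single_eq_same, Basis.unitsSMul_apply]
    fin_cases k2
    · refine ⟨1, ?_⟩
      simp
    · refine ⟨⟨0, 1⟩, ?_⟩
      rw [jC_apply]
      simp [Units.smul_def]
      ring
  · rw [Pi.single_eq_of_ne h]
    exact ⟨0, map_zero _⟩

theorem span_latBasis_mem {x : Fin 4 → ℂ} (hx : x ∈ Submodule.span ℤ (Set.range latBasis))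
    (i : Fin 4) : x i ∈ Set.range jC := by
  induction hx using Submodule.span_induction with
  | mem x hx =>
    obtain ⟨k, rfl⟩ := hx
    exact latBasis_mem k i
  | zero => exact ⟨0, map_zero _⟩
  | add x y _ _ hx hy =>
    obtain ⟨a, ha⟩ := hx
    obtain ⟨b, hb⟩ := hy
    exact ⟨a + b, by rw [map_add, ha, hb]; rfl⟩
  | smul n x _ hx =>
    obtain ⟨a, ha⟩ := hx
    exact ⟨n • a, by rw [map_zsmul, ha]; rfl⟩

theorem exists_short_quat : ∃ c : ℝ, 0 < c ∧ ∀ Z : ℍ[ℂ], normSq Z = 1 →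
    ∃ l : ℍ[O7], l ≠ 0 ∧ nrm (Z * JQ l) ≤ c := by
  obtain ⟨c, hc, h⟩ := exists_short latBasis
  refine ⟨4 * c ^ 2, by positivity, fun Z hZ => ?_⟩
  obtain ⟨x, hx, hx0, hxc⟩ := h _ (det_LMat_real Z hZ)
  choose l hl using span_latBasis_mem hx
  let L : ℍ[O7] := ⟨l 0, l 1, l 2, l 3⟩
  have hvec : vec (JQ L) = x := by
    ext i
    fin_cases i
    · exact hl 0
    · exact hl 1
    · exact hl 2
    · exact hl 3
  refine ⟨L, ?_, ?_⟩
  · intro h0
    apply hx0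
    rw [← hvec, h0, map_zero]
    ext i
    fin_cases i <;> simp [vec]
  · have h1 : vec (Z * JQ L) = (LMat Z).mulVec x := by rw [← LMat_mulVec, hvec]
    have h2 : ‖vec (Z * JQ L)‖ ≤ c := by
      rw [h1]
      exact hxc
    have h3 : ∀ i, ‖vec (Z * JQ L) i‖ ≤ c := fun i => (norm_le_pi_norm _ i).trans h2
    have h4 : ∀ i, Complex.normSq (vec (Z * JQ L) i) ≤ c ^ 2 := by
      intro i
      rw [Complex.normSq_eq_norm_sq]
      exact pow_le_pow_left₀ (norm_nonneg _) (h3 i) 2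
    have e0 := h4 0
    have e1 := h4 1
    have e2 := h4 2
    have e3 := h4 3
    simp only [vec] at e0 e1 e2 e3
    unfold nrm
    have e0' : Complex.normSq (Z * JQ L).re ≤ c ^ 2 := e0
    have e1' : Complex.normSq (Z * JQ L).imI ≤ c ^ 2 := e1
    have e2' : Complex.normSq (Z * JQ L).imJ ≤ c ^ 2 := e2
    have e3' : Complex.normSq (Z * JQ L).imK ≤ c ^ 2 := e3
    linarith

end

end Pool.Agent.Work.MP_0fcc57_gt
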