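import Mathlib
import Pool.Agent.Work.MP_0fcc57_gt.LatC

/-!
The congruence subgroups of the norm one Lipschitz quaternions over `ℤ[√-7]`:
cocompactness, displacement and discreteness.
-/

namespace Pool.Agent.Work.MP_0fcc57_gt

open Quaternion Module

noncomputable section

theorem O7_norm_eq (a : O7) : ((Zsqrtd.norm a : ℤ) : O7) = star a * a := by
  rw [Zsqrtd.norm_eq_mul_conj, mul_comm]

theorem O7_norm_def (a : O7) : Zsqrtd.norm a = a.re ^ 2 + 7 * a.im ^ 2 := by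
  rw [Zsqrtd.norm_def]; ring

theorem O7_norm_pos {a : O7} (ha : a ≠ 0) : 0 < Zsqrtd.norm a := by
  rw [O7_norm_def]
  have h : a.re ≠ 0 ∨ a.im ≠ 0 := by
    by_contra hcon
    push Not at hcon
    exact ha (Zsqrtd.ext hcon.1 hcon.2)
  rcases h with h | h
  · have := pow_pos (abs_pos.2 h) 2
    rw [sq_abs] at this
    positivity
  · have := pow_pos (abs_pos.2 h) 2
    rw [sq_abs] at this
    positivity

theorem O7_mul_ne_zero {a b : O7} (ha : a ≠ 0) (hb : b ≠ 0) : a * b ≠ 0 := by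
  intro h
  apply hb
  apply O7_mul_cancel ha
  rw [h, mul_zero]

theorem O7_smul_mul (r : O7) (a b : ℍ[O7]) : (r • a) * b = r • (a * b) := by
  apply Quaternion.ext <;> simp <;> ring

theorem O7_smul_cancel {r : O7} (hr : r ≠ 0) {a b : ℍ[O7]} (h : r • a = r • b) : a = b := by
  have h1 := congrArg QuaternionAlgebra.re h
  have h2 := congrArg QuaternionAlgebra.imI h
  have h3 := congrArg QuaternionAlgebra.imJ h
  have h4 := congrArg QuaternionAlgebra.imK h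
  rw [Quaternion.re_smul, Quaternion.re_smul, smul_eq_mul, smul_eq_mul] at h1
  rw [Quaternion.imI_smul, Quaternion.imI_smul, smul_eq_mul, smul_eq_mul] at h2
  rw [Quaternion.imJ_smul, Quaternion.imJ_smul, smul_eq_mul, smul_eq_mul] at h3
  rw [Quaternion.imK_smul, Quaternion.imK_smul, smul_eq_mul, smul_eq_mul] at h4
  apply Quaternion.ext
  · exact O7_mul_cancel hr h1
  · exact O7_mul_cancel hr h2
  · exact O7_mul_cancel hr h3
  · exact O7_mul_cancel hr h4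

theorem O7_normSq_smul (r : O7) (a : ℍ[O7]) : normSq (r • a) = r ^ 2 * normSq a := by
  rw [normSq_def', normSq_def']
  simp only [Quaternion.re_smul, Quaternion.imI_smul, Quaternion.imJ_smul, Quaternion.imK_smul,
    smul_eq_mul]
  ring

theorem O7_coe_mul (r : O7) (a : ℍ[O7]) : (r : ℍ[O7]) * a = r • a := by
  apply Quaternion.ext <;> simp

theorem O7_mul_coe (r : O7) (a : ℍ[O7]) : a * (r : ℍ[O7]) = r • a := by
  apply Quaternion.ext <;> simp <;> ring

/-- The key step: two quaternions of the same norm which are congruent modulo a suitable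
integer differ by an element of the congruence subgroup. -/
theorem exists_gamma {m k : ℤ} {ν : O7} (hν : ν ≠ 0) {Λ ρ μ : ℍ[O7]}
    (hΛ : normSq Λ = ν) (hρ : normSq ρ = ν)
    (h : Λ = ρ + (((m * (Zsqrtd.norm ν * k) : ℤ) : O7)) • μ) :
    ∃ γ : ℍ[O7], normSq γ = 1 ∧ (∃ d, γ = 1 + (m : ℍ[O7]) * d) ∧ γ * ρ = Λ := by
  let d : ℍ[O7] := ((k : O7) * star ν) • (μ * star ρ)
  let γ : ℍ[O7] := 1 + (m : ℍ[O7]) * d
  have h1 : ν • γ = Λ * star ρ := by
    rw [h, add_mul, Quaternion.self_mul_star, hρ, O7_smul_mul]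
    have e1 : ν • γ = (ν : ℍ[O7]) + ν • ((m : ℍ[O7]) * d) := by
      simp only [γ]
      rw [smul_add]
      congr 1
      apply Quaternion.ext <;> simp
    rw [e1]
    congr 1
    have e2 : (m : ℍ[O7]) * d = (m : O7) • d := by
      rw [← O7_coe_mul]
      norm_cast
    rw [e2]
    simp only [d]
    rw [smul_smul, smul_smul]
    congr 1
    push_cast
    rw [O7_norm_eq]
    ring
  have h2 : normSq (ν • γ) = ν ^ 2 * normSq γ := O7_normSq_smul _ _
  have h3 : normSq γ = 1 := by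
    apply O7_mul_cancel (O7_mul_ne_zero hν hν)
    rw [mul_one, ← pow_two, ← h2, h1, map_mul, Quaternion.normSq_star, hΛ, hρ, pow_two]
  refine ⟨γ, h3, ⟨_, rfl⟩, ?_⟩
  apply O7_smul_cancel hν
  rw [← O7_smul_mul, h1, mul_assoc, Quaternion.star_mul_self, hρ, O7_mul_coe]

/-- A finite set meeting every class of a finite invariant. -/
theorem exists_reps {α β : Type*} (S : Set α) (key : α → β) (h : (key '' S).Finite) :
    ∃ R : Set α, R.Finite ∧ R ⊆ S ∧ ∀ x ∈ S, ∃ y ∈ R, key y = key x := by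
  obtain ⟨R, hRS, hR⟩ := S.exists_subset_bijOn key
  refine ⟨R, hR.finite_iff_finite.2 h, hRS, fun x hx => ?_⟩
  obtain ⟨y, hy, hyx⟩ := hR.surjOn (Set.mem_image_of_mem key hx)
  exact ⟨y, hy, hyx⟩

/-- The residue of an element of `ℤ[√-7]` modulo `M`. -/
def resid (M : ℕ) (a : O7) : ZMod M × ZMod M := (a.re, a.im)

theorem resid_eq {M : ℕ} {a b : O7} (h : resid M a = resid M b) :
    ∃ c : O7, a = b + ((M : ℤ) : O7) * c := by
  have h1 : ((a.re : ℤ) : ZMod M) = (b.re : ℤ) := congrArg Prod.fst h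
  have h2 : ((a.im : ℤ) : ZMod M) = (b.im : ℤ) := congrArg Prod.snd h
  rw [ZMod.intCast_eq_intCast_iff_dvd_sub] at h1 h2
  obtain ⟨x, hx⟩ := h1
  obtain ⟨y, hy⟩ := h2
  refine ⟨⟨-x, -y⟩, ?_⟩
  ext
  · simp
    linarith
  · simp
    linarith

/-- The residue of a quaternion. -/
def residQ (M : ℕ) (a : ℍ[O7]) :
    (ZMod M × ZMod M) × (ZMod M × ZMod M) × (ZMod M × ZMod M) × (ZMod M × ZMod M) :=
  (resid M a.re, resid M a.imI, resid M a.imJ, resid M a.imK)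

theorem residQ_eq {M : ℕ} {a b : ℍ[O7]} (h : residQ M a = residQ M b) :
    ∃ c : ℍ[O7], a = b + ((M : ℤ) : O7) • c := by
  have h' := h
  simp only [residQ, Prod.mk.injEq] at h'
  obtain ⟨h1, h2, h3, h4⟩ := h'
  obtain ⟨c1, e1⟩ := resid_eq h1
  obtain ⟨c2, e2⟩ := resid_eq h2
  obtain ⟨c3, e3⟩ := resid_eq h3
  obtain ⟨c4, e4⟩ := resid_eq h4
  refine ⟨⟨c1, c2, c3, c4⟩, ?_⟩
  apply Quaternion.ext
  · exact e1
  · exact e2
  · exact e3
  · exact e4

/-- Bounded elements of `ℤ[√-7]`. -/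
theorem abs_le_of_normSq_jC {a : O7} {B : ℕ} (h : Complex.normSq (jC a) ≤ (B : ℝ) ^ 2) :
    |a.re| ≤ B ∧ |a.im| ≤ B := by
  rw [normSq_jC] at h
  have h' : a.re ^ 2 + 7 * a.im ^ 2 ≤ (B : ℤ) ^ 2 := by exact_mod_cast h
  constructor
  · exact abs_le_of_sq_le_sq (by nlinarith [sq_nonneg a.im]) (by positivity)
  · exact abs_le_of_sq_le_sq (by nlinarith [sq_nonneg a.re, sq_nonneg a.im]) (by positivity)

theorem finite_bounded_O7 (B : ℕ) : {a : O7 | |a.re| ≤ B ∧ |a.im| ≤ B}.Finite := by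
  have h : (Set.Icc (-(B : ℤ)) B ×ˢ Set.Icc (-(B : ℤ)) B).Finite :=
    (Set.finite_Icc _ _).prod (Set.finite_Icc _ _)
  refine (h.image (fun p : ℤ × ℤ => (⟨p.1, p.2⟩ : O7))).subset ?_
  rintro ⟨x, y⟩ ⟨hx, hy⟩
  exact ⟨(x, y), ⟨abs_le.1 hx, abs_le.1 hy⟩, rfl⟩

theorem natCast_mul_eq (m : ℕ) (a : ℍ[O7]) : (m : ℍ[O7]) * a = (m : O7) • a := by
  rw [← O7_coe_mul]
  norm_cast

theorem star_congr (m : ℕ) (a : ℍ[O7]) :
    star (1 + (m : ℍ[O7]) * a) = 1 + (m : ℍ[O7]) * star a := by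
  rw [natCast_mul_eq, natCast_mul_eq]
  apply Quaternion.ext <;> simp

theorem C_mul_smul (z : ℂ) (a b : ℍ[ℂ]) : a * (z • b) = z • (a * b) := by
  apply Quaternion.ext <;> simp <;> ring

theorem cocompact (m : ℕ) (hm : m ≠ 0) : ∃ C : ℝ, ∀ Z : ℍ[ℂ], normSq Z = 1 →
    ∃ g : ℍ[O7], normSq g = 1 ∧ (∃ d, g = 1 + (m : ℍ[O7]) * d) ∧ nrm (JQ g * Z) ≤ C := by
  obtain ⟨c, hc, hshort⟩ := exists_short_quat
  obtain ⟨B, hB⟩ := exists_nat_ge c
  let M : ℕ := m * (8 * B ^ 2).factorial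
  have hM : NeZero M := ⟨Nat.mul_ne_zero hm (Nat.factorial_ne_zero _)⟩
  let S : Set ℍ[O7] := {l | l ≠ 0 ∧ |(normSq l).re| ≤ B ∧ |(normSq l).im| ≤ B}
  let key : ℍ[O7] → _ := fun l => (normSq l, residQ M l)
  have hfin : (key '' S).Finite := by
    refine ((finite_bounded_O7 B).prod (Set.finite_univ)).subset ?_
    · rintro _ ⟨l, hl, rfl⟩
      exact ⟨hl.2, Set.mem_univ _⟩
  obtain ⟨R, hR, hRS, hrep⟩ := exists_reps S key hfin
  obtain ⟨D, hD⟩ := (hR.image (fun l => nrm (JQ l))).bddAbove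
  refine ⟨4 * (D * c), fun Z hZ => ?_⟩
  obtain ⟨Λ, hΛ0, hΛ⟩ := hshort (star Z) (by rw [Quaternion.normSq_star, hZ])
  set w : ℍ[ℂ] := star Z * JQ Λ with hw
  have hν0 : normSq Λ ≠ 0 := fun h => hΛ0 (normSq_O7_eq_zero h)
  have hNw : normSq w = jC (normSq Λ) := by
    rw [hw, map_mul, Quaternion.normSq_star, hZ, one_mul, normSq_JQ]
  have h1 : ‖jC (normSq Λ)‖ ≤ c := by
    rw [← hNw]
    exact (norm_normSq_le w).trans hΛ
  have h2 : Complex.normSq (jC (normSq Λ)) ≤ (B : ℝ) ^ 2 := by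
    rw [Complex.normSq_eq_norm_sq]
    exact pow_le_pow_left₀ (norm_nonneg _) (h1.trans hB) 2
  have hΛS : Λ ∈ S := ⟨hΛ0, abs_le_of_normSq_jC h2⟩
  obtain ⟨ρ, hρR, hρ⟩ := hrep Λ hΛS
  have hρ1 : normSq ρ = normSq Λ := congrArg Prod.fst hρ
  have hρ2 : residQ M Λ = residQ M ρ := (congrArg Prod.snd hρ).symm
  obtain ⟨μ, hμ⟩ := residQ_eq hρ2
  -- the norm of `ν` divides the factorial
  have hdvd : ∃ k : ℤ, ((8 * B ^ 2).factorial : ℤ) = Zsqrtd.norm (normSq Λ) * k := by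
    have hpos := O7_norm_pos hν0
    have hle : Zsqrtd.norm (normSq Λ) ≤ ((8 * B ^ 2 : ℕ) : ℤ) := by
      rw [O7_norm_def]
      obtain ⟨a1, a2⟩ := abs_le_of_normSq_jC h2
      have b1 : (normSq Λ).re ^ 2 ≤ (B : ℤ) ^ 2 := sq_le_sq' (abs_le.1 a1).1 (abs_le.1 a1).2
      have b2 : (normSq Λ).im ^ 2 ≤ (B : ℤ) ^ 2 := sq_le_sq' (abs_le.1 a2).1 (abs_le.1 a2).2
      push_cast
      linarith
    have h3 : (Zsqrtd.norm (normSq Λ)).toNat ∣ (8 * B ^ 2).factorial :=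
      Nat.dvd_factorial (by omega) (by omega)
    obtain ⟨k, hk⟩ := h3
    refine ⟨k, ?_⟩
    rw [hk]
    push_cast
    rw [Int.toNat_of_nonneg hpos.le]
  obtain ⟨k, hk⟩ := hdvd
  have hM' : ((M : ℕ) : ℤ) = (m : ℤ) * (Zsqrtd.norm (normSq Λ) * k) := by
    rw [← hk]
    simp only [M]
    push_cast
    rfl
  rw [hM'] at hμ
  obtain ⟨γ, hγ1, ⟨d, hd⟩, hγρ⟩ := exists_gamma hν0 rfl hρ1 hμ
  refine ⟨star γ, by rw [Quaternion.normSq_star, hγ1], ⟨star d, ?_⟩, ?_⟩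
  · rw [hd, Int.cast_natCast, star_congr]
  · have hz : jC (normSq Λ) ≠ 0 := fun h => hν0 (jC_injective (by rw [h, map_zero]))
    have e1 : JQ Λ * star w = jC (normSq Λ) • Z := by
      have : JQ Λ = Z * w := by
        rw [hw, ← mul_assoc, Quaternion.self_mul_star, hZ]
        simp
      rw [this, mul_assoc, Quaternion.self_mul_star, hNw, Quaternion.mul_coe_eq_smul]
    have e2 : Z = (jC (normSq Λ))⁻¹ • (JQ Λ * star w) := by
      rw [e1, smul_smul, inv_mul_cancel₀ hz, one_smul]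
    have e3 : JQ (star γ) * Z = (jC (normSq Λ))⁻¹ • (JQ ρ * star w) := by
      have e6 : JQ Λ = JQ γ * JQ ρ := by rw [← hγρ, map_mul]
      rw [e2, C_mul_smul, e6, JQ_star, mul_assoc (JQ γ), ← mul_assoc (star (JQ γ)),
        Quaternion.star_mul_self, normSq_JQ, hγ1, map_one]
      simp
    rw [e3, nrm_smul]
    have e4 : Complex.normSq (jC (normSq Λ))⁻¹ ≤ 1 := by
      rw [map_inv₀]
      exact inv_le_one_of_one_le₀ (one_le_normSq_jC hν0)
    have e5 : nrm (JQ ρ * star w) ≤ 4 * (D * c) := by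
      refine (nrm_mul_le _ _).trans ?_
      rw [nrm_star]
      have a1 : nrm (JQ ρ) ≤ D := hD ⟨ρ, hρR, rfl⟩
      have a2 := nrm_nonneg (JQ ρ)
      have a3 := nrm_nonneg w
      have : nrm (JQ ρ) * nrm w ≤ D * c := mul_le_mul a1 hΛ a3 (a2.trans a1)
      linarith
    calc Complex.normSq (jC (normSq Λ))⁻¹ * nrm (JQ ρ * star w)
        ≤ 1 * nrm (JQ ρ * star w) := mul_le_mul_of_nonneg_right e4 (nrm_nonneg _)
      _ ≤ _ := by rw [one_mul]; exact e5

/-- The displacement of the nontrivial elements of the congruence subgroup. -/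
theorem displacement {m : ℕ} {g d : ℍ[O7]} (hg : normSq g = 1)
    (hd : g = 1 + (m : ℍ[O7]) * d) (hg1 : g ≠ 1) :
    (m : ℝ) ^ 2 / 2 ≤ ‖jC g.re - 1‖ := by
  have hd0 : d ≠ 0 := by
    rintro rfl
    apply hg1
    rw [hd, mul_zero, add_zero]
  have hN : normSq d ≠ 0 := fun h => hd0 (normSq_O7_eq_zero h)
  have h1 : 2 * (1 - g.re) = (m : O7) ^ 2 * normSq d := by
    have h2 : normSq g = (1 + (m : O7) * d.re) ^ 2 + ((m : O7) * d.imI) ^ 2 +
        ((m : O7) * d.imJ) ^ 2 + ((m : O7) * d.imK) ^ 2 := by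
      rw [normSq_def', hd, natCast_mul_eq]
      simp
    have h3 : g.re = 1 + (m : O7) * d.re := by
      rw [hd, natCast_mul_eq]
      simp
    rw [hg] at h2
    rw [h3, normSq_def']
    linear_combination h2
  have h4 : 2 * (1 - jC g.re) = (m : ℂ) ^ 2 * jC (normSq d) := by
    have := congrArg jC h1
    have h2 : jC 2 = 2 := map_ofNat jC 2
    simpa [h2] using this
  have h5 : 1 ≤ ‖jC (normSq d)‖ := by
    have := one_le_normSq_jC hN
    rw [Complex.normSq_eq_norm_sq] at this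
    nlinarith [norm_nonneg (jC (normSq d))]
  have h6 : 2 * ‖jC g.re - 1‖ = (m : ℝ) ^ 2 * ‖jC (normSq d)‖ := by
    have := congrArg norm h4
    rw [norm_mul, norm_mul, norm_pow, norm_sub_rev] at this
    simpa using this
  have h7 : (m : ℝ) ^ 2 ≤ (m : ℝ) ^ 2 * ‖jC (normSq d)‖ := le_mul_of_one_le_right (by positivity) h5
  linarith

theorem nrm_JQ (g : ℍ[O7]) : nrm (JQ g) = Complex.normSq (jC g.re) + Complex.normSq (jC g.imI) +
    Complex.normSq (jC g.imJ) + Complex.normSq (jC g.imK) := rfl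

/-- A quaternion from its four components. -/
def mkO (p : O7 × O7 × O7 × O7) : ℍ[O7] := ⟨p.1, p.2.1, p.2.2.1, p.2.2.2⟩

theorem finite_nrm_le (C : ℝ) : {g : ℍ[O7] | nrm (JQ g) ≤ C}.Finite := by
  obtain ⟨B, hB⟩ := exists_nat_ge C
  have hf := finite_bounded_O7 B
  refine ((hf.prod (hf.prod (hf.prod hf))).image mkO).subset ?_
  intro g hg
  have hg' : nrm (JQ g) ≤ C := hg
  rw [nrm_JQ] at hg'
  have n1 := Complex.normSq_nonneg (jC g.re)
  have n2 := Complex.normSq_nonneg (jC g.imI)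
  have n3 := Complex.normSq_nonneg (jC g.imJ)
  have n4 := Complex.normSq_nonneg (jC g.imK)
  have hBB : (B : ℝ) ≤ (B : ℝ) ^ 2 := by
    exact_mod_cast Nat.le_self_pow two_ne_zero B
  refine ⟨(g.re, g.imI, g.imJ, g.imK), ⟨?_, ?_, ?_, ?_⟩, rfl⟩ <;>
  · refine abs_le_of_normSq_jC ?_
    linarith

end

end Pool.Agent.Work.MP_0fcc57_gt
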