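import Pool.Agent.Work.MP_0fcc57_gt.LatQuat

/-!
The action of a complex quaternion of norm one on the hyperboloid is by smooth isometries of the
hyperbolic metric.
-/

open scoped ContDiff Manifold Topology

noncomputable section

namespace Pool.Agent.Work.MP_0fcc57_gt

namespace Lat

lemma contDiff_sq : ContDiff ℝ ∞ sq := by
  unfold sq
  fun_prop

lemma contDiff_x0 : ContDiff ℝ ∞ x0 := by
  unfold x0
  apply ContDiff.sqrt
  · exact contDiff_const.add contDiff_sq
  · intro p
    have := sq_nonneg' p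
    positivity

lemma pd_sq (i : Fin 3) (p : Fin 3 → ℝ) : pd i sq p = 2 * p i := by
  unfold pd sq
  have h : HasFDerivAt (fun p : Fin 3 → ℝ => ∑ k, p k ^ 2)
      (∑ k : Fin 3, ((2 : ℕ) • p k ^ (2 - 1)) • (ContinuousLinearMap.proj k :
        (Fin 3 → ℝ) →L[ℝ] ℝ)) p := by
    apply HasFDerivAt.fun_sum
    intro k _
    exact (hasFDerivAt_apply k p).pow 2
  rw [h.fderiv]
  simp only [sum_apply, smul_apply,
    ContinuousLinearMap.proj_apply]
  rw [Finset.sum_eq_single i]
  · simp
  · intro b _ hb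
    rw [Pi.single_eq_of_ne hb]
    simp
  · simp

lemma pd_x0 (i : Fin 3) (p : Fin 3 → ℝ) : pd i x0 p = p i / x0 p := by
  have hd : DifferentiableAt ℝ x0 p := contDiff_x0.differentiable (by simp) p
  have h1 : (fun z => x0 z ^ 2) = fun z => 1 + sq z := by
    funext z; exact x0_sq z
  have h2 : fderiv ℝ (fun z => x0 z ^ 2) p = fderiv ℝ (fun z => 1 + sq z) p := by rw [h1]
  rw [(hd.hasFDerivAt.pow 2).fderiv, fderiv_const_add] at h2
  have h3 := congrArg (fun L : (Fin 3 → ℝ) →L[ℝ] ℝ => L (Pi.single i 1)) h2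
  simp only [smul_apply] at h3
  have h4 := pd_sq i p
  unfold pd at h4 ⊢
  rw [h4] at h3
  have h5 := x0_pos p
  simp at h3
  field_simp
  linarith

lemma differentiableAt_x0 (p : Fin 3 → ℝ) : DifferentiableAt ℝ x0 p :=
  contDiff_x0.differentiable (by simp) p

lemma pd_affine (c : ℝ) (l : Fin 3 → ℝ) (i : Fin 3) (p : Fin 3 → ℝ) :
    pd i (fun z => c * x0 z + ∑ k, l k * z k) p = c * (p i / x0 p) + l i := by
  have h1 : HasFDerivAt (fun z : Fin 3 → ℝ => ∑ k, l k * z k)
      (∑ k : Fin 3, (l k) • (ContinuousLinearMap.proj k : (Fin 3 → ℝ) →L[ℝ] ℝ)) p := by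
    apply HasFDerivAt.fun_sum
    intro k _
    exact (hasFDerivAt_apply k p).const_mul (l k)
  have h2 := ((differentiableAt_x0 p).hasFDerivAt.const_mul c).fun_add h1
  have h3 := pd_x0 i p
  unfold pd at h3 ⊢
  rw [HasFDerivAt.fderiv h2]
  simp only [add_apply, smul_apply,
    sum_apply, ContinuousLinearMap.proj_apply, h3, smul_eq_mul]
  congr 1
  rw [Finset.sum_eq_single i]
  · simp
  · intro b _ hb
    rw [Pi.single_eq_of_ne hb, mul_zero]
  · simp

lemma sum_aux (y u v : Fin 3 → ℝ) (T : ℝ) :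
    ∑ a, ∑ b, ((if a = b then (1 : ℝ) else 0) - y a * y b / T ^ 2) * u a * v b
      = ∑ a, u a * v a - (∑ a, y a * u a) * (∑ a, y a * v a) / T ^ 2 := by
  have h : ∀ a b : Fin 3, ((if a = b then (1 : ℝ) else 0) - y a * y b / T ^ 2) * u a * v b
      = (if a = b then u a * v b else 0) - (y a * u a) * (y b * v b) / T ^ 2 := by
    intro a b
    split_ifs <;> ring
  simp only [h, Finset.sum_sub_distrib, Finset.sum_ite_eq, Finset.mem_univ, if_true,
    ← Finset.sum_div, ← Finset.mul_sum, ← Finset.sum_mul]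

theorem iso_of_lorentz (φ : (Fin 3 → ℝ) → (Fin 3 → ℝ)) (l00 : ℝ) (l0 c : Fin 3 → ℝ)
    (l : Fin 3 → Fin 3 → ℝ)
    (h0 : ∀ p, x0 (φ p) = l00 * x0 p + ∑ k, l0 k * p k)
    (h1 : ∀ p a, φ p a = c a * x0 p + ∑ k, l a k * p k)
    (q1 : ∑ a, c a * c a - l00 * l00 = -1)
    (q2 : ∀ k, ∑ a, c a * l a k - l00 * l0 k = 0)
    (q3 : ∀ i j, ∑ a, l a i * l a j - l0 i * l0 j = if i = j then 1 else 0) :
    ContDiff ℝ ∞ φ ∧ pull hyp φ = hyp := by
  have hsm : ContDiff ℝ ∞ φ := by
    rw [contDiff_pi]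
    intro a
    have : (fun p => φ p a) = fun p => c a * x0 p + ∑ k, l a k * p k := by
      funext p; exact h1 p a
    rw [this]
    refine (contDiff_const.mul contDiff_x0).add ?_
    fun_prop
  refine ⟨hsm, ?_⟩
  funext p
  ext i j
  have hpd : ∀ i a, pd i (fun z => φ z a) p = c a * (p i / x0 p) + l a i := by
    intro i a
    have : (fun z => φ z a) = fun z => c a * x0 z + ∑ k, l a k * z k := by
      funext z; exact h1 z a
    rw [this, pd_affine]
  have hx := x0_pos p
  have hx2 := x0_sq p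
  have hT := x0_pos (φ p)
  have hT2 := x0_sq (φ p)
  have hT0 := h0 p
  set X := x0 p with hX
  set T := x0 (φ p) with hTdef
  -- derivative of the time component
  have hder : ∀ i, ∑ a, φ p a * (c a * (p i / X) + l a i) = T * (l00 * (p i / X) + l0 i) := by
    intro i
    have e1 := h1 p 0
    have e2 := h1 p 1
    have e3 := h1 p 2
    have q20 := q2 0
    have q21 := q2 1
    have q22 := q2 2
    have q2i := q2 i
    have q30 := q3 0 i
    have q31 := q3 1 i
    have q32 := q3 2 i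
    simp only [Fin.sum_univ_three] at *
    rw [e1, e2, e3, hT0]
    have hpi : (if (0 : Fin 3) = i then (1 : ℝ) else 0) * p 0 + (if (1 : Fin 3) = i then (1 : ℝ) else 0) * p 1
        + (if (2 : Fin 3) = i then (1 : ℝ) else 0) * p 2 = p i := by
      fin_cases i <;> simp
    have hXi : X * (p i / X) = p i := by field_simp
    rw [← q30, ← q31, ← q32] at hpi
    linear_combination (q1 : _) * (X * (p i / X)) + q2i * X + (p i / X) * (p 0 * q20 + p 1 * q21 + p 2 * q22)
      + hpi - hXi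
  show ∑ a, ∑ b, hyp (φ p) a b * pd i (fun z => φ z a) p * pd j (fun z => φ z b) p = hyp p i j
  simp only [hpd]
  have hsum : ∑ a, ∑ b, hyp (φ p) a b * (c a * (p i / X) + l a i) * (c b * (p j / X) + l b j)
      = ∑ a, (c a * (p i / X) + l a i) * (c a * (p j / X) + l a j)
        - (∑ a, φ p a * (c a * (p i / X) + l a i)) * (∑ a, φ p a * (c a * (p j / X) + l a j)) / T ^ 2 := by
    have hTT : (1 + ∑ k, φ p k ^ 2) = T ^ 2 := by rw [hT2]; rfl
    simp only [hyp, Matrix.of_apply, hTT]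
    exact sum_aux (φ p) _ _ T
  rw [hsum, hder, hder]
  have hq := q3 i j
  have hqi := q2 i
  have hqj := q2 j
  have hTT : T * (l00 * (p i / X) + l0 i) * (T * (l00 * (p j / X) + l0 j)) / T ^ 2
      = (l00 * (p i / X) + l0 i) * (l00 * (p j / X) + l0 j) := by
    field_simp
  rw [hTT]
  have hXX : (1 + ∑ k, p k ^ 2) = X ^ 2 := by rw [hx2]; rfl
  simp only [hyp, Matrix.of_apply, hXX]
  rw [← hq]
  have hpp : p i * p j / X ^ 2 = (p i / X) * (p j / X) := by field_simp
  rw [hpp]
  simp only [Fin.sum_univ_three] at *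
  linear_combination (p i / X) * (p j / X) * q1 + (p j / X) * hqi + (p i / X) * hqj

/-- the linear action on hermitian quaternions -/
def sand (q : HC) (t : ℝ) (p : Fin 3 → ℝ) : HC := q * herm t p * dag q

lemma sand_add (q : HC) (t t' : ℝ) (p p' : Fin 3 → ℝ) :
    sand q (t + t') (p + p') = sand q t p + sand q t' p' := by
  unfold sand
  rw [herm_add, mul_add, add_mul]

lemma tim_add (Y Z : HC) : tim (Y + Z) = tim Y + tim Z := by simp [tim]

lemma spa_add (Y Z : HC) : spa (Y + Z) = spa Y + spa Z := by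
  funext i
  fin_cases i <;> simp [spa]

lemma herm_smul (r t : ℝ) (p : Fin 3 → ℝ) : herm (r * t) (r • p) = (r : ℂ) • herm t p := by
  ext
  · simp
  · simp; ring
  · simp; ring
  · simp; ring

lemma smul_aux (z : ℂ) (a b c : HC) : a * (z • b) * c = z • (a * b * c) := by
  ext
  · simp; ring
  · simp; ring
  · simp; ring
  · simp; ring

lemma sand_smul (q : HC) (r t : ℝ) (p : Fin 3 → ℝ) :
    sand q (r * t) (r • p) = (r : ℂ) • sand q t p := by
  unfold sand
  rw [herm_smul, smul_aux]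

lemma tim_smul (r : ℝ) (Y : HC) : tim ((r : ℂ) • Y) = r * tim Y := by simp [tim]

lemma spa_smul (r : ℝ) (Y : HC) : spa ((r : ℂ) • Y) = r • spa Y := by
  funext i
  fin_cases i <;> simp [spa]

/-- decomposition of `sand` along the basis -/
lemma sand_decomp (q : HC) (t : ℝ) (p : Fin 3 → ℝ) :
    sand q t p = (t : ℂ) • sand q 1 0 + ∑ k, (p k : ℂ) • sand q 0 (Pi.single k 1) := by
  have h1 : sand q t p = sand q (t * 1) (t • 0) + (sand q (p 0 * 0) (p 0 • Pi.single 0 1) +
      (sand q (p 1 * 0) (p 1 • Pi.single 1 1) + sand q (p 2 * 0) (p 2 • Pi.single 2 1))) := by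
    rw [← sand_add, ← sand_add, ← sand_add]
    congr 1
    · ring
    · funext k
      fin_cases k <;> simp
  rw [h1]
  simp only [sand_smul, Fin.sum_univ_three, add_assoc]

lemma tim_decomp (q : HC) (t : ℝ) (p : Fin 3 → ℝ) :
    tim (sand q t p) = tim (sand q 1 0) * t + ∑ k, tim (sand q 0 (Pi.single k 1)) * p k := by
  rw [sand_decomp, Fin.sum_univ_three, Fin.sum_univ_three]
  simp only [tim_add, tim_smul]
  ring

lemma spa_decomp (q : HC) (t : ℝ) (p : Fin 3 → ℝ) (a : Fin 3) :
    spa (sand q t p) a = spa (sand q 1 0) a * t + ∑ k, spa (sand q 0 (Pi.single k 1)) a * p k := by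
  rw [sand_decomp, Fin.sum_univ_three, Fin.sum_univ_three]
  simp only [spa_add, spa_smul, Pi.add_apply, Pi.smul_apply, smul_eq_mul]
  ring

lemma quad {q : HC} (hq : NN q = 1) (t : ℝ) (p : Fin 3 → ℝ) :
    tim (sand q t p) ^ 2 - sq (spa (sand q t p)) = t ^ 2 - sq p := by
  have h1 := eq_herm (dag_sandwich q (herm t p) (dag_herm _ _))
  have h2 : NN (q * herm t p * dag q) = ((t ^ 2 - sq p : ℝ) : ℂ) := by
    rw [NN_mul, NN_mul, NN_dag, hq, NN_herm]; simp
  rw [h1, NN_herm] at h2
  exact_mod_cast h2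

lemma polar {q : HC} (hq : NN q = 1) (t t' : ℝ) (p p' : Fin 3 → ℝ) :
    ∑ a, spa (sand q t p) a * spa (sand q t' p') a - tim (sand q t p) * tim (sand q t' p')
      = ∑ a, p a * p' a - t * t' := by
  have h1 := quad hq t p
  have h2 := quad hq t' p'
  have h3 := quad hq (t + t') (p + p')
  rw [sand_add, tim_add, spa_add] at h3
  simp only [sq, Fin.sum_univ_three, Pi.add_apply] at *
  linarith

theorem act_iso {q : HC} (hq : NN q = 1) :
    ContDiff ℝ ∞ (act q) ∧ pull hyp (act q) = hyp := by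
  refine iso_of_lorentz (act q) (tim (sand q 1 0)) (fun k => tim (sand q 0 (Pi.single k 1)))
    (fun a => spa (sand q 1 0) a) (fun a k => spa (sand q 0 (Pi.single k 1)) a) ?_ ?_ ?_ ?_ ?_
  · intro p
    rw [← tim_decomp]
    have h := XX_act hq p
    have h2 := congrArg tim h
    rw [XX, tim_herm] at h2
    exact h2
  · intro p a
    rw [← spa_decomp]
    rfl
  · rw [polar hq]
    simp
  · intro k
    rw [polar hq]
    simp
  · intro i j
    rw [polar hq]
    fin_cases i <;> fin_cases j <;> simp [Fin.sum_univ_three]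

lemma act_root_zero (p : Fin 3 → ℝ) : act (root p) 0 = p := by
  apply XX_injective
  rw [XX_act (NN_root p), dag_root]
  have : XX 0 = 1 := by
    have h0 : x0 0 = 1 := by simp [x0, sq]
    rw [XX, h0]
    ext <;> simp
    all_goals rfl
  rw [this, mul_one, root_mul_root]

end Lat

theorem exists_boost (q : Fin 3 → ℝ) :
    ∃ L : (Fin 3 → ℝ) → (Fin 3 → ℝ), ContDiff ℝ ∞ L ∧ pull hyp L = hyp ∧ L q = 0 := by
  have h : Lat.NN (star (Lat.root q)) = 1 := by rw [Lat.NN_star, Lat.NN_root]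
  refine ⟨Lat.act (star (Lat.root q)), (Lat.act_iso h).1, (Lat.act_iso h).2, ?_⟩
  conv_lhs => rw [← Lat.act_root_zero q]
  rw [Lat.act_root_zero q]
  conv_lhs => rw [← Lat.act_root_zero q]
  rw [Lat.act_root_zero q]
  have h2 : Lat.act (star (Lat.root q)) (Lat.act (Lat.root q) 0) = 0 := by
    rw [← Lat.act_mul h (Lat.NN_root q), Lat.NN_star_mul, Lat.NN_root]
    have : (((1 : ℂ) : Lat.HC)) = 1 := rfl
    rw [this, Lat.act_one]
  rwa [Lat.act_root_zero] at h2

end Pool.Agent.Work.MP_0fcc57_gt
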