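import Pool.Agent.Work.MP_0fcc57_gt.LatArith

/-!
Minkowski convex body theorem for the order of integral quaternions.
-/

open scoped ContDiff Manifold Topology

noncomputable section

namespace Pool.Agent.Work.MP_0fcc57_gt

namespace Lat

open MeasureTheory

/-- the real basis `1, √-7` of the complex numbers -/
def cbasis : Module.Basis (Fin 2) ℝ ℂ :=
  Complex.basisOneI.unitsSMul ![1, Units.mk0 (Real.sqrt 7) (by positivity)]

lemma cbasis_mem (i : Fin 2) : cbasis i ∈ SS := by
  unfold cbasis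
  rw [Module.Basis.unitsSMul_apply]
  fin_cases i
  · exact ⟨1, 0, by simp⟩
  · refine ⟨0, 1, ?_⟩
    apply Complex.ext
    · simp [Units.smul_def, ww]
    · simp [Units.smul_def, ww]

/-- the product basis -/
def ebasis : Module.Basis ((_ : Fin 4) × Fin 2) ℝ (Fin 4 → ℂ) := Pi.basis (fun _ => cbasis)

lemma span_mem {v : Fin 4 → ℂ} (hv : v ∈ Submodule.span ℤ (Set.range ebasis)) (k : Fin 4) :
    v k ∈ SS := by
  induction hv using Submodule.span_induction with
  | mem x hx =>
    obtain ⟨⟨j, i⟩, rfl⟩ := hx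
    unfold ebasis
    rw [Pi.basis_apply]
    rcases eq_or_ne k j with rfl | h
    · simp only [Pi.single_eq_same]
      exact cbasis_mem i
    · rw [Pi.single_eq_of_ne h]
      exact SS.zero_mem
  | zero => exact SS.zero_mem
  | add x y _ _ hx hy => exact SS.add_mem hx hy
  | smul a x _ hx =>
    rw [Pi.smul_apply]
    exact SS.zsmul_mem hx a

/-- from vectors to quaternions -/
def toq (v : Fin 4 → ℂ) : HC := ⟨v 0, v 1, v 2, v 3⟩

/-- the matrix of right multiplication -/
def rmat (g : HC) : Matrix (Fin 4) (Fin 4) ℂ :=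
  !![g.re, -g.imI, -g.imJ, -g.imK; g.imI, g.re, g.imK, -g.imJ; g.imJ, -g.imK, g.re, g.imI;
    g.imK, g.imJ, -g.imI, g.re]

lemma det_rmat (g : HC) : (rmat g).det = NN g ^ 2 := by
  unfold rmat NN
  rw [Matrix.det_succ_row_zero]
  simp [Fin.sum_univ_succ, Matrix.det_fin_three, Fin.succAbove, Matrix.submatrix]
  ring

/-- right multiplication -/
def rmul (g : HC) : (Fin 4 → ℂ) →ₗ[ℝ] (Fin 4 → ℂ) := (Matrix.toLin' (rmat g)).restrictScalars ℝ

lemma det_rmul (g : HC) : LinearMap.det (rmul g) = Complex.normSq (NN g ^ 2) := by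
  unfold rmul
  rw [LinearMap.det_restrictScalars, Algebra.norm_complex_apply, LinearMap.det_toLin', det_rmat]

lemma toq_re (v : Fin 4 → ℂ) : (toq v).re = v 0 := rfl
lemma toq_imI (v : Fin 4 → ℂ) : (toq v).imI = v 1 := rfl
lemma toq_imJ (v : Fin 4 → ℂ) : (toq v).imJ = v 2 := rfl
lemma toq_imK (v : Fin 4 → ℂ) : (toq v).imK = v 3 := rfl

lemma toq_rmul (g : HC) (v : Fin 4 → ℂ) : toq (rmul g v) = toq v * g := by
  ext
  · rw [Quaternion.re_mul, toq_re, toq_re, toq_imI, toq_imJ, toq_imK]
    simp [rmul, rmat, Matrix.mulVec, dotProduct, Fin.sum_univ_four]; ring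
  · rw [Quaternion.imI_mul, toq_re, toq_imI, toq_imI, toq_imJ, toq_imK]
    simp [rmul, rmat, Matrix.mulVec, dotProduct, Fin.sum_univ_four]; ring
  · rw [Quaternion.imJ_mul, toq_re, toq_imI, toq_imJ, toq_imJ, toq_imK]
    simp [rmul, rmat, Matrix.mulVec, dotProduct, Fin.sum_univ_four]; ring
  · rw [Quaternion.imK_mul, toq_re, toq_imI, toq_imJ, toq_imK, toq_imK]
    simp [rmul, rmat, Matrix.mulVec, dotProduct, Fin.sum_univ_four]; ring

lemma nsq_toq_le {v : Fin 4 → ℂ} {C : ℝ} (h : ‖v‖ ≤ C) : nsq (toq v) ≤ 4 * C ^ 2 := by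
  have h1 : ∀ k, Complex.normSq (v k) ≤ C ^ 2 := by
    intro k
    rw [Complex.normSq_eq_norm_sq]
    have := norm_le_pi_norm v k
    have := norm_nonneg (v k)
    gcongr
    linarith
  unfold nsq toq
  linarith [h1 0, h1 1, h1 2, h1 3]

theorem exists_small : ∃ C : ℝ, 0 < C ∧ ∀ g : HC, NN g = 1 →
    ∃ q : HC, inO q ∧ q ≠ 0 ∧ nsq (q * g) ≤ C := by
  set F := ZSpan.fundamentalDomain ebasis with hF
  have hfin : (volume : Measure (Fin 4 → ℂ)) F < ⊤ :=
    (ZSpan.fundamentalDomain_isBounded ebasis).measure_lt_top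
  have hfin2 : (volume : Measure (Fin 4 → ℂ)) F * 2 ^ (Module.finrank ℝ (Fin 4 → ℂ)) < ⊤ :=
    ENNReal.mul_lt_top hfin (by finiteness)
  have hball : ∃ n : ℕ, (volume : Measure (Fin 4 → ℂ)) F * 2 ^ (Module.finrank ℝ (Fin 4 → ℂ)) <
      (volume : Measure (Fin 4 → ℂ)) (Metric.closedBall 0 (n : ℝ)) := by
    have h1 := tendsto_measure_iUnion_atTop (μ := (volume : Measure (Fin 4 → ℂ)))
      (s := fun n : ℕ => Metric.closedBall (0 : Fin 4 → ℂ) (n : ℝ))
      (fun a b hab => Metric.closedBall_subset_closedBall (by exact_mod_cast hab))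
    rw [Metric.iUnion_closedBall_nat, measure_univ_of_isAddLeftInvariant] at h1
    exact (h1.eventually (lt_mem_nhds hfin2)).exists
  obtain ⟨n, hn⟩ := hball
  refine ⟨4 * (n : ℝ) ^ 2 + 1, by positivity, fun g hg => ?_⟩
  have hdet : LinearMap.det (rmul g) = 1 := by
    rw [det_rmul, hg]; simp
  have hvol := Measure.addHaar_preimage_linearMap (volume : Measure (Fin 4 → ℂ))
    (f := rmul g) (by rw [hdet]; exact one_ne_zero) (Metric.closedBall 0 (n : ℝ))
  rw [hdet] at hvol
  simp only [inv_one, abs_one, ENNReal.ofReal_one, one_mul] at hvol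
  have hL : Countable (Submodule.span ℤ (Set.range ebasis)).toAddSubgroup := by
    have : Countable (Submodule.span ℤ (Set.range ebasis)) := inferInstance
    exact this
  obtain ⟨x, hx0, hx⟩ := exists_ne_zero_mem_lattice_of_measure_mul_two_pow_lt_measure
    (ZSpan.isAddFundamentalDomain' ebasis (volume : Measure (Fin 4 → ℂ)))
    (s := rmul g ⁻¹' Metric.closedBall 0 (n : ℝ))
    (by
      intro x hx
      rw [Set.mem_preimage, Metric.mem_closedBall, dist_zero_right] at hx ⊢
      rwa [map_neg, norm_neg])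
    ((convex_closedBall _ _).linear_preimage (rmul g))
    (by rw [hvol]; exact hn)
  refine ⟨toq (x : Fin 4 → ℂ), ?_, ?_, ?_⟩
  · exact ⟨span_mem x.2 0, span_mem x.2 1, span_mem x.2 2, span_mem x.2 3⟩
  · intro h
    apply hx0
    apply Subtype.ext
    have h0 := congrArg QuaternionAlgebra.re h
    have h1 := congrArg QuaternionAlgebra.imI h
    have h2 := congrArg QuaternionAlgebra.imJ h
    have h3 := congrArg QuaternionAlgebra.imK h
    funext k
    fin_cases k
    · exact h0
    · exact h1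
    · exact h2
    · exact h3
  · rw [Set.mem_preimage, Metric.mem_closedBall, dist_zero_right] at hx
    rw [← toq_rmul]
    have := nsq_toq_le hx
    linarith

end Lat

end Pool.Agent.Work.MP_0fcc57_gt
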