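import Pool.Agent.Work.MP_0fcc57_gt.Defs

/-!
Complex quaternions acting on the hyperboloid model of hyperbolic 3-space.
-/

open scoped ContDiff Manifold Topology

noncomputable section

namespace Pool.Agent.Work.MP_0fcc57_gt

namespace Lat

/-- complex quaternions -/
abbrev HC := Quaternion ℂ

/-- the dagger involution -/
def dag (q : HC) : HC :=
  ⟨star q.re, -star q.imI, -star q.imJ, -star q.imK⟩

@[simp] lemma dag_re (q : HC) : (dag q).re = star q.re := rfl
@[simp] lemma dag_imI (q : HC) : (dag q).imI = -star q.imI := rfl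
@[simp] lemma dag_imJ (q : HC) : (dag q).imJ = -star q.imJ := rfl
@[simp] lemma dag_imK (q : HC) : (dag q).imK = -star q.imK := rfl

lemma dag_mul (a b : HC) : dag (a * b) = dag b * dag a := by
  ext <;> simp <;> ring

lemma dag_dag (a : HC) : dag (dag a) = a := by
  ext <;> simp

lemma dag_one : dag 1 = 1 := by
  ext
  · rw [dag_re, Quaternion.re_one, star_one]
  · rw [dag_imI, Quaternion.imI_one, star_zero, neg_zero]
  · rw [dag_imJ, Quaternion.imJ_one, star_zero, neg_zero]
  · rw [dag_imK, Quaternion.imK_one, star_zero, neg_zero]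

/-- sum of the squared moduli of the components -/
def nsq (q : HC) : ℝ :=
  Complex.normSq q.re + Complex.normSq q.imI + Complex.normSq q.imJ + Complex.normSq q.imK

/-- the reduced norm -/
def NN (q : HC) : ℂ := q.re ^ 2 + q.imI ^ 2 + q.imJ ^ 2 + q.imK ^ 2

lemma NN_mul (a b : HC) : NN (a * b) = NN a * NN b := by
  simp only [NN, Quaternion.re_mul, Quaternion.imI_mul, Quaternion.imJ_mul, Quaternion.imK_mul]
  ring

lemma NN_one : NN 1 = 1 := by
  simp only [NN, Quaternion.re_one, Quaternion.imI_one, Quaternion.imJ_one, Quaternion.imK_one]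
  norm_num

lemma NN_star (a : HC) : NN (star a) = NN a := by simp [NN]

lemma NN_dag (a : HC) : NN (dag a) = star (NN a) := by
  simp only [NN, dag_re, dag_imI, dag_imJ, dag_imK, star_add, star_pow]
  ring

lemma mul_star (a : HC) : a * star a = ((NN a : ℂ) : HC) := by
  ext
  · simp only [NN, Quaternion.re_mul, Quaternion.re_star, Quaternion.imI_star, Quaternion.imJ_star,
      Quaternion.imK_star, Quaternion.re_coe]
    ring
  · simp only [Quaternion.imI_mul, Quaternion.re_star, Quaternion.imI_star, Quaternion.imJ_star,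
      Quaternion.imK_star, Quaternion.imI_coe]
    ring
  · simp only [Quaternion.imJ_mul, Quaternion.re_star, Quaternion.imI_star, Quaternion.imJ_star,
      Quaternion.imK_star, Quaternion.imJ_coe]
    ring
  · simp only [Quaternion.imK_mul, Quaternion.re_star, Quaternion.imI_star, Quaternion.imJ_star,
      Quaternion.imK_star, Quaternion.imK_coe]
    ring

lemma NN_star_mul (a : HC) : star a * a = ((NN a : ℂ) : HC) := by
  ext
  · simp only [NN, Quaternion.re_mul, Quaternion.re_star, Quaternion.imI_star, Quaternion.imJ_star,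
      Quaternion.imK_star, Quaternion.re_coe]
    ring
  · simp only [Quaternion.imI_mul, Quaternion.re_star, Quaternion.imI_star, Quaternion.imJ_star,
      Quaternion.imK_star, Quaternion.imI_coe]
    ring
  · simp only [Quaternion.imJ_mul, Quaternion.re_star, Quaternion.imI_star, Quaternion.imJ_star,
      Quaternion.imK_star, Quaternion.imJ_coe]
    ring
  · simp only [Quaternion.imK_mul, Quaternion.re_star, Quaternion.imI_star, Quaternion.imJ_star,
      Quaternion.imK_star, Quaternion.imK_coe]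
    ring

lemma nsq_nonneg (q : HC) : 0 ≤ nsq q := by
  unfold nsq
  have := Complex.normSq_nonneg q.re
  have := Complex.normSq_nonneg q.imI
  have := Complex.normSq_nonneg q.imJ
  have := Complex.normSq_nonneg q.imK
  linarith

lemma nsq_star (q : HC) : nsq (star q) = nsq q := by simp [nsq]

lemma re_mul_dag (w : HC) : (w * dag w).re = (nsq w : ℂ) := by
  simp only [nsq, Quaternion.re_mul, dag_re, dag_imI, dag_imJ, dag_imK]
  push_cast
  simp only [Complex.normSq_eq_conj_mul_self, Complex.star_def]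
  ring

lemma norm_NN_le (w : HC) : ‖NN w‖ ≤ nsq w := by
  unfold NN nsq
  refine (norm_add_le _ _).trans ?_
  refine (add_le_add_left (norm_add_le _ _) _).trans ?_
  refine (add_le_add_left (add_le_add_left (norm_add_le _ _) _) _).trans ?_
  simp only [norm_pow, Complex.normSq_eq_norm_sq]
  exact le_refl _

/-- Cauchy Schwarz -/
lemma nsq_mul_le (a b : HC) : nsq (a * b) ≤ 4 * nsq a * nsq b := by
  have key : ∀ x1 x2 x3 x4 y1 y2 y3 y4 : ℂ,
      Complex.normSq (x1 * y1 + x2 * y2 + x3 * y3 + x4 * y4) ≤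
      (Complex.normSq x1 + Complex.normSq x2 + Complex.normSq x3 + Complex.normSq x4) *
      (Complex.normSq y1 + Complex.normSq y2 + Complex.normSq y3 + Complex.normSq y4) := by
    intro x1 x2 x3 x4 y1 y2 y3 y4
    have h := Finset.sum_mul_sq_le_sq_mul_sq Finset.univ ![‖x1‖, ‖x2‖, ‖x3‖, ‖x4‖]
      ![‖y1‖, ‖y2‖, ‖y3‖, ‖y4‖]
    simp only [Fin.sum_univ_four, Matrix.cons_val_zero, Matrix.cons_val_one, Matrix.cons_val] at h
    simp only [Complex.normSq_eq_norm_sq]
    refine le_trans ?_ h
    gcongr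
    refine (norm_add_le _ _).trans ?_
    refine (add_le_add_left (norm_add_le _ _) _).trans ?_
    refine (add_le_add_left (add_le_add_left (norm_add_le _ _) _) _).trans ?_
    simp only [norm_mul]
    exact le_refl _
  have h1 := key a.re (-a.imI) (-a.imJ) (-a.imK) b.re b.imI b.imJ b.imK
  have h2 := key a.re a.imI a.imJ (-a.imK) b.imI b.re b.imK b.imJ
  have h3 := key a.re (-a.imI) a.imJ a.imK b.imJ b.imK b.re b.imI
  have h4 := key a.re a.imI (-a.imJ) a.imK b.imK b.imJ b.imI b.re
  simp only [Complex.normSq_neg] at h1 h2 h3 h4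
  have e1 : (a * b).re = a.re * b.re + -a.imI * b.imI + -a.imJ * b.imJ + -a.imK * b.imK := by
    rw [Quaternion.re_mul]; ring
  have e2 : (a * b).imI = a.re * b.imI + a.imI * b.re + a.imJ * b.imK + -a.imK * b.imJ := by
    rw [Quaternion.imI_mul]; ring
  have e3 : (a * b).imJ = a.re * b.imJ + -a.imI * b.imK + a.imJ * b.re + a.imK * b.imI := by
    rw [Quaternion.imJ_mul]; ring
  have e4 : (a * b).imK = a.re * b.imK + a.imI * b.imJ + -a.imJ * b.imI + a.imK * b.re := by
    rw [Quaternion.imK_mul]; ring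
  unfold nsq
  rw [e1, e2, e3, e4]
  nlinarith [h1, h2, h3, h4]

/-- the hermitian quaternion with time part `t` and space part `p` -/
def herm (t : ℝ) (p : Fin 3 → ℝ) : HC :=
  ⟨(t : ℂ), Complex.I * (p 0 : ℂ), Complex.I * (p 1 : ℂ), Complex.I * (p 2 : ℂ)⟩

@[simp] lemma herm_re (t : ℝ) (p : Fin 3 → ℝ) : (herm t p).re = (t : ℂ) := rfl
@[simp] lemma herm_imI (t : ℝ) (p : Fin 3 → ℝ) : (herm t p).imI = Complex.I * (p 0 : ℂ) := rfl
@[simp] lemma herm_imJ (t : ℝ) (p : Fin 3 → ℝ) : (herm t p).imJ = Complex.I * (p 1 : ℂ) := rfl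
@[simp] lemma herm_imK (t : ℝ) (p : Fin 3 → ℝ) : (herm t p).imK = Complex.I * (p 2 : ℂ) := rfl

lemma dag_herm (t : ℝ) (p : Fin 3 → ℝ) : dag (herm t p) = herm t p := by
  ext <;> simp

lemma NN_herm (t : ℝ) (p : Fin 3 → ℝ) : NN (herm t p) = ((t ^ 2 - sq p : ℝ) : ℂ) := by
  simp only [NN, herm_re, herm_imI, herm_imJ, herm_imK, mul_pow, Complex.I_sq, sq,
    Fin.sum_univ_three]
  push_cast
  ring

/-- time part -/
def tim (Y : HC) : ℝ := Y.re.re

/-- space part -/
def spa (Y : HC) : Fin 3 → ℝ := ![Y.imI.im, Y.imJ.im, Y.imK.im]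

lemma tim_herm (t : ℝ) (p : Fin 3 → ℝ) : tim (herm t p) = t := by simp [tim]

lemma spa_herm (t : ℝ) (p : Fin 3 → ℝ) : spa (herm t p) = p := by
  funext i
  fin_cases i <;> simp [spa]

lemma eq_herm {Y : HC} (h : dag Y = Y) : Y = herm (tim Y) (spa Y) := by
  have h0 := congrArg QuaternionAlgebra.re h
  have h1 := congrArg QuaternionAlgebra.imI h
  have h2 := congrArg QuaternionAlgebra.imJ h
  have h3 := congrArg QuaternionAlgebra.imK h
  simp only [dag_re, dag_imI, dag_imJ, dag_imK, Complex.star_def, Complex.ext_iff,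
    Complex.neg_re, Complex.neg_im, Complex.conj_re, Complex.conj_im] at h0 h1 h2 h3
  ext
  · apply Complex.ext
    · simp [tim]
    · simp; linarith [h0.2]
  · apply Complex.ext
    · simp; linarith [h1.1]
    · simp [spa]
  · apply Complex.ext
    · simp; linarith [h2.1]
    · simp [spa]
  · apply Complex.ext
    · simp; linarith [h3.1]
    · simp [spa]

lemma herm_add (t t' : ℝ) (p p' : Fin 3 → ℝ) : herm (t + t') (p + p') = herm t p + herm t' p' := by
  ext <;> simp <;> ring

lemma sq_nonneg' (p : Fin 3 → ℝ) : 0 ≤ sq p := Finset.sum_nonneg fun _ _ => sq_nonneg _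

/-- the time coordinate of the point of the hyperboloid above `p` -/
def x0 (p : Fin 3 → ℝ) : ℝ := Real.sqrt (1 + sq p)

lemma x0_sq (p : Fin 3 → ℝ) : x0 p ^ 2 = 1 + sq p := by
  unfold x0
  rw [Real.sq_sqrt]
  have := sq_nonneg' p
  linarith

lemma one_le_x0 (p : Fin 3 → ℝ) : 1 ≤ x0 p := by
  unfold x0
  rw [Real.one_le_sqrt]
  have := sq_nonneg' p
  linarith

lemma x0_pos (p : Fin 3 → ℝ) : 0 < x0 p := lt_of_lt_of_le one_pos (one_le_x0 p)

/-- the point of the hyperboloid above `p` -/
def XX (p : Fin 3 → ℝ) : HC := herm (x0 p) p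

lemma NN_XX (p : Fin 3 → ℝ) : NN (XX p) = 1 := by
  rw [XX, NN_herm, x0_sq]
  simp

/-- the square root of `XX p` -/
def root (p : Fin 3 → ℝ) : HC :=
  herm (Real.sqrt ((x0 p + 1) / 2)) (fun i => p i / (2 * Real.sqrt ((x0 p + 1) / 2)))

lemma root_aux (p : Fin 3 → ℝ) : 0 < Real.sqrt ((x0 p + 1) / 2) ∧
    Real.sqrt ((x0 p + 1) / 2) ^ 2 = (x0 p + 1) / 2 := by
  have h := x0_pos p
  exact ⟨Real.sqrt_pos.2 (by linarith), Real.sq_sqrt (by linarith)⟩

lemma dag_root (p : Fin 3 → ℝ) : dag (root p) = root p := dag_herm _ _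

lemma NN_root (p : Fin 3 → ℝ) : NN (root p) = 1 := by
  obtain ⟨h1, h2⟩ := root_aux p
  rw [root, NN_herm]
  norm_cast
  have h3 := x0_sq p
  have h4 : sq (fun i => p i / (2 * Real.sqrt ((x0 p + 1) / 2)))
      = sq p / (2 * Real.sqrt ((x0 p + 1) / 2)) ^ 2 := by
    simp only [sq, div_pow]
    rw [← Finset.sum_div]
  rw [h4, mul_pow, h2]
  have h5 := x0_pos p
  have h6 : sq p = x0 p ^ 2 - 1 := by linarith
  rw [h6]
  field_simp
  ring

lemma root_mul_root (p : Fin 3 → ℝ) : root p * root p = XX p := by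
  obtain ⟨h1, h2⟩ := root_aux p
  set s := Real.sqrt ((x0 p + 1) / 2) with hs
  have hN := NN_root p
  simp only [NN, root, herm_re, herm_imI, herm_imJ, herm_imK] at hN
  rw [← hs] at hN
  have h3 : (s : ℂ) ^ 2 = ((x0 p : ℝ) + 1) / 2 := by
    have : ((s ^ 2 : ℝ) : ℂ) = (((x0 p + 1) / 2 : ℝ) : ℂ) := by rw [h2]
    push_cast at this
    exact this
  have hs0 : (s : ℂ) ≠ 0 := by exact_mod_cast h1.ne'
  ext
  · simp only [root, XX, Quaternion.re_mul, herm_re, herm_imI, herm_imJ, herm_imK, ← hs]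
    linear_combination 2 * h3 - hN
  · simp only [root, XX, Quaternion.imI_mul, herm_re, herm_imI, herm_imJ, herm_imK, ← hs]
    push_cast
    field_simp
    ring
  · simp only [root, XX, Quaternion.imJ_mul, herm_re, herm_imI, herm_imJ, herm_imK, ← hs]
    push_cast
    field_simp
    ring
  · simp only [root, XX, Quaternion.imK_mul, herm_re, herm_imI, herm_imJ, herm_imK, ← hs]
    push_cast
    field_simp
    ring

lemma nsq_root (p : Fin 3 → ℝ) : nsq (root p) = x0 p := by
  have h := re_mul_dag (root p)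
  rw [dag_root, root_mul_root] at h
  simp only [XX, herm_re] at h
  exact_mod_cast h.symm

/-- the action on the space coordinates -/
def act (q : HC) (p : Fin 3 → ℝ) : Fin 3 → ℝ := spa (q * XX p * dag q)

lemma sandwich_eq (q : HC) (p : Fin 3 → ℝ) :
    q * XX p * dag q = (q * root p) * dag (q * root p) := by
  rw [dag_mul, dag_root, ← root_mul_root]
  simp only [mul_assoc]

lemma tim_sandwich (q : HC) (p : Fin 3 → ℝ) : tim (q * XX p * dag q) = nsq (q * root p) := by
  rw [sandwich_eq, tim, re_mul_dag, Complex.ofReal_re]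

lemma dag_sandwich (q Y : HC) (h : dag Y = Y) : dag (q * Y * dag q) = q * Y * dag q := by
  rw [dag_mul, dag_mul, dag_dag, h, mul_assoc]

lemma XX_act {q : HC} (hq : NN q = 1) (p : Fin 3 → ℝ) : XX (act q p) = q * XX p * dag q := by
  have h1 := eq_herm (dag_sandwich q (XX p) (dag_herm _ _))
  have h2 : NN (q * XX p * dag q) = 1 := by
    rw [NN_mul, NN_mul, NN_dag, hq, NN_XX]; simp
  rw [h1, NN_herm] at h2
  have h3 : tim (q * XX p * dag q) ^ 2 - sq (spa (q * XX p * dag q)) = 1 := by exact_mod_cast h2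
  have h4 : 0 ≤ tim (q * XX p * dag q) := by rw [tim_sandwich]; exact nsq_nonneg _
  have h5 : x0 (act q p) = tim (q * XX p * dag q) := by
    unfold x0 act
    rw [show 1 + sq (spa (q * XX p * dag q)) = tim (q * XX p * dag q) ^ 2 by linarith,
      Real.sqrt_sq h4]
  conv_rhs => rw [h1]
  rw [XX, h5]
  rfl

lemma XX_injective : Function.Injective XX := by
  intro p p' h
  have := congrArg spa h
  rwa [XX, XX, spa_herm, spa_herm] at this

lemma act_one (p : Fin 3 → ℝ) : act 1 p = p := by
  apply XX_injective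
  rw [XX_act NN_one, dag_one, one_mul, mul_one]

lemma act_mul {a b : HC} (ha : NN a = 1) (hb : NN b = 1) (p : Fin 3 → ℝ) :
    act (a * b) p = act a (act b p) := by
  apply XX_injective
  rw [XX_act (by rw [NN_mul, ha, hb, one_mul]), XX_act ha, XX_act hb, dag_mul]
  simp only [mul_assoc]

lemma x0_act {q : HC} (hq : NN q = 1) (p : Fin 3 → ℝ) : x0 (act q p) = nsq (q * root p) := by
  have h := XX_act hq p
  rw [sandwich_eq] at h
  have h2 := congrArg QuaternionAlgebra.re h
  rw [re_mul_dag] at h2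
  simp only [XX, herm_re] at h2
  exact_mod_cast h2

end Lat

end Pool.Agent.Work.MP_0fcc57_gt
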