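import Pool.Agent.Work.MP_0fcc57_gt.LatMink

/-!
Cocompact torsion free lattices of hyperbolic space with large injectivity radius at the origin.
-/

open scoped ContDiff Manifold Topology

noncomputable section

namespace Pool.Agent.Work.MP_0fcc57_gt

namespace Lat

lemma cc_comm (z : ℂ) (a : HC) : (z : HC) * a = a * (z : HC) := Quaternion.coe_commutes z a

lemma cc_left_comm (z : ℂ) (a b : HC) : a * ((z : HC) * b) = (z : HC) * (a * b) := by
  rw [← mul_assoc, ← cc_comm, mul_assoc]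

lemma NN_coe (z : ℂ) : NN (z : HC) = z ^ 2 := by
  unfold NN
  rw [Quaternion.re_coe, Quaternion.imI_coe, Quaternion.imJ_coe, Quaternion.imK_coe]
  ring

lemma star_cc (z : ℂ) : star (z : HC) = (z : HC) := Quaternion.star_coe z

lemma cc_mul (z w : ℂ) : ((z * w : ℂ) : HC) = (z : HC) * (w : HC) := Quaternion.coe_mul z w

lemma cc_one : ((1 : ℂ) : HC) = 1 := rfl

lemma star_aux (z : ℂ) (a : HC) : star (1 + (z : HC) * a) = 1 + (z : HC) * star a := by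
  ext
  · simp only [Quaternion.re_star, Quaternion.re_add, Quaternion.re_mul, Quaternion.re_coe,
      Quaternion.imI_coe, Quaternion.imJ_coe, Quaternion.imK_coe, Quaternion.re_one]
    ring
  · simp only [Quaternion.imI_star, Quaternion.imJ_star, Quaternion.imK_star, Quaternion.re_star,
      Quaternion.imI_add, Quaternion.imI_mul, Quaternion.re_coe,
      Quaternion.imI_coe, Quaternion.imJ_coe, Quaternion.imK_coe, Quaternion.imI_one]
    ring
  · simp only [Quaternion.imI_star, Quaternion.imJ_star, Quaternion.imK_star, Quaternion.re_star,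
      Quaternion.imJ_add, Quaternion.imJ_mul, Quaternion.re_coe,
      Quaternion.imI_coe, Quaternion.imJ_coe, Quaternion.imK_coe, Quaternion.imJ_one]
    ring
  · simp only [Quaternion.imI_star, Quaternion.imJ_star, Quaternion.imK_star, Quaternion.re_star,
      Quaternion.imK_add, Quaternion.imK_mul, Quaternion.re_coe,
      Quaternion.imI_coe, Quaternion.imJ_coe, Quaternion.imK_coe, Quaternion.imK_one]
    ring

/-- the congruence subgroup of level `m` -/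
def GG (m : ℕ) : Subgroup HCˣ where
  carrier := {u | NN (u : HC) = 1 ∧ ∃ ε, inO ε ∧ (u : HC) = 1 + ((m : ℂ) : HC) * ε}
  mul_mem' := by
    rintro u v ⟨hu, ε, hε, h1⟩ ⟨hv, δ, hδ, h2⟩
    refine ⟨by rw [Units.val_mul, NN_mul, hu, hv, one_mul], ε + δ + ((m : ℂ) : HC) * (ε * δ), ?_, ?_⟩
    · refine inO_add (inO_add hε hδ) (inO_mul (inO_coe ?_) (inO_mul hε hδ))
      exact ⟨m, 0, by simp⟩
    · rw [Units.val_mul, h1, h2]
      have e : ((m : ℂ) : HC) * ε * (((m : ℂ) : HC) * δ)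
          = ((m : ℂ) : HC) * (((m : ℂ) : HC) * (ε * δ)) := by
        rw [mul_assoc, cc_left_comm]
      rw [add_mul, mul_add, mul_add, one_mul, one_mul, mul_one, e, mul_add, mul_add]
      abel
  one_mem' := ⟨by rw [Units.val_one, NN_one], 0, inO_zero, by simp⟩
  inv_mem' := by
    rintro u ⟨hu, ε, hε, h1⟩
    have hinv : ((u⁻¹ : HCˣ) : HC) = star (u : HC) := by
      apply Units.inv_eq_of_mul_eq_one_right
      rw [mul_star, hu, cc_one]
    refine ⟨by rw [hinv, NN_star, hu], star ε, inO_star hε, ?_⟩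
    rw [hinv, h1, star_aux]

/-- the action on space -/
instance (m : ℕ) : MulAction (GG m) (Fin 3 → ℝ) where
  smul γ p := act ((γ : HCˣ) : HC) p
  one_smul p := act_one p
  mul_smul γ δ p := act_mul γ.2.1 δ.2.1 p

lemma smul_def (m : ℕ) (γ : GG m) (p : Fin 3 → ℝ) : γ • p = act ((γ : HCˣ) : HC) p := rfl

lemma inO_GG {m : ℕ} (γ : GG m) : inO ((γ : HCˣ) : HC) := by
  obtain ⟨_, ε, hε, h1⟩ := γ.2
  rw [h1]
  exact inO_add inO_one (inO_mul (inO_coe ⟨m, 0, by simp⟩) hε)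

lemma finite_S (B : ℝ) : {z : ℂ | z ∈ SS ∧ Complex.normSq z ≤ B}.Finite := by
  have hfin : ((Finset.Icc (-⌊B⌋) ⌊B⌋ ×ˢ Finset.Icc (-⌊B⌋) ⌊B⌋ : Finset (ℤ × ℤ)) : Set (ℤ × ℤ)).Finite :=
    Finset.finite_toSet _
  refine (hfin.image (fun x : ℤ × ℤ => (x.1 : ℂ) + x.2 * ww)).subset ?_
  rintro z ⟨⟨a, b, rfl⟩, hz⟩
  rw [normSq_S] at hz
  have h1 : a ^ 2 + 7 * b ^ 2 ≤ ⌊B⌋ := Int.le_floor.2 hz
  have ha : |a| ≤ a ^ 2 := by
    rw [← sq_abs]
    have := abs_nonneg a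
    rcases eq_or_lt_of_le this with h | h
    · rw [← h]; norm_num
    · nlinarith
  have hb : |b| ≤ b ^ 2 := by
    rw [← sq_abs]
    have := abs_nonneg b
    rcases eq_or_lt_of_le this with h | h
    · rw [← h]; norm_num
    · nlinarith
  have ha2 := sq_nonneg a
  have hb2 := sq_nonneg b
  refine ⟨(a, b), ?_, rfl⟩
  rw [Finset.mem_coe, Finset.mem_product, Finset.mem_Icc, Finset.mem_Icc]
  have h2 : |a| ≤ ⌊B⌋ := by linarith
  have h3 : |b| ≤ ⌊B⌋ := by linarith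
  exact ⟨abs_le.1 h2, abs_le.1 h3⟩

lemma finite_O (B : ℝ) : {q : HC | inO q ∧ nsq q ≤ B}.Finite := by
  have hS := finite_S B
  refine ((hS.prod (hS.prod (hS.prod hS))).image
    (fun x : ℂ × ℂ × ℂ × ℂ => (⟨x.1, x.2.1, x.2.2.1, x.2.2.2⟩ : HC))).subset ?_
  rintro q ⟨⟨h0, h1, h2, h3⟩, hq⟩
  unfold nsq at hq
  have p0 := Complex.normSq_nonneg q.re
  have p1 := Complex.normSq_nonneg q.imI
  have p2 := Complex.normSq_nonneg q.imJ
  have p3 := Complex.normSq_nonneg q.imK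
  exact ⟨(q.re, q.imI, q.imJ, q.imK), ⟨⟨h0, by linarith⟩, ⟨h1, by linarith⟩, ⟨h2, by linarith⟩,
    ⟨h3, by linarith⟩⟩, rfl⟩

lemma finite_G (m : ℕ) (B : ℝ) : {γ : GG m | nsq ((γ : HCˣ) : HC) ≤ B}.Finite := by
  apply Set.Finite.of_finite_image (f := fun γ : GG m => ((γ : HCˣ) : HC))
  · apply (finite_O B).subset
    rintro _ ⟨γ, hγ, rfl⟩
    exact ⟨inO_GG γ, hγ⟩
  · intro γ _ δ _ h
    exact Subtype.ext (Units.ext h)

/-- upper bound of the size of a group element by its displacement -/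
lemma nsq_le {q : HC} (hq : NN q = 1) (p : Fin 3 → ℝ) : nsq q ≤ 4 * x0 (act q p) * x0 p := by
  have h : q = (q * root p) * star (root p) := by
    rw [mul_assoc, mul_star, NN_root, cc_one, mul_one]
  conv_lhs => rw [h]
  refine (nsq_mul_le _ _).trans ?_
  rw [nsq_star, nsq_root, x0_act hq]

instance (m : ℕ) : ProperlyDiscontinuousSMul (GG m) (Fin 3 → ℝ) where
  finite_disjoint_inter_image := by
    intro K L hK hL
    obtain ⟨A, hA⟩ := hK.exists_bound_of_continuousOn contDiff_x0.continuous.continuousOn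
    obtain ⟨B, hB⟩ := hL.exists_bound_of_continuousOn contDiff_x0.continuous.continuousOn
    apply (finite_G m (4 * B * A)).subset
    rintro γ ⟨y, ⟨p, hp, rfl⟩, hy⟩
    have h1 := nsq_le γ.2.1 p
    have h2 := hA p hp
    have h3 := hB _ hy
    rw [Real.norm_of_nonneg (x0_pos _).le] at h2 h3
    have h4 := x0_pos p
    have h5 := x0_pos (γ • p)
    change nsq ((γ : HCˣ) : HC) ≤ 4 * B * A
    refine h1.trans ?_
    change x0 (act ((γ : HCˣ) : HC) p) ≤ B at h3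
    rw [smul_def] at h5
    have h6 : x0 (act ((γ : HCˣ) : HC) p) * x0 p ≤ B * A := mul_le_mul h3 h2 h4.le (by linarith)
    linarith

lemma re_mul_comm (a b : HC) : (a * b).re = (b * a).re := by
  rw [Quaternion.re_mul, Quaternion.re_mul]; ring

lemma norm_re_sq_le (q : HC) : ‖q.re‖ ^ 2 ≤ nsq q := by
  unfold nsq
  rw [← Complex.normSq_eq_norm_sq]
  have p1 := Complex.normSq_nonneg q.imI
  have p2 := Complex.normSq_nonneg q.imJ
  have p3 := Complex.normSq_nonneg q.imK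
  linarith

lemma far {m : ℕ} (hm : 1 ≤ m) (γ : GG m) (h : γ ≠ 1) :
    (m : ℝ) ^ 2 / 2 - 1 ≤ ‖((γ : HCˣ) : HC).re‖ := by
  obtain ⟨h1, ε, hε, h2⟩ := γ.2
  have hε0 : ε ≠ 0 := by
    rintro rfl
    apply h
    apply Subtype.ext
    apply Units.ext
    rw [h2]
    simp
  rw [h2] at h1
  have h3 := displacement hm hε h1 hε0
  rw [← h2] at h3
  have h4 := norm_sub_le ((γ : HCˣ) : HC).re 1
  rw [norm_one] at h4
  linarith

lemma x0_zero : x0 0 = 1 := by simp [x0, sq]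

lemma act_star_root (p : Fin 3 → ℝ) : act (star (root p)) p = 0 := by
  have h : NN (star (root p)) = 1 := by rw [NN_star, NN_root]
  have h2 : act (star (root p)) (act (root p) 0) = 0 := by
    rw [← act_mul h (NN_root p), NN_star_mul, NN_root, cc_one, act_one]
  rwa [act_root_zero] at h2

theorem free {m : ℕ} (hm : 3 ≤ m) (γ : GG m) (p : Fin 3 → ℝ) (h : γ • p = p) : γ = 1 := by
  by_contra hne
  have h1 := far (by omega) γ hne
  have hg := γ.2.1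
  have hs : NN (star (root p)) = 1 := by rw [NN_star, NN_root]
  have h2 : nsq (star (root p) * ((γ : HCˣ) : HC) * root p) = 1 := by
    rw [← x0_act (by rw [NN_mul, hs, hg, one_mul]), act_mul hs hg]
    rw [smul_def] at h
    rw [h, act_star_root, x0_zero]
  have h3 : (star (root p) * ((γ : HCˣ) : HC) * root p).re = ((γ : HCˣ) : HC).re := by
    rw [re_mul_comm, ← mul_assoc, mul_star, NN_root, cc_one, one_mul]
  have h4 := norm_re_sq_le (star (root p) * ((γ : HCˣ) : HC) * root p)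
  rw [h2, h3] at h4
  have h5 := norm_nonneg ((γ : HCˣ) : HC).re
  have hm' : (3 : ℝ) ≤ m := by exact_mod_cast hm
  have h6 : ‖((γ : HCˣ) : HC).re‖ ≤ 1 := by nlinarith
  nlinarith

theorem disj {m : ℕ} {R : ℝ} (hm : 3 ≤ m) (hmR : 4 * (1 + R) < m) (γ : GG m) (p : Fin 3 → ℝ)
    (hne : γ ≠ 1) (hp : sq p ≤ R) : R < sq (γ • p) := by
  by_contra hcon
  push Not at hcon
  have h1 := far (by omega) γ hne
  have h2 := nsq_le γ.2.1 p
  have h3 := norm_re_sq_le ((γ : HCˣ) : HC)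
  have h4 := x0_sq p
  have h5 := x0_sq (γ • p)
  rw [smul_def] at h5 hcon
  have h6 := x0_pos p
  have h7 := x0_pos (act ((γ : HCˣ) : HC) p)
  have hm' : (3 : ℝ) ≤ m := by exact_mod_cast hm
  have h8 : x0 (act ((γ : HCˣ) : HC) p) * x0 p ≤ 1 + R := by
    nlinarith [sq_nonneg (x0 (act ((γ : HCˣ) : HC) p) - x0 p)]
  have h9 : nsq ((γ : HCˣ) : HC) ≤ 4 * (1 + R) := by linarith
  have h10 : ((m : ℝ) ^ 2 / 2 - 1) ^ 2 ≤ ‖((γ : HCˣ) : HC).re‖ ^ 2 := by
    apply pow_le_pow_left₀ _ h1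
    nlinarith
  have h11 : (m : ℝ) ≤ ((m : ℝ) ^ 2 / 2 - 1) ^ 2 := by
    have h12 : (m : ℝ) ≤ (m : ℝ) ^ 2 / 2 - 1 := by nlinarith
    nlinarith
  linarith

lemma residue {M : ℕ} (hM : 0 < M) {z : ℂ} (hz : z ∈ SS) :
    ∃ r e : ℂ, r ∈ SS ∧ e ∈ SS ∧ Complex.normSq r ≤ 8 * (M : ℝ) ^ 2 ∧ z = r + M * e := by
  obtain ⟨a, b, rfl⟩ := hz
  have hM' : (0 : ℤ) < M := by exact_mod_cast hM
  refine ⟨((a % M : ℤ) : ℂ) + ((b % M : ℤ) : ℂ) * ww, ((a / M : ℤ) : ℂ) + ((b / M : ℤ) : ℂ) * ww,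
    ⟨_, _, rfl⟩, ⟨_, _, rfl⟩, ?_, ?_⟩
  · rw [normSq_S]
    have h1 := Int.emod_nonneg a hM'.ne'
    have h2 := Int.emod_lt_of_pos a hM'
    have h3 := Int.emod_nonneg b hM'.ne'
    have h4 := Int.emod_lt_of_pos b hM'
    have h5 : (a % M) ^ 2 + 7 * (b % M) ^ 2 ≤ 8 * (M : ℤ) ^ 2 := by nlinarith
    exact_mod_cast h5
  · have h1 : ((a % M : ℤ) : ℂ) + M * ((a / M : ℤ) : ℂ) = (a : ℂ) := by
      exact_mod_cast Int.emod_add_mul_ediv a M
    have h2 : ((b % M : ℤ) : ℂ) + M * ((b / M : ℤ) : ℂ) = (b : ℂ) := by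
      exact_mod_cast Int.emod_add_mul_ediv b M
    rw [← h1, ← h2]
    ring

lemma residueO {M : ℕ} (hM : 0 < M) {q : HC} (hq : inO q) :
    ∃ r e : HC, inO r ∧ inO e ∧ nsq r ≤ 32 * (M : ℝ) ^ 2 ∧ q = r + ((M : ℂ) : HC) * e := by
  obtain ⟨h0, h1, h2, h3⟩ := hq
  obtain ⟨r0, e0, a0, b0, c0, d0⟩ := residue hM h0
  obtain ⟨r1, e1, a1, b1, c1, d1⟩ := residue hM h1
  obtain ⟨r2, e2, a2, b2, c2, d2⟩ := residue hM h2
  obtain ⟨r3, e3, a3, b3, c3, d3⟩ := residue hM h3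
  refine ⟨toq ![r0, r1, r2, r3], toq ![e0, e1, e2, e3], ⟨a0, a1, a2, a3⟩, ⟨b0, b1, b2, b3⟩, ?_, ?_⟩
  · unfold nsq
    show Complex.normSq r0 + Complex.normSq r1 + Complex.normSq r2 + Complex.normSq r3 ≤ _
    linarith
  · ext
    · rw [Quaternion.re_add, Quaternion.re_mul, Quaternion.re_coe,
        Quaternion.imI_coe, Quaternion.imJ_coe, Quaternion.imK_coe, d0]
      simp only [toq_re, toq_imI, toq_imJ, toq_imK, Matrix.cons_val]
      ring
    · rw [Quaternion.imI_add, Quaternion.imI_mul, Quaternion.re_coe,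
        Quaternion.imI_coe, Quaternion.imJ_coe, Quaternion.imK_coe, d1]
      simp only [toq_re, toq_imI, toq_imJ, toq_imK, Matrix.cons_val]
      ring
    · rw [Quaternion.imJ_add, Quaternion.imJ_mul, Quaternion.re_coe,
        Quaternion.imI_coe, Quaternion.imJ_coe, Quaternion.imK_coe, d2]
      simp only [toq_re, toq_imI, toq_imJ, toq_imK, Matrix.cons_val]
      ring
    · rw [Quaternion.imK_add, Quaternion.imK_mul, Quaternion.re_coe,
        Quaternion.imI_coe, Quaternion.imJ_coe, Quaternion.imK_coe, d3]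
      simp only [toq_re, toq_imI, toq_imJ, toq_imK, Matrix.cons_val]
      ring

/-- the modulus `m D!` is divisible by `m ν` for all small `ν` -/
lemma divis (m D : ℕ) {ν : ℂ} (hν : ν ∈ SS) (h0 : ν ≠ 0) (hD : Complex.normSq ν ≤ D) :
    ∃ s ∈ SS, ((m * D.factorial : ℕ) : ℂ) = m * s * ν := by
  have h1 := one_le_normSq hν h0
  obtain ⟨a, b, rfl⟩ := hν
  rw [normSq_S] at h1 hD
  have h2 : 1 ≤ a ^ 2 + 7 * b ^ 2 := by exact_mod_cast h1
  have h3 : a ^ 2 + 7 * b ^ 2 ≤ D := by exact_mod_cast hD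
  obtain ⟨k, hk⟩ : ∃ k : ℕ, (k : ℤ) = a ^ 2 + 7 * b ^ 2 := ⟨(a ^ 2 + 7 * b ^ 2).toNat, by omega⟩
  have hdvd : k ∣ D.factorial := Nat.dvd_factorial (by omega) (by omega)
  obtain ⟨l, hl⟩ := hdvd
  refine ⟨l * (a - b * ww), ?_, ?_⟩
  · exact SS.mul_mem ⟨l, 0, by simp⟩ ⟨a, -b, by push_cast; ring⟩
  · rw [hl]
    have hk' : (k : ℂ) = (a : ℂ) ^ 2 + 7 * (b : ℂ) ^ 2 := by exact_mod_cast hk
    push_cast
    rw [hk']
    linear_combination ((m : ℂ) * l * b ^ 2) * ww_mul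

lemma reps {m : ℕ} (hm : 1 ≤ m) (C : ℝ) : ∃ B : ℝ, ∀ q : HC, inO q → q ≠ 0 → ‖NN q‖ ≤ C →
    ∃ (γ : GG m) (s : HC), nsq s ≤ B ∧ ((γ : HCˣ) : HC) = s * q := by
  classical
  set D : ℕ := ⌈C ^ 2⌉₊ with hD
  set M : ℕ := m * D.factorial with hM
  have hMpos : 0 < M := Nat.mul_pos (by omega) (Nat.factorial_pos D)
  let P : Set (ℂ × HC) := {z : ℂ | z ∈ SS ∧ Complex.normSq z ≤ D} ×ˢ
    {r : HC | inO r ∧ nsq r ≤ 32 * (M : ℝ) ^ 2}
  have hP : P.Finite := (finite_S D).prod (finite_O _)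
  let t : ℂ × HC → HC := fun x =>
    if h : ∃ q : HC, inO q ∧ NN q = x.1 ∧ ∃ e, inO e ∧ q = x.2 + ((M : ℂ) : HC) * e
    then Classical.choose h else 1
  obtain ⟨B, hB⟩ := (hP.image (fun x => nsq (((x.1⁻¹ : ℂ) : HC) * star (t x)))).bddAbove
  refine ⟨B, fun q hq hq0 hqC => ?_⟩
  set ν := NN q with hν
  have hνS : ν ∈ SS := NN_mem hq
  have hν0 : ν ≠ 0 := fun h => hq0 (anisotropic hq h)
  have hνD : Complex.normSq ν ≤ D := by
    rw [Complex.normSq_eq_norm_sq]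
    have h1 : ‖ν‖ ^ 2 ≤ C ^ 2 := pow_le_pow_left₀ (norm_nonneg _) hqC 2
    exact h1.trans (Nat.le_ceil _)
  obtain ⟨r, e, hr, he, hrM, hqr⟩ := residueO hMpos hq
  have hex : ∃ q' : HC, inO q' ∧ NN q' = (ν, r).1 ∧
      ∃ e, inO e ∧ q' = (ν, r).2 + ((M : ℂ) : HC) * e := ⟨q, hq, rfl, e, he, hqr⟩
  have ht : t (ν, r) = Classical.choose hex := dif_pos hex
  obtain ⟨ht1, ht2, e', he', hte⟩ := Classical.choose_spec hex
  rw [← ht] at ht1 ht2 hte
  simp only at ht2 hte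
  set τ := t (ν, r) with hτ
  obtain ⟨s, hs, hsM⟩ := divis m D hνS hν0 hνD
  rw [← hM] at hsM
  -- the group element
  set γ : HC := ((ν⁻¹ : ℂ) : HC) * star τ * q with hγ
  have hNγ : NN γ = 1 := by
    rw [hγ, NN_mul, NN_mul, NN_coe, NN_star, ht2, ← hν]
    field_simp
  have hττ : ((ν⁻¹ : ℂ) : HC) * star τ * τ = 1 := by
    rw [mul_assoc, NN_star_mul, ht2, ← cc_mul, inv_mul_cancel₀ hν0, cc_one]
  have hdiff : γ = 1 + ((m : ℂ) : HC) * (((s : ℂ) : HC) * (star τ * (e - e'))) := by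
    have h1 : q = τ + ((M : ℂ) : HC) * (e - e') := by
      rw [hte, hqr, mul_sub]
      abel
    rw [hγ]
    conv_lhs => rw [h1]
    rw [mul_add, hττ]
    congr 1
    rw [cc_left_comm, mul_assoc, hsM, cc_mul, cc_mul]
    have h2 : ((ν : ℂ) : HC) * (((ν⁻¹ : ℂ) : HC) * (star τ * (e - e'))) = star τ * (e - e') := by
      rw [← mul_assoc, ← cc_mul, mul_inv_cancel₀ hν0, cc_one, one_mul]
    rw [mul_assoc, h2, mul_assoc]
  let u : HCˣ := ⟨γ, star γ, by rw [mul_star, hNγ, cc_one], by rw [NN_star_mul, hNγ, cc_one]⟩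
  have hu : u ∈ GG m := ⟨hNγ, _, inO_mul (inO_coe hs) (inO_mul (inO_star ht1) (inO_sub he he')),
    hdiff⟩
  refine ⟨⟨u, hu⟩, ((ν⁻¹ : ℂ) : HC) * star τ, ?_, rfl⟩
  exact hB ⟨(ν, r), ⟨⟨hνS, hνD⟩, ⟨hr, hrM⟩⟩, rfl⟩

theorem cocompact {m : ℕ} (hm : 1 ≤ m) : ∃ K : Set (Fin 3 → ℝ), IsCompact K ∧
    ∀ p : Fin 3 → ℝ, ∃ γ : GG m, γ • p ∈ K := by
  obtain ⟨C, hC, hsmall⟩ := exists_small
  obtain ⟨B, hB⟩ := reps hm C
  refine ⟨Metric.closedBall 0 (4 * |B| * C), isCompact_closedBall _ _, fun p => ?_⟩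
  obtain ⟨q, hq, hq0, hqC⟩ := hsmall (root p) (NN_root p)
  have h1 : ‖NN q‖ ≤ C := by
    have h2 := norm_NN_le (q * root p)
    rw [NN_mul, NN_root, mul_one] at h2
    linarith
  obtain ⟨γ, s, hs, hγ⟩ := hB q hq hq0 h1
  refine ⟨γ, ?_⟩
  have h3 : x0 (γ • p) ≤ 4 * |B| * C := by
    rw [smul_def, x0_act γ.2.1, hγ, mul_assoc]
    refine (nsq_mul_le _ _).trans ?_
    have h4 := nsq_nonneg s
    have h5 := nsq_nonneg (q * root p)
    have h6 : nsq s ≤ |B| := hs.trans (le_abs_self B)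
    have h7 : nsq s * nsq (q * root p) ≤ |B| * C := mul_le_mul h6 hqC h5 (abs_nonneg B)
    linarith
  rw [Metric.mem_closedBall, dist_zero_right, pi_norm_le_iff_of_nonneg (by positivity)]
  intro i
  refine le_trans ?_ h3
  rw [Real.norm_eq_abs]
  apply abs_le_of_sq_le_sq _ (x0_pos _).le
  rw [x0_sq]
  have h8 : (γ • p) i ^ 2 ≤ sq (γ • p) :=
    Finset.single_le_sum (f := fun k => (γ • p) k ^ 2) (fun k _ => sq_nonneg _) (Finset.mem_univ i)
  linarith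

end Lat

theorem exists_lattice (R : ℝ) :
    ∃ (Γ : Type) (_ : Group Γ) (_ : MulAction Γ (Fin 3 → ℝ)),
      (∀ γ : Γ, ContDiff ℝ ∞ (fun p : Fin 3 → ℝ => γ • p)) ∧
      (∀ γ : Γ, pull hyp (fun p => γ • p) = hyp) ∧
      ProperlyDiscontinuousSMul Γ (Fin 3 → ℝ) ∧
      (∀ (γ : Γ) (p : Fin 3 → ℝ), γ • p = p → γ = 1) ∧
      (∃ K : Set (Fin 3 → ℝ), IsCompact K ∧ ∀ p : Fin 3 → ℝ, ∃ γ : Γ, γ • p ∈ K) ∧
      (∀ (γ : Γ) (p : Fin 3 → ℝ), γ ≠ 1 → sq p ≤ R → R < sq (γ • p)) := by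
  obtain ⟨m, hm⟩ := exists_nat_gt (max 3 (4 * (1 + R)))
  have h1 : 3 ≤ m := by
    have : (3 : ℝ) < m := lt_of_le_of_lt (le_max_left _ _) hm
    exact_mod_cast this.le
  have h2 : 4 * (1 + R) < m := lt_of_le_of_lt (le_max_right _ _) hm
  refine ⟨Lat.GG m, inferInstance, inferInstance, ?_, ?_, inferInstance, ?_, ?_, ?_⟩
  · intro γ
    exact (Lat.act_iso γ.2.1).1
  · intro γ
    exact (Lat.act_iso γ.2.1).2
  · intro γ p h
    exact Lat.free h1 γ p h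
  · exact Lat.cocompact (by omega)
  · intro γ p hne hp
    exact Lat.disj h1 h2 γ p hne hp

end Pool.Agent.Work.MP_0fcc57_gt
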