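import Pool.Agent.Work.MP_0fcc57_gt.Germ

/-!
# Functions of two variables, and their lifts to `Fin 3 → ℝ`
-/

open scoped ContDiff Topology
open Real Set Filter

noncomputable section

namespace Pool.Agent.Work.MP_0fcc57_gt

/-- first partial derivative of a function of two variables -/
def D1 (φ : ℝ × ℝ → ℝ) (p : ℝ × ℝ) : ℝ := fderiv ℝ φ p (1, 0)
/-- second partial derivative of a function of two variables -/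
def D2 (φ : ℝ × ℝ → ℝ) (p : ℝ × ℝ) : ℝ := fderiv ℝ φ p (0, 1)

/-- lift a function of two variables to `Fin 3 → ℝ` -/
def lift2 (φ : ℝ × ℝ → ℝ) : (Fin 3 → ℝ) → ℝ := fun y => φ (y 0, y 1)

/-- lift a set -/
def liftS (Ω : Set (ℝ × ℝ)) : Set (Fin 3 → ℝ) := {y | (y 0, y 1) ∈ Ω}

/-- the projection to the first two coordinates -/
def proj2 : (Fin 3 → ℝ) →L[ℝ] ℝ × ℝ :=
  (ContinuousLinearMap.proj (R := ℝ) (φ := fun _ : Fin 3 => ℝ) 0).prod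
    (ContinuousLinearMap.proj (R := ℝ) (φ := fun _ : Fin 3 => ℝ) 1)

lemma proj2_apply (y : Fin 3 → ℝ) : proj2 y = (y 0, y 1) := rfl

lemma lift2_eq (φ : ℝ × ℝ → ℝ) : lift2 φ = φ ∘ proj2 := rfl

lemma liftS_eq (Ω : Set (ℝ × ℝ)) : liftS Ω = proj2 ⁻¹' Ω := rfl

lemma liftS_isOpen {Ω : Set (ℝ × ℝ)} (h : IsOpen Ω) : IsOpen (liftS Ω) :=
  h.preimage proj2.continuous

lemma lift2_contDiffOn {φ : ℝ × ℝ → ℝ} {Ω : Set (ℝ × ℝ)} (h : ContDiffOn ℝ ∞ φ Ω) :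
    ContDiffOn ℝ ∞ (lift2 φ) (liftS Ω) :=
  h.comp proj2.contDiff.contDiffOn (fun _ hy => hy)

lemma pd_lift2 {φ : ℝ × ℝ → ℝ} {y : Fin 3 → ℝ} (h : DifferentiableAt ℝ φ (y 0, y 1)) (i : Fin 3) :
    pd i (lift2 φ) y = fderiv ℝ φ (y 0, y 1) (proj2 (Pi.single i 1)) := by
  unfold pd
  rw [lift2_eq, fderiv_comp y (by exact h) proj2.differentiableAt]
  simp [ContinuousLinearMap.fderiv, proj2_apply]

lemma pd0_lift2 {φ : ℝ × ℝ → ℝ} {y : Fin 3 → ℝ} (h : DifferentiableAt ℝ φ (y 0, y 1)) :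
    pd 0 (lift2 φ) y = D1 φ (y 0, y 1) := by
  rw [pd_lift2 h]; unfold D1; simp [proj2_apply]

lemma pd1_lift2 {φ : ℝ × ℝ → ℝ} {y : Fin 3 → ℝ} (h : DifferentiableAt ℝ φ (y 0, y 1)) :
    pd 1 (lift2 φ) y = D2 φ (y 0, y 1) := by
  rw [pd_lift2 h]; unfold D2; simp [proj2_apply]

lemma pd2_lift2 {φ : ℝ × ℝ → ℝ} {y : Fin 3 → ℝ} (h : DifferentiableAt ℝ φ (y 0, y 1)) :
    pd 2 (lift2 φ) y = 0 := by
  rw [pd_lift2 h]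
  have e : proj2 (Pi.single (2 : Fin 3) (1 : ℝ)) = 0 := by
    rw [proj2_apply]; simp
  rw [e, map_zero]

lemma diffAt_of_open {E : Type*} [NormedAddCommGroup E] [NormedSpace ℝ E] {φ : E → ℝ} {Ω : Set E}
    (hΩ : IsOpen Ω) (h : ContDiffOn ℝ ∞ φ Ω) {p : E} (hp : p ∈ Ω) : DifferentiableAt ℝ φ p :=
  (h.contDiffAt (hΩ.mem_nhds hp)).differentiableAt (by simp)

lemma fderiv_apply_contDiffOn {E : Type*} [NormedAddCommGroup E] [NormedSpace ℝ E] {φ : E → ℝ}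
    {Ω : Set E} (hΩ : IsOpen Ω) (h : ContDiffOn ℝ ∞ φ Ω) (v : E) :
    ContDiffOn ℝ ∞ (fun p => fderiv ℝ φ p v) Ω := by
  have h1 : ContDiffOn ℝ ∞ (fderiv ℝ φ) Ω := h.fderiv_of_isOpen hΩ (by simp)
  exact h1.clm_apply contDiffOn_const

lemma D1_contDiffOn {φ : ℝ × ℝ → ℝ} {Ω : Set (ℝ × ℝ)} (hΩ : IsOpen Ω)
    (h : ContDiffOn ℝ ∞ φ Ω) : ContDiffOn ℝ ∞ (D1 φ) Ω := fderiv_apply_contDiffOn hΩ h _

lemma D2_contDiffOn {φ : ℝ × ℝ → ℝ} {Ω : Set (ℝ × ℝ)} (hΩ : IsOpen Ω)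
    (h : ContDiffOn ℝ ∞ φ Ω) : ContDiffOn ℝ ∞ (D2 φ) Ω := fderiv_apply_contDiffOn hΩ h _

section
variable {φ : ℝ × ℝ → ℝ} {Ω : Set (ℝ × ℝ)} (hΩ : IsOpen Ω) (h : ContDiffOn ℝ ∞ φ Ω)
include hΩ h

lemma pd0_on {y : Fin 3 → ℝ} (hy : y ∈ liftS Ω) : pd 0 (lift2 φ) y = lift2 (D1 φ) y :=
  pd0_lift2 (diffAt_of_open hΩ h hy)

lemma pd1_on {y : Fin 3 → ℝ} (hy : y ∈ liftS Ω) : pd 1 (lift2 φ) y = lift2 (D2 φ) y :=
  pd1_lift2 (diffAt_of_open hΩ h hy)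

lemma pd2_on {y : Fin 3 → ℝ} (hy : y ∈ liftS Ω) : pd 2 (lift2 φ) y = 0 :=
  pd2_lift2 (diffAt_of_open hΩ h hy)
end

lemma pd_congr_on {n : ℕ} {i : Fin n} {F G : (Fin n → ℝ) → ℝ} {U : Set (Fin n → ℝ)}
    (hU : IsOpen U) (h : ∀ z ∈ U, F z = G z) {y : Fin n → ℝ} (hy : y ∈ U) :
    pd i F y = pd i G y :=
  pd_congr (by filter_upwards [hU.mem_nhds hy] with z hz using h z hz)

section
variable {φ : ℝ × ℝ → ℝ} {Ω : Set (ℝ × ℝ)} (hΩ : IsOpen Ω) (h : ContDiffOn ℝ ∞ φ Ω)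
include hΩ h

lemma pd00_on {y : Fin 3 → ℝ} (hy : y ∈ liftS Ω) :
    pd 0 (pd 0 (lift2 φ)) y = lift2 (D1 (D1 φ)) y := by
  rw [pd_congr_on (liftS_isOpen hΩ) (fun z hz => pd0_on hΩ h hz) hy]
  exact pd0_on hΩ (D1_contDiffOn hΩ h) hy

lemma pd01_on {y : Fin 3 → ℝ} (hy : y ∈ liftS Ω) :
    pd 0 (pd 1 (lift2 φ)) y = lift2 (D1 (D2 φ)) y := by
  rw [pd_congr_on (liftS_isOpen hΩ) (fun z hz => pd1_on hΩ h hz) hy]
  exact pd0_on hΩ (D2_contDiffOn hΩ h) hy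

lemma pd11_on {y : Fin 3 → ℝ} (hy : y ∈ liftS Ω) :
    pd 1 (pd 1 (lift2 φ)) y = lift2 (D2 (D2 φ)) y := by
  rw [pd_congr_on (liftS_isOpen hΩ) (fun z hz => pd1_on hΩ h hz) hy]
  exact pd1_on hΩ (D2_contDiffOn hΩ h) hy
end

/-- computing `D1` from a one-variable derivative -/
lemma D1_of_hasDerivAt {φ : ℝ × ℝ → ℝ} {r x d : ℝ} (h : DifferentiableAt ℝ φ (r, x))
    (hd : HasDerivAt (fun t => φ (t, x)) d r) : D1 φ (r, x) = d := by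
  have h1 : HasDerivAt (fun t : ℝ => (t, x)) ((1 : ℝ), (0 : ℝ)) r :=
    (hasDerivAt_id' r).prodMk (hasDerivAt_const r x)
  have h2 := h.hasFDerivAt.comp_hasDerivAt r h1
  exact h2.unique hd

lemma D2_of_hasDerivAt {φ : ℝ × ℝ → ℝ} {r x d : ℝ} (h : DifferentiableAt ℝ φ (r, x))
    (hd : HasDerivAt (fun t => φ (r, t)) d x) : D2 φ (r, x) = d := by
  have h1 : HasDerivAt (fun t : ℝ => (r, t)) ((0 : ℝ), (1 : ℝ)) x :=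
    (hasDerivAt_const x r).prodMk (hasDerivAt_id' x)
  have h2 := h.hasFDerivAt.comp_hasDerivAt x h1
  exact h2.unique hd

lemma D1_congr {φ ψ : ℝ × ℝ → ℝ} {p : ℝ × ℝ} (h : φ =ᶠ[𝓝 p] ψ) : D1 φ p = D1 ψ p := by
  unfold D1; rw [h.fderiv_eq]

lemma D2_congr {φ ψ : ℝ × ℝ → ℝ} {p : ℝ × ℝ} (h : φ =ᶠ[𝓝 p] ψ) : D2 φ p = D2 ψ p := by
  unfold D2; rw [h.fderiv_eq]

lemma D1_eventually_congr {φ ψ : ℝ × ℝ → ℝ} {p : ℝ × ℝ} (h : φ =ᶠ[𝓝 p] ψ) :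
    D1 φ =ᶠ[𝓝 p] D1 ψ := by
  filter_upwards [h.eventuallyEq_nhds] with z hz using D1_congr hz

lemma D2_eventually_congr {φ ψ : ℝ × ℝ → ℝ} {p : ℝ × ℝ} (h : φ =ᶠ[𝓝 p] ψ) :
    D2 φ =ᶠ[𝓝 p] D2 ψ := by
  filter_upwards [h.eventuallyEq_nhds] with z hz using D2_congr hz

end Pool.Agent.Work.MP_0fcc57_gt
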