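import Pool.Agent.Work.MP_0fcc57_gt.MapF
import Pool.Agent.Work.MP_0fcc57_gt.Lattice

/-!
# Local properties: negative curvature and harmonicity at every point
-/

open scoped ContDiff Topology
open Real Set Filter

noncomputable section

namespace Pool.Agent.Work.MP_0fcc57_gt

/-- the zero perturbation -/
def P0 : PData := ⟨fun _ => 0, fun _ => 0, fun _ => 0, 1, 1, 1, contDiff_const, contDiff_const,
  fun τ => hasDerivAt_const τ 0, one_pos, one_pos, one_pos⟩

lemma P0_H : ∀ s : ℝ, (-1 : ℝ) ≤ |s| → P0.H s = 0 := fun _ _ => rfl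
lemma P0_b : ∀ τ : ℝ, (0 : ℝ) ≤ τ → P0.b τ = 0 ∧ P0.Bt τ = 0 := fun _ _ => ⟨rfl, rfl⟩

lemma P0_out (p : ℝ × ℝ) : P0.Out (-1) 0 p := by
  left
  have := abs_nonneg (P0.s p)
  linarith

lemma P0_good (D : RData) : AllGoodD D P0 := fun p hp =>
  P0.out_good (S := -1) (τ₁ := 0) P0_H P0_b hp (P0_out p) _

lemma P0_log {i : ℝ} {p : ℝ × ℝ} (hp : p ∈ PR) :
    log (P0.bh i p) = Brad p ∧ log (P0.ch i p) = Crad p :=
  P0.out_bh (S := -1) (τ₁ := 0) P0_H P0_b hp (P0_out p) i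

lemma FV_P0 (z : Fin 3 → ℝ) : FV P0 z = z := by
  unfold FV PData.V
  ext i
  fin_cases i <;> simp [P0]

lemma diagM_P0 (D : RData) (κ : ℝ) {z : Fin 3 → ℝ} (hz : z ∈ liftS PR) :
    diagM (LD D P0 (P0_good D) κ) z = radPol D κ z :=
  LD_radial _ _ hz (P0_log hz).1 (P0_log hz).2

/-- The trivial radial data (hyperbolic space). -/
def D1d : RData where
  w := fun u => u
  Bd := 1
  hw := contDiff_id
  hleft := fun _ _ => rfl
  hright := fun _ _ => rfl
  hBd := one_pos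
  hpos := fun _ h => h
  hX := by
    intro u hu
    have e : deriv (fun u : ℝ => u) = fun _ => 1 := by
      funext v; exact (hasDerivAt_id' v).deriv
    rw [e]
    have e2 : deriv (fun _ : ℝ => (1:ℝ)) u = 0 := by simp
    rw [e2]
    refine ⟨by norm_num, ?_⟩
    unfold Xi
    have : (2 - 1) * ((1 / u + 1 / (1 + u)) * u - 1) - 2 * u * 0 = u / (1 + u) := by
      field_simp
      ring
    rw [this]
    positivity

lemma D1d_k (u : ℝ) : D1d.k u = 0 := by
  unfold RData.k D1d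
  simp

lemma D1d_I (u : ℝ) : D1d.I u = 0 := by
  unfold RData.I
  simp [D1d_k]

lemma H0_D1d (κ : ℝ) : H0 D1d κ = fun p => exp (2 * κ) • hyp p := by
  funext p
  ext i j
  simp only [H0, hyp, Matrix.of_apply, Matrix.smul_apply, smul_eq_mul]
  unfold cE cA RData.rho
  rw [D1d_k, D1d_I]
  have h1 := (one_add_sq_pos p).ne'
  show _ = exp (2 * κ) * ((if i = j then (1:ℝ) else 0) - p i * p j / (1 + sq p))
  by_cases hij : i = j
  · simp [hij]
    field_simp
    ring
  · simp [hij]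
    field_simp

lemma H0_D1d_zero : H0 D1d 0 = hyp := by
  rw [H0_D1d]
  funext p
  simp

lemma radPol_D1d_zero : radPol D1d 0 = hypPol := by
  funext z
  unfold radPol hypPol RData.rho
  rw [D1d_k, D1d_I]
  simp

lemma pull_hyp_Psi {y : Fin 3 → ℝ} (hy : y ∈ liftS PR) : pull hyp Psi y = hypPol y := by
  rw [← H0_D1d_zero, H0_pull hy, radPol_D1d_zero]

lemma pull_H0_D1d {Λ : (Fin 3 → ℝ) → (Fin 3 → ℝ)} (hiso : pull hyp Λ = hyp) (κ : ℝ) :
    pull (H0 D1d κ) Λ = H0 D1d κ := by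
  rw [H0_D1d]
  funext p
  have := congrFun hiso p
  rw [pull_eq] at this ⊢
  rw [Matrix.mul_smul, Matrix.smul_mul, this]

/-! ### the radial metric near the origin -/

lemma I_small (D : RData) {u : ℝ} (h0 : 0 ≤ u) (h : u ≤ 1 / 20) : D.I u = D.I 0 := by
  have hk := D.k_contDiff.continuous
  have h1 : D.I u - D.I 0 = ∫ t in (0:ℝ)..u, D.k t := by
    unfold RData.I
    exact intervalIntegral.integral_interval_sub_left (hk.intervalIntegrable _ _)
      (hk.intervalIntegrable _ _)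
  have h2 : ∫ t in (0:ℝ)..u, D.k t = ∫ t in (0:ℝ)..u, (0:ℝ) := by
    apply intervalIntegral.integral_congr
    intro t ht
    rw [uIcc_of_le h0] at ht
    exact D.k_left (ht.2.trans h)
  rw [h2] at h1
  simp at h1
  linarith

lemma H0_small (D : RData) {p : Fin 3 → ℝ} (h : sq p ≤ 1 / 20) :
    H0 D 0 p = H0 D1d (D.I 0) p := by
  have h0 := sq_nonneg' p
  ext i j
  simp only [H0, Matrix.of_apply]
  unfold cE cA RData.rho
  rw [D1d_k, D1d_I, D.k_left h, I_small D h0 h, add_zero, zero_add]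

/-! ### charts -/

section charts
variable {Λ : (Fin 3 → ℝ) → (Fin 3 → ℝ)} (hΛ : ContDiff ℝ ∞ Λ)
include hΛ

lemma Λ_diff (p : Fin 3 → ℝ) : DifferentiableAt ℝ Λ p := hΛ.differentiable (by simp) p

lemma iso_inj (hiso : pull hyp Λ = hyp) (p : Fin 3 → ℝ) : Function.Bijective (fderiv ℝ Λ p) := by
  have hinj : Function.Injective (fderiv ℝ Λ p) := by
    rw [injective_iff_map_eq_zero]
    intro v hv
    by_contra hne
    have h1 := isMetric_hyp.pos p v hne
    have h2 := ip_pull hyp Λ p v v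
    rw [hiso, jac_mulVec (Λ_diff hΛ p), hv] at h2
    rw [h2] at h1
    simp [ip] at h1
  refine ⟨hinj, ?_⟩
  exact LinearMap.surjective_of_injective (f := (fderiv ℝ Λ p : (Fin 3 → ℝ) →ₗ[ℝ] (Fin 3 → ℝ))) hinj

lemma chart_param (hiso : pull hyp Λ = hyp) {y : Fin 3 → ℝ} (hy : y ∈ liftS PR) :
    IsParam (fun z => Λ (Psi z)) y := by
  refine ⟨⟨liftS PR, liftS_isOpen PR_isOpen, hy, ?_⟩, ?_⟩
  · exact hΛ.comp_contDiffOn (Psi_contDiffOn hy)
  · have h1 : fderiv ℝ (fun z => Λ (Psi z)) y = (fderiv ℝ Λ (Psi y)).comp (fderiv ℝ Psi y) :=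
      fderiv_comp y (Λ_diff hΛ _) (Psi_diff hy)
    rw [h1]
    exact (iso_inj hΛ hiso _).comp (Psi_bij hy)

lemma chart_cont {y : Fin 3 → ℝ} (hy : y ∈ liftS PR) : ContinuousAt (fun z => Λ (Psi z)) y :=
  hΛ.continuous.continuousAt.comp (Psi_contDiffAt hy).continuousAt

lemma chart_pull (G : CoordMetric 3) (hG : pull G Λ = G) {z : Fin 3 → ℝ} (hz : z ∈ liftS PR) :
    pull G (fun z => Λ (Psi z)) z = pull G Psi z := by
  rw [← pull_comp G (Λ_diff hΛ _) (Psi_diff hz), hG]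

end charts

/-- curvature conditions of radial data -/
lemma rad_curv (D : RData) (κ : ℝ) {p : ℝ × ℝ} (hp : p ∈ PR) :
    0 < (LD D P0 (P0_good D) κ).cK p ∧ 0 < (LD D P0 (P0_good D) κ).cHrr p ∧
    (LD D P0 (P0_good D) κ).cHrx p ^ 2 <
      (LD D P0 (P0_good D) κ).cHrr p * (LD D P0 (P0_good D) κ).cHxx p := by
  apply radial_cond (LD D P0 (P0_good D) κ) D.hw D.hpos D.hleft D.hX hp hp
    (Filter.EventuallyEq.refl _ _)
  · filter_upwards [PR_isOpen.mem_nhds hp] with z hz using (P0_log hz).1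
  · filter_upwards [PR_isOpen.mem_nhds hp] with z hz using (P0_log hz).2

theorem local_rad (D : RData) (κ : ℝ) (H : CoordMetric 3) (f : (Fin 3 → ℝ) → (Fin 3 → ℝ))
    {Λ : (Fin 3 → ℝ) → (Fin 3 → ℝ)} (hΛ : ContDiff ℝ ∞ Λ) (hiso : pull hyp Λ = hyp)
    (hisoD : pull (H0 D κ) Λ = H0 D κ) {y : Fin 3 → ℝ} (hy : y ∈ liftS PR)
    (hH : ∀ᶠ q in 𝓝 (Λ (Psi y)), H q = H0 D κ q) (hf : ∀ᶠ q in 𝓝 (Λ (Psi y)), f q = q) :
    NegCurvAt H (Λ (Psi y)) ∧ HarmAt H hyp f (Λ (Psi y)) := by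
  have hcont := chart_cont hΛ hy
  have hopen := (liftS_isOpen PR_isOpen).mem_nhds hy
  have hpull : ∀ᶠ z in 𝓝 y, pull H (fun z => Λ (Psi z)) z = diagM (LD D P0 (P0_good D) κ) z := by
    filter_upwards [hcont.eventually hH, hopen] with z hz hz2
    rw [diagM_P0 D κ hz2, ← H0_pull hz2, ← chart_pull hΛ _ hisoD hz2]
    exact pull_congr_metric (Ψ := fun z => Λ (Psi z)) hz
  have hpullh : ∀ᶠ z in 𝓝 y, pull hyp (fun z => Λ (Psi z)) z = hypPol z := by
    filter_upwards [hopen] with z hz2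
    rw [chart_pull hΛ _ hiso hz2, pull_hyp_Psi hz2]
  constructor
  · refine ⟨fun z => Λ (Psi z), y, chart_param hΛ hiso hy, rfl, ?_⟩
    obtain ⟨c1, c2, c3⟩ := rad_curv D κ hy
    have := (LD D P0 (P0_good D) κ).negAt (diagM (LD D P0 (P0_good D) κ)) y hy (fun z _ => rfl)
      c1 c2 c3
    exact NegAt_congr (hpull.mono fun z hz => hz.symm) this
  · refine ⟨fun z => Λ (Psi z), fun z => Λ (Psi z), FV P0, y, chart_param hΛ hiso hy, rfl, ?_,
      ⟨univ, isOpen_univ, mem_univ _, (Setup.FV_contDiff P0).contDiffOn⟩, ?_, ?_⟩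
    · rw [FV_P0]; exact chart_param hΛ hiso hy
    · filter_upwards [hcont.eventually hf] with z hz
      rw [FV_P0]; exact hz
    · apply harm_polar (P0_good D) κ _ _ y hy hpull
      rw [FV_P0]; exact hpullh

/-! ### the rotation -/

/-- exchange of the first and the last coordinate -/
def rot (p : Fin 3 → ℝ) : Fin 3 → ℝ := ![p 2, p 1, p 0]

lemma rot_contDiff : ContDiff ℝ ∞ rot := by
  unfold rot
  rw [contDiff_pi]
  intro i
  fin_cases i
  · exact contDiff_apply ℝ ℝ (2 : Fin 3)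
  · exact contDiff_apply ℝ ℝ (1 : Fin 3)
  · exact contDiff_apply ℝ ℝ (0 : Fin 3)

lemma rot_rot (p : Fin 3 → ℝ) : rot (rot p) = p := by
  ext i; fin_cases i <;> simp [rot]

lemma sq_rot (p : Fin 3 → ℝ) : sq (rot p) = sq p := by
  rw [sq_eq, sq_eq]; simp [rot]; ring

lemma jac_rot (p : Fin 3 → ℝ) : jac rot p = !![0, 0, 1; 0, 1, 0; 1, 0, 0] := by
  have hd : ∀ a, DifferentiableAt ℝ (fun z => rot z a) p := fun a =>
    differentiableAt_pi.1 (rot_contDiff.differentiable (by simp) p) a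
  unfold jac
  ext a i
  rw [Matrix.of_apply]
  fin_cases a <;> fin_cases i <;> refine pd_of_hasDerivAt (hd _) ?_ <;> simp [rot]
  all_goals first
    | exact hasDerivAt_id' _
    | exact hasDerivAt_const _ _

lemma pull_rot (D : RData) (κ : ℝ) : pull (H0 D κ) rot = H0 D κ := by
  funext p
  rw [pull_eq, jac_rot]
  unfold H0
  rw [sq_rot]
  ext i j
  fin_cases i <;> fin_cases j <;>
    simp [Matrix.mul_apply, Fin.sum_univ_three, rot]

lemma pull_rot_hyp : pull hyp rot = hyp := by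
  rw [← H0_D1d_zero]; exact pull_rot _ _

lemma jac_id (p : Fin 3 → ℝ) : jac (fun z : Fin 3 → ℝ => z) p = 1 := by
  have hd : DifferentiableAt ℝ (fun z : Fin 3 → ℝ => z) p := differentiableAt_id
  ext a i
  rw [jac_apply hd]
  rw [fderiv_id']
  simp [Matrix.one_apply, Pi.single_apply]

lemma pull_id (G : CoordMetric 3) : pull G (fun z => z) = G := by
  funext p
  rw [pull_eq, jac_id]
  simp

/-- every point is the image of a point off the axis under an isometry -/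
lemma chart_cases (p : Fin 3 → ℝ) :
    (0 < ax p) ∨ (ax p = 0 ∧ 0 < p 2 ^ 2 ∧ 0 < ax (rot p)) ∨ p = 0 := by
  rcases (ax_nonneg p).eq_or_lt with h | h
  · right
    by_cases h2 : p 2 = 0
    · right
      apply Setup.sq_eq_zero
      rw [sq_eq_ax, ← h, h2]; simp
    · left
      have h3 : 0 < p 2 ^ 2 := by positivity
      refine ⟨h.symm, h3, ?_⟩
      unfold ax rot
      simp
      positivity
  · exact Or.inl h

theorem local_hyp (p : Fin 3 → ℝ) : NegCurvAt hyp p ∧ HarmAt hyp hyp id p := by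
  have hHe : ∀ q : Fin 3 → ℝ, ∀ᶠ z in 𝓝 q, hyp z = H0 D1d 0 z := fun q =>
    Filter.Eventually.of_forall fun z => by rw [H0_D1d_zero]
  have hfe : ∀ q : Fin 3 → ℝ, ∀ᶠ z in 𝓝 q, id z = z := fun q =>
    Filter.Eventually.of_forall fun z => rfl
  rcases chart_cases p with h | ⟨_, _, h⟩ | h
  · obtain ⟨y, hy, rfl⟩ := exists_Psi h
    exact local_rad D1d 0 hyp id (Λ := fun z => z) contDiff_id (pull_id _) (pull_id _) hy
      (hHe _) (hfe _)
  · obtain ⟨y, hy, hyp'⟩ := exists_Psi h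
    have e : p = rot (Psi y) := by rw [hyp', rot_rot]
    rw [e]
    exact local_rad D1d 0 hyp id rot_contDiff pull_rot_hyp (pull_rot _ _) hy (hHe _) (hfe _)
  · obtain ⟨L, hL, hLiso, hL0⟩ := exists_boost (Psi ![1, 0, 0])
    have hy : (![1, 0, 0] : Fin 3 → ℝ) ∈ liftS PR := by
      refine ⟨one_pos, ?_⟩
      show (0:ℝ) ^ 2 < 1
      norm_num
    rw [h, ← hL0]
    exact local_rad D1d 0 hyp id hL hLiso (pull_H0_D1d hLiso 0) hy (hHe _) (hfe _)

end Pool.Agent.Work.MP_0fcc57_gt
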