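import Pool.Agent.Work.MP_0fcc57_gt.Defs

/-!
# Manifold level definitions used for MP_0fcc57_gt
-/

open scoped ContDiff Manifold Topology

noncomputable section

namespace Pool.Agent.Work.MP_0fcc57_gt

/-- A smooth Riemannian metric on a smooth manifold modelled on `ℝ^n` (Mathlib's
`ContMDiffRiemannianMetric` on the tangent bundle). -/
abbrev RiemMetric (n : ℕ) (M : Type) [TopologicalSpace M] [ChartedSpace (Fin n → ℝ) M]
    [IsManifold 𝓘(ℝ, Fin n → ℝ) ∞ M] :=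
  Bundle.ContMDiffRiemannianMetric 𝓘(ℝ, Fin n → ℝ) ∞ (Fin n → ℝ)
    (fun x : M => TangentSpace 𝓘(ℝ, Fin n → ℝ) x)

section
variable {n : ℕ} {M : Type} [TopologicalSpace M] [ChartedSpace (Fin n → ℝ) M]
    [IsManifold 𝓘(ℝ, Fin n → ℝ) ∞ M]

/-- The coordinate expression `g(∂_i Ψ, ∂_j Ψ)` of a metric in a parametrisation `Ψ`. -/
def coordMetric (g : RiemMetric n M) (Ψ : (Fin n → ℝ) → M) : CoordMetric n :=
  fun y => Matrix.of fun i j =>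
    g.inner (Ψ y)
      (mfderiv 𝓘(ℝ, Fin n → ℝ) 𝓘(ℝ, Fin n → ℝ) Ψ y (Pi.single i (1 : ℝ) : Fin n → ℝ))
      (mfderiv 𝓘(ℝ, Fin n → ℝ) 𝓘(ℝ, Fin n → ℝ) Ψ y (Pi.single j (1 : ℝ) : Fin n → ℝ))

/-- `(M, g)` is negatively curved: at every point, all sectional curvatures, computed in a smooth
local parametrisation around the point, are negative. -/
def NegativelyCurved (g : RiemMetric n M) : Prop :=
  ∀ p : M, ∃ (Ψ : (Fin n → ℝ) → M) (y : Fin n → ℝ),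
    IsLocalDiffeomorphAt 𝓘(ℝ, Fin n → ℝ) 𝓘(ℝ, Fin n → ℝ) ∞ Ψ y ∧ Ψ y = p ∧
      NegAt (coordMetric g Ψ) y
end

/-- The tension field of `f : (N, h) → (M, g)` vanishes at every point, computed in smooth local
parametrisations of `N` around the point and of `M` around its image. -/
def IsHarmonic {n : ℕ} {N M : Type} [TopologicalSpace N] [ChartedSpace (Fin n → ℝ) N]
    [IsManifold 𝓘(ℝ, Fin n → ℝ) ∞ N] [TopologicalSpace M] [ChartedSpace (Fin n → ℝ) M]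
    [IsManifold 𝓘(ℝ, Fin n → ℝ) ∞ M] (h : RiemMetric n N) (g : RiemMetric n M) (f : N → M) :
    Prop :=
  ∀ p : N, ∃ (Φ : (Fin n → ℝ) → N) (Ψ : (Fin n → ℝ) → M) (F : (Fin n → ℝ) → (Fin n → ℝ))
    (y : Fin n → ℝ),
    IsLocalDiffeomorphAt 𝓘(ℝ, Fin n → ℝ) 𝓘(ℝ, Fin n → ℝ) ∞ Φ y ∧ Φ y = p ∧
    IsLocalDiffeomorphAt 𝓘(ℝ, Fin n → ℝ) 𝓘(ℝ, Fin n → ℝ) ∞ Ψ (F y) ∧
    (∃ U : Set (Fin n → ℝ), IsOpen U ∧ y ∈ U ∧ ContDiffOn ℝ ∞ F U) ∧
    (∀ᶠ z in 𝓝 y, f (Φ z) = Ψ (F z)) ∧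
    ∀ a, tension (coordMetric h Φ) (coordMetric g Ψ) F a y = 0

/-- The negated form of the problem in dimension 3: there are closed negatively curved Riemannian
3-manifolds `(N, h)`, `(M, g)` and a (smooth) harmonic homeomorphism `f : N → M` whose
differential is singular at some point. -/
def Counterexample : Prop :=
  ∃ (N M : Type) (_ : TopologicalSpace N) (_ : ChartedSpace (Fin 3 → ℝ) N)
    (_ : IsManifold 𝓘(ℝ, Fin 3 → ℝ) ∞ N) (_ : TopologicalSpace M)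
    (_ : ChartedSpace (Fin 3 → ℝ) M) (_ : IsManifold 𝓘(ℝ, Fin 3 → ℝ) ∞ M)
    (h : RiemMetric 3 N) (g : RiemMetric 3 M) (f : N ≃ₜ M),
    (T2Space N ∧ SecondCountableTopology N ∧ CompactSpace N ∧ ConnectedSpace N) ∧
    (T2Space M ∧ SecondCountableTopology M ∧ CompactSpace M ∧ ConnectedSpace M) ∧
    NegativelyCurved h ∧ NegativelyCurved g ∧
    ContMDiff 𝓘(ℝ, Fin 3 → ℝ) 𝓘(ℝ, Fin 3 → ℝ) ∞ f ∧ IsHarmonic h g f ∧
    ∃ p : N, ¬ Function.Injective (mfderiv 𝓘(ℝ, Fin 3 → ℝ) 𝓘(ℝ, Fin 3 → ℝ) f p)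

end Pool.Agent.Work.MP_0fcc57_gt
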