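import Pool.Agent.Work.MP_0fcc57_gt.CartM
import Pool.Agent.Work.MP_0fcc57_gt.Glue

/-!
# The map
-/

open scoped ContDiff Topology
open Real Set Filter

noncomputable section

namespace Pool.Agent.Work.MP_0fcc57_gt

namespace Setup
variable (T : Setup)

/-- the point is outside of the support of the perturbation -/
def OutAt (p : Fin 3 → ℝ) : Prop := T.P.Out T.S T.τ₁ (Yc p)

variable {T}

lemma out_of_lt {r x : ℝ} (h : r < T.P.r0 - T.P.e * T.S) : T.P.Out T.S T.τ₁ (r, x) := by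
  left
  have he := T.P.he
  have h1 : T.P.s (r, x) < -T.S := by
    unfold PData.s
    rw [div_lt_iff₀ he]
    simp only
    linarith
  rw [lt_abs]
  right; linarith

lemma out_of_gt {r x : ℝ} (h : T.P.r0 + T.P.e * T.S < r) : T.P.Out T.S T.τ₁ (r, x) := by
  left
  have he := T.P.he
  have h1 : T.S < T.P.s (r, x) := by
    unfold PData.s
    rw [lt_div_iff₀ he]
    simp only
    linarith
  rw [lt_abs]
  left; exact h1

lemma arsinh_le {x : ℝ} (hx : 0 ≤ x) : arsinh x ≤ x := by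
  have h1 : 0 ≤ arsinh x := Real.arsinh_nonneg_iff.mpr hx
  have h2 := Real.self_le_sinh_iff.mpr h1
  rwa [Real.sinh_arsinh] at h2

lemma out_of_small {p : Fin 3 → ℝ} (h : sq p < 2) : T.OutAt p := by
  have h1 : √(sq p) < 2 := by
    rw [Real.sqrt_lt' (by norm_num)]
    linarith
  have h2 : (Yc p).1 ≤ √(sq p) := arsinh_le (Real.sqrt_nonneg _)
  have h3 := T.hr2
  have h4 : (Yc p).1 < T.P.r0 - T.P.e * T.S := by linarith
  exact out_of_lt (x := (Yc p).2) h4

lemma out_of_axis {p : Fin 3 → ℝ} (h : sq p / 2 < p 2 ^ 2) : T.OutAt p := by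
  right
  have hu : 0 < sq p := by
    rcases (sq_nonneg' p).eq_or_lt with h0 | h0
    · rw [← h0] at h
      have : p 2 ^ 2 ≤ sq p := by rw [sq_eq_ax]; have := ax_nonneg p; linarith
      rw [← h0] at this
      linarith
    · exact h0
  have hx : 1 / 2 < (Yc p).2 ^ 2 := by
    rw [Yc_snd_sq, lt_div_iff₀ hu]; linarith
  unfold PData.τ
  have he := T.P.he
  have hq := T.P.hq
  have hT := T.hT
  rw [lt_div_iff₀ he]
  rw [div_lt_iff₀ hq] at hT
  have := mul_lt_mul_of_pos_right hx hq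
  linarith

lemma out_of_big {p : Fin 3 → ℝ} (h : T.Bd ≤ sq p) : T.OutAt p := by
  have hB := T.hB2
  have h1 : sinh (T.P.r0 + T.P.e * T.S) ^ 2 < sinh (Yc p).1 ^ 2 := by
    rw [sinh_Yc]; linarith
  have h2 : 0 ≤ (Yc p).1 := Real.arsinh_nonneg_iff.mpr (Real.sqrt_nonneg _)
  have h3 : 0 ≤ sinh (Yc p).1 := Real.sinh_nonneg_iff.mpr h2
  have h4 : sinh (T.P.r0 + T.P.e * T.S) < sinh (Yc p).1 := by
    have := abs_lt_of_sq_lt_sq h1 h3
    exact (abs_lt.mp this).2
  exact out_of_gt (x := (Yc p).2) (Real.sinh_lt_sinh.mp h4)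

lemma V_out {p : ℝ × ℝ} (h : T.P.Out T.S T.τ₁ p) : T.P.V p = p.1 :=
  (T.P.out_vals T.hHout T.hbout h 0).1

lemma Vr_ge (p : ℝ × ℝ) : 0 ≤ T.P.Vr p := by
  unfold PData.Vr
  have h : 0 ≤ T.P.τ p := by
    unfold PData.τ; have := T.P.hq; have := T.P.he; positivity
  linarith [T.hle (T.P.s p) (T.P.τ p) h]

lemma Vr_pos {p : ℝ × ℝ} (hp : p.1 ≠ T.P.r0) : 0 < T.P.Vr p := by
  refine lt_of_le_of_ne (Vr_ge p) ?_
  intro h0
  unfold PData.Vr at h0
  have h : 0 ≤ T.P.τ p := by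
    unfold PData.τ; have := T.P.hq; have := T.P.he; positivity
  have h1 := (T.heq (T.P.s p) (T.P.τ p) h (by linarith)).1
  unfold PData.s at h1
  rw [div_eq_zero_iff] at h1
  rcases h1 with h1 | h1
  · exact hp (by linarith)
  · exact T.P.he.ne' h1

lemma V_strictMono (x : ℝ) : StrictMono (fun r => T.P.V (r, x)) := by
  have hd : ∀ r, HasDerivAt (fun r => T.P.V (r, x)) (T.P.Vr (r, x)) r :=
    fun r => T.P.V_hasDerivAt_r r x
  have hc : Continuous (fun r => T.P.V (r, x)) :=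
    continuous_iff_continuousAt.mpr fun r => (hd r).continuousAt
  apply StrictMonoOn.Iic_union_Ici (a := T.P.r0)
  · apply strictMonoOn_of_deriv_pos (convex_Iic _) hc.continuousOn
    intro r hr
    rw [interior_Iic] at hr
    rw [(hd r).deriv]
    exact Vr_pos (p := (r, x)) hr.ne
  · apply strictMonoOn_of_deriv_pos (convex_Ici _) hc.continuousOn
    intro r hr
    rw [interior_Ici] at hr
    rw [(hd r).deriv]
    exact Vr_pos (p := (r, x)) (ne_of_gt hr)

lemma r0_eS : 0 < T.P.r0 - T.P.e * T.S := by linarith [T.hr2]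

lemma V_zero (x : ℝ) : T.P.V (0, x) = 0 := V_out (out_of_lt r0_eS)

lemma V_pos {r x : ℝ} (h : 0 < r) : 0 < T.P.V (r, x) := by
  have := V_strictMono (T := T) x h
  simp only [V_zero] at this
  exact this

variable (T) in
/-- the map -/
def f0 (p : Fin 3 → ℝ) : Fin 3 → ℝ := (sinh (T.P.V (Yc p)) / sinh (Yc p).1) • p

lemma sinh_Yc' (p : Fin 3 → ℝ) : sinh (Yc p).1 = √(sq p) := by
  unfold Yc; rw [Real.sinh_arsinh]

lemma sq_eq_zero {p : Fin 3 → ℝ} (h : sq p = 0) : p = 0 := by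
  rw [sq_eq] at h
  have h0 : p 0 = 0 := by nlinarith [sq_nonneg (p 0), sq_nonneg (p 1), sq_nonneg (p 2)]
  have h1 : p 1 = 0 := by nlinarith [sq_nonneg (p 0), sq_nonneg (p 1), sq_nonneg (p 2)]
  have h2 : p 2 = 0 := by nlinarith [sq_nonneg (p 0), sq_nonneg (p 1), sq_nonneg (p 2)]
  ext i; fin_cases i <;> simp [h0, h1, h2]

lemma f0_out {p : Fin 3 → ℝ} (h : T.OutAt p) : T.f0 p = p := by
  unfold f0
  rw [V_out h]
  rcases (sq_nonneg' p).eq_or_lt with h0 | h0
  · rw [sq_eq_zero h0.symm]; simp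
  · have : 0 < sinh (Yc p).1 := by rw [sinh_Yc']; exact Real.sqrt_pos.mpr h0
    rw [div_self this.ne', one_smul]

lemma f0_contDiff : ContDiff ℝ ∞ T.f0 := by
  rw [contDiff_iff_contDiffAt]
  intro p
  rcases lt_or_ge (sq p) 2 with h | h
  · have : T.f0 =ᶠ[𝓝 p] fun q => q := by
      filter_upwards [(isOpen_lt sq_contDiff.continuous continuous_const).mem_nhds h] with q hq
        using f0_out (out_of_small hq)
    exact contDiffAt_id.congr_of_eventuallyEq this
  · have hu : 0 < sq p := by linarith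
    have hY := Yc_contDiffAt hu
    unfold f0
    apply ContDiffAt.fun_smul
    · apply ContDiffAt.div
      · exact (Real.contDiff_sinh.comp T.P.V_contDiff).contDiffAt.comp p hY
      · exact (Real.contDiff_sinh.comp contDiff_fst).contDiffAt.comp p hY
      · rw [sinh_Yc']; exact (Real.sqrt_pos.mpr hu).ne'
    · exact contDiffAt_id

lemma sq_smul (c : ℝ) (p : Fin 3 → ℝ) : sq (c • p) = c ^ 2 * sq p := by
  rw [sq_eq, sq_eq]; simp; ring

lemma Yc_smul {c : ℝ} (hc : 0 < c) (p : Fin 3 → ℝ) :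
    Yc (c • p) = (arsinh (c * √(sq p)), (Yc p).2) := by
  unfold Yc
  rw [sq_smul, Real.sqrt_mul (by positivity), Real.sqrt_sq hc.le]
  simp only [Pi.smul_apply, smul_eq_mul]
  rw [mul_div_mul_left _ _ hc.ne']

lemma Yc_pos {p : Fin 3 → ℝ} (h : 0 < sq p) : 0 < (Yc p).1 :=
  Real.arsinh_pos_iff.mpr (Real.sqrt_pos.mpr h)

lemma coef_pos {p : Fin 3 → ℝ} (h : 0 < sq p) : 0 < sinh (T.P.V (Yc p)) / sinh (Yc p).1 := by
  have h1 := Yc_pos h
  have h2 : 0 < T.P.V ((Yc p).1, (Yc p).2) := V_pos h1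
  exact div_pos (Real.sinh_pos_iff.mpr h2) (Real.sinh_pos_iff.mpr h1)

lemma Yc_f0 {p : Fin 3 → ℝ} (h : 0 < sq p) : Yc (T.f0 p) = (T.P.V (Yc p), (Yc p).2) := by
  unfold f0
  rw [Yc_smul (coef_pos h), ← sinh_Yc']
  have := (Real.sinh_pos_iff.mpr (Yc_pos h)).ne'
  rw [div_mul_cancel₀ _ this, Real.arsinh_sinh]

lemma f0_zero : T.f0 0 = 0 := by unfold f0; simp

lemma f0_eq_zero {p : Fin 3 → ℝ} (h : T.f0 p = 0) : p = 0 := by
  rcases (sq_nonneg' p).eq_or_lt with h0 | h0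
  · exact sq_eq_zero h0.symm
  · unfold f0 at h
    rcases smul_eq_zero.mp h with h1 | h1
    · exact absurd h1 (coef_pos h0).ne'
    · exact h1

lemma sq_zero' : sq (0 : Fin 3 → ℝ) = 0 := by rw [sq_eq]; simp

lemma f0_injective : Function.Injective T.f0 := by
  intro p p' h
  rcases (sq_nonneg' p).eq_or_lt with h0 | h0
  · rw [sq_eq_zero h0.symm, f0_zero] at h
    rw [sq_eq_zero h0.symm, f0_eq_zero h.symm]
  rcases (sq_nonneg' p').eq_or_lt with h1 | h1
  · rw [sq_eq_zero h1.symm, f0_zero] at h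
    rw [sq_eq_zero h1.symm, f0_eq_zero h]
  have e := Yc_f0 (T := T) h0
  rw [h, Yc_f0 h1] at e
  have e2 : (Yc p').2 = (Yc p).2 := (Prod.mk.inj e).2
  have e1 : T.P.V (Yc p') = T.P.V (Yc p) := (Prod.mk.inj e).1
  have e3 : (Yc p').1 = (Yc p).1 := by
    apply (V_strictMono (T := T) (Yc p).2).injective
    show T.P.V ((Yc p').1, (Yc p).2) = T.P.V (Yc p)
    rw [← e2]
    exact e1
  have e4 : Yc p' = Yc p := Prod.ext e3 e2
  have hc := coef_pos (T := T) h0
  unfold f0 at h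
  rw [e4] at h
  exact smul_right_injective _ hc.ne' h

lemma f0_surjective : Function.Surjective T.f0 := by
  intro q
  rcases (sq_nonneg' q).eq_or_lt with h0 | h0
  · exact ⟨0, by rw [f0_zero, sq_eq_zero h0.symm]⟩
  have hR := Yc_pos h0
  set R := (Yc q).1 with hRdef
  set x := (Yc q).2 with hx
  set M := max R (T.P.r0 + T.P.e * T.S + 1) with hM
  have hc : Continuous (fun r => T.P.V (r, x)) :=
    continuous_iff_continuousAt.mpr fun r => (T.P.V_hasDerivAt_r r x).continuousAt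
  have hM0 : 0 ≤ M := hR.le.trans (le_max_left _ _)
  have hVM : T.P.V (M, x) = M := V_out (out_of_gt (by
    have := le_max_right R (T.P.r0 + T.P.e * T.S + 1)
    linarith))
  obtain ⟨r, hr, hrV⟩ := intermediate_value_Icc hM0 hc.continuousOn
    (show R ∈ Icc (T.P.V (0, x)) (T.P.V (M, x)) by
      rw [V_zero, hVM]; exact ⟨hR.le, le_max_left _ _⟩)
  simp only at hrV
  have hr0 : 0 < r := by
    rcases hr.1.eq_or_lt with h | h
    · rw [← h, V_zero] at hrV
      linarith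
    · exact h
  have hsR : 0 < sinh R := Real.sinh_pos_iff.mpr hR
  have hsr : 0 < sinh r := Real.sinh_pos_iff.mpr hr0
  have hsR' : sinh R = √(sq q) := sinh_Yc' q
  refine ⟨(sinh r / sinh R) • q, ?_⟩
  have hY : Yc ((sinh r / sinh R) • q) = (r, x) := by
    rw [Yc_smul (div_pos hsr hsR), ← hsR', div_mul_cancel₀ _ hsR.ne', Real.arsinh_sinh]
  unfold f0
  rw [hY, hrV, smul_smul]
  simp only
  have : sinh R / sinh r * (sinh r / sinh R) = 1 := by field_simp
  rw [this, one_smul]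

lemma f0_closed : IsClosedMap T.f0 := by
  intro C hC
  have hcont : Continuous sq := sq_contDiff.continuous
  have h1 : IsClosed {p : Fin 3 → ℝ | T.Bd ≤ sq p} := isClosed_le continuous_const hcont
  have h2 : IsCompact (C ∩ {p : Fin 3 → ℝ | sq p ≤ T.Bd}) := (isCompact_sq_le T.Bd).inter_left hC
  have e : T.f0 '' C = T.f0 '' (C ∩ {p | sq p ≤ T.Bd}) ∪ (C ∩ {p | T.Bd ≤ sq p}) := by
    ext q
    constructor
    · rintro ⟨p, hp, rfl⟩
      rcases le_total (sq p) T.Bd with h | h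
      · exact Or.inl ⟨p, ⟨hp, h⟩, rfl⟩
      · right
        rw [f0_out (out_of_big h)]
        exact ⟨hp, h⟩
    · rintro (⟨p, ⟨hp, _⟩, rfl⟩ | ⟨hp, h⟩)
      · exact ⟨p, hp, rfl⟩
      · exact ⟨q, hp, f0_out (out_of_big h)⟩
  rw [e]
  exact ((h2.image f0_contDiff.continuous).isClosed).union (hC.inter h1)

variable (T) in
/-- the map as a homeomorphism -/
def fH : (Fin 3 → ℝ) ≃ₜ (Fin 3 → ℝ) :=
  (Equiv.ofBijective T.f0 ⟨f0_injective, f0_surjective⟩).toHomeomorphOfContinuousClosed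
    f0_contDiff.continuous f0_closed

lemma fH_apply (p : Fin 3 → ℝ) : T.fH p = T.f0 p := rfl

/-! ### polar form -/

lemma FV_mem {y : Fin 3 → ℝ} (hy : y ∈ liftS PR) : FV T.P y ∈ liftS PR := by
  refine ⟨?_, ?_⟩
  · exact V_pos hy.1
  · exact hy.2

lemma f0_Psi {y : Fin 3 → ℝ} (hy : y ∈ liftS PR) : T.f0 (Psi y) = Psi (FV T.P y) := by
  unfold f0
  rw [Yc_Psi hy]
  have hs := (sinh_pos' hy).ne'
  ext i
  fin_cases i
  · simp [Psi, FV]; field_simp
  · simp [Psi, FV]; field_simp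
  · simp [Psi, FV]; field_simp

lemma FV_contDiff (P : PData) : ContDiff ℝ ∞ (FV P) := by
  unfold FV
  rw [contDiff_pi]
  intro i
  fin_cases i
  · exact P.V_contDiff.comp ((contDiff_apply ℝ ℝ (0 : Fin 3)).prodMk (contDiff_apply ℝ ℝ (1 : Fin 3)))
  · exact contDiff_apply ℝ ℝ (1 : Fin 3)
  · exact contDiff_apply ℝ ℝ (2 : Fin 3)

variable (T) in
/-- the singular point in polar coordinates -/
def ys : Fin 3 → ℝ := ![T.P.r0, 0, 0]

lemma ys_mem : T.ys ∈ liftS PR := by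
  refine ⟨T.P.hr0, ?_⟩
  show (0:ℝ) ^ 2 < 1
  norm_num

lemma f0_singular : ¬ Function.Injective (fderiv ℝ T.f0 (Psi T.ys)) := by
  intro hinj
  have hy := ys_mem (T := T)
  have hFy := FV_mem (T := T) hy
  have hev : (fun z => T.f0 (Psi z)) =ᶠ[𝓝 T.ys] fun z => Psi (FV T.P z) := by
    filter_upwards [(liftS_isOpen PR_isOpen).mem_nhds hy] with z hz using f0_Psi hz
  have hd0 : DifferentiableAt ℝ T.f0 (Psi T.ys) := f0_contDiff.differentiable (by simp) _
  have h1 : fderiv ℝ (fun z => T.f0 (Psi z)) T.ys = (fderiv ℝ T.f0 (Psi T.ys)).comp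
      (fderiv ℝ Psi T.ys) := fderiv_comp T.ys hd0 (Psi_diff hy)
  have hdF : DifferentiableAt ℝ (FV T.P) T.ys := (FV_contDiff T.P).differentiable (by simp) _
  have h2 : fderiv ℝ (fun z => Psi (FV T.P z)) T.ys = (fderiv ℝ Psi (FV T.P T.ys)).comp
      (fderiv ℝ (FV T.P) T.ys) := fderiv_comp T.ys (Psi_diff hFy) hdF
  have h3 : fderiv ℝ (FV T.P) T.ys (Pi.single 0 1) = 0 := by
    ext a
    rw [← jac_apply hdF]
    show pd 0 (fun z => FV T.P z a) T.ys = 0
    have hda : DifferentiableAt ℝ (fun z => FV T.P z a) T.ys := differentiableAt_pi.1 hdF a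
    apply pd_of_hasDerivAt hda
    fin_cases a
    · have hV := T.P.V_hasDerivAt_r T.P.r0 0
      have e : T.P.Vr (T.P.r0, 0) = 0 := by
        unfold PData.Vr PData.s PData.τ
        simp only [sub_self, zero_div]
        rw [T.hH0]
        simp [T.hb0]
      rw [e] at hV
      simpa [FV, ys] using hV
    · simpa [FV, ys] using hasDerivAt_const T.P.r0 (0:ℝ)
    · simpa [FV, ys] using hasDerivAt_const T.P.r0 (0:ℝ)
  have h4 : fderiv ℝ T.f0 (Psi T.ys) (fderiv ℝ Psi T.ys (Pi.single 0 1)) = 0 := by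
    rw [← ContinuousLinearMap.comp_apply, ← h1, hev.fderiv_eq, h2, ContinuousLinearMap.comp_apply,
      h3, map_zero]
  have h5 : fderiv ℝ Psi T.ys (Pi.single 0 1) = 0 := hinj (by rw [h4, map_zero])
  have h6 : (Pi.single 0 1 : Fin 3 → ℝ) = 0 := (Psi_bij hy).1 (by rw [h5, map_zero])
  have h7 := congrFun h6 0
  simp at h7

end Setup

end Pool.Agent.Work.MP_0fcc57_gt
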