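import Pool.Agent.Work.MP_0fcc57_gt.Lift

/-!
# The explicit exact solution

All functions depend on `(r, x)`; `i` stands for `m / m_r`.
-/

open scoped ContDiff Topology
open Real Set Filter

noncomputable section

namespace Pool.Agent.Work.MP_0fcc57_gt

/-- The data of a perturbation. -/
structure PData where
  H : ℝ → ℝ
  b : ℝ → ℝ
  Bt : ℝ → ℝ
  r0 : ℝ
  q : ℝ
  e : ℝ
  hH : ContDiff ℝ ∞ H
  hb : ContDiff ℝ ∞ b
  hBt : ∀ τ, HasDerivAt Bt (b τ) τ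
  hr0 : 0 < r0
  hq : 0 < q
  he : 0 < e

namespace PData
variable (P : PData)

/-- scaled radial variable -/
def s (p : ℝ × ℝ) : ℝ := (p.1 - P.r0) / P.e
/-- scaled angular variable -/
def τ (p : ℝ × ℝ) : ℝ := p.2 ^ 2 * P.q / P.e

/-- the radial component of the map -/
def V (p : ℝ × ℝ) : ℝ := p.1 - P.e * P.H (P.s p) * P.b (P.τ p)
/-- `∂V/∂T`, `T = x²` -/
def VT (p : ℝ × ℝ) : ℝ := -(P.q * P.H (P.s p) * deriv P.b (P.τ p))
/-- `∂²V/∂T²` -/
def VTT (p : ℝ × ℝ) : ℝ := -(P.q ^ 2 / P.e * P.H (P.s p) * deriv (deriv P.b) (P.τ p))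
/-- numerator `N` -/
def N (i : ℝ) (p : ℝ × ℝ) : ℝ := 1 - p.2 ^ 2 + P.e / P.q * deriv P.H (P.s p) * P.Bt (P.τ p)
  + i / P.q * deriv (deriv P.H) (P.s p) * P.Bt (P.τ p)
/-- `∂N/∂T` -/
def NT (i : ℝ) (p : ℝ × ℝ) : ℝ := -1 + deriv P.H (P.s p) * P.b (P.τ p)
  + i / P.e * deriv (deriv P.H) (P.s p) * P.b (P.τ p)
/-- `sinh V cosh V + 2 T V_T` -/
def R (p : ℝ × ℝ) : ℝ := sinh (P.V p) * cosh (P.V p) + 2 * p.2 ^ 2 * P.VT p
/-- `∂R/∂T` -/
def RT (p : ℝ × ℝ) : ℝ := (cosh (P.V p) ^ 2 + sinh (P.V p) ^ 2) * P.VT p + 2 * P.VT p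
  + 2 * p.2 ^ 2 * P.VTT p
/-- numerator of `c` -/
def G (i : ℝ) (p : ℝ × ℝ) : ℝ := -(P.N i p / (2 * (1 - p.2 ^ 2))) - P.NT i p
  - 2 * P.N i p * (cosh (P.V p) / sinh (P.V p)) * P.VT p + P.N i p * P.RT p / P.R p
/-- `b / m_r` -/
def bh (i : ℝ) (p : ℝ × ℝ) : ℝ := P.N i p / (2 * P.R p)
/-- `c / m_r` -/
def ch (i : ℝ) (p : ℝ × ℝ) : ℝ := P.G i p / ((1 - p.2 ^ 2) * P.R p)

/-- Positivity conditions at a point. -/
def Good (i : ℝ) (p : ℝ × ℝ) : Prop :=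
  p.2 ^ 2 < 1 ∧ 0 < P.V p ∧ 0 < P.R p ∧ 0 < P.N i p ∧ 0 < P.G i p

lemma b_diff : Differentiable ℝ P.b := P.hb.differentiable (by simp)
lemma b1_contDiff : ContDiff ℝ ∞ (deriv P.b) := (contDiff_infty_iff_deriv.mp P.hb).2
lemma b2_contDiff : ContDiff ℝ ∞ (deriv (deriv P.b)) := (contDiff_infty_iff_deriv.mp P.b1_contDiff).2
lemma H1_contDiff : ContDiff ℝ ∞ (deriv P.H) := (contDiff_infty_iff_deriv.mp P.hH).2
lemma H2_contDiff : ContDiff ℝ ∞ (deriv (deriv P.H)) := (contDiff_infty_iff_deriv.mp P.H1_contDiff).2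
lemma Bt_contDiff : ContDiff ℝ ∞ P.Bt := by
  rw [contDiff_infty_iff_deriv]
  have : deriv P.Bt = P.b := funext fun τ => (P.hBt τ).deriv
  rw [this]
  exact ⟨fun τ => (P.hBt τ).differentiableAt, P.hb⟩

lemma s_contDiff : ContDiff ℝ ∞ P.s := (contDiff_fst.sub contDiff_const).div_const _
lemma τ_contDiff : ContDiff ℝ ∞ P.τ := ((contDiff_snd.pow 2).mul contDiff_const).div_const _

lemma V_contDiff : ContDiff ℝ ∞ P.V :=
  contDiff_fst.sub ((contDiff_const.mul (P.hH.comp P.s_contDiff)).mul (P.hb.comp P.τ_contDiff))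
lemma VT_contDiff : ContDiff ℝ ∞ P.VT :=
  ((contDiff_const.mul (P.hH.comp P.s_contDiff)).mul (P.b1_contDiff.comp P.τ_contDiff)).neg
lemma VTT_contDiff : ContDiff ℝ ∞ P.VTT :=
  ((contDiff_const.mul (P.hH.comp P.s_contDiff)).mul (P.b2_contDiff.comp P.τ_contDiff)).neg
lemma sinhV_contDiff : ContDiff ℝ ∞ (fun p => sinh (P.V p)) := Real.contDiff_sinh.comp P.V_contDiff
lemma coshV_contDiff : ContDiff ℝ ∞ (fun p => cosh (P.V p)) := Real.contDiff_cosh.comp P.V_contDiff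
lemma R_contDiff : ContDiff ℝ ∞ P.R :=
  (P.sinhV_contDiff.mul P.coshV_contDiff).add
    ((contDiff_const.mul (contDiff_snd.pow 2)).mul P.VT_contDiff)
lemma RT_contDiff : ContDiff ℝ ∞ P.RT :=
  ((((P.coshV_contDiff.pow 2).add (P.sinhV_contDiff.pow 2)).mul P.VT_contDiff).add
    (contDiff_const.mul P.VT_contDiff)).add
    ((contDiff_const.mul (contDiff_snd.pow 2)).mul P.VTT_contDiff)

/-! ### x-derivatives -/

lemma τ_hasDerivAt_x (r x : ℝ) : HasDerivAt (fun t => P.τ (r, t)) (2 * x * P.q / P.e) x := by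
  unfold τ
  exact ((((hasDerivAt_id' x).fun_pow 2).mul_const P.q).div_const P.e).congr_deriv (by simp)

lemma s_x (r x t : ℝ) : P.s (r, t) = P.s (r, x) := rfl

lemma V_hasDerivAt_x (r x : ℝ) : HasDerivAt (fun t => P.V (r, t)) (2 * x * P.VT (r, x)) x := by
  have h1 := ((P.b_diff (P.τ (r, x))).hasDerivAt).comp x (P.τ_hasDerivAt_x r x)
  have h2 := (h1.const_mul (P.e * P.H (P.s (r, x)))).const_sub r
  refine h2.congr_deriv ?_
  unfold VT
  have := P.he.ne'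
  field_simp

lemma VT_hasDerivAt_x (r x : ℝ) : HasDerivAt (fun t => P.VT (r, t)) (2 * x * P.VTT (r, x)) x := by
  have hb1 : Differentiable ℝ (deriv P.b) := P.b1_contDiff.differentiable (by simp)
  have h1 := ((hb1 (P.τ (r, x))).hasDerivAt).comp x (P.τ_hasDerivAt_x r x)
  have h2 := (h1.const_mul (P.q * P.H (P.s (r, x)))).fun_neg
  refine h2.congr_deriv ?_
  unfold VTT
  have := P.he.ne'
  field_simp

lemma N_hasDerivAt_x (i r x : ℝ) :
    HasDerivAt (fun t => P.N i (r, t)) (2 * x * P.NT i (r, x)) x := by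
  have h1 := (P.hBt (P.τ (r, x))).comp x (P.τ_hasDerivAt_x r x)
  have h2 := ((((hasDerivAt_id' x).fun_pow 2).const_sub 1).fun_add
    (h1.const_mul (P.e / P.q * deriv P.H (P.s (r, x))))).fun_add
    (h1.const_mul (i / P.q * deriv (deriv P.H) (P.s (r, x))))
  refine h2.congr_deriv ?_
  unfold NT
  have := P.he.ne'
  have := P.hq.ne'
  field_simp
  ring

lemma R_hasDerivAt_x (r x : ℝ) : HasDerivAt (fun t => P.R (r, t)) (2 * x * P.RT (r, x)) x := by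
  have hs := (P.V_hasDerivAt_x r x).sinh
  have hc := (P.V_hasDerivAt_x r x).cosh
  have h1 := (hs.fun_mul hc).fun_add
    ((((hasDerivAt_id' x).fun_pow 2).const_mul 2).fun_mul (P.VT_hasDerivAt_x r x))
  refine h1.congr_deriv ?_
  unfold RT
  simp
  ring

/-- `∂bh/∂T` -/
def bhT (i : ℝ) (p : ℝ × ℝ) : ℝ := P.NT i p / (2 * P.R p) - P.N i p * P.RT p / (2 * P.R p ^ 2)

lemma bh_hasDerivAt_x (i r x : ℝ) (hR : P.R (r, x) ≠ 0) :
    HasDerivAt (fun t => P.bh i (r, t)) (2 * x * P.bhT i (r, x)) x := by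
  have h1 := (P.N_hasDerivAt_x i r x).fun_div ((P.R_hasDerivAt_x r x).const_mul 2)
    (mul_ne_zero two_ne_zero hR)
  refine h1.congr_deriv ?_
  unfold bhT
  field_simp

/-! ### r-derivatives of `V` -/

lemma s_hasDerivAt_r (r x : ℝ) : HasDerivAt (fun t => P.s (t, x)) (1 / P.e) r :=
  ((hasDerivAt_id' r).sub_const P.r0).div_const P.e

/-- `∂V/∂r` -/
def Vr (p : ℝ × ℝ) : ℝ := 1 - deriv P.H (P.s p) * P.b (P.τ p)
/-- `∂²V/∂r²` -/
def Vrr (p : ℝ × ℝ) : ℝ := -(1 / P.e * deriv (deriv P.H) (P.s p) * P.b (P.τ p))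

lemma V_hasDerivAt_r (r x : ℝ) : HasDerivAt (fun t => P.V (t, x)) (P.Vr (r, x)) r := by
  have hH : Differentiable ℝ P.H := P.hH.differentiable (by simp)
  have h1 := ((hH (P.s (r, x))).hasDerivAt).comp r (P.s_hasDerivAt_r r x)
  have h2 := (hasDerivAt_id' r).fun_sub ((h1.const_mul P.e).mul_const (P.b (P.τ (r, x))))
  refine h2.congr_deriv ?_
  unfold Vr
  have := P.he.ne'
  field_simp

lemma Vr_hasDerivAt_r (r x : ℝ) : HasDerivAt (fun t => P.Vr (t, x)) (P.Vrr (r, x)) r := by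
  have hH : Differentiable ℝ (deriv P.H) := P.H1_contDiff.differentiable (by simp)
  have h1 := ((hH (P.s (r, x))).hasDerivAt).comp r (P.s_hasDerivAt_r r x)
  have h2 := (h1.mul_const (P.b (P.τ (r, x)))).const_sub 1
  refine h2.congr_deriv ?_
  unfold Vrr
  have := P.he.ne'
  field_simp

lemma NT_eq (i : ℝ) (p : ℝ × ℝ) : P.NT i p = -(P.Vr p + i * P.Vrr p) := by
  unfold NT Vr Vrr
  have := P.he.ne'
  field_simp
  ring

/-! ### The two equations -/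

/-- first equation (divided by `m_r`) -/
lemma eq1 (i r x : ℝ) (hg : P.Good i (r, x)) :
    P.Vr (r, x) + i * P.Vrr (r, x) + (2 * P.bh i (r, x) * P.VT (r, x)
      + 4 * x ^ 2 * (P.bhT i (r, x) * P.VT (r, x) + P.bh i (r, x) * P.VTT (r, x)))
    = sinh (P.V (r, x)) * cosh (P.V (r, x)) *
      (P.bh i (r, x) / (1 - x ^ 2) + P.ch i (r, x) * (1 - x ^ 2)) := by
  obtain ⟨hx, hV, hR, hN, hG⟩ := hg
  simp only at hx
  have hx' : 1 - x ^ 2 ≠ 0 := by linarith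
  have hS : 0 < sinh (P.V (r, x)) := Real.sinh_pos_iff.mpr hV
  have hC : cosh (P.V (r, x)) ^ 2 = 1 + sinh (P.V (r, x)) ^ 2 := Real.cosh_sq' _
  have hR' : P.R (r, x) = sinh (P.V (r, x)) * cosh (P.V (r, x)) + 2 * x ^ 2 * P.VT (r, x) := rfl
  have hRT : P.RT (r, x) = (cosh (P.V (r, x)) ^ 2 + sinh (P.V (r, x)) ^ 2) * P.VT (r, x)
    + 2 * P.VT (r, x) + 2 * x ^ 2 * P.VTT (r, x) := rfl
  have hNT := P.NT_eq i (r, x)
  have e1 : P.Vr (r, x) + i * P.Vrr (r, x) = - P.NT i (r, x) := by rw [hNT]; ring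
  rw [e1]
  unfold bh bhT ch G
  simp only
  set N := P.N i (r, x)
  set NT := P.NT i (r, x)
  set R := P.R (r, x)
  set RT := P.RT (r, x)
  set VT := P.VT (r, x)
  set VTT := P.VTT (r, x)
  set S := sinh (P.V (r, x))
  set C := cosh (P.V (r, x))
  have hRne : R ≠ 0 := hR.ne'
  have hSne : S ≠ 0 := hS.ne'
  -- solve for x² VT
  have e2 : 2 * x ^ 2 * VT = R - S * C := by rw [hR']; ring
  have e3 : 2 * x ^ 2 * VTT = RT - (C ^ 2 + S ^ 2) * VT - 2 * VT := by rw [hRT]; ring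
  have lhs : -NT + (2 * (N / (2 * R)) * VT + 4 * x ^ 2 * ((NT / (2 * R) - N * RT / (2 * R ^ 2)) * VT
      + N / (2 * R) * VTT)) = -NT + N / R * VT + (NT / R - N * RT / R ^ 2) * (2 * x ^ 2 * VT)
      + N / R * (2 * x ^ 2 * VTT) := by
    field_simp
    ring
  rw [lhs, e2, e3]
  field_simp
  linear_combination (2 * (1 - x ^ 2) * N * R * VT) * hC

/-- second equation (divided by `2 x m_r`) -/
lemma eq2 (i r x : ℝ) (hg : P.Good i (r, x)) :
    (2 * P.bhT i (r, x) * sinh (P.V (r, x)) ^ 2 +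
      4 * P.bh i (r, x) * sinh (P.V (r, x)) * cosh (P.V (r, x)) * P.VT (r, x)) / (1 - x ^ 2)
      + 2 * P.bh i (r, x) * sinh (P.V (r, x)) ^ 2 / (1 - x ^ 2) ^ 2
    = sinh (P.V (r, x)) ^ 2 * (P.bh i (r, x) / (1 - x ^ 2) ^ 2 - P.ch i (r, x)) := by
  obtain ⟨hx, hV, hR, hN, hG⟩ := hg
  simp only at hx
  have hx' : 1 - x ^ 2 ≠ 0 := by linarith
  have hS : 0 < sinh (P.V (r, x)) := Real.sinh_pos_iff.mpr hV
  unfold bh bhT ch G
  simp only
  set N := P.N i (r, x)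
  set NT := P.NT i (r, x)
  set R := P.R (r, x)
  set RT := P.RT (r, x)
  set VT := P.VT (r, x)
  set S := sinh (P.V (r, x))
  set C := cosh (P.V (r, x))
  have hRne : R ≠ 0 := hR.ne'
  have hSne : S ≠ 0 := hS.ne'
  field_simp
  ring

end PData

end Pool.Agent.Work.MP_0fcc57_gt
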