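import Pool.Agent.Work.MP_0fcc57_gt.Pert

/-!
# Smoothness of the explicit solution
-/

open scoped ContDiff Topology
open Real Set Filter

noncomputable section

namespace Pool.Agent.Work.MP_0fcc57_gt

namespace PData
variable (P : PData)
variable {E : Type*} [NormedAddCommGroup E] [NormedSpace ℝ E] {O : Set E} {i : E → ℝ}
  {pr : E → ℝ × ℝ}

/-- the open set where everything is positive -/
def GoodSet (O : Set E) (i : E → ℝ) (pr : E → ℝ × ℝ) : Set E := {ξ | ξ ∈ O ∧ P.Good (i ξ) (pr ξ)}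

section
variable (hi : ContDiffOn ℝ ∞ i O) (hpr : ContDiffOn ℝ ∞ pr O)
include hi hpr

lemma N_smooth : ContDiffOn ℝ ∞ (fun ξ => P.N (i ξ) (pr ξ)) O := by
  unfold N
  have h1 : ContDiffOn ℝ ∞ (fun ξ => deriv P.H (P.s (pr ξ))) O :=
    (P.H1_contDiff.comp P.s_contDiff).comp_contDiffOn hpr
  have h2 : ContDiffOn ℝ ∞ (fun ξ => deriv (deriv P.H) (P.s (pr ξ))) O :=
    (P.H2_contDiff.comp P.s_contDiff).comp_contDiffOn hpr
  have h3 : ContDiffOn ℝ ∞ (fun ξ => P.Bt (P.τ (pr ξ))) O :=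
    (P.Bt_contDiff.comp P.τ_contDiff).comp_contDiffOn hpr
  have h4 : ContDiffOn ℝ ∞ (fun ξ => (pr ξ).2) O := contDiff_snd.comp_contDiffOn hpr
  exact ((contDiffOn_const.sub (h4.pow 2)).add ((contDiffOn_const.mul h1).mul h3)).add
    (((hi.div_const _).mul h2).mul h3)

lemma NT_smooth : ContDiffOn ℝ ∞ (fun ξ => P.NT (i ξ) (pr ξ)) O := by
  unfold NT
  have h1 : ContDiffOn ℝ ∞ (fun ξ => deriv P.H (P.s (pr ξ))) O :=
    (P.H1_contDiff.comp P.s_contDiff).comp_contDiffOn hpr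
  have h2 : ContDiffOn ℝ ∞ (fun ξ => deriv (deriv P.H) (P.s (pr ξ))) O :=
    (P.H2_contDiff.comp P.s_contDiff).comp_contDiffOn hpr
  have h3 : ContDiffOn ℝ ∞ (fun ξ => P.b (P.τ (pr ξ))) O :=
    (P.hb.comp P.τ_contDiff).comp_contDiffOn hpr
  exact (contDiffOn_const.add (h1.mul h3)).add (((hi.div_const _).mul h2).mul h3)

lemma goodSet1_isOpen (hO : IsOpen O) :
    IsOpen {ξ | ξ ∈ O ∧ ((pr ξ).2 ^ 2 < 1 ∧ 0 < P.V (pr ξ) ∧ 0 < P.R (pr ξ) ∧
      0 < P.N (i ξ) (pr ξ))} := by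
  have c4 : ContinuousOn (fun ξ => (pr ξ).2 ^ 2) O :=
    ((contDiff_snd.pow 2).comp_contDiffOn hpr).continuousOn
  have cV : ContinuousOn (fun ξ => P.V (pr ξ)) O := (P.V_contDiff.comp_contDiffOn hpr).continuousOn
  have cR : ContinuousOn (fun ξ => P.R (pr ξ)) O := (P.R_contDiff.comp_contDiffOn hpr).continuousOn
  have cN : ContinuousOn (fun ξ => P.N (i ξ) (pr ξ)) O := (P.N_smooth hi hpr).continuousOn
  have o1 := c4.isOpen_inter_preimage hO (isOpen_Iio (a := (1:ℝ)))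
  have o2 := cV.isOpen_inter_preimage hO (isOpen_Ioi (a := (0:ℝ)))
  have o3 := cR.isOpen_inter_preimage hO (isOpen_Ioi (a := (0:ℝ)))
  have o4 := cN.isOpen_inter_preimage hO (isOpen_Ioi (a := (0:ℝ)))
  convert ((o1.inter o2).inter o3).inter o4 using 1
  ext ξ
  simp only [mem_setOf_eq, mem_inter_iff, mem_preimage, mem_Iio, mem_Ioi]
  tauto

lemma G_smooth : ContDiffOn ℝ ∞ (fun ξ => P.G (i ξ) (pr ξ))
    {ξ | ξ ∈ O ∧ ((pr ξ).2 ^ 2 < 1 ∧ 0 < P.V (pr ξ) ∧ 0 < P.R (pr ξ) ∧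
      0 < P.N (i ξ) (pr ξ))} := by
  set Q := {ξ | ξ ∈ O ∧ ((pr ξ).2 ^ 2 < 1 ∧ 0 < P.V (pr ξ) ∧ 0 < P.R (pr ξ) ∧
      0 < P.N (i ξ) (pr ξ))} with hQ
  have hsub : Q ⊆ O := fun ξ h => h.1
  have hpr' := hpr.mono hsub
  have hN := (P.N_smooth hi hpr).mono hsub
  have hNT := (P.NT_smooth hi hpr).mono hsub
  have hx : ContDiffOn ℝ ∞ (fun ξ => 1 - (pr ξ).2 ^ 2) Q :=
    contDiffOn_const.sub ((contDiff_snd.pow 2).comp_contDiffOn hpr')
  have hS := P.sinhV_contDiff.comp_contDiffOn hpr'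
  have hC := P.coshV_contDiff.comp_contDiffOn hpr'
  have hVT := P.VT_contDiff.comp_contDiffOn hpr'
  have hRT := P.RT_contDiff.comp_contDiffOn hpr'
  have hR := P.R_contDiff.comp_contDiffOn hpr'
  unfold G
  apply ContDiffOn.add
  · apply ContDiffOn.sub
    · apply ContDiffOn.sub
      · apply ContDiffOn.neg
        apply ContDiffOn.div hN (contDiffOn_const.mul hx)
        intro ξ h
        have := h.2.1
        have : 1 - (pr ξ).2 ^ 2 ≠ 0 := by linarith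
        exact mul_ne_zero two_ne_zero this
      · exact hNT
    · apply ContDiffOn.mul _ hVT
      apply ContDiffOn.mul (contDiffOn_const.mul hN)
      apply ContDiffOn.div hC hS
      intro ξ h
      exact (Real.sinh_pos_iff.mpr h.2.2.1).ne'
  · apply ContDiffOn.div (hN.mul hRT) hR
    intro ξ h
    exact h.2.2.2.1.ne'

lemma goodSet_isOpen (hO : IsOpen O) : IsOpen (P.GoodSet O i pr) := by
  have o1 := P.goodSet1_isOpen hi hpr hO
  have o2 := (P.G_smooth hi hpr).continuousOn.isOpen_inter_preimage o1 (isOpen_Ioi (a := (0:ℝ)))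
  convert o2 using 1
  ext ξ
  unfold GoodSet Good
  simp only [mem_setOf_eq, mem_inter_iff, mem_preimage, mem_Ioi]
  tauto

lemma goodSet_sub : P.GoodSet O i pr ⊆ {ξ | ξ ∈ O ∧ ((pr ξ).2 ^ 2 < 1 ∧ 0 < P.V (pr ξ) ∧
    0 < P.R (pr ξ) ∧ 0 < P.N (i ξ) (pr ξ))} := by
  intro ξ h
  obtain ⟨h1, h2, h3, h4, h5, _⟩ := h
  exact ⟨h1, h2, h3, h4, h5⟩

lemma bh_smooth : ContDiffOn ℝ ∞ (fun ξ => P.bh (i ξ) (pr ξ)) (P.GoodSet O i pr) := by
  unfold bh
  have hsub : P.GoodSet O i pr ⊆ O := fun ξ h => h.1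
  apply ContDiffOn.div ((P.N_smooth hi hpr).mono hsub)
    (contDiffOn_const.mul (P.R_contDiff.comp_contDiffOn (hpr.mono hsub)))
  intro ξ h
  exact mul_ne_zero two_ne_zero h.2.2.2.1.ne'

lemma ch_smooth : ContDiffOn ℝ ∞ (fun ξ => P.ch (i ξ) (pr ξ)) (P.GoodSet O i pr) := by
  unfold ch
  have hsub : P.GoodSet O i pr ⊆ O := fun ξ h => h.1
  apply ContDiffOn.div ((P.G_smooth hi hpr).mono (P.goodSet_sub hi hpr))
  · apply ContDiffOn.mul
    · exact contDiffOn_const.sub ((contDiff_snd.pow 2).comp_contDiffOn (hpr.mono hsub))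
    · exact P.R_contDiff.comp_contDiffOn (hpr.mono hsub)
  · intro ξ h
    have h1 := h.2.1
    have h2 : 1 - (pr ξ).2 ^ 2 ≠ 0 := by linarith
    exact mul_ne_zero h2 h.2.2.2.1.ne'

lemma lb_smooth : ContDiffOn ℝ ∞ (fun ξ => log (P.bh (i ξ) (pr ξ))) (P.GoodSet O i pr) := by
  apply (P.bh_smooth hi hpr).log
  intro ξ h
  obtain ⟨_, _, _, h4, h5, _⟩ := h
  unfold bh
  exact (div_pos h5 (by linarith)).ne'

lemma lc_smooth : ContDiffOn ℝ ∞ (fun ξ => log (P.ch (i ξ) (pr ξ))) (P.GoodSet O i pr) := by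
  apply (P.ch_smooth hi hpr).log
  intro ξ h
  obtain ⟨_, h2, _, h4, h5, h6⟩ := h
  unfold ch
  exact (div_pos h6 (mul_pos (by linarith) h4)).ne'

end

lemma bh_pos {i : ℝ} {p : ℝ × ℝ} (h : P.Good i p) : 0 < P.bh i p := by
  obtain ⟨_, _, h4, h5, _⟩ := h
  exact div_pos h5 (by linarith)

lemma ch_pos {i : ℝ} {p : ℝ × ℝ} (h : P.Good i p) : 0 < P.ch i p := by
  obtain ⟨h2, _, h4, h5, h6⟩ := h
  exact div_pos h6 (mul_pos (by linarith) h4)

end PData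

end Pool.Agent.Work.MP_0fcc57_gt
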