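import Pool.Agent.Work.MP_0fcc57_gt.CurvLog
import Pool.Agent.Work.MP_0fcc57_gt.PertS

/-!
# The limit `δ → 0` for the explicit solution
-/

open scoped ContDiff Topology
open Real Set Filter

noncomputable section

namespace Pool.Agent.Work.MP_0fcc57_gt

namespace PData
variable (P : PData)

/-- the functions `log b`, `log c` on the `(δ, (r, x))`-space -/
def fB (ν : ℝ → ℝ) (ξ : ℝ × ℝ × ℝ) : ℝ := log (P.bh (ii ν ξ) ξ.2)
def fC (ν : ℝ → ℝ) (ξ : ℝ × ℝ × ℝ) : ℝ := log (P.ch (ii ν ξ) ξ.2)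

/-- the open domain -/
def Om (rm rp : ℝ) (ν : ℝ → ℝ) : Set (ℝ × ℝ × ℝ) :=
  P.GoodSet {ξ : ℝ × ℝ × ℝ | ξ.2.1 ∈ Ioo rm rp} (ii ν) Prod.snd

lemma ii_contDiff {ν : ℝ → ℝ} (hν : ContDiff ℝ ∞ ν) : ContDiff ℝ ∞ (ii ν) :=
  contDiff_fst.mul (hν.comp (contDiff_fst.comp contDiff_snd))

lemma strip_open (rm rp : ℝ) : IsOpen {ξ : ℝ × ℝ × ℝ | ξ.2.1 ∈ Ioo rm rp} :=
  isOpen_Ioo.preimage (continuous_fst.comp continuous_snd)

lemma Om_isOpen (rm rp : ℝ) {ν : ℝ → ℝ} (hν : ContDiff ℝ ∞ ν) : IsOpen (P.Om rm rp ν) :=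
  P.goodSet_isOpen (ii_contDiff hν).contDiffOn contDiff_snd.contDiffOn (strip_open rm rp)

lemma fB_smooth (rm rp : ℝ) {ν : ℝ → ℝ} (hν : ContDiff ℝ ∞ ν) :
    ContDiffOn ℝ ∞ (P.fB ν) (P.Om rm rp ν) :=
  P.lb_smooth (ii_contDiff hν).contDiffOn contDiff_snd.contDiffOn
lemma fC_smooth (rm rp : ℝ) {ν : ℝ → ℝ} (hν : ContDiff ℝ ∞ ν) :
    ContDiffOn ℝ ∞ (P.fC ν) (P.Om rm rp ν) :=
  P.lc_smooth (ii_contDiff hν).contDiffOn contDiff_snd.contDiffOn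

/-- limit functions -/
def B0 (p : ℝ × ℝ) : ℝ := log (P.bh 0 p)
def C0 (p : ℝ × ℝ) : ℝ := log (P.ch 0 p)

/-- limit domain -/
def U0 (rm rp : ℝ) : Set (ℝ × ℝ) :=
  P.GoodSet {p : ℝ × ℝ | p.1 ∈ Ioo rm rp} (fun _ => 0) id

lemma U0_isOpen (rm rp : ℝ) : IsOpen (P.U0 rm rp) :=
  P.goodSet_isOpen contDiffOn_const contDiffOn_id (isOpen_Ioo.preimage continuous_fst)
lemma B0_smooth (rm rp : ℝ) : ContDiffOn ℝ ∞ P.B0 (P.U0 rm rp) :=
  P.lb_smooth contDiffOn_const contDiffOn_id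
lemma C0_smooth (rm rp : ℝ) : ContDiffOn ℝ ∞ P.C0 (P.U0 rm rp) :=
  P.lc_smooth contDiffOn_const contDiffOn_id

lemma slice_fB (ν : ℝ → ℝ) : slice (P.fB ν) 0 = P.B0 := by
  funext p; simp [slice, fB, B0, ii]
lemma slice_fC (ν : ℝ → ℝ) : slice (P.fC ν) 0 = P.C0 := by
  funext p; simp [slice, fC, C0, ii]
lemma slice_Om (rm rp : ℝ) (ν : ℝ → ℝ) : sliceS (P.Om rm rp ν) 0 = P.U0 rm rp := by
  ext p; simp [sliceS, Om, U0, GoodSet, ii]

/-- three functions to be bounded -/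
def g1 (p : ℝ × ℝ) : ℝ := -(1 / 2 * D1 P.B0 p) + exp (P.B0 p) *
  (1 / 2 * (D2 (D2 P.B0) p + D2 (D2 P.C0) p) + 1 / 4 * (D2 P.B0 p + D2 P.C0 p) * D2 P.B0 p)
def g2 (p : ℝ × ℝ) : ℝ := -(1 / 2 * D1 P.C0 p)
  + 1 / 4 * exp (P.B0 p) * (D2 P.B0 p + D2 P.C0 p) * D2 P.B0 p
def g3 (p : ℝ × ℝ) : ℝ := exp (P.B0 p) * (1 / 4 * (D2 P.B0 p + D2 P.C0 p) ^ 2)

/-- The main statement: for a profile `ν` decaying fast enough, the curvature conditions hold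
for all small `δ`. -/
theorem pertD {rm rp : ℝ} {K : Set (ℝ × ℝ)} (hK : IsCompact K) (hKU : K ⊆ P.U0 rm rp) :
    ∃ Λ₀ : ℝ, ∀ ν : ℝ → ℝ, ContDiff ℝ ∞ ν → (∀ r ∈ Ioo rm rp, 0 < ν r) →
      (∀ p ∈ K, Λ₀ ≤ lam ν p.1) →
      ∀ᶠ δ in 𝓝 (0:ℝ), ∀ p ∈ K, ((δ, p) ∈ P.Om rm rp ν ∧ 0 < Kc ν (P.fB ν) (P.fC ν) (δ, p) ∧
        0 < Hrrc ν (P.fB ν) (P.fC ν) (δ, p) ∧
        Hrxc ν (P.fB ν) (P.fC ν) (δ, p) ^ 2 <
          Hrrc ν (P.fB ν) (P.fC ν) (δ, p) * Hxxc ν (P.fB ν) (P.fC ν) (δ, p)) := by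
  have hU := P.U0_isOpen rm rp
  have hB := P.B0_smooth rm rp
  have hC := P.C0_smooth rm rp
  have cB : ContinuousOn P.B0 K := hB.continuousOn.mono hKU
  have cB1 : ContinuousOn (D1 P.B0) K := (D1_contDiffOn hU hB).continuousOn.mono hKU
  have cC1 : ContinuousOn (D1 P.C0) K := (D1_contDiffOn hU hC).continuousOn.mono hKU
  have cB2 : ContinuousOn (D2 P.B0) K := (D2_contDiffOn hU hB).continuousOn.mono hKU
  have cC2 : ContinuousOn (D2 P.C0) K := (D2_contDiffOn hU hC).continuousOn.mono hKU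
  have cB22 : ContinuousOn (D2 (D2 P.B0)) K :=
    (D2_contDiffOn hU (D2_contDiffOn hU hB)).continuousOn.mono hKU
  have cC22 : ContinuousOn (D2 (D2 P.C0)) K :=
    (D2_contDiffOn hU (D2_contDiffOn hU hC)).continuousOn.mono hKU
  have cE : ContinuousOn (fun p => exp (P.B0 p)) K := cB.rexp
  have k : ∀ a : ℝ, ContinuousOn (fun _ : ℝ × ℝ => a) K := fun _ => continuousOn_const
  have c1 : ContinuousOn P.g1 K := (((k _).mul cB1).neg).add
    (cE.mul (((k _).mul (cB22.add cC22)).add (((k _).mul (cB2.add cC2)).mul cB2)))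
  have c2 : ContinuousOn P.g2 K := (((k _).mul cC1).neg).add
    ((((k _).mul cE).mul (cB2.add cC2)).mul cB2)
  have c3 : ContinuousOn P.g3 K := cE.mul ((k _).mul ((cB2.add cC2).pow 2))
  obtain ⟨A1, hA1⟩ := hK.exists_bound_of_continuousOn c1
  obtain ⟨A2, hA2⟩ := hK.exists_bound_of_continuousOn c2
  obtain ⟨A3, hA3⟩ := hK.exists_bound_of_continuousOn c3
  refine ⟨2 * (|A1| + |A2| + |A3| + 1), ?_⟩
  intro ν hν hνpos hlam
  have hΩ := P.Om_isOpen rm rp hν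
  have hfB := P.fB_smooth rm rp hν
  have hfC := P.fC_smooth rm rp hν
  have hmem : ∀ p ∈ K, ((0:ℝ), p) ∈ P.Om rm rp ν := by
    intro p hp
    have h1 : p ∈ sliceS (P.Om rm rp ν) 0 := by rw [P.slice_Om]; exact hKU hp
    exact h1
  have key : ∀ p ∈ K,
      Kc ν (P.fB ν) (P.fC ν) (0, p) = 1 / 2 * lam ν p.1 + P.g1 p ∧
      Hrrc ν (P.fB ν) (P.fC ν) (0, p) = 1 / 2 * lam ν p.1 + P.g2 p ∧
      Hxxc ν (P.fB ν) (P.fC ν) (0, p) = exp (-P.B0 p) ∧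
      Hrxc ν (P.fB ν) (P.fC ν) (0, p) = -(1 / 2 * (D2 P.B0 p + D2 P.C0 p)) := by
    intro p hp
    have hp0 : p ∈ sliceS (P.Om rm rp ν) 0 := hmem p hp
    have e0 : ii ν (0, p) = 0 := by simp [ii]
    have eB : P.fB ν (0, p) = P.B0 p := congrFun (P.slice_fB ν) p
    have e1 : dr (P.fB ν) (0, p) = D1 P.B0 p := by
      have := D1_slice hΩ hfB 0 hp0; rw [P.slice_fB] at this; exact this.symm
    have e2 : dr (P.fC ν) (0, p) = D1 P.C0 p := by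
      have := D1_slice hΩ hfC 0 hp0; rw [P.slice_fC] at this; exact this.symm
    have e3 : dx (P.fB ν) (0, p) = D2 P.B0 p := by
      have := D2_slice hΩ hfB 0 hp0; rw [P.slice_fB] at this; exact this.symm
    have e4 : dx (P.fC ν) (0, p) = D2 P.C0 p := by
      have := D2_slice hΩ hfC 0 hp0; rw [P.slice_fC] at this; exact this.symm
    have e5 : dx (dx (P.fB ν)) (0, p) = D2 (D2 P.B0) p := by
      have := D22_slice hΩ hfB 0 hp0; rw [P.slice_fB] at this; exact this.symm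
    have e6 : dx (dx (P.fC ν)) (0, p) = D2 (D2 P.C0) p := by
      have := D22_slice hΩ hfC 0 hp0; rw [P.slice_fC] at this; exact this.symm
    refine ⟨?_, ?_, ?_, ?_⟩
    · unfold Kc nrc g1; rw [e0, eB, e1, e3, e4, e5, e6]; ring
    · unfold Hrrc src g2; rw [e0, eB, e2, e3, e4]; ring
    · unfold Hxxc nrc src; rw [e0, eB]; ring
    · unfold Hrxc nrc src; rw [e0, e3, e4]; ring
  have hb1 : ∀ p ∈ K, -|A1| ≤ P.g1 p := fun p hp => by
    have := hA1 p hp; rw [Real.norm_eq_abs] at this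
    have := (abs_le.mp (le_trans this (le_abs_self A1))).1; exact this
  have hb2 : ∀ p ∈ K, -|A2| ≤ P.g2 p := fun p hp => by
    have := hA2 p hp; rw [Real.norm_eq_abs] at this
    have := (abs_le.mp (le_trans this (le_abs_self A2))).1; exact this
  have hb3 : ∀ p ∈ K, P.g3 p ≤ |A3| := fun p hp => by
    have := hA3 p hp; rw [Real.norm_eq_abs] at this
    have := (abs_le.mp (le_trans this (le_abs_self A3))).2; exact this
  have n1 := abs_nonneg A1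
  have n2 := abs_nonneg A2
  have n3 := abs_nonneg A3
  apply limit_cond hΩ hν (fun ξ hξ => hνpos _ hξ.1) hfB hfC hK hmem
  · intro p hp
    rw [(key p hp).1]
    linarith [hb1 p hp, hlam p hp]
  · intro p hp
    rw [(key p hp).2.1]
    linarith [hb2 p hp, hlam p hp]
  · intro p hp
    rw [(key p hp).2.1, (key p hp).2.2.1, (key p hp).2.2.2]
    have h3 : P.g3 p < 1 / 2 * lam ν p.1 + P.g2 p := by
      linarith [hb2 p hp, hlam p hp, hb3 p hp]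
    unfold g3 at h3
    have hE := Real.exp_pos (-P.B0 p)
    have hEE : exp (P.B0 p) * exp (-P.B0 p) = 1 := by rw [← Real.exp_add]; simp
    have h4 := mul_lt_mul_of_pos_right h3 hE
    calc (-(1 / 2 * (D2 P.B0 p + D2 P.C0 p))) ^ 2
        = (exp (P.B0 p) * exp (-P.B0 p)) * (1 / 4 * (D2 P.B0 p + D2 P.C0 p) ^ 2) := by
          rw [hEE]; ring
      _ = exp (P.B0 p) * (1 / 4 * (D2 P.B0 p + D2 P.C0 p) ^ 2) * exp (-P.B0 p) := by ring
      _ < _ := h4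

end PData

end Pool.Agent.Work.MP_0fcc57_gt
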