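import Pool.Agent.Work.MP_0fcc57_gt.Pert

/-!
# The limit `e → 0`
-/

open scoped ContDiff Topology
open Real Set Filter

noncomputable section

namespace Pool.Agent.Work.MP_0fcc57_gt

section
variable (H b Bt : ℝ → ℝ) (r0 q : ℝ)

/-- scaled version of `V` -/
def sV (z : ℝ × ℝ × ℝ) : ℝ := r0 + z.1 * z.2.1 - z.1 * H z.2.1 * b z.2.2
/-- scaled version of `VT` -/
def sVT (z : ℝ × ℝ × ℝ) : ℝ := -(q * H z.2.1 * deriv b z.2.2)
/-- scaled version of `x² VTT` -/
def sVTT (z : ℝ × ℝ × ℝ) : ℝ := -(q * z.2.2 * H z.2.1 * deriv (deriv b) z.2.2)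
/-- scaled version of `N` -/
def sN (z : ℝ × ℝ × ℝ) : ℝ := 1 - z.1 * z.2.2 / q + z.1 / q * deriv H z.2.1 * Bt z.2.2
/-- scaled version of `NT` -/
def sNT (z : ℝ × ℝ × ℝ) : ℝ := -1 + deriv H z.2.1 * b z.2.2
/-- scaled version of `R` -/
def sR (z : ℝ × ℝ × ℝ) : ℝ := sinh (sV H b r0 z) * cosh (sV H b r0 z)
  + 2 * (z.1 * z.2.2 / q) * sVT H b q z
/-- scaled version of `RT` -/
def sRT (z : ℝ × ℝ × ℝ) : ℝ := (cosh (sV H b r0 z) ^ 2 + sinh (sV H b r0 z) ^ 2) * sVT H b q z
  + 2 * sVT H b q z + 2 * sVTT H b q z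
/-- scaled version of `G` -/
def sG (z : ℝ × ℝ × ℝ) : ℝ := -(sN H Bt q z / (2 * (1 - z.1 * z.2.2 / q))) - sNT H b z
  - 2 * sN H Bt q z * (cosh (sV H b r0 z) / sinh (sV H b r0 z)) * sVT H b q z
  + sN H Bt q z * sRT H b r0 q z / sR H b r0 q z

end

lemma scaled_eventually {H b Bt : ℝ → ℝ} {r0 S τ₁ : ℝ} (hr0 : 0 < r0)
    (hH : ContDiff ℝ ∞ H) (hb : ContDiff ℝ ∞ b) (hBt : ∀ τ, HasDerivAt Bt (b τ) τ)
    (hpos : ∀ s τ, 0 ≤ τ →
      0 < 1 - 2 * deriv H s * b τ - H s * (2 * deriv b τ + 4 * τ * deriv (deriv b) τ)) :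
    ∀ᶠ e in 𝓝 (0:ℝ), ∀ w ∈ Icc (-S) S ×ˢ Icc (0:ℝ) τ₁,
      (e * w.2 / (sinh r0 * cosh r0) < 1 ∧ 0 < sV H b r0 (e, w) ∧
      0 < sR H b r0 (sinh r0 * cosh r0) (e, w) ∧
      0 < sN H Bt (sinh r0 * cosh r0) (e, w) ∧
      0 < sG H b Bt r0 (sinh r0 * cosh r0) (e, w)) := by
  have hs : 0 < sinh r0 := Real.sinh_pos_iff.mpr hr0
  have hc : 0 < cosh r0 := Real.cosh_pos r0
  set q := sinh r0 * cosh r0 with hq
  have hqpos : 0 < q := mul_pos hs hc
  apply (isCompact_Icc.prod isCompact_Icc).eventually_forall_of_forall_eventually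
  rintro ⟨s, τ⟩ ⟨_, hτ⟩
  have hτ0 : 0 ≤ τ := hτ.1
  have hH1 : Continuous (deriv H) := (contDiff_infty_iff_deriv.mp hH).2.continuous
  have hb1c : ContDiff ℝ ∞ (deriv b) := (contDiff_infty_iff_deriv.mp hb).2
  have hb1 : Continuous (deriv b) := hb1c.continuous
  have hb2 : Continuous (deriv (deriv b)) := (contDiff_infty_iff_deriv.mp hb1c).2.continuous
  have hBtc : Continuous Bt := continuous_iff_continuousAt.mpr fun τ => (hBt τ).continuousAt
  have hHc := hH.continuous
  have hbc := hb.continuous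
  have cV : Continuous (sV H b r0) := by unfold sV; fun_prop
  have cVT : Continuous (sVT H b q) := by unfold sVT; fun_prop
  have cVTT : Continuous (sVTT H b q) := by unfold sVTT; fun_prop
  have cN : Continuous (sN H Bt q) := by unfold sN; fun_prop
  have cNT : Continuous (sNT H b) := by unfold sNT; fun_prop
  have cS : Continuous (fun z => sinh (sV H b r0 z)) := Real.continuous_sinh.comp cV
  have cC : Continuous (fun z => cosh (sV H b r0 z)) := Real.continuous_cosh.comp cV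
  have cR : Continuous (sR H b r0 q) := by
    unfold sR
    exact (cS.mul cC).add ((continuous_const.mul
      ((continuous_fst.mul (continuous_snd.comp continuous_snd)).div_const q)).mul cVT)
  have cRT : Continuous (sRT H b r0 q) := by
    unfold sRT
    exact ((((cC.pow 2).add (cS.pow 2)).mul cVT).add (continuous_const.mul cVT)).add
      (continuous_const.mul cVTT)
  have vV : sV H b r0 (0, (s, τ)) = r0 := by simp [sV]
  have vR : sR H b r0 q (0, (s, τ)) = q := by
    unfold sR; rw [vV]; simp [hq]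
  have vN : sN H Bt q (0, (s, τ)) = 1 := by simp [sN]
  have cG : ContinuousAt (sG H b Bt r0 q) (0, (s, τ)) := by
    unfold sG
    apply ContinuousAt.add
    · apply ContinuousAt.sub
      · apply ContinuousAt.sub
        · apply ContinuousAt.neg
          apply ContinuousAt.div cN.continuousAt
          · fun_prop
          · simp
        · exact cNT.continuousAt
      · apply ContinuousAt.mul
        · apply ContinuousAt.mul
          · exact (continuous_const.mul cN).continuousAt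
          · exact cC.continuousAt.div cS.continuousAt (by rw [vV]; exact hs.ne')
        · exact cVT.continuousAt
    · exact (cN.mul cRT).continuousAt.div cR.continuousAt (by rw [vR]; exact hqpos.ne')
  have vG : 0 < sG H b Bt r0 q (0, (s, τ)) := by
    have h1 := hpos s τ hτ0
    have hcc : cosh r0 ^ 2 = 1 + sinh r0 ^ 2 := Real.cosh_sq' r0
    have e1 : sG H b Bt r0 q (0, (s, τ)) =
        1 / 2 * (1 - 2 * deriv H s * b τ - H s * (2 * deriv b τ + 4 * τ * deriv (deriv b) τ)) := by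
      unfold sG
      rw [vN, vR, vV]
      unfold sNT sRT
      rw [vV]
      unfold sVT sVTT
      simp only [zero_mul, zero_div, sub_zero]
      rw [hq]
      field_simp
      linear_combination (2 * H s * deriv b τ) * hcc
    rw [e1]; linarith
  have t1 : ∀ᶠ z : ℝ × ℝ × ℝ in 𝓝 (0, (s, τ)), z.1 * z.2.2 / q < 1 := by
    have hc : ContinuousAt (fun z : ℝ × ℝ × ℝ => z.1 * z.2.2 / q) (0, (s, τ)) := by fun_prop
    exact hc.eventually_lt_const (by simp)
  have t2 := cV.continuousAt.eventually_const_lt (show 0 < sV H b r0 (0, (s, τ)) by rw [vV]; exact hr0)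
  have t3 := cR.continuousAt.eventually_const_lt
    (show 0 < sR H b r0 q (0, (s, τ)) by rw [vR]; exact hqpos)
  have t4 := cN.continuousAt.eventually_const_lt
    (show 0 < sN H Bt q (0, (s, τ)) by rw [vN]; norm_num)
  have t5 := cG.eventually_const_lt vG
  filter_upwards [t1, t2, t3, t4, t5] with z h1 h2 h3 h4 h5
  exact ⟨h1, h2, h3, h4, h5⟩

/-- relation with the scaled functions -/
lemma PData.good_of_scaled (P : PData) (p : ℝ × ℝ)
    (h : P.e * P.τ p / P.q < 1 ∧ 0 < sV P.H P.b P.r0 (P.e, (P.s p, P.τ p)) ∧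
      0 < sR P.H P.b P.r0 P.q (P.e, (P.s p, P.τ p)) ∧
      0 < sN P.H P.Bt P.q (P.e, (P.s p, P.τ p)) ∧
      0 < sG P.H P.b P.Bt P.r0 P.q (P.e, (P.s p, P.τ p))) : P.Good 0 p := by
  have he := P.he.ne'
  have hq := P.hq.ne'
  have ex : P.e * P.τ p / P.q = p.2 ^ 2 := by unfold PData.τ; field_simp
  have er : P.r0 + P.e * P.s p = p.1 := by unfold PData.s; field_simp; ring
  have eV : sV P.H P.b P.r0 (P.e, (P.s p, P.τ p)) = P.V p := by
    unfold sV PData.V; simp only; rw [er]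
  have eVT : sVT P.H P.b P.q (P.e, (P.s p, P.τ p)) = P.VT p := rfl
  have eVTT : sVTT P.H P.b P.q (P.e, (P.s p, P.τ p)) = p.2 ^ 2 * P.VTT p := by
    unfold sVTT PData.VTT; simp only
    rw [← ex]; field_simp
  have eN : sN P.H P.Bt P.q (P.e, (P.s p, P.τ p)) = P.N 0 p := by
    unfold sN PData.N; simp only; rw [ex]; ring
  have eNT : sNT P.H P.b (P.e, (P.s p, P.τ p)) = P.NT 0 p := by
    unfold sNT PData.NT; simp only; ring
  have eR : sR P.H P.b P.r0 P.q (P.e, (P.s p, P.τ p)) = P.R p := by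
    unfold sR PData.R; rw [eV, eVT]; simp only; rw [ex]
  have eRT : sRT P.H P.b P.r0 P.q (P.e, (P.s p, P.τ p)) = P.RT p := by
    unfold sRT PData.RT; rw [eV, eVT, eVTT]; ring
  have eG : sG P.H P.b P.Bt P.r0 P.q (P.e, (P.s p, P.τ p)) = P.G 0 p := by
    unfold sG PData.G; rw [eN, eNT, eV, eVT, eRT, eR]; simp only; rw [ex]
  rw [ex, eV, eR, eN, eG] at h
  exact h

end Pool.Agent.Work.MP_0fcc57_gt
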