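import Pool.Agent.Work.MP_0fcc57_gt.Harm

/-!
# Polar coordinates on `ℝ³`
-/

open scoped ContDiff Topology
open Real Set Filter

noncomputable section

namespace Pool.Agent.Work.MP_0fcc57_gt

/-- polar coordinates -/
def Psi (y : Fin 3 → ℝ) : Fin 3 → ℝ :=
  ![sinh (y 0) * √(1 - y 1 ^ 2) * cos (y 2), sinh (y 0) * √(1 - y 1 ^ 2) * sin (y 2),
    sinh (y 0) * y 1]

/-- squared distance to the axis -/
def ax (p : Fin 3 → ℝ) : ℝ := p 0 ^ 2 + p 1 ^ 2

/-- the coframe `dr, dx, dθ` -/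
def Wf (p : Fin 3 → ℝ) : Matrix (Fin 3) (Fin 3) ℝ :=
  !![p 0 / √(sq p * (1 + sq p)), p 1 / √(sq p * (1 + sq p)), p 2 / √(sq p * (1 + sq p));
     -(p 2 * p 0) / (sq p * √(sq p)), -(p 2 * p 1) / (sq p * √(sq p)), ax p / (sq p * √(sq p));
     -(p 1) / ax p, p 0 / ax p, 0]

/-- the Jacobian of polar coordinates -/
def Jp (y : Fin 3 → ℝ) : Matrix (Fin 3) (Fin 3) ℝ :=
  !![cosh (y 0) * √(1 - y 1 ^ 2) * cos (y 2), sinh (y 0) * (-(y 1) / √(1 - y 1 ^ 2)) * cos (y 2),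
      -(sinh (y 0) * √(1 - y 1 ^ 2) * sin (y 2));
     cosh (y 0) * √(1 - y 1 ^ 2) * sin (y 2), sinh (y 0) * (-(y 1) / √(1 - y 1 ^ 2)) * sin (y 2),
      sinh (y 0) * √(1 - y 1 ^ 2) * cos (y 2);
     cosh (y 0) * y 1, sinh (y 0), 0]

lemma pd_of_hasDerivAt {n : ℕ} {F : (Fin n → ℝ) → ℝ} {y : Fin n → ℝ} {i : Fin n} {d : ℝ}
    (hF : DifferentiableAt ℝ F y)
    (h : HasDerivAt (fun t => F (Function.update y i t)) d (y i)) : pd i F y = d := by
  have h1 : HasDerivAt (Function.update y i) (Pi.single i (1:ℝ)) (y i) :=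
    hasDerivAt_update y i (y i)
  have h2 : HasFDerivAt F (fderiv ℝ F y) (Function.update y i (y i)) := by
    rw [Function.update_eq_self]; exact hF.hasFDerivAt
  exact (h2.comp_hasDerivAt (y i) h1).unique h

lemma sq_eq (p : Fin 3 → ℝ) : sq p = p 0 ^ 2 + p 1 ^ 2 + p 2 ^ 2 := by
  unfold sq; rw [Fin.sum_univ_three]

lemma sq_eq_ax (p : Fin 3 → ℝ) : sq p = ax p + p 2 ^ 2 := by rw [sq_eq]; rfl

lemma ax_nonneg (p : Fin 3 → ℝ) : 0 ≤ ax p := by unfold ax; positivity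

lemma sq_nonneg' (p : Fin 3 → ℝ) : 0 ≤ sq p := by rw [sq_eq]; positivity

lemma sq_pos_of_ax {p : Fin 3 → ℝ} (h : 0 < ax p) : 0 < sq p := by
  rw [sq_eq_ax]; positivity

section
variable {y : Fin 3 → ℝ} (hy : y ∈ liftS PR)
include hy

lemma one_sub_pos : 0 < 1 - y 1 ^ 2 := by
  have h : y 1 ^ 2 < 1 := hy.2
  linarith

lemma Psi_contDiffOn : ContDiffOn ℝ ∞ Psi (liftS PR) := by
  have hs : ContDiffOn ℝ ∞ (fun z : Fin 3 → ℝ => √(1 - z 1 ^ 2)) (liftS PR) := by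
    apply ContDiffOn.sqrt
    · exact (contDiff_const.sub ((contDiff_apply ℝ ℝ (1 : Fin 3)).pow 2)).contDiffOn
    · intro z hz; exact (one_sub_pos hz).ne'
  have h0 : ContDiff ℝ ∞ (fun z : Fin 3 → ℝ => sinh (z 0)) :=
    Real.contDiff_sinh.comp (contDiff_apply ℝ ℝ (0 : Fin 3))
  rw [contDiffOn_pi]
  intro i
  fin_cases i
  · exact (h0.contDiffOn.mul hs).mul (Real.contDiff_cos.comp (contDiff_apply ℝ ℝ (2 : Fin 3))).contDiffOn
  · exact (h0.contDiffOn.mul hs).mul (Real.contDiff_sin.comp (contDiff_apply ℝ ℝ (2 : Fin 3))).contDiffOn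
  · exact (h0.mul (contDiff_apply ℝ ℝ (1 : Fin 3))).contDiffOn

lemma Psi_contDiffAt : ContDiffAt ℝ ∞ Psi y :=
  (Psi_contDiffOn hy).contDiffAt ((liftS_isOpen PR_isOpen).mem_nhds hy)

lemma Psi_diff : DifferentiableAt ℝ Psi y := (Psi_contDiffAt hy).differentiableAt (by simp)

lemma jac_Psi : jac Psi y = Jp y := by
  have hd : ∀ a, DifferentiableAt ℝ (fun z => Psi z a) y := fun a =>
    differentiableAt_pi.1 (Psi_diff hy) a
  have hp := one_sub_pos hy
  have hsq : HasDerivAt (fun t : ℝ => √(1 - t ^ 2)) (-(y 1) / √(1 - y 1 ^ 2)) (y 1) := by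
    have h1 := (((hasDerivAt_id' (y 1)).fun_pow 2).const_sub 1).sqrt hp.ne'
    refine h1.congr_deriv ?_
    simp
    have := (Real.sqrt_pos.mpr hp).ne'
    field_simp
  have hsh := Real.hasDerivAt_sinh (y 0)
  have hco := Real.hasDerivAt_cos (y 2)
  have hsi := Real.hasDerivAt_sin (y 2)
  unfold jac
  ext a i
  rw [Matrix.of_apply]
  fin_cases a <;> fin_cases i <;> refine pd_of_hasDerivAt (hd _) ?_ <;> simp [Psi, Jp]
  · exact (hsh.mul_const _).mul_const _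
  · exact (hsq.const_mul (sinh (y 0))).mul_const _
  · refine (hco.const_mul _).congr_deriv ?_
    ring
  · exact (hsh.mul_const _).mul_const _
  · exact (hsq.const_mul (sinh (y 0))).mul_const _
  · exact (hsi.const_mul _)
  · exact hsh.mul_const _
  · refine ((hasDerivAt_id' _).const_mul (sinh (y 0))).congr_deriv ?_
    ring
  · exact hasDerivAt_const _ _

lemma sq_Psi : sq (Psi y) = sinh (y 0) ^ 2 := by
  rw [sq_eq]
  have h1 : √(1 - y 1 ^ 2) ^ 2 = 1 - y 1 ^ 2 := Real.sq_sqrt (one_sub_pos hy).le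
  have h2 := Real.cos_sq_add_sin_sq (y 2)
  simp only [Psi, Matrix.cons_val_zero, Matrix.cons_val_one, Matrix.cons_val]
  linear_combination (sinh (y 0) ^ 2 * √(1 - y 1 ^ 2) ^ 2) * h2 + sinh (y 0) ^ 2 * h1

lemma ax_Psi : ax (Psi y) = sinh (y 0) ^ 2 * (1 - y 1 ^ 2) := by
  unfold ax
  have h1 : √(1 - y 1 ^ 2) ^ 2 = 1 - y 1 ^ 2 := Real.sq_sqrt (one_sub_pos hy).le
  have h2 := Real.cos_sq_add_sin_sq (y 2)
  simp only [Psi, Matrix.cons_val_zero, Matrix.cons_val_one, Matrix.cons_val]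
  linear_combination (sinh (y 0) ^ 2 * √(1 - y 1 ^ 2) ^ 2) * h2 + sinh (y 0) ^ 2 * h1

lemma sinh_pos' : 0 < sinh (y 0) := Real.sinh_pos_iff.mpr hy.1

lemma ax_Psi_pos : 0 < ax (Psi y) := by
  rw [ax_Psi hy]
  have := sinh_pos' hy
  have := one_sub_pos hy
  positivity

lemma Wf_Jp : Wf (Psi y) * Jp y = 1 := by
  have hs := sinh_pos' hy
  have hc := Real.cosh_pos (y 0)
  have hp := one_sub_pos hy
  have hk := Real.sqrt_pos.mpr hp
  have hk2 : √(1 - y 1 ^ 2) ^ 2 = 1 - y 1 ^ 2 := Real.sq_sqrt hp.le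
  have h2 := Real.cos_sq_add_sin_sq (y 2)
  have hcs : cosh (y 0) ^ 2 = 1 + sinh (y 0) ^ 2 := Real.cosh_sq' _
  have e1 : √(sinh (y 0) ^ 2 * (1 + sinh (y 0) ^ 2)) = sinh (y 0) * cosh (y 0) := by
    rw [← hcs, ← mul_pow, Real.sqrt_sq (by positivity)]
  have e2 : √(sinh (y 0) ^ 2) = sinh (y 0) := Real.sqrt_sq hs.le
  unfold Wf
  rw [sq_Psi hy, ax_Psi hy, e1, e2]
  unfold Jp
  set κ := √(1 - y 1 ^ 2) with hκ
  rw [← hk2]
  have hx2 : y 1 ^ 2 = 1 - κ ^ 2 := by linarith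
  ext a i
  fin_cases a <;> fin_cases i <;>
    simp [Psi, Matrix.mul_apply, Fin.sum_univ_three, ← hκ] <;> field_simp
  · linear_combination κ ^ 2 * h2 + hx2
  · linear_combination (-(sinh (y 0) * y 1)) * h2
  · ring
  · linear_combination (-(y 1 * κ ^ 2 * cosh (y 0))) * h2
  · linear_combination (y 1 ^ 2) * h2 + hx2
  · ring
  · ring
  · ring
  · linear_combination h2

lemma Wf_jac : Wf (Psi y) * jac Psi y = 1 := by rw [jac_Psi hy, Wf_Jp hy]

lemma Psi_bij : Function.Bijective (fderiv ℝ Psi y) := by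
  have h1 := Wf_jac hy
  have h2 : jac Psi y * Wf (Psi y) = 1 := mul_eq_one_comm.mp h1
  constructor
  · intro v w hvw
    rw [← jac_mulVec (Psi_diff hy), ← jac_mulVec (Psi_diff hy)] at hvw
    have := congrArg (Wf (Psi y)).mulVec hvw
    rw [Matrix.mulVec_mulVec, Matrix.mulVec_mulVec, h1, Matrix.one_mulVec, Matrix.one_mulVec] at this
    exact this
  · intro v
    refine ⟨(Wf (Psi y)).mulVec v, ?_⟩
    rw [← jac_mulVec (Psi_diff hy), Matrix.mulVec_mulVec, h2, Matrix.one_mulVec]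

lemma Psi_isParam : IsParam Psi y :=
  ⟨⟨liftS PR, liftS_isOpen PR_isOpen, hy, Psi_contDiffOn hy⟩, Psi_bij hy⟩

/-- pulling back a metric written in the coframe -/
lemma pull_Wf (G : CoordMetric 3) (D : Matrix (Fin 3) (Fin 3) ℝ)
    (h : G (Psi y) = (Wf (Psi y)).transpose * D * Wf (Psi y)) : pull G Psi y = D := by
  rw [pull_eq, h]
  have h1 := Wf_jac hy
  have h2 : (jac Psi y).transpose * (Wf (Psi y)).transpose = 1 := by
    rw [← Matrix.transpose_mul, h1, Matrix.transpose_one]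
  calc (jac Psi y).transpose * ((Wf (Psi y)).transpose * D * Wf (Psi y)) * jac Psi y
      = ((jac Psi y).transpose * (Wf (Psi y)).transpose) * D * (Wf (Psi y) * jac Psi y) := by
        simp only [Matrix.mul_assoc]
    _ = D := by rw [h1, h2, Matrix.one_mul, Matrix.mul_one]

end

/-- a rotationally symmetric matrix in the coframe -/
lemma cart_eq {p : Fin 3 → ℝ} (h : 0 < ax p) (A E : ℝ) :
    (Matrix.of fun i j : Fin 3 => A * (if i = j then 1 else 0) + E * (p i * p j)) =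
    (Wf p).transpose * Matrix.diagonal ![(1 + sq p) * (A + E * sq p), A * sq p ^ 2 / ax p,
      A * ax p] * Wf p := by
  have hu := sq_pos_of_ax h
  have h1 : √(sq p * (1 + sq p)) ^ 2 = sq p * (1 + sq p) := Real.sq_sqrt (by positivity)
  have h2 : √(sq p) ^ 2 = sq p := Real.sq_sqrt hu.le
  have h3 : 0 < √(sq p * (1 + sq p)) := Real.sqrt_pos.mpr (by positivity)
  have h4 : 0 < √(sq p) := Real.sqrt_pos.mpr hu
  have h5 := sq_eq_ax p
  have h6 : ax p = p 0 ^ 2 + p 1 ^ 2 := rfl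
  unfold Wf
  set s1 := √(sq p * (1 + sq p))
  set s2 := √(sq p)
  have i1 : (s1⁻¹) ^ 2 = (sq p * (1 + sq p))⁻¹ := by rw [inv_pow, h1]
  have i2 : (s2⁻¹) ^ 2 = (sq p)⁻¹ := by rw [inv_pow, h2]
  have h7 : 1 + sq p ≠ 0 := by positivity
  have key1 : ∀ a b : ℝ, a / s1 * ((1 + sq p) * (A + E * sq p)) * (b / s1) =
      a * b * (A / sq p + E) := by
    intro a b
    have : a / s1 * ((1 + sq p) * (A + E * sq p)) * (b / s1) =
      a * b * ((1 + sq p) * (A + E * sq p)) * (s1⁻¹) ^ 2 := by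
      field_simp
    rw [this, i1]
    field_simp
  have key2 : ∀ a b : ℝ, a / (sq p * s2) * (A * sq p ^ 2 / ax p) * (b / (sq p * s2)) =
      a * b * (A / (sq p * ax p)) := by
    intro a b
    have : a / (sq p * s2) * (A * sq p ^ 2 / ax p) * (b / (sq p * s2)) =
      a * b * (A / ax p) * (s2⁻¹) ^ 2 := by
      field_simp
    rw [this, i2]
    field_simp
  have key3 : ∀ a b : ℝ, a / ax p * (A * ax p) * (b / ax p) = a * b * (A / ax p) := by
    intro a b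
    field_simp
  ext i j
  have hL : ((!![p 0 / s1, p 1 / s1, p 2 / s1;
     -(p 2 * p 0) / (sq p * s2), -(p 2 * p 1) / (sq p * s2), ax p / (sq p * s2);
     -(p 1) / ax p, p 0 / ax p, 0] : Matrix (Fin 3) (Fin 3) ℝ).transpose *
     Matrix.diagonal ![(1 + sq p) * (A + E * sq p), A * sq p ^ 2 / ax p,
      A * ax p] * !![p 0 / s1, p 1 / s1, p 2 / s1;
     -(p 2 * p 0) / (sq p * s2), -(p 2 * p 1) / (sq p * s2), ax p / (sq p * s2);
     -(p 1) / ax p, p 0 / ax p, 0]) i j =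
     (![p 0, p 1, p 2] i / s1) * ((1 + sq p) * (A + E * sq p)) * (![p 0, p 1, p 2] j / s1) +
     (![-(p 2 * p 0), -(p 2 * p 1), ax p] i / (sq p * s2)) * (A * sq p ^ 2 / ax p) *
       (![-(p 2 * p 0), -(p 2 * p 1), ax p] j / (sq p * s2)) +
     (![-(p 1), p 0, 0] i / ax p) * (A * ax p) * (![-(p 1), p 0, 0] j / ax p) := by
    fin_cases i <;> fin_cases j <;>
      simp [Matrix.mul_apply, Fin.sum_univ_three, Matrix.diagonal_apply]
  rw [hL, key1, key2, key3]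
  have hu' : sq p ≠ 0 := hu.ne'
  have h' : ax p ≠ 0 := h.ne'
  fin_cases i <;> fin_cases j <;> simp <;> field_simp <;> simp only [h5, h6] <;> ring

end Pool.Agent.Work.MP_0fcc57_gt
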