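import Pool.Agent.Work.MP_0fcc57_gt.Theta

/-!
# The two profiles of the perturbation
-/

open scoped ContDiff Topology
open Real Set Filter

noncomputable section

namespace Pool.Agent.Work.MP_0fcc57_gt

lemma st_deriv_contDiff : ContDiff ℝ ∞ (deriv st) := (contDiff_infty_iff_deriv.mp st_contDiff).2

lemma st_deriv_left {t : ℝ} (h : t ≤ 0) : deriv st t = 0 := by
  apply IsLocalMin.deriv_eq_zero
  apply Filter.Eventually.of_forall
  intro x
  rw [show st t = 0 from Real.smoothTransition.zero_of_nonpos h]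
  exact Real.smoothTransition.nonneg x

lemma st_deriv_right {t : ℝ} (h : 1 ≤ t) : deriv st t = 0 := by
  apply IsLocalMax.deriv_eq_zero
  apply Filter.Eventually.of_forall
  intro x
  rw [show st t = 1 from Real.smoothTransition.one_of_one_le h]
  exact Real.smoothTransition.le_one x

lemma st_deriv2_right {t : ℝ} (h : 1 ≤ t) : deriv (deriv st) t = 0 := by
  apply IsLocalMin.deriv_eq_zero
  apply Filter.Eventually.of_forall
  intro x
  rw [st_deriv_right h]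
  exact st_deriv_nonneg x

lemma st_deriv2_left {t : ℝ} (h : t ≤ 0) : deriv (deriv st) t = 0 := by
  apply IsLocalMin.deriv_eq_zero
  apply Filter.Eventually.of_forall
  intro x
  rw [st_deriv_left h]
  exact st_deriv_nonneg x

lemma exists_st_bound : ∃ C : ℝ, 1 ≤ C ∧ ∀ t, |deriv st t| ≤ C ∧ |deriv (deriv st) t| ≤ C := by
  have c1 : Continuous (deriv st) := st_deriv_contDiff.continuous
  have c2 : Continuous (deriv (deriv st)) :=
    (contDiff_infty_iff_deriv.mp st_deriv_contDiff).2.continuous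
  obtain ⟨C1, h1⟩ := isCompact_Icc.exists_bound_of_continuousOn (s := Icc (0:ℝ) 1) c1.continuousOn
  obtain ⟨C2, h2⟩ := isCompact_Icc.exists_bound_of_continuousOn (s := Icc (0:ℝ) 1) c2.continuousOn
  refine ⟨max 1 (max C1 C2), le_max_left _ _, ?_⟩
  intro t
  have hC : (0:ℝ) ≤ max 1 (max C1 C2) := le_trans zero_le_one (le_max_left _ _)
  by_cases ht : t ∈ Icc (0:ℝ) 1
  · exact ⟨le_trans (h1 t ht) (le_trans (le_max_left _ _) (le_max_right _ _)),
      le_trans (h2 t ht) (le_trans (le_max_right _ _) (le_max_right _ _))⟩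
  · have : t ≤ 0 ∨ 1 ≤ t := by
      simp only [mem_Icc, not_and_or, not_le] at ht
      rcases ht with h | h
      · exact Or.inl h.le
      · exact Or.inr h.le
    rcases this with h | h
    · rw [st_deriv_left h, st_deriv2_left h]; simp [hC]
    · rw [st_deriv_right h, st_deriv2_right h]; simp [hC]

/-- polynomial inequality behind the base profile -/
lemma base_poly {S y : ℝ} (hS0 : 0 ≤ S) (hS1 : S ≤ 1) (hy : 0 ≤ y) :
    4 * (4 * S * (1 - S)) - 2 * (2 / 5 * (1 + S)) + 2 * (2 / 5 * (1 + S)) * y ≤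
      (1 + 2 * (4 * S * (1 - S)) - 1 / 50) * (1 + y / 2 + y ^ 2 / 8) := by
  have hSS : 0 ≤ S * (1 - S) := mul_nonneg hS0 (by linarith)
  set A := 1 + 2 * (4 * S * (1 - S)) - 1 / 50 with hA
  set lin := A / 2 - 2 * (2 / 5 * (1 + S)) with hlin
  set cst := A - 4 * (4 * S * (1 - S)) + 2 * (2 / 5 * (1 + S)) with hcst
  have hApos : 0 < A := by rw [hA]; nlinarith
  have hR : 0 ≤ 0.744 + 6.32 * S - 38.4 * S ^ 2 + 48 * S ^ 3 := by
    nlinarith [mul_nonneg hS0 (sq_nonneg (S - 0.4317)), sq_nonneg (S - 0.4317), sq_nonneg S]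
  have hD : lin ^ 2 ≤ A / 2 * cst := by
    have e : A / 2 * cst - lin ^ 2 =
        0.0321 + (1 - S) * (0.744 + 6.32 * S - 38.4 * S ^ 2 + 48 * S ^ 3) := by
      rw [hlin, hcst, hA]; ring
    have : 0 ≤ (1 - S) * (0.744 + 6.32 * S - 38.4 * S ^ 2 + 48 * S ^ 3) :=
      mul_nonneg (by linarith) hR
    linarith
  have key : 0 ≤ A / 8 * y ^ 2 + lin * y + cst := by
    have h1 : A / 2 * (A / 8 * y ^ 2 + lin * y + cst) =
        (A * y / 4 + lin) ^ 2 + (A / 2 * cst - lin ^ 2) := by ring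
    have h2 : 0 ≤ A / 2 * (A / 8 * y ^ 2 + lin * y + cst) := by
      rw [h1]; nlinarith [sq_nonneg (A * y / 4 + lin)]
    exact nonneg_of_mul_nonneg_right h2 (by linarith)
  have e2 : A * (1 + y / 2 + y ^ 2 / 8) -
      (4 * (4 * S * (1 - S)) - 2 * (2 / 5 * (1 + S)) + 2 * (2 / 5 * (1 + S)) * y) =
      A / 8 * y ^ 2 + lin * y + cst := by
    rw [hlin, hcst]; ring
  linarith

lemma base_ineq {S y : ℝ} (hS0 : 0 ≤ S) (hS1 : S ≤ 1) (hy : 0 ≤ y) :
    1 / 50 ≤ 1 - 2 * (4 * S * (1 - S)) * (2 * Real.exp (-(y / 2)) - 1)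
      - (2 / 5 * (1 + S)) * (2 * (y - 1) * Real.exp (-(y / 2))) := by
  have h1 := base_poly hS0 hS1 hy
  have hSS : 0 ≤ S * (1 - S) := mul_nonneg hS0 (by linarith)
  have h2 := Real.quadratic_le_exp_of_nonneg (show (0:ℝ) ≤ y / 2 by linarith)
  have hA : 0 < 1 + 2 * (4 * S * (1 - S)) - 1 / 50 := by nlinarith
  have h3 : 4 * (4 * S * (1 - S)) - 2 * (2 / 5 * (1 + S)) + 2 * (2 / 5 * (1 + S)) * y ≤
      (1 + 2 * (4 * S * (1 - S)) - 1 / 50) * Real.exp (y / 2) := by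
    refine le_trans h1 (mul_le_mul_of_nonneg_left ?_ hA.le)
    nlinarith
  have hg : Real.exp (y / 2) * Real.exp (-(y / 2)) = 1 := by
    rw [← Real.exp_add]; simp
  have hgp := Real.exp_pos (-(y / 2))
  have h4 := mul_le_mul_of_nonneg_right h3 hgp.le
  have h5 : (1 + 2 * (4 * S * (1 - S)) - 1 / 50) * Real.exp (y / 2) * Real.exp (-(y / 2)) =
      (1 + 2 * (4 * S * (1 - S)) - 1 / 50) := by rw [mul_assoc, hg, mul_one]
  rw [h5] at h4
  linarith

/-- logistic function -/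
def sig (s : ℝ) : ℝ := 1 / (1 + Real.exp (-(10 * s)))

lemma sig_pos (s : ℝ) : 0 < sig s := by unfold sig; positivity

lemma sig_lt_one (s : ℝ) : sig s < 1 := by
  unfold sig
  have := Real.exp_pos (-(10 * s))
  rw [div_lt_one (by linarith)]; linarith

lemma sig_contDiff : ContDiff ℝ ∞ sig := by
  unfold sig
  apply contDiff_const.div
  · exact contDiff_const.add (contDiff_const.mul contDiff_id).neg.exp
  · intro s; have := Real.exp_pos (-(10 * s)); linarith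

lemma sig_hasDerivAt (s : ℝ) : HasDerivAt sig (10 * sig s * (1 - sig s)) s := by
  have hp := Real.exp_pos (-(10 * s))
  have h1 : HasDerivAt (fun s : ℝ => 1 + Real.exp (-(10 * s)))
      (Real.exp (-(10 * s)) * (-(10 * 1))) s :=
    ((((hasDerivAt_id' s).const_mul 10).fun_neg).exp).const_add 1
  have h2 := (hasDerivAt_const s (1:ℝ)).fun_div h1 (by linarith)
  refine h2.congr_deriv ?_
  unfold sig
  field_simp
  ring

lemma sig_zero : sig 0 = 1 / 2 := by unfold sig; norm_num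

lemma sig_ne_half {s : ℝ} (hs : s ≠ 0) : sig s ≠ 1 / 2 := by
  unfold sig
  intro h
  have hp := Real.exp_pos (-(10 * s))
  rw [div_eq_div_iff (by linarith) (by norm_num)] at h
  have h2 : Real.exp (-(10 * s)) = 1 := by linarith
  rw [Real.exp_eq_one_iff] at h2
  apply hs; linarith

lemma sig_tail {s : ℝ} (hs : 1 ≤ |s|) : 4 * sig s * (1 - sig s) ≤ 1 / 4 := by
  have hexp : Real.exp (-10) ≤ 1 / 16 := by
    have h1 : (2:ℝ) ≤ Real.exp 1 := by have := Real.add_one_le_exp (1:ℝ); linarith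
    have h2 : Real.exp 10 = Real.exp 1 ^ 10 := by rw [← Real.exp_nat_mul]; norm_num
    have h3 : (2:ℝ)^10 ≤ Real.exp 1 ^ 10 := pow_le_pow_left₀ (by norm_num) h1 10
    rw [Real.exp_neg, inv_le_comm₀ (Real.exp_pos _) (by norm_num), h2]
    norm_num at h3 ⊢; linarith
  have hp := Real.exp_pos (-(10 * s))
  have h0 := sig_pos s
  have h1 := sig_lt_one s
  rcases le_abs.mp hs with h | h
  · -- s ≥ 1 : 1 - sig ≤ exp(-10)
    have h2 : 1 - sig s ≤ 1 / 16 := by
      have e : 1 - sig s = Real.exp (-(10 * s)) / (1 + Real.exp (-(10 * s))) := by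
        unfold sig; field_simp; ring
      rw [e, div_le_iff₀ (by linarith)]
      have : Real.exp (-(10 * s)) ≤ Real.exp (-10) := Real.exp_le_exp.mpr (by linarith)
      nlinarith
    nlinarith
  · have h2 : sig s ≤ 1 / 16 := by
      unfold sig
      rw [div_le_iff₀ (by linarith)]
      have : Real.exp 10 ≤ Real.exp (-(10 * s)) := Real.exp_le_exp.mpr (by linarith)
      have h3 : 16 ≤ Real.exp 10 := by
        rw [Real.exp_neg] at hexp
        rw [inv_le_comm₀ (Real.exp_pos _) (by norm_num)] at hexp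
        norm_num at hexp ⊢; linarith
      linarith
    nlinarith

section
variable (ℓ : ℝ)

/-- cutoff in `τ` -/
def psi (τ : ℝ) : ℝ := 1 - st (τ / ℓ - 1)
/-- cutoff in `s` -/
def psi2 (s : ℝ) : ℝ := 1 - st (s ^ 2 / ℓ ^ 2 - 1)
/-- profile in `τ` -/
def bP (τ : ℝ) : ℝ := (2 * Real.exp (-(τ / 2)) - 1) * psi ℓ τ
/-- profile in `s` -/
def HP (s : ℝ) : ℝ := 2 / 5 * (1 + sig s) * psi2 ℓ s

lemma psi_contDiff : ContDiff ℝ ∞ (psi ℓ) :=
  contDiff_const.sub (st_contDiff.comp ((contDiff_id.div_const ℓ).sub contDiff_const))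

lemma psi2_contDiff : ContDiff ℝ ∞ (psi2 ℓ) :=
  contDiff_const.sub (st_contDiff.comp (((contDiff_id.pow 2).div_const _).sub contDiff_const))

lemma psi_mem (τ : ℝ) : 0 ≤ psi ℓ τ ∧ psi ℓ τ ≤ 1 := by
  unfold psi
  have := Real.smoothTransition.nonneg (τ / ℓ - 1)
  have := Real.smoothTransition.le_one (τ / ℓ - 1)
  constructor <;> linarith

lemma psi2_mem (s : ℝ) : 0 ≤ psi2 ℓ s ∧ psi2 ℓ s ≤ 1 := by
  unfold psi2
  have := Real.smoothTransition.nonneg (s ^ 2 / ℓ ^ 2 - 1)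
  have := Real.smoothTransition.le_one (s ^ 2 / ℓ ^ 2 - 1)
  constructor <;> linarith

lemma psi_hasDerivAt (τ : ℝ) : HasDerivAt (psi ℓ) (-(deriv st (τ / ℓ - 1) / ℓ)) τ := by
  have h := (st_hasDerivAt (τ / ℓ - 1)).comp τ (((hasDerivAt_id' τ).div_const ℓ).sub_const 1)
  exact (h.const_sub 1).congr_deriv (by ring)

lemma psi_deriv : deriv (psi ℓ) = fun τ => -(deriv st (τ / ℓ - 1) / ℓ) :=
  funext fun τ => (psi_hasDerivAt ℓ τ).deriv

lemma psi_deriv_hasDerivAt (τ : ℝ) :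
    HasDerivAt (deriv (psi ℓ)) (-(deriv (deriv st) (τ / ℓ - 1) / ℓ / ℓ)) τ := by
  rw [psi_deriv]
  have h0 : HasDerivAt (deriv st) (deriv (deriv st) (τ / ℓ - 1)) (τ / ℓ - 1) :=
    ((st_deriv_contDiff.differentiable (by simp)) _).hasDerivAt
  have h := h0.comp τ (((hasDerivAt_id' τ).div_const ℓ).sub_const 1)
  exact ((h.div_const ℓ).fun_neg).congr_deriv (by ring)

lemma psi2_hasDerivAt (s : ℝ) :
    HasDerivAt (psi2 ℓ) (-(deriv st (s ^ 2 / ℓ ^ 2 - 1) * (2 * s / ℓ ^ 2))) s := by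
  have h := (st_hasDerivAt (s ^ 2 / ℓ ^ 2 - 1)).comp s
    ((((hasDerivAt_id' s).fun_pow 2).div_const (ℓ ^ 2)).sub_const 1)
  refine (h.const_sub 1).congr_deriv ?_
  simp

lemma bP_contDiff : ContDiff ℝ ∞ (bP ℓ) := by
  unfold bP
  apply ContDiff.mul _ (psi_contDiff ℓ)
  exact (contDiff_const.mul (contDiff_id.div_const 2).neg.exp).sub contDiff_const

lemma HP_contDiff : ContDiff ℝ ∞ (HP ℓ) := by
  unfold HP
  exact (contDiff_const.mul (contDiff_const.add sig_contDiff)).mul (psi2_contDiff ℓ)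

lemma exp_half_hasDerivAt (τ : ℝ) : HasDerivAt (fun τ : ℝ => Real.exp (-(τ / 2)))
    (-(1 / 2) * Real.exp (-(τ / 2))) τ := by
  have h := (((hasDerivAt_id' τ).div_const 2).fun_neg).exp
  exact h.congr_deriv (by ring)

lemma bP_hasDerivAt (τ : ℝ) : HasDerivAt (bP ℓ)
    (-Real.exp (-(τ / 2)) * psi ℓ τ + (2 * Real.exp (-(τ / 2)) - 1) * deriv (psi ℓ) τ) τ := by
  have h1 := ((exp_half_hasDerivAt τ).const_mul 2).sub_const 1
  have h2 : HasDerivAt (psi ℓ) (deriv (psi ℓ) τ) τ :=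
    ((psi_contDiff ℓ).differentiable (by simp) τ).hasDerivAt
  exact (h1.fun_mul h2).congr_deriv (by ring)

lemma bP_deriv : deriv (bP ℓ) = fun τ =>
    -Real.exp (-(τ / 2)) * psi ℓ τ + (2 * Real.exp (-(τ / 2)) - 1) * deriv (psi ℓ) τ :=
  funext fun τ => (bP_hasDerivAt ℓ τ).deriv

lemma bP_deriv2 (τ : ℝ) : deriv (deriv (bP ℓ)) τ =
    1 / 2 * Real.exp (-(τ / 2)) * psi ℓ τ - 2 * Real.exp (-(τ / 2)) * deriv (psi ℓ) τ
      + (2 * Real.exp (-(τ / 2)) - 1) * deriv (deriv (psi ℓ)) τ := by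
  rw [bP_deriv]
  have h1 := ((exp_half_hasDerivAt τ).const_mul 2).sub_const 1
  have h2 : HasDerivAt (psi ℓ) (deriv (psi ℓ) τ) τ :=
    ((psi_contDiff ℓ).differentiable (by simp) τ).hasDerivAt
  have h3 : HasDerivAt (deriv (psi ℓ)) (deriv (deriv (psi ℓ)) τ) τ :=
    (psi_deriv_hasDerivAt ℓ τ).differentiableAt.hasDerivAt
  have h4 := (((exp_half_hasDerivAt τ).fun_neg).fun_mul h2).fun_add (h1.fun_mul h3)
  rw [h4.deriv]; ring

lemma HP_hasDerivAt (s : ℝ) : HasDerivAt (HP ℓ)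
    (4 * sig s * (1 - sig s) * psi2 ℓ s + 2 / 5 * (1 + sig s) * deriv (psi2 ℓ) s) s := by
  have h1 := ((sig_hasDerivAt s).const_add 1).const_mul (2/5)
  have h2 : HasDerivAt (psi2 ℓ) (deriv (psi2 ℓ) s) s :=
    ((psi2_contDiff ℓ).differentiable (by simp) s).hasDerivAt
  exact (h1.fun_mul h2).congr_deriv (by ring)

variable {ℓ}

lemma psi_deriv_bound {C : ℝ} (hC : ∀ t, |deriv st t| ≤ C ∧ |deriv (deriv st) t| ≤ C)
    (hℓ : 0 < ℓ) (τ : ℝ) : |deriv (psi ℓ) τ| ≤ C / ℓ := by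
  rw [psi_deriv, abs_neg, abs_div, abs_of_pos hℓ]
  exact div_le_div_of_nonneg_right (hC _).1 hℓ.le

lemma psi_deriv2_bound {C : ℝ} (hC : ∀ t, |deriv st t| ≤ C ∧ |deriv (deriv st) t| ≤ C)
    (hℓ : 0 < ℓ) {τ : ℝ} (hτ : 0 ≤ τ) : |τ * deriv (deriv (psi ℓ)) τ| ≤ 2 * C / ℓ := by
  have hC0 : 0 ≤ C := le_trans (abs_nonneg _) (hC 0).1
  rw [(psi_deriv_hasDerivAt ℓ τ).deriv]
  rcases le_or_gt τ (2 * ℓ) with h | h
  · rw [abs_mul, abs_neg, abs_div, abs_div, abs_of_nonneg hτ, abs_of_pos hℓ]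
    have h1 : |deriv (deriv st) (τ / ℓ - 1)| / ℓ / ℓ ≤ C / ℓ / ℓ :=
      div_le_div_of_nonneg_right (div_le_div_of_nonneg_right (hC _).2 hℓ.le) hℓ.le
    calc τ * (|deriv (deriv st) (τ / ℓ - 1)| / ℓ / ℓ) ≤ (2 * ℓ) * (C / ℓ / ℓ) :=
          mul_le_mul h h1 (by positivity) (by positivity)
      _ = 2 * C / ℓ := by field_simp
  · rw [st_deriv2_right (by rw [le_sub_iff_add_le, le_div_iff₀ hℓ]; linarith)]
    simp only [zero_div, neg_zero, mul_zero, abs_zero]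
    positivity

lemma psi2_deriv_bound {C : ℝ} (hC : ∀ t, |deriv st t| ≤ C ∧ |deriv (deriv st) t| ≤ C)
    (hℓ : 0 < ℓ) (s : ℝ) : |deriv (psi2 ℓ) s| ≤ 4 * C / ℓ := by
  have hC0 : 0 ≤ C := le_trans (abs_nonneg _) (hC 0).1
  rw [(psi2_hasDerivAt ℓ s).deriv]
  rcases le_or_gt |s| (2 * ℓ) with h | h
  · rw [abs_neg, abs_mul, abs_div, abs_mul, abs_two, abs_of_pos (show (0:ℝ) < ℓ^2 by positivity)]
    calc |deriv st (s ^ 2 / ℓ ^ 2 - 1)| * (2 * |s| / ℓ ^ 2) ≤ C * (2 * (2 * ℓ) / ℓ ^ 2) := by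
          apply mul_le_mul (hC _).1 _ (by positivity) hC0
          apply div_le_div_of_nonneg_right _ (by positivity)
          linarith
      _ = 4 * C / ℓ := by field_simp; ring
  · have h2 : 2 * ℓ ^ 2 ≤ s ^ 2 := by
      rw [← sq_abs s]; nlinarith [abs_nonneg s]
    rw [st_deriv_right (by rw [le_sub_iff_add_le, le_div_iff₀ (by positivity)]; linarith)]
    simp only [zero_mul, neg_zero, abs_zero]
    positivity

end

lemma amul {a b A B : ℝ} (ha : |a| ≤ A) (hb : |b| ≤ B) : |a * b| ≤ A * B := by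
  rw [abs_mul]; exact mul_le_mul ha hb (abs_nonneg _) (le_trans (abs_nonneg _) ha)

lemma tau_exp_le {τ : ℝ} (hτ : 0 ≤ τ) : τ * Real.exp (-(τ / 2)) ≤ 2 := by
  have h1 := Real.add_one_le_exp (τ / 2)
  have h2 : Real.exp (τ / 2) * Real.exp (-(τ / 2)) = 1 := by rw [← Real.exp_add]; simp
  have h3 := Real.exp_pos (-(τ / 2))
  nlinarith

/-- Existence of the profiles. -/
theorem profiles_exist : ∃ (H b Bt : ℝ → ℝ) (S τ₁ : ℝ), 0 < S ∧ 0 < τ₁ ∧
    ContDiff ℝ ∞ H ∧ ContDiff ℝ ∞ b ∧ (∀ τ, HasDerivAt Bt (b τ) τ) ∧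
    (∀ s, S ≤ |s| → H s = 0) ∧ (∀ τ, τ₁ ≤ τ → b τ = 0 ∧ Bt τ = 0) ∧
    deriv H 0 = 1 ∧ b 0 = 1 ∧
    (∀ s τ, 0 ≤ τ → deriv H s * b τ ≤ 1) ∧
    (∀ s τ, 0 ≤ τ → deriv H s * b τ = 1 → s = 0 ∧ τ = 0) ∧
    (∀ s τ, 0 ≤ τ →
      0 < 1 - 2 * deriv H s * b τ - H s * (2 * deriv b τ + 4 * τ * deriv (deriv b) τ)) := by
  obtain ⟨C, hC1, hC⟩ := exists_st_bound
  have hC0 : 0 < C := by linarith
  set ℓ : ℝ := 2000 * C with hℓdef
  have hℓ : 0 < ℓ := by positivity
  have hℓ1 : 1 ≤ ℓ := by rw [hℓdef]; linarith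
  have hCℓ : C / ℓ = 1 / 2000 := by rw [hℓdef]; field_simp
  -- bounds of `b`
  have hg1 : ∀ τ : ℝ, 0 ≤ τ → Real.exp (-(τ / 2)) ≤ 1 := fun τ hτ =>
    Real.exp_le_one_iff.mpr (by linarith)
  have hb_abs : ∀ τ, 0 ≤ τ → |bP ℓ τ| ≤ 1 := by
    intro τ hτ
    unfold bP
    have h1 := psi_mem ℓ τ
    have h2 := hg1 τ hτ
    have h3 := Real.exp_pos (-(τ / 2))
    rw [abs_mul, abs_of_nonneg h1.1]
    have h4 : |2 * Real.exp (-(τ / 2)) - 1| ≤ 1 := by rw [abs_le]; constructor <;> linarith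
    calc _ ≤ 1 * 1 := mul_le_mul h4 h1.2 h1.1 (by norm_num)
      _ = 1 := by norm_num
  have hb_one : ∀ τ, 0 ≤ τ → bP ℓ τ = 1 → τ = 0 := by
    intro τ hτ h
    by_contra hne
    have hpos : 0 < τ := lt_of_le_of_ne hτ (Ne.symm hne)
    unfold bP at h
    have h1 := psi_mem ℓ τ
    have h2 : Real.exp (-(τ / 2)) < 1 := by
      rw [← Real.exp_zero]; exact Real.exp_lt_exp.mpr (by linarith)
    have h3 := Real.exp_pos (-(τ / 2))
    rcases le_or_gt (2 * Real.exp (-(τ / 2)) - 1) 0 with h4 | h4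
    · nlinarith
    · nlinarith
  have hHd : ∀ s, deriv (HP ℓ) s =
      4 * sig s * (1 - sig s) * psi2 ℓ s + 2 / 5 * (1 + sig s) * deriv (psi2 ℓ) s :=
    fun s => (HP_hasDerivAt ℓ s).deriv
  have hin : ∀ s, |s| ≤ ℓ → psi2 ℓ s = 1 ∧ deriv (psi2 ℓ) s = 0 := by
    intro s hs
    have h1 : s ^ 2 / ℓ ^ 2 - 1 ≤ 0 := by
      rw [sub_nonpos, div_le_one (by positivity), ← sq_abs s]
      exact pow_le_pow_left₀ (abs_nonneg s) hs 2
    constructor
    · unfold psi2; rw [show st (s ^ 2 / ℓ ^ 2 - 1) = 0 from Real.smoothTransition.zero_of_nonpos h1]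
      ring
    · rw [(psi2_hasDerivAt ℓ s).deriv, st_deriv_left h1]; ring
  have hsig4 : ∀ s, 4 * sig s * (1 - sig s) ≤ 1 ∧ 0 < 4 * sig s * (1 - sig s) := by
    intro s
    have h0 := sig_pos s
    have h1 := sig_lt_one s
    constructor
    · nlinarith [sq_nonneg (2 * sig s - 1)]
    · have : 0 < 1 - sig s := by linarith
      positivity
  have hout : ∀ s, ℓ < |s| → |deriv (HP ℓ) s| ≤ 1 / 2 := by
    intro s hs
    rw [hHd]
    have h1 := psi2_mem ℓ s
    have h2 := psi2_deriv_bound hC hℓ s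
    have h3 := sig_tail (s := s) (by linarith)
    have h4 := hsig4 s
    have h5 : 4 * C / ℓ = 4 * (1 / 2000) := by rw [← hCℓ]; ring
    rw [h5] at h2
    have h0 := sig_pos s
    have h01 := sig_lt_one s
    calc |4 * sig s * (1 - sig s) * psi2 ℓ s + 2 / 5 * (1 + sig s) * deriv (psi2 ℓ) s|
        ≤ |4 * sig s * (1 - sig s) * psi2 ℓ s| + |2 / 5 * (1 + sig s) * deriv (psi2 ℓ) s| :=
          abs_add_le _ _
      _ ≤ 1 / 4 * 1 + 4 / 5 * (4 * (1 / 2000)) := by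
          apply add_le_add
          · rw [abs_mul, abs_of_pos h4.2, abs_of_nonneg h1.1]
            exact mul_le_mul h3 h1.2 h1.1 (by norm_num)
          · rw [abs_mul, abs_of_pos (show 0 < 2 / 5 * (1 + sig s) by positivity)]
            exact mul_le_mul (by linarith) h2 (abs_nonneg _) (by norm_num)
      _ ≤ 1 / 2 := by norm_num
  refine ⟨HP ℓ, bP ℓ, fun τ => ∫ t in (2 * ℓ)..τ, bP ℓ t, 2 * ℓ, 2 * ℓ, by positivity,
    by positivity, HP_contDiff ℓ, bP_contDiff ℓ, ?_, ?_, ?_, ?_, ?_, ?_, ?_, ?_⟩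
  · intro τ
    have hc := (bP_contDiff ℓ).continuous
    exact intervalIntegral.integral_hasDerivAt_right (hc.intervalIntegrable _ _)
      (hc.stronglyMeasurableAtFilter _ _) hc.continuousAt
  · intro s hs
    unfold HP psi2
    rw [show st (s ^ 2 / ℓ ^ 2 - 1) = 1 from Real.smoothTransition.one_of_one_le ?_]
    · ring
    · rw [le_sub_iff_add_le, le_div_iff₀ (by positivity), ← sq_abs s]
      nlinarith [abs_nonneg s]
  · intro τ hτ
    have hz : ∀ t, 2 * ℓ ≤ t → bP ℓ t = 0 := by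
      intro t ht
      unfold bP psi
      rw [show st (t / ℓ - 1) = 1 from Real.smoothTransition.one_of_one_le ?_]
      · ring
      · rw [le_sub_iff_add_le, le_div_iff₀ hℓ]; linarith
    refine ⟨hz τ hτ, ?_⟩
    have : ∫ t in (2 * ℓ)..τ, bP ℓ t = ∫ t in (2 * ℓ)..τ, (0:ℝ) := by
      apply intervalIntegral.integral_congr
      intro t ht
      rw [uIcc_of_le hτ] at ht
      exact hz t ht.1
    simp only [this]; simp
  · rw [hHd, (hin 0 (by simpa using hℓ.le)).1, (hin 0 (by simpa using hℓ.le)).2, sig_zero]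
    norm_num
  · unfold bP psi
    rw [show st (0 / ℓ - 1) = 0 from Real.smoothTransition.zero_of_nonpos (by simp)]
    norm_num
  · intro s τ hτ
    have hb := hb_abs τ hτ
    rcases le_or_gt |s| ℓ with h | h
    · have hH : |deriv (HP ℓ) s| ≤ 1 := by
        rw [hHd, (hin s h).1, (hin s h).2]
        have := hsig4 s
        rw [abs_of_pos (by linarith)]; linarith
      have h1 : |deriv (HP ℓ) s * bP ℓ τ| ≤ 1 := by
        rw [abs_mul]
        calc _ ≤ 1 * 1 := mul_le_mul hH hb (abs_nonneg _) (by norm_num)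
          _ = 1 := by norm_num
      exact (abs_le.mp h1).2
    · have h1 : |deriv (HP ℓ) s * bP ℓ τ| ≤ 1 := by
        rw [abs_mul]
        calc _ ≤ 1 / 2 * 1 := mul_le_mul (hout s h) hb (abs_nonneg _) (by norm_num)
          _ ≤ 1 := by norm_num
      exact (abs_le.mp h1).2
  · intro s τ hτ heq
    have hb := hb_abs τ hτ
    rcases le_or_gt |s| ℓ with h | h
    · have e1 : deriv (HP ℓ) s = 4 * sig s * (1 - sig s) := by
        rw [hHd, (hin s h).1, (hin s h).2]; ring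
      rw [e1] at heq
      have h4 := hsig4 s
      have hb1 : bP ℓ τ ≤ 1 := (abs_le.mp hb).2
      have hbpos : 0 < bP ℓ τ := by
        by_contra hneg
        push Not at hneg
        nlinarith
      have hb2 : bP ℓ τ = 1 := by
        apply le_antisymm hb1
        nlinarith
      have h5 : 4 * sig s * (1 - sig s) = 1 := by rw [hb2] at heq; linarith
      refine ⟨?_, hb_one τ hτ hb2⟩
      by_contra hne
      apply sig_ne_half hne
      have : (2 * sig s - 1) ^ 2 = 0 := by nlinarith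
      have := pow_eq_zero_iff (two_ne_zero) |>.mp this
      linarith
    · exfalso
      have h1 : |deriv (HP ℓ) s * bP ℓ τ| ≤ 1 / 2 := by
        rw [abs_mul]
        calc _ ≤ 1 / 2 * 1 := mul_le_mul (hout s h) hb (abs_nonneg _) (by norm_num)
          _ ≤ 1 / 2 := by norm_num
      rw [heq] at h1
      norm_num at h1
  · intro s τ hτ
    have h0 := sig_pos s
    have h01 := sig_lt_one s
    set g := Real.exp (-(τ / 2)) with hg
    have hgp : 0 < g := Real.exp_pos _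
    have hg1' : g ≤ 1 := hg1 τ hτ
    have hbase := base_ineq (S := sig s) (y := τ) h0.le h01.le hτ
    rw [← hg] at hbase
    have hψ := psi_mem ℓ τ
    have hψ2 := psi2_mem ℓ s
    have d1 := psi_deriv_bound hC hℓ τ
    have d2 := psi_deriv2_bound hC hℓ hτ
    have d3 := psi2_deriv_bound hC hℓ s
    rw [show 2 * C / ℓ = 2 * (C / ℓ) by ring, hCℓ] at d2
    rw [show 4 * C / ℓ = 4 * (C / ℓ) by ring, hCℓ] at d3
    rw [hCℓ] at d1
    have hτg := tau_exp_le hτ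
    rw [← hg] at hτg
    have hτg0 : 0 ≤ τ * g := by positivity
    have e1 : bP ℓ τ = (2 * g - 1) * psi ℓ τ := rfl
    have e2 : deriv (bP ℓ) τ = -g * psi ℓ τ + (2 * g - 1) * deriv (psi ℓ) τ := by
      rw [bP_deriv]
    have e3 : deriv (deriv (bP ℓ)) τ = 1 / 2 * g * psi ℓ τ - 2 * g * deriv (psi ℓ) τ
      + (2 * g - 1) * deriv (deriv (psi ℓ)) τ := bP_deriv2 ℓ τ
    have e4 : HP ℓ s = 2 / 5 * (1 + sig s) * psi2 ℓ s := rfl
    rw [e1, e2, e3, e4, hHd]
    set P1 := deriv (psi ℓ) τ with hP1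
    set P2 := deriv (deriv (psi ℓ)) τ with hP2
    set Q1 := deriv (psi2 ℓ) s with hQ1
    set ψ := psi ℓ τ
    set ψ2 := psi2 ℓ s
    set S := sig s
    have key : 1 - 2 * (4 * S * (1 - S) * ψ2 + 2 / 5 * (1 + S) * Q1) * ((2 * g - 1) * ψ) -
        2 / 5 * (1 + S) * ψ2 * (2 * (-g * ψ + (2 * g - 1) * P1) +
          4 * τ * (1 / 2 * g * ψ - 2 * g * P1 + (2 * g - 1) * P2)) =
        (1 - ψ * ψ2) + ψ * ψ2 * (1 - 2 * (4 * S * (1 - S)) * (2 * g - 1)
          - (2 / 5 * (1 + S)) * (2 * (τ - 1) * g))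
        - (4 / 5 * (1 + S) * ((2 * g - 1) * ψ)) * Q1
        - (2 / 5 * (1 + S) * ψ2 * (2 * (2 * g - 1) - 8 * (τ * g))) * P1
        - (8 / 5 * (1 + S) * ψ2 * (2 * g - 1)) * (τ * P2) := by ring
    rw [key]
    have h2g : |2 * g - 1| ≤ 1 := by rw [abs_le]; constructor <;> linarith
    have hS1 : |1 + S| ≤ 2 := by rw [abs_le]; constructor <;> linarith
    have hψa : |ψ| ≤ 1 := by rw [abs_le]; constructor <;> linarith [hψ.1, hψ.2]
    have hψ2a : |ψ2| ≤ 1 := by rw [abs_le]; constructor <;> linarith [hψ2.1, hψ2.2]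
    have h18 : |2 * (2 * g - 1) - 8 * (τ * g)| ≤ 18 := by
      rw [abs_le]; constructor <;> linarith
    have c45 : |(4 / 5 : ℝ)| ≤ 4 / 5 := by rw [abs_of_pos (by norm_num)]
    have c25 : |(2 / 5 : ℝ)| ≤ 2 / 5 := by rw [abs_of_pos (by norm_num)]
    have c85 : |(8 / 5 : ℝ)| ≤ 8 / 5 := by rw [abs_of_pos (by norm_num)]
    have b1 := amul (amul (amul c45 hS1) (amul h2g hψa)) d3
    have b2 := amul (amul (amul (amul c25 hS1) hψ2a) h18) d1
    have b3 := amul (amul (amul (amul c85 hS1) hψ2a) h2g) d2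
    have b1' := (abs_le.mp b1).2
    have b2' := (abs_le.mp b2).2
    have b3' := (abs_le.mp b3).2
    have hψψ : 0 ≤ ψ * ψ2 := mul_nonneg hψ.1 hψ2.1
    have hψψ1 : ψ * ψ2 ≤ 1 := by
      calc ψ * ψ2 ≤ 1 * 1 := mul_le_mul hψ.2 hψ2.2 hψ2.1 (by norm_num)
        _ = 1 := by norm_num
    have hmain : 1 / 50 ≤ (1 - ψ * ψ2) + ψ * ψ2 * (1 - 2 * (4 * S * (1 - S)) * (2 * g - 1)
          - (2 / 5 * (1 + S)) * (2 * (τ - 1) * g)) := by
      have := mul_le_mul_of_nonneg_left hbase hψψ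
      nlinarith
    norm_num at b1' b2' b3' ⊢
    linarith

end Pool.Agent.Work.MP_0fcc57_gt
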