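import Pool.Agent.Work.MP_0fcc57_gt.ManifoldDefs
import Pool.Agent.Work.MP_0fcc57_gt.Germ

/-!
# The quotient of `ℝ^n` by a free, properly discontinuous, smooth action as a smooth manifold
-/

open scoped ContDiff Manifold Topology
open Filter Set

noncomputable section

namespace Pool.Agent.Work.MP_0fcc57_gt

section quot

variable {n : ℕ} (Γ : Type) [Group Γ] [MulAction Γ (Fin n → ℝ)]

/-- the quotient space -/
abbrev QS (n : ℕ) (Γ : Type) [Group Γ] [MulAction Γ (Fin n → ℝ)] : Type :=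
  MulAction.orbitRel.Quotient Γ (Fin n → ℝ)

/-- the projection -/
def prj : (Fin n → ℝ) → QS n Γ := Quotient.mk (MulAction.orbitRel Γ (Fin n → ℝ))

variable {Γ}

theorem prj_smul (γ : Γ) (x : Fin n → ℝ) : prj Γ (γ • x) = prj Γ x :=
  Quotient.sound ⟨γ, rfl⟩

theorem prj_eq {x y : Fin n → ℝ} (h : prj Γ x = prj Γ y) : ∃ γ : Γ, γ • x = y := by
  obtain ⟨γ, hγ⟩ := Quotient.exact h.symm
  exact ⟨γ, hγ⟩

theorem prj_surjective : Function.Surjective (prj (n := n) Γ) := Quotient.mk_surjective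

variable [ContinuousConstSMul Γ (Fin n → ℝ)]
  [ProperlyDiscontinuousSMul Γ (Fin n → ℝ)] [IsCancelSMul Γ (Fin n → ℝ)]

theorem hloc : IsLocalHomeomorph (prj (n := n) Γ) :=
  isQuotientCoveringMap_quotientMk_of_properlyDiscontinuousSMul.isCoveringMap.isLocalHomeomorph

/-- the section used in the charts -/
def sec (q : QS n Γ) : Fin n → ℝ :=
  (Quotient.mk_surjective (s := MulAction.orbitRel Γ (Fin n → ℝ))).hasRightInverse.choose q

theorem prj_sec (q : QS n Γ) : prj Γ (sec q) = q :=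
  (Quotient.mk_surjective (s := MulAction.orbitRel Γ (Fin n → ℝ))).hasRightInverse.choose_spec q

theorem chartAt_quot (q : QS n Γ) :
    chartAt (Fin n → ℝ) q = (hloc (Γ := Γ)).localInverseAt (sec q) := by
  have h : chartAt (Fin n → ℝ) q =
    ((hloc (Γ := Γ)).localInverseAt (sec q)).trans (chartAt (Fin n → ℝ) (sec q)) := rfl
  rw [h, chartAt_self_eq, OpenPartialHomeomorph.trans_refl]

theorem mem_atlas_quot {e : OpenPartialHomeomorph (QS n Γ) (Fin n → ℝ)}
    (he : e ∈ atlas (Fin n → ℝ) (QS n Γ)) : ∃ x, e = (hloc (Γ := Γ)).localInverseAt x := by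
  obtain ⟨q, hq⟩ := he
  refine ⟨sec q, ?_⟩
  rw [← hq]
  have h : ((hloc (Γ := Γ)).localInverseAt (sec q)).trans (chartAt (Fin n → ℝ) (sec q)) =
    ((hloc (Γ := Γ)).localInverseAt (sec q)).trans (chartAt (Fin n → ℝ) (sec q)) := rfl
  refine h.trans ?_
  rw [chartAt_self_eq, OpenPartialHomeomorph.trans_refl]

/-- a chart composed with the projection is locally a group element -/
theorem chart_prj (a : Fin n → ℝ) {x : Fin n → ℝ}
    (hx : prj Γ x ∈ ((hloc (Γ := Γ)).localInverseAt a).source) :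
    ∃ γ : Γ, γ • x = (hloc (Γ := Γ)).localInverseAt a (prj Γ x) ∧
      (fun z => (hloc (Γ := Γ)).localInverseAt a (prj Γ z)) =ᶠ[𝓝 x] fun z => γ • z := by
  set e := (hloc (Γ := Γ)).localInverseAt a with he
  have h1 : prj Γ (e (prj Γ x)) = prj Γ x := (hloc (Γ := Γ)).apply_localInverseAt_of_mem hx
  obtain ⟨γ, hγ⟩ := prj_eq h1.symm
  refine ⟨γ, hγ, ?_⟩
  have h2 : ∀ᶠ z in 𝓝 x, γ • z ∈ e.target := by
    have hc : ContinuousAt (fun z : Fin n → ℝ => γ • z) x := (continuous_const_smul γ).continuousAt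
    apply hc.eventually
    apply e.open_target.mem_nhds
    show γ • x ∈ e.target
    rw [hγ]
    exact e.map_source hx
  filter_upwards [h2] with z hz
  have h3 : e.symm (γ • z) = prj Γ z := by
    have : (e.symm : (Fin n → ℝ) → QS n Γ) = prj Γ := (hloc (Γ := Γ)).localInverseAt_symm a
    rw [this, prj_smul]
  rw [← h3, e.right_inv hz]

theorem isManifold_quot (hsm : ∀ γ : Γ, ContDiff ℝ ∞ (fun p : Fin n → ℝ => γ • p)) :
    IsManifold 𝓘(ℝ, Fin n → ℝ) ∞ (QS n Γ) := by
  apply isManifold_of_contDiffOn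
  intro e e' he he'
  obtain ⟨a, rfl⟩ := mem_atlas_quot he
  obtain ⟨b, rfl⟩ := mem_atlas_quot he'
  simp only [modelWithCornersSelf_coe, modelWithCornersSelf_coe_symm, Function.comp_id,
    Function.id_comp, Set.preimage_id, Set.range_id, Set.inter_univ]
  intro x hx
  apply ContDiffAt.contDiffWithinAt
  rw [OpenPartialHomeomorph.trans_source, OpenPartialHomeomorph.symm_source] at hx
  have hs : (((hloc (Γ := Γ)).localInverseAt a).symm : (Fin n → ℝ) → QS n Γ) = prj Γ :=
    (hloc (Γ := Γ)).localInverseAt_symm a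
  have hx2 : prj Γ x ∈ ((hloc (Γ := Γ)).localInverseAt b).source := by
    have := hx.2
    rw [Set.mem_preimage, hs] at this
    exact this
  obtain ⟨γ, -, hγ⟩ := chart_prj b hx2
  refine (hsm γ).contDiffAt.congr_of_eventuallyEq ?_
  filter_upwards [hγ] with z hz
  rw [OpenPartialHomeomorph.coe_trans, Function.comp_apply, hs]
  exact hz

/-- the differential of the projection, read in the preferred charts -/
theorem mfderiv_prj (hsm : ∀ γ : Γ, ContDiff ℝ ∞ (fun p : Fin n → ℝ => γ • p)) (x : Fin n → ℝ) :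
    ∃ γ : Γ, γ • x = chartAt (Fin n → ℝ) (prj Γ x) (prj Γ x) ∧
      (mfderiv 𝓘(ℝ, Fin n → ℝ) 𝓘(ℝ, Fin n → ℝ) (prj Γ) x : (Fin n → ℝ) →L[ℝ] (Fin n → ℝ))
        = fderiv ℝ (fun p : Fin n → ℝ => γ • p) x := by
  have hmem : prj Γ x ∈ ((hloc (Γ := Γ)).localInverseAt (sec (prj Γ x))).source := by
    rw [← chartAt_quot]
    exact mem_chart_source _ _
  obtain ⟨γ, h1, h2⟩ := chart_prj (sec (prj Γ x)) hmem
  refine ⟨γ, ?_, ?_⟩
  · rw [chartAt_quot]; exact h1
  · have hw : writtenInExtChartAt 𝓘(ℝ, Fin n → ℝ) 𝓘(ℝ, Fin n → ℝ) x (prj Γ) =ᶠ[𝓝 x]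
        fun z => γ • z := by
      filter_upwards [h2] with z hz
      simp only [writtenInExtChartAt, extChartAt, mfld_simps]
      rw [chartAt_quot]
      exact hz
    have hsd : DifferentiableAt ℝ (fun z : Fin n → ℝ => γ • z) x :=
      (hsm γ).contDiffAt.differentiableAt (by simp)
    have hx : extChartAt 𝓘(ℝ, Fin n → ℝ) x x = x := rfl
    have hd : MDifferentiableAt 𝓘(ℝ, Fin n → ℝ) 𝓘(ℝ, Fin n → ℝ) (prj (n := n) Γ) x := by
      rw [mdifferentiableAt_iff]
      refine ⟨(hloc (Γ := Γ)).continuous.continuousAt, ?_⟩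
      rw [hx]
      exact (hsd.congr_of_eventuallyEq hw).differentiableWithinAt
    rw [hd.mfderiv, hx]
    simp only [modelWithCornersSelf_coe, Set.range_id]
    rw [fderivWithin_univ]
    exact hw.fderiv_eq

end quot

end Pool.Agent.Work.MP_0fcc57_gt
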