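import Pool.Agent.Work.MP_0fcc57_gt.QuotMan

/-!
# Local diffeomorphism property of the projection; push-forward of invariant metrics
-/

open scoped ContDiff Manifold Topology
open Filter Set

noncomputable section

namespace Pool.Agent.Work.MP_0fcc57_gt

section quot

variable {n : ℕ} {Γ : Type} [Group Γ] [MulAction Γ (Fin n → ℝ)]
variable [ContinuousConstSMul Γ (Fin n → ℝ)]
  [ProperlyDiscontinuousSMul Γ (Fin n → ℝ)] [IsCancelSMul Γ (Fin n → ℝ)]

theorem contMDiff_prj (hsm : ∀ γ : Γ, ContDiff ℝ ∞ (fun p : Fin n → ℝ => γ • p)) :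
    ContMDiff 𝓘(ℝ, Fin n → ℝ) 𝓘(ℝ, Fin n → ℝ) ∞ (prj (n := n) Γ) := by
  intro x
  rw [contMDiffAt_iff]
  refine ⟨(hloc (Γ := Γ)).continuous.continuousAt, ?_⟩
  have hmem : prj Γ x ∈ ((hloc (Γ := Γ)).localInverseAt (sec (prj Γ x))).source := by
    rw [← chartAt_quot]
    exact mem_chart_source _ _
  obtain ⟨γ, h1, h2⟩ := chart_prj (sec (prj Γ x)) hmem
  have hx : extChartAt 𝓘(ℝ, Fin n → ℝ) x x = x := rfl
  rw [hx]
  refine ((hsm γ).contDiffAt.congr_of_eventuallyEq ?_).contDiffWithinAt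
  filter_upwards [h2] with z hz
  simp only [extChartAt, mfld_simps]
  rw [chartAt_quot]
  exact hz

theorem symm_chartAt_quot (q : QS n Γ) :
    ((chartAt (Fin n → ℝ) q).symm : (Fin n → ℝ) → QS n Γ) = prj Γ := by
  rw [chartAt_quot]
  exact (hloc (Γ := Γ)).localInverseAt_symm _

theorem symm_extChartAt_quot (q : QS n Γ) :
    ((extChartAt 𝓘(ℝ, Fin n → ℝ) q).symm : (Fin n → ℝ) → QS n Γ) = prj Γ := by
  simp only [extChartAt, mfld_simps]
  exact symm_chartAt_quot q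

theorem contMDiffOn_inv (hsm : ∀ γ : Γ, ContDiff ℝ ∞ (fun p : Fin n → ℝ => γ • p))
    (a : Fin n → ℝ) :
    ContMDiffOn 𝓘(ℝ, Fin n → ℝ) 𝓘(ℝ, Fin n → ℝ) ∞ ((hloc (Γ := Γ)).localInverseAt a)
      ((hloc (Γ := Γ)).localInverseAt a).source := by
  intro q hq
  apply ContMDiffAt.contMDiffWithinAt
  rw [contMDiffAt_iff]
  refine ⟨((hloc (Γ := Γ)).localInverseAt a).continuousAt hq, ?_⟩
  have hq2 : prj Γ (extChartAt 𝓘(ℝ, Fin n → ℝ) q q) = q := by
    have := (extChartAt 𝓘(ℝ, Fin n → ℝ) q).left_inv (mem_extChartAt_source q)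
    rwa [symm_extChartAt_quot] at this
  obtain ⟨γ, h1, h2⟩ := chart_prj a (x := extChartAt 𝓘(ℝ, Fin n → ℝ) q q) (by rw [hq2]; exact hq)
  refine ((hsm γ).contDiffAt.congr_of_eventuallyEq ?_).contDiffWithinAt
  filter_upwards [h2] with z hz
  simp only [Function.comp_apply]
  rw [symm_extChartAt_quot]
  exact hz

theorem isLocalDiffeomorph_prj (hsm : ∀ γ : Γ, ContDiff ℝ ∞ (fun p : Fin n → ℝ => γ • p)) :
    IsLocalDiffeomorph 𝓘(ℝ, Fin n → ℝ) 𝓘(ℝ, Fin n → ℝ) ∞ (prj (n := n) Γ) := by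
  intro x
  let e := (hloc (Γ := Γ)).localInverseAt x
  have hs : (e.symm : (Fin n → ℝ) → QS n Γ) = prj Γ := (hloc (Γ := Γ)).localInverseAt_symm x
  refine ⟨⟨e.symm.toPartialEquiv, e.open_target, e.open_source, ?_, ?_⟩, ?_, ?_⟩
  · show ContMDiffOn _ _ _ (e.symm : (Fin n → ℝ) → QS n Γ) _
    rw [hs]
    exact (contMDiff_prj hsm).contMDiffOn
  · exact contMDiffOn_inv hsm x
  · exact (hloc (Γ := Γ)).self_mem_localInverseAt_target
  · intro z _
    show prj Γ z = e.symm z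
    rw [hs]

/-- smoothness can be tested after composition with the projection -/
theorem contMDiffAt_of_prj (hsm : ∀ γ : Γ, ContDiff ℝ ∞ (fun p : Fin n → ℝ => γ • p))
    {E' : Type*} [NormedAddCommGroup E'] [NormedSpace ℝ E'] {H' : Type*} [TopologicalSpace H']
    (I' : ModelWithCorners ℝ E' H') {N : Type*} [TopologicalSpace N] [ChartedSpace H' N]
    {F : QS n Γ → N} {x : Fin n → ℝ}
    (h : ContMDiffAt 𝓘(ℝ, Fin n → ℝ) I' ∞ (fun z => F (prj Γ z)) x) :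
    ContMDiffAt 𝓘(ℝ, Fin n → ℝ) I' ∞ F (prj Γ x) := by
  let e := (hloc (Γ := Γ)).localInverseAt x
  have hmem : prj Γ x ∈ e.source := (hloc (Γ := Γ)).apply_self_mem_localInverseAt_source
  have he : ContMDiffAt 𝓘(ℝ, Fin n → ℝ) 𝓘(ℝ, Fin n → ℝ) ∞ e (prj Γ x) :=
    (contMDiffOn_inv hsm x).contMDiffAt (e.open_source.mem_nhds hmem)
  have hx : e (prj Γ x) = x := (hloc (Γ := Γ)).localInverseAt_apply_self
  have h' : ContMDiffAt 𝓘(ℝ, Fin n → ℝ) I' ∞ (fun z => F (prj Γ z)) (e (prj Γ x)) := by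
    rw [hx]; exact h
  have hc := ContMDiffAt.comp (prj Γ x) h' he
  refine hc.congr_of_eventuallyEq ?_
  filter_upwards [e.open_source.mem_nhds hmem] with q hq
  show F q = F (prj Γ (e q))
  rw [(hloc (Γ := Γ)).apply_localInverseAt_of_mem hq]

end quot

section bil
variable {n : ℕ}

/-- the bilinear form of a matrix -/
def bil (A : Matrix (Fin n) (Fin n) ℝ) : (Fin n → ℝ) →L[ℝ] (Fin n → ℝ) →L[ℝ] ℝ :=
  ∑ i, ∑ j, A i j • ContinuousLinearMap.smulRight
    (ContinuousLinearMap.proj i : (Fin n → ℝ) →L[ℝ] ℝ)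
    (ContinuousLinearMap.proj j : (Fin n → ℝ) →L[ℝ] ℝ)

theorem bil_apply (A : Matrix (Fin n) (Fin n) ℝ) (v w : Fin n → ℝ) :
    bil A v w = ∑ i, ∑ j, A i j * v i * w j := by
  simp [bil, mul_assoc]

theorem bil_eq_ip (G : CoordMetric n) (y v w : Fin n → ℝ) : bil (G y) v w = ip G y v w :=
  bil_apply _ _ _

theorem contDiff_smul_const {V : Type*} [NormedAddCommGroup V] [NormedSpace ℝ V]
    {f : (Fin n → ℝ) → ℝ} (hf : ContDiff ℝ ∞ f) (c : V) : ContDiff ℝ ∞ (fun p => f p • c) :=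
  hf.smul contDiff_const

theorem contDiff_bil {G : CoordMetric n} (hG : ∀ i j, ContDiff ℝ ∞ (fun p => G p i j)) :
    ContDiff ℝ ∞ (fun p => bil (G p)) := by
  unfold bil
  refine ContDiff.sum fun i _ => ContDiff.sum fun j _ => ?_
  exact contDiff_smul_const (hG i j) _

theorem bounded_bil {A : Matrix (Fin n) (Fin n) ℝ} (hpos : ∀ v, v ≠ 0 → 0 < bil A v v) :
    Bornology.IsVonNBounded ℝ {v : Fin n → ℝ | bil A v v < 1} := by
  rw [NormedSpace.isVonNBounded_iff]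
  rcases Nat.eq_zero_or_pos n with rfl | hn
  · exact (Set.toFinite _).isBounded
  have hne : (Metric.sphere (0 : Fin n → ℝ) 1).Nonempty := by
    have : Nonempty (Fin n) := ⟨⟨0, hn⟩⟩
    have : Nontrivial (Fin n → ℝ) := Function.nontrivial
    exact (NormedSpace.sphere_nonempty).2 zero_le_one
  have hcont : Continuous fun v : Fin n → ℝ => bil A v v := by
    exact (bil A).continuous.clm_apply continuous_id
  obtain ⟨v0, hv0, hmin⟩ := (isCompact_sphere (0 : Fin n → ℝ) 1).exists_isMinOn hne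
    hcont.continuousOn
  have hv0' : ‖v0‖ = 1 := by simpa using hv0
  have hc : 0 < bil A v0 v0 := hpos v0 (by
    intro h; rw [h] at hv0'; simp at hv0')
  set c := bil A v0 v0 with hcdef
  have key : ∀ v : Fin n → ℝ, c * ‖v‖ ^ 2 ≤ bil A v v := by
    intro v
    by_cases hv : v = 0
    · subst hv; simp
    have hvn : 0 < ‖v‖ := norm_pos_iff.2 hv
    have h1 : ‖v‖⁻¹ • v ∈ Metric.sphere (0 : Fin n → ℝ) 1 := by
      simp [norm_smul, hvn.ne']
    have h2 : c ≤ bil A (‖v‖⁻¹ • v) (‖v‖⁻¹ • v) := hmin h1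
    have h3 : c ≤ ‖v‖⁻¹ * (‖v‖⁻¹ * bil A v v) := by
      simpa using h2
    have h4 : c * ‖v‖ ^ 2 ≤ ‖v‖⁻¹ * (‖v‖⁻¹ * bil A v v) * ‖v‖ ^ 2 :=
      mul_le_mul_of_nonneg_right h3 (by positivity)
    have h5 : ‖v‖⁻¹ * (‖v‖⁻¹ * bil A v v) * ‖v‖ ^ 2 = bil A v v := by
      field_simp
    linarith
  rw [isBounded_iff_forall_norm_le]
  refine ⟨Real.sqrt (1 / c), fun v hv => ?_⟩
  apply Real.le_sqrt_of_sq_le
  rw [le_div_iff₀ hc]
  have := key v
  have hv' : bil A v v < 1 := hv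
  linarith

end bil

end Pool.Agent.Work.MP_0fcc57_gt
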