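import Pool.Agent.Work.MP_0fcc57_gt.Radial1

/-!
# Radial background, second part
-/

open scoped ContDiff Topology
open Real Set Filter

noncomputable section

namespace Pool.Agent.Work.MP_0fcc57_gt

/-- flattened identity. -/
def kap (up u : ℝ) : ℝ := u - Th (u - up)

lemma kap_left {up u : ℝ} (h : u ≤ up) : kap up u = u := by
  unfold kap; rw [Th_of_nonpos (by linarith)]; ring

lemma kap_right {up u : ℝ} (h : up + 1 ≤ u) : kap up u = up + c0 := by
  unfold kap; rw [Th_of_one_le (by linarith)]; ring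

lemma kap_contDiff (up : ℝ) : ContDiff ℝ ∞ (kap up) :=
  contDiff_id.sub (Th_contDiff.comp (contDiff_id.sub contDiff_const))

lemma kap_hasDerivAt (up u : ℝ) : HasDerivAt (kap up) (1 - st (u - up)) u := by
  have h := (Th_hasDerivAt (u - up)).comp u ((hasDerivAt_id' u).sub_const up)
  exact ((hasDerivAt_id' u).fun_sub h).congr_deriv (by ring)

/-- the cutoff -/
def cut (u : ℝ) : ℝ := st (2 * u - 1)

lemma cut_contDiff : ContDiff ℝ ∞ cut :=
  st_contDiff.comp ((contDiff_const.mul contDiff_id).sub contDiff_const)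

lemma cut_left {u : ℝ} (h : u ≤ 1 / 2) : cut u = 0 :=
  Real.smoothTransition.zero_of_nonpos (by linarith)

lemma cut_right {u : ℝ} (h : 1 ≤ u) : cut u = 1 :=
  Real.smoothTransition.one_of_one_le (by linarith)

lemma cut_nonneg (u : ℝ) : 0 ≤ cut u := Real.smoothTransition.nonneg _

/-- The middle profile. -/
def What (Λ up u : ℝ) : ℝ :=
  cut u * u * Real.exp (Real.log (1 + u) / 8 + Λ * (up + c0 - kap up u))

/-- The tail factor. -/
def Etail (L u : ℝ) : ℝ := Real.exp (-(1 / 8) * Th (L - Real.log (1 + u)))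

/-- The full profile. -/
def wfull (Λ up L u : ℝ) : ℝ :=
  w1 u + cut u * u * Etail L u * Real.exp (Λ * (up + c0 - kap up u))

lemma Etail_mid {L u : ℝ} (h : 1 ≤ L - Real.log (1 + u)) :
    Etail L u = Real.exp (-(L - c0) / 8) * Real.exp (Real.log (1 + u) / 8) := by
  unfold Etail
  rw [Th_of_one_le h, ← Real.exp_add]
  congr 1; ring

lemma wfull_mid {Λ up L u : ℝ} (h : 1 ≤ L - Real.log (1 + u)) :
    wfull Λ up L u = w1 u + Real.exp (-(L - c0) / 8) * What Λ up u := by
  unfold wfull What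
  rw [Etail_mid h, Real.exp_add]
  ring

lemma wfull_left {Λ up L u : ℝ} (h : u ≤ 1 / 2) : wfull Λ up L u = w1 u := by
  unfold wfull
  rw [cut_left h]; ring

lemma wfull_right {Λ up L u : ℝ} (hup : 1 ≤ up) (h : up + 1 ≤ u) :
    wfull Λ up L u = u * Etail L u := by
  unfold wfull
  rw [w1_zero (by linarith), cut_right (by linarith), kap_right h]
  simp

lemma Etail_contDiffOn (L : ℝ) : ContDiffOn ℝ ∞ (Etail L) (Ioi (-1)) := by
  unfold Etail
  apply Real.contDiff_exp.comp_contDiffOn
  apply contDiffOn_const.mul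
  apply Th_contDiff.comp_contDiffOn
  apply contDiffOn_const.sub
  apply ContDiffOn.log (contDiffOn_const.add contDiffOn_id)
  intro x hx
  have : -1 < x := hx
  simp only [id]; linarith

lemma wfull_contDiff (Λ up L : ℝ) : ContDiff ℝ ∞ (wfull Λ up L) := by
  rw [contDiff_iff_contDiffAt]
  intro u
  rcases lt_or_ge u (1/2) with h | h
  · apply w1_contDiff.contDiffAt.congr_of_eventuallyEq
    filter_upwards [Iio_mem_nhds h] with x hx using wfull_left (le_of_lt hx)
  · unfold wfull
    apply w1_contDiff.contDiffAt.add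
    apply ContDiffAt.mul
    · apply ContDiffAt.mul
      · exact (cut_contDiff.mul contDiff_id).contDiffAt
      · exact (Etail_contDiffOn L).contDiffAt (Ioi_mem_nhds (by linarith))
    · apply ContDiff.contDiffAt
      exact (contDiff_const.mul (contDiff_const.sub (kap_contDiff up))).exp

lemma What_contDiffOn (Λ up : ℝ) : ContDiffOn ℝ ∞ (What Λ up) (Ioi (-1)) := by
  unfold What
  apply ContDiffOn.mul
  · exact (cut_contDiff.mul contDiff_id).contDiffOn
  · apply Real.contDiff_exp.comp_contDiffOn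
    apply ContDiffOn.add
    · apply ContDiffOn.div_const
      apply ContDiffOn.log (contDiffOn_const.add contDiffOn_id)
      intro x hx
      have : -1 < x := hx
      simp only [id]; linarith
    · exact (contDiff_const.mul (contDiff_const.sub (kap_contDiff up))).contDiffOn

lemma What_pos {Λ up u : ℝ} (h : 1 ≤ u) : 0 < What Λ up u := by
  unfold What
  rw [cut_right h]
  positivity

lemma wfull_pos {Λ up L u : ℝ} (h : 0 < u) : 0 < wfull Λ up L u := by
  unfold wfull
  have h1 : 0 ≤ w1 u := by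
    rcases lt_or_ge u 2 with h2 | h2
    · exact (w1_pos h h2).le
    · rw [w1_zero h2]
  have hE : 0 < Etail L u := Real.exp_pos _
  have hexp := Real.exp_pos (Λ * (up + c0 - kap up u))
  rcases lt_or_ge u 2 with h2 | h2
  · have h3 := w1_pos h h2
    have h4 : 0 ≤ cut u * u * Etail L u * Real.exp (Λ * (up + c0 - kap up u)) := by
      have := cut_nonneg u
      positivity
    linarith
  · rw [cut_right (by linarith)]
    have : 0 < 1 * u * Etail L u * Real.exp (Λ * (up + c0 - kap up u)) := by positivity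
    linarith

lemma What_hasDerivAt {Λ up u : ℝ} (hu : 1 < u) : HasDerivAt (What Λ up)
    (Real.exp (Real.log (1 + u) / 8 + Λ * (up + c0 - kap up u)) *
      (1 + u * (1 / (8 * (1 + u)) - Λ * (1 - st (u - up))))) u := by
  have hlog : HasDerivAt (fun x : ℝ => Real.log (1 + x) / 8) (1 / (1 + u) / 8) u := by
    have := ((hasDerivAt_id' u).const_add 1).log (by linarith : (1 : ℝ) + u ≠ 0)
    exact this.div_const 8
  have hk := ((kap_hasDerivAt up u).const_sub (up + c0)).const_mul Λ
  have h1 := (hlog.fun_add hk).exp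
  have h2 := (hasDerivAt_id' u).fun_mul h1
  refine (h2.congr_of_eventuallyEq ?_).congr_deriv ?_
  · filter_upwards [Ioi_mem_nhds hu] with x hx
    unfold What
    rw [cut_right (le_of_lt hx)]
    ring
  · have : (1 : ℝ) + u ≠ 0 := by linarith
    field_simp
    ring

/-- coefficient of `δ` in `Xi (w1 + δ What)` -/
def Xi1 (w w' w'' p p' p'' u : ℝ) : ℝ :=
  (2 - w') * ((1 / u + 1 / (1 + u)) * p - p') - p' * ((1 / u + 1 / (1 + u)) * w - w')
    - 2 * w * p'' - 2 * p * w''

/-- coefficient of `δ²` in `Xi (w1 + δ What)` -/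
def Xi2 (p p' p'' u : ℝ) : ℝ := - p' * ((1 / u + 1 / (1 + u)) * p - p') - 2 * p * p''

lemma Xi_expand (w w' w'' p p' p'' δ u : ℝ) :
    Xi (w + δ * p) (w' + δ * p') (w'' + δ * p'') u =
      Xi w w' w'' u + δ * (Xi1 w w' w'' p p' p'' u + δ * Xi2 p p' p'' u) := by
  unfold Xi Xi1 Xi2; ring

lemma w1_deriv_two_le {u : ℝ} (hu : 2 ≤ u) : deriv w1 u = 0 := by
  rcases hu.lt_or_eq with h | h
  · have : w1 =ᶠ[𝓝 u] fun _ => 0 := by
      filter_upwards [Ioi_mem_nhds h] with x hx using w1_zero (le_of_lt hx)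
    rw [this.deriv_eq]; simp
  · subst h
    have hev : w1 =ᶠ[𝓝 (2:ℝ)] v0 := by
      filter_upwards [Ioi_mem_nhds (show (3/2 : ℝ) < 2 by norm_num)] with x hx
        using w1_right (le_of_lt hx)
    rw [hev.deriv_eq]
    apply IsLocalMin.deriv_eq_zero
    apply Filter.Eventually.of_forall
    intro x
    rw [v0_of_ge (le_refl 2)]; exact v0_nonneg x

lemma w1_deriv2_two_le {u : ℝ} (hu : 2 ≤ u) : deriv (deriv w1) u = 0 := by
  rcases hu.lt_or_eq with h | h
  · have : deriv w1 =ᶠ[𝓝 u] fun _ => 0 := by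
      filter_upwards [Ioi_mem_nhds h] with x hx using w1_deriv_two_le (le_of_lt hx)
    rw [this.deriv_eq]; simp
  · subst h
    apply IsLocalMax.deriv_eq_zero
    have hev : w1 =ᶠ[𝓝 (2:ℝ)] v0 := by
      filter_upwards [Ioi_mem_nhds (show (3/2 : ℝ) < 2 by norm_num)] with x hx
        using w1_right (le_of_lt hx)
    filter_upwards [hev.deriv] with x hx
    rw [w1_deriv_two_le (le_refl 2), hx]
    exact v0_deriv_nonpos x

lemma Xi_zero_of_two_le {u : ℝ} (hu : 2 ≤ u) : Xi (w1 u) (deriv w1 u) (deriv (deriv w1) u) u = 0 := by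
  rw [w1_zero hu, w1_deriv_two_le hu, w1_deriv2_two_le hu]; simp [Xi]

lemma Xi1_pos {Λ up u : ℝ} (hΛ : 0 ≤ Λ) (hu : 2 ≤ u) :
    0 < Xi1 (w1 u) (deriv w1 u) (deriv (deriv w1) u) (What Λ up u) (deriv (What Λ up) u)
      (deriv (deriv (What Λ up)) u) u := by
  rw [w1_zero hu, w1_deriv_two_le hu, w1_deriv2_two_le hu,
    (What_hasDerivAt (by linarith : (1:ℝ) < u)).deriv]
  unfold Xi1 What
  rw [cut_right (by linarith)]
  set e := Real.exp (Real.log (1 + u) / 8 + Λ * (up + c0 - kap up u)) with he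
  have hepos : 0 < e := Real.exp_pos _
  have hu0 : 0 < u := by linarith
  have h1 : (2 - 0) * ((1 / u + 1 / (1 + u)) * (1 * u * e) -
      e * (1 + u * (1 / (8 * (1 + u)) - Λ * (1 - st (u - up))))) -
      e * (1 + u * (1 / (8 * (1 + u)) - Λ * (1 - st (u - up)))) *
        ((1 / u + 1 / (1 + u)) * 0 - 0) -
      2 * 0 * deriv (deriv (What Λ up)) u - 2 * (1 * u * e) * 0 =
      2 * e * u * (7 / (8 * (1 + u)) + Λ * (1 - st (u - up))) := by
    field_simp
    ring
  have h2 : 0 ≤ Λ * (1 - st (u - up)) :=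
    mul_nonneg hΛ (by linarith [Real.smoothTransition.le_one (u - up)])
  have h3 : 0 < 7 / (8 * (1 + u)) := by positivity
  have h4 : 0 < 2 * e * u * (7 / (8 * (1 + u)) + Λ * (1 - st (u - up))) := by positivity
  calc (0:ℝ) < _ := h4
    _ = _ := h1.symm

lemma What_cont {Λ up u : ℝ} (hu : -1 < u) : ContinuousAt (What Λ up) u :=
  (What_contDiffOn Λ up).continuousOn.continuousAt (Ioi_mem_nhds hu)

lemma What_deriv_contDiffOn (Λ up : ℝ) : ContDiffOn ℝ ∞ (deriv (What Λ up)) (Ioi (-1)) :=
  ((contDiffOn_infty_iff_deriv_of_isOpen isOpen_Ioi).mp (What_contDiffOn Λ up)).2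

lemma What_deriv2_contDiffOn (Λ up : ℝ) :
    ContDiffOn ℝ ∞ (deriv (deriv (What Λ up))) (Ioi (-1)) :=
  ((contDiffOn_infty_iff_deriv_of_isOpen isOpen_Ioi).mp (What_deriv_contDiffOn Λ up)).2

lemma w1_deriv2_contDiff : ContDiff ℝ ∞ (deriv (deriv w1)) :=
  (contDiff_infty_iff_deriv.mp w1_deriv_contDiff).2

lemma mid_eventually {Λ up : ℝ} (hΛ : 0 ≤ Λ) :
    ∀ᶠ δ in 𝓝 (0:ℝ), ∀ u ∈ Icc (1/4 : ℝ) (up + 2), (0 < δ → u ∈ Icc (1/4 : ℝ) (up + 2) →
      0 < Xi (w1 u + δ * What Λ up u) (deriv w1 u + δ * deriv (What Λ up) u)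
        (deriv (deriv w1) u + δ * deriv (deriv (What Λ up)) u) u ∧
      deriv w1 u + δ * deriv (What Λ up) u < 2) := by
  apply isCompact_Icc.eventually_forall_of_forall_eventually
  intro y hy
  have hy0 : (0:ℝ) < y := by linarith [hy.1]
  have hy1 : (-1:ℝ) < y := by linarith
  have cw : ContinuousAt (fun z : ℝ × ℝ => w1 z.2) (0, y) :=
    (w1_contDiff.continuous.comp continuous_snd).continuousAt
  have cw' : ContinuousAt (fun z : ℝ × ℝ => deriv w1 z.2) (0, y) :=
    (w1_deriv_contDiff.continuous.comp continuous_snd).continuousAt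
  have cw'' : ContinuousAt (fun z : ℝ × ℝ => deriv (deriv w1) z.2) (0, y) :=
    (w1_deriv2_contDiff.continuous.comp continuous_snd).continuousAt
  have cp : ContinuousAt (fun z : ℝ × ℝ => What Λ up z.2) (0, y) :=
    ContinuousAt.comp (g := What Λ up) (f := Prod.snd) (What_cont hy1) continuousAt_snd
  have cp' : ContinuousAt (fun z : ℝ × ℝ => deriv (What Λ up) z.2) (0, y) :=
    ContinuousAt.comp (g := deriv (What Λ up)) (f := Prod.snd)
      ((What_deriv_contDiffOn Λ up).continuousOn.continuousAt (Ioi_mem_nhds hy1)) continuousAt_snd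
  have cp'' : ContinuousAt (fun z : ℝ × ℝ => deriv (deriv (What Λ up)) z.2) (0, y) :=
    ContinuousAt.comp (g := deriv (deriv (What Λ up))) (f := Prod.snd)
      ((What_deriv2_contDiffOn Λ up).continuousOn.continuousAt (Ioi_mem_nhds hy1)) continuousAt_snd
  have cu : ContinuousAt (fun z : ℝ × ℝ => 1 / z.2 + 1 / (1 + z.2)) (0, y) := by
    apply ContinuousAt.add
    · exact continuousAt_const.div continuousAt_snd (by simpa using hy0.ne')
    · exact continuousAt_const.div (continuousAt_const.add continuousAt_snd)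
        (by simp; linarith)
  have cδ : ContinuousAt (fun z : ℝ × ℝ => z.1) (0, y) := continuousAt_fst
  have hlt : ∀ᶠ z : ℝ × ℝ in 𝓝 (0, y), deriv w1 z.2 + z.1 * deriv (What Λ up) z.2 < 2 := by
    have hc : ContinuousAt (fun z : ℝ × ℝ => deriv w1 z.2 + z.1 * deriv (What Λ up) z.2) (0, y) :=
      cw'.add (cδ.mul cp')
    apply hc.eventually_lt_const
    have := w1_deriv_le_one y
    simp; linarith
  rcases lt_or_ge y 2 with h2 | h2
  · have hc : ContinuousAt (fun z : ℝ × ℝ => Xi (w1 z.2 + z.1 * What Λ up z.2)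
        (deriv w1 z.2 + z.1 * deriv (What Λ up) z.2)
        (deriv (deriv w1) z.2 + z.1 * deriv (deriv (What Λ up)) z.2) z.2) (0, y) := by
      unfold Xi
      exact ((continuousAt_const.sub (cw'.add (cδ.mul cp'))).mul
        ((cu.mul (cw.add (cδ.mul cp))).sub (cw'.add (cδ.mul cp')))).sub
        ((continuousAt_const.mul (cw.add (cδ.mul cp))).mul (cw''.add (cδ.mul cp'')))
    have hpos := hc.eventually_const_lt (u := 0) (by
      have := w1_Xi_pos hy0 h2
      simpa using this)
    filter_upwards [hpos, hlt] with z h3 h4 _ _ using ⟨h3, h4⟩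
  · have hc : ContinuousAt (fun z : ℝ × ℝ => Xi1 (w1 z.2) (deriv w1 z.2) (deriv (deriv w1) z.2)
        (What Λ up z.2) (deriv (What Λ up) z.2) (deriv (deriv (What Λ up)) z.2) z.2 +
        z.1 * Xi2 (What Λ up z.2) (deriv (What Λ up) z.2) (deriv (deriv (What Λ up)) z.2) z.2)
        (0, y) := by
      unfold Xi1 Xi2
      exact (((((continuousAt_const.sub cw').mul ((cu.mul cp).sub cp')).sub
        (cp'.mul ((cu.mul cw).sub cw'))).sub ((continuousAt_const.mul cw).mul cp'')).sub
        ((continuousAt_const.mul cp).mul cw'')).add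
        (cδ.mul ((cp'.neg.mul ((cu.mul cp).sub cp')).sub ((continuousAt_const.mul cp).mul cp'')))
    have hpos := hc.eventually_const_lt (u := 0) (by
      have := Xi1_pos (up := up) hΛ h2
      simpa using this)
    filter_upwards [hpos, hlt] with z h3 h4 h5 h6
    refine ⟨?_, h4⟩
    rw [Xi_expand]
    have h7 : 0 ≤ Xi (w1 z.2) (deriv w1 z.2) (deriv (deriv w1) z.2) z.2 := by
      rcases lt_or_ge z.2 2 with h8 | h8
      · exact (w1_Xi_pos (by linarith [h6.1]) h8).le
      · rw [Xi_zero_of_two_le h8]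
    have h9 : 0 < z.1 * (Xi1 (w1 z.2) (deriv w1 z.2) (deriv (deriv w1) z.2)
        (What Λ up z.2) (deriv (What Λ up) z.2) (deriv (deriv (What Λ up)) z.2) z.2 +
        z.1 * Xi2 (What Λ up z.2) (deriv (What Λ up) z.2) (deriv (deriv (What Λ up)) z.2) z.2) :=
      mul_pos h5 h3
    linarith

/-! ### The tail -/

lemma Etail_hasDerivAt {L u : ℝ} (hu : 0 < u) : HasDerivAt (Etail L)
    (Etail L u * (st (L - Real.log (1 + u)) / 8 / (1 + u))) u := by
  have hlog : HasDerivAt (fun x : ℝ => L - Real.log (1 + x)) (-(1 / (1 + u))) u := by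
    have := ((hasDerivAt_id' u).const_add 1).log (by linarith : (1 : ℝ) + u ≠ 0)
    exact (this.const_sub L)
  have h2 := (((Th_hasDerivAt (L - Real.log (1 + u))).comp u hlog).const_mul (-(1/8))).exp
  refine h2.congr_deriv ?_
  simp only [Function.comp_def, Etail]
  ring

lemma tail_hasDerivAt {L u : ℝ} (hu : 0 < u) : HasDerivAt (fun x => x * Etail L x)
    (Etail L u * (1 + st (L - Real.log (1 + u)) / 8 * (u / (1 + u)))) u := by
  refine ((hasDerivAt_id' u).fun_mul (Etail_hasDerivAt hu)).congr_deriv ?_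
  have : (1:ℝ) + u ≠ 0 := by linarith
  field_simp

lemma tail_hasDerivAt2 {L u : ℝ} (hu : 0 < u) :
    HasDerivAt (fun x => Etail L x * (1 + st (L - Real.log (1 + x)) / 8 * (x / (1 + x))))
    (Etail L u * (st (L - Real.log (1 + u)) / 8 / (1 + u)) *
        (1 + st (L - Real.log (1 + u)) / 8 * (u / (1 + u)))
      + Etail L u * (-(deriv st (L - Real.log (1 + u)) / (1 + u)) / 8 * (u / (1 + u))
        + st (L - Real.log (1 + u)) / 8 * (1 / (1 + u) ^ 2))) u := by
  have h1 : (1:ℝ) + u ≠ 0 := by linarith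
  have hlog : HasDerivAt (fun x : ℝ => L - Real.log (1 + x)) (-(1 / (1 + u))) u := by
    have := ((hasDerivAt_id' u).const_add 1).log h1
    exact (this.const_sub L)
  have hst := ((st_hasDerivAt (L - Real.log (1 + u))).comp u hlog).div_const 8
  have hfrac := (hasDerivAt_id' u).fun_div ((hasDerivAt_id' u).const_add 1) h1
  have h2 := (Etail_hasDerivAt (L := L) hu).fun_mul ((hst.fun_mul hfrac).const_add 1)
  refine h2.congr_deriv ?_
  simp only [Function.comp_def]
  field_simp
  ring

lemma Etail_le_one (L u : ℝ) : Etail L u ≤ 1 := by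
  unfold Etail
  apply Real.exp_le_one_iff.mpr
  have := Th_nonneg (L - Real.log (1 + u))
  linarith

lemma tail_Xi {L u : ℝ} (hu : 0 < u) :
    0 < Xi (u * Etail L u) (Etail L u * (1 + st (L - Real.log (1 + u)) / 8 * (u / (1 + u))))
      (Etail L u * (st (L - Real.log (1 + u)) / 8 / (1 + u)) *
        (1 + st (L - Real.log (1 + u)) / 8 * (u / (1 + u)))
      + Etail L u * (-(deriv st (L - Real.log (1 + u)) / (1 + u)) / 8 * (u / (1 + u))
        + st (L - Real.log (1 + u)) / 8 * (1 / (1 + u) ^ 2))) u ∧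
    Etail L u * (1 + st (L - Real.log (1 + u)) / 8 * (u / (1 + u))) < 2 := by
  set E := Etail L u with hE
  set s := st (L - Real.log (1 + u)) / 8 with hs
  set d := deriv st (L - Real.log (1 + u)) with hd
  have hE0 : 0 < E := Real.exp_pos _
  have hE1 : E ≤ 1 := Etail_le_one L u
  have hs0 : 0 ≤ s := div_nonneg (Real.smoothTransition.nonneg _) (by norm_num)
  have hs1 : s ≤ 1 / 8 := by
    rw [hs]; linarith [Real.smoothTransition.le_one (L - Real.log (1 + u))]
  have hd0 : 0 ≤ d := st_deriv_nonneg _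
  have ht : 0 < 1 + u := by linarith
  set t := u / (1 + u) with htdef
  have ht0 : 0 < t := by positivity
  have ht1 : t < 1 := by rw [htdef, div_lt_one ht]; linarith
  have h1u : 1 / (1 + u) = 1 - t := by rw [htdef]; field_simp; ring
  have hst : s * t ≤ 1 / 8 := by nlinarith
  constructor
  · unfold Xi
    have e1 : (1 / u + 1 / (1 + u)) * (u * E) - E * (1 + s * t) = E * t * (1 - s) := by
      rw [htdef]; field_simp; ring
    have e2 : 2 * (u * E) * (E * (s / (1 + u)) * (1 + s * t)
        + E * (-(d / (1 + u)) / 8 * t + s * (1 / (1 + u) ^ 2))) =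
        2 * E ^ 2 * t * (s * (1 + s * t) + s * (1 - t) - d * t / 8) := by
      rw [← h1u, htdef]; field_simp; ring
    rw [e1, e2]
    have e3 : (2 - E * (1 + s * t)) * (E * t * (1 - s)) -
        2 * E ^ 2 * t * (s * (1 + s * t) + s * (1 - t) - d * t / 8) =
        E * t * ((2 - E * (1 + s * t)) * (1 - s) -
          2 * E * (s * (1 + s * t) + s * (1 - t)) + 2 * E * (d * t / 8)) := by ring
    rw [e3]
    apply mul_pos (mul_pos hE0 ht0)
    have h5 : 7 / 8 ≤ 2 - E * (1 + s * t) := by nlinarith [mul_nonneg hs0 ht0.le]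
    have h6 : 7 / 8 * (7 / 8) ≤ (2 - E * (1 + s * t)) * (1 - s) := by
      apply mul_le_mul h5 (by linarith) (by norm_num) (by linarith)
    have h7 : s * (1 + s * t) + s * (1 - t) ≤ 1 / 8 * (9 / 8) + 1 / 8 := by
      have : s * (1 + s * t) ≤ 1 / 8 * (9 / 8) := by
        apply mul_le_mul hs1 (by linarith) (by nlinarith [mul_nonneg hs0 ht0.le]) (by norm_num)
      have : s * (1 - t) ≤ 1 / 8 * 1 := by
        apply mul_le_mul hs1 (by linarith) (by linarith) (by norm_num)
      linarith
    have h8 : 0 ≤ s * (1 + s * t) + s * (1 - t) := by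
      have := mul_nonneg hs0 ht0.le
      have := mul_nonneg hs0 (by linarith : (0:ℝ) ≤ 1 - t)
      nlinarith
    have h9 : 2 * E * (s * (1 + s * t) + s * (1 - t)) ≤ 2 * 1 * (1 / 8 * (9 / 8) + 1 / 8) := by
      apply mul_le_mul (by linarith) h7 h8 (by norm_num)
    have h10 : 0 ≤ 2 * E * (d * t / 8) := by positivity
    linarith
  · nlinarith [mul_nonneg hs0 ht0.le]

/-- Main existence theorem for the radial background. -/
theorem radial_exists {um up Λ : ℝ} (hum : 2 < um) (hup : um < up) (hΛ : 0 ≤ Λ) :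
    ∃ ε₀ > 0, ∀ ε, 0 < ε → ε < ε₀ → ∃ (w : ℝ → ℝ) (B : ℝ),
      ContDiff ℝ ∞ w ∧ (∀ u ≤ 1 / 20, w u = u) ∧ (∀ u ≥ B, w u = u) ∧ up < B ∧
      (∀ u > 0, 0 < w u) ∧
      (∀ u ∈ Icc um up, w u = ε * (u * Real.exp (Real.log (1 + u) / 8 - Λ * u))) ∧
      (∀ u > 0, deriv w u < 2 ∧ 0 < Xi (w u) (deriv w u) (deriv (deriv w) u) u) := by
  obtain ⟨δ₀, hδ₀, hδ⟩ := Metric.eventually_nhds_iff.mp (mid_eventually (up := up) hΛ)
  have hup0 : 0 < up := by linarith
  set D := Real.exp (Λ * (up + c0)) with hD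
  have hDpos : 0 < D := Real.exp_pos _
  set δ₁ := Real.exp (-(1 + Real.log (1 + (up + 2)) - c0) / 8) with hδ₁
  have hδ₁pos : 0 < δ₁ := Real.exp_pos _
  refine ⟨D * min δ₀ δ₁, mul_pos hDpos (lt_min hδ₀ hδ₁pos), ?_⟩
  intro ε hε hε'
  set δ := ε / D with hδdef
  have hδpos : 0 < δ := div_pos hε hDpos
  have hδlt : δ < min δ₀ δ₁ := by rw [hδdef, div_lt_iff₀ hDpos, mul_comm]; exact hε'
  have hδlt0 : δ < δ₀ := lt_of_lt_of_le hδlt (min_le_left _ _)
  have hδlt1 : δ < δ₁ := lt_of_lt_of_le hδlt (min_le_right _ _)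
  set L := c0 - 8 * Real.log δ with hL
  have hLδ : Real.exp (-(L - c0) / 8) = δ := by
    rw [hL, show -(c0 - 8 * Real.log δ - c0) / 8 = Real.log δ by ring, Real.exp_log hδpos]
  have hL1 : 1 + Real.log (1 + (up + 2)) < L := by
    have h1 : Real.log δ < -(1 + Real.log (1 + (up + 2)) - c0) / 8 := by
      rw [Real.log_lt_iff_lt_exp hδpos]; exact hδlt1
    rw [hL]; linarith
  have hLmid : ∀ u, 0 < u → u < up + 2 → 1 ≤ L - Real.log (1 + u) := by
    intro u hu0 hu
    have : Real.log (1 + u) ≤ Real.log (1 + (up + 2)) := Real.log_le_log (by linarith) (by linarith)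
    linarith
  refine ⟨wfull Λ up L, max (up + 1) (Real.exp L), wfull_contDiff _ _ _, ?_, ?_, ?_, ?_, ?_, ?_⟩
  · intro u hu
    rw [wfull_left (by linarith), w1_left hu]
  · intro u hu
    have h1 : up + 1 ≤ u := le_trans (le_max_left _ _) hu
    have h2 : Real.exp L ≤ u := le_trans (le_max_right _ _) hu
    rw [wfull_right (by linarith) h1]
    unfold Etail
    rw [Th_of_nonpos]
    · simp
    · have : L ≤ Real.log (1 + u) := by
        rw [Real.le_log_iff_exp_le (by linarith)]; linarith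
      linarith
  · exact lt_of_lt_of_le (by linarith) (le_max_left _ _)
  · intro u hu; exact wfull_pos hu
  · intro u hu
    have hu0 : 0 < u := by linarith [hu.1]
    rw [wfull_mid (hLmid u hu0 (by linarith [hu.2])), hLδ, w1_zero (by linarith [hu.1])]
    unfold What
    rw [cut_right (by linarith [hu.1]), kap_left hu.2, hδdef, hD]
    rw [show Real.log (1 + u) / 8 + Λ * (up + c0 - u)
      = Λ * (up + c0) + (Real.log (1 + u) / 8 - Λ * u) by ring, Real.exp_add]
    field_simp
    ring
  · intro u hu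
    rcases lt_or_ge u (1/2) with h | h
    · have hev : wfull Λ up L =ᶠ[𝓝 u] w1 := by
        filter_upwards [Iio_mem_nhds h] with x hx using wfull_left (le_of_lt hx)
      rw [hev.deriv_eq, hev.deriv.deriv_eq, hev.eq_of_nhds]
      exact ⟨by linarith [w1_deriv_le_one u], w1_Xi_pos hu (by linarith)⟩
    · rcases lt_or_ge u (up + 2) with h3 | h3
      · have hopen : Ioo (0:ℝ) (up + 2) ∈ 𝓝 u := Ioo_mem_nhds hu h3
        have hev : wfull Λ up L =ᶠ[𝓝 u] fun x => w1 x + δ * What Λ up x := by
          filter_upwards [hopen] with x hx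
          rw [wfull_mid (hLmid x hx.1 hx.2), hLδ]
        have hd1 : ∀ x, 0 < x → deriv (fun x => w1 x + δ * What Λ up x) x =
            deriv w1 x + δ * deriv (What Λ up) x := by
          intro x hx
          have h4 : DifferentiableAt ℝ (What Λ up) x :=
            ((What_contDiffOn Λ up).contDiffAt (Ioi_mem_nhds (by linarith))).differentiableAt
              (by simp)
          exact ((w1_differentiable x).hasDerivAt.add (h4.hasDerivAt.const_mul δ)).deriv
        have hd1' : deriv (fun x => w1 x + δ * What Λ up x) =ᶠ[𝓝 u]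
            fun x => deriv w1 x + δ * deriv (What Λ up) x := by
          filter_upwards [Ioi_mem_nhds hu] with x hx using hd1 x hx
        have hd2 : deriv (deriv (fun x => w1 x + δ * What Λ up x)) u =
            deriv (deriv w1) u + δ * deriv (deriv (What Λ up)) u := by
          rw [hd1'.deriv_eq]
          have h4 : DifferentiableAt ℝ (deriv (What Λ up)) u :=
            ((What_deriv_contDiffOn Λ up).contDiffAt (Ioi_mem_nhds (by linarith))).differentiableAt
              (by simp)
          have h5 : DifferentiableAt ℝ (deriv w1) u :=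
            (w1_deriv_contDiff.differentiable (by simp)) u
          exact (h5.hasDerivAt.add (h4.hasDerivAt.const_mul δ)).deriv
        rw [hev.deriv_eq, hev.deriv.deriv_eq, hev.eq_of_nhds, hd1 u hu, hd2]
        have hK : u ∈ Icc (1/4 : ℝ) (up + 2) := ⟨by linarith, h3.le⟩
        have := hδ (y := δ) (by simpa [abs_of_pos hδpos] using hδlt0) u hK hδpos hK
        exact ⟨this.2, this.1⟩
      · have h4 : up + 1 < u := by linarith
        have hev : wfull Λ up L =ᶠ[𝓝 u] fun x => x * Etail L x := by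
          filter_upwards [Ioi_mem_nhds h4] with x hx
          exact wfull_right (by linarith) (le_of_lt hx)
        have hd1 : deriv (fun x => x * Etail L x) =ᶠ[𝓝 u]
            fun x => Etail L x * (1 + st (L - Real.log (1 + x)) / 8 * (x / (1 + x))) := by
          filter_upwards [Ioi_mem_nhds hu] with x hx using (tail_hasDerivAt hx).deriv
        rw [hev.deriv_eq, hev.deriv.deriv_eq, hev.eq_of_nhds, hd1.deriv_eq, hd1.eq_of_nhds,
          (tail_hasDerivAt2 hu).deriv]
        exact ⟨(tail_Xi hu).2, (tail_Xi hu).1⟩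

end Pool.Agent.Work.MP_0fcc57_gt
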