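import Pool.Agent.Work.MP_0fcc57_gt.CurvLog
import Pool.Agent.Work.MP_0fcc57_gt.Radial2

/-!
# Curvature of the radial metric
-/

open scoped ContDiff Topology
open Real Set Filter

noncomputable section

namespace Pool.Agent.Work.MP_0fcc57_gt

/-- `m/m_r` for the radial profile `w` -/
def iW (w : ℝ → ℝ) (r : ℝ) : ℝ := w (sinh r ^ 2) / sinh (2 * r)

/-- radial `log b` and `log c` -/
def Brad (p : ℝ × ℝ) : ℝ := log (1 - p.2 ^ 2) - log (sinh (2 * p.1))
def Crad (p : ℝ × ℝ) : ℝ := -log (1 - p.2 ^ 2) - log (sinh (2 * p.1))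

/-- the polar region -/
def PR : Set (ℝ × ℝ) := {p | 0 < p.1 ∧ p.2 ^ 2 < 1}

lemma PR_isOpen : IsOpen PR :=
  (isOpen_lt continuous_const continuous_fst).inter
    (isOpen_lt (continuous_snd.pow 2) continuous_const)

lemma sinh2_pos {r : ℝ} (h : 0 < r) : 0 < sinh (2 * r) := Real.sinh_pos_iff.mpr (by linarith)

lemma Brad_smooth : ContDiffOn ℝ ∞ Brad PR := by
  unfold Brad
  apply ContDiffOn.sub
  · apply ContDiffOn.log
    · exact contDiffOn_const.sub (contDiff_snd.pow 2).contDiffOn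
    · intro p hp; have := hp.2; have : 0 < 1 - p.2 ^ 2 := by linarith
      exact this.ne'
  · apply ContDiffOn.log
    · exact (Real.contDiff_sinh.comp (contDiff_const.mul contDiff_fst)).contDiffOn
    · intro p hp; exact (sinh2_pos hp.1).ne'

lemma Crad_smooth : ContDiffOn ℝ ∞ Crad PR := by
  unfold Crad
  apply ContDiffOn.sub
  · apply ContDiffOn.neg
    apply ContDiffOn.log
    · exact contDiffOn_const.sub (contDiff_snd.pow 2).contDiffOn
    · intro p hp; have := hp.2; have : 0 < 1 - p.2 ^ 2 := by linarith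
      exact this.ne'
  · apply ContDiffOn.log
    · exact (Real.contDiff_sinh.comp (contDiff_const.mul contDiff_fst)).contDiffOn
    · intro p hp; exact (sinh2_pos hp.1).ne'

lemma logsinh2_hasDerivAt {r : ℝ} (h : 0 < r) :
    HasDerivAt (fun t => log (sinh (2 * t))) (2 * cosh (2 * r) / sinh (2 * r)) r := by
  have h1 : HasDerivAt (fun t : ℝ => 2 * t) 2 r := by simpa using (hasDerivAt_id' r).const_mul 2
  have h2 := h1.sinh.log (sinh2_pos h).ne'
  exact h2.congr_deriv (by ring)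

lemma log1x_hasDerivAt {x : ℝ} (h : x ^ 2 < 1) :
    HasDerivAt (fun t : ℝ => log (1 - t ^ 2)) (-(2 * x) / (1 - x ^ 2)) x := by
  have h0 : 1 - x ^ 2 ≠ 0 := by linarith
  have h2 := (((hasDerivAt_id' x).fun_pow 2).const_sub 1).log h0
  exact h2.congr_deriv (by simp)

lemma D1_Brad {p : ℝ × ℝ} (hp : p ∈ PR) :
    D1 Brad p = -(2 * cosh (2 * p.1) / sinh (2 * p.1)) := by
  obtain ⟨r, x⟩ := p
  apply D1_of_hasDerivAt (diffAt_of_open PR_isOpen Brad_smooth hp)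
  exact (logsinh2_hasDerivAt hp.1).const_sub (log (1 - x ^ 2))

lemma D1_Crad {p : ℝ × ℝ} (hp : p ∈ PR) :
    D1 Crad p = -(2 * cosh (2 * p.1) / sinh (2 * p.1)) := by
  obtain ⟨r, x⟩ := p
  apply D1_of_hasDerivAt (diffAt_of_open PR_isOpen Crad_smooth hp)
  exact (logsinh2_hasDerivAt hp.1).const_sub (-log (1 - x ^ 2))

lemma D2_Brad {p : ℝ × ℝ} (hp : p ∈ PR) : D2 Brad p = -(2 * p.2) / (1 - p.2 ^ 2) := by
  obtain ⟨r, x⟩ := p
  apply D2_of_hasDerivAt (diffAt_of_open PR_isOpen Brad_smooth hp)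
  exact (log1x_hasDerivAt hp.2).sub_const (log (sinh (2 * r)))

lemma D2_Crad {p : ℝ × ℝ} (hp : p ∈ PR) : D2 Crad p = (2 * p.2) / (1 - p.2 ^ 2) := by
  obtain ⟨r, x⟩ := p
  apply D2_of_hasDerivAt (diffAt_of_open PR_isOpen Crad_smooth hp)
  refine ((log1x_hasDerivAt hp.2).fun_neg.sub_const (log (sinh (2 * r)))).congr_deriv ?_
  ring

lemma coth_hasDerivAt {r : ℝ} (h : 0 < r) :
    HasDerivAt (fun t => 2 * cosh (2 * t) / sinh (2 * t)) (-(4 / sinh (2 * r) ^ 2)) r := by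
  have h1 : HasDerivAt (fun t : ℝ => 2 * t) 2 r := by simpa using (hasDerivAt_id' r).const_mul 2
  have h2 := (h1.cosh.const_mul 2).fun_div h1.sinh (sinh2_pos h).ne'
  refine h2.congr_deriv ?_
  have hc : cosh (2 * r) ^ 2 = 1 + sinh (2 * r) ^ 2 := Real.cosh_sq' _
  have := (sinh2_pos h).ne'
  field_simp
  rw [hc]; ring

lemma D11_Brad {p : ℝ × ℝ} (hp : p ∈ PR) : D1 (D1 Brad) p = 4 / sinh (2 * p.1) ^ 2 := by
  rw [D1_congr_on PR_isOpen (fun z hz => D1_Brad hz) hp]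
  obtain ⟨r, x⟩ := p
  have h := (coth_hasDerivAt hp.1).fun_neg
  have hd : DifferentiableAt ℝ (fun z : ℝ × ℝ => -(2 * cosh (2 * z.1) / sinh (2 * z.1))) (r, x) := by
    exact (DifferentiableAt.comp (𝕜 := ℝ) (r, x) (g := fun t => -(2 * cosh (2 * t) / sinh (2 * t)))
      (f := Prod.fst) h.differentiableAt differentiableAt_fst)
  apply D1_of_hasDerivAt hd
  exact h.congr_deriv (by ring)

lemma D11_Crad {p : ℝ × ℝ} (hp : p ∈ PR) : D1 (D1 Crad) p = 4 / sinh (2 * p.1) ^ 2 := by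
  have e : ∀ z ∈ PR, D1 Crad z = D1 Brad z := fun z hz => by rw [D1_Crad hz, D1_Brad hz]
  rw [D1_congr_on PR_isOpen e hp, D11_Brad hp]

lemma frac_hasDerivAt {x : ℝ} (h : x ^ 2 < 1) :
    HasDerivAt (fun t : ℝ => (2 * t) / (1 - t ^ 2)) (2 * (1 + x ^ 2) / (1 - x ^ 2) ^ 2) x := by
  have h0 : 1 - x ^ 2 ≠ 0 := by linarith
  have h2 := ((hasDerivAt_id' x).const_mul 2).fun_div (((hasDerivAt_id' x).fun_pow 2).const_sub 1) h0
  refine h2.congr_deriv ?_
  field_simp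
  ring

lemma frac_diff {r x : ℝ} (h : x ^ 2 < 1) :
    DifferentiableAt ℝ (fun z : ℝ × ℝ => (2 * z.2) / (1 - z.2 ^ 2)) (r, x) :=
  DifferentiableAt.comp (𝕜 := ℝ) (r, x) (g := fun t : ℝ => (2 * t) / (1 - t ^ 2))
    (f := Prod.snd) (frac_hasDerivAt h).differentiableAt differentiableAt_snd

lemma frac_diff' {r x : ℝ} (h : x ^ 2 < 1) :
    DifferentiableAt ℝ (fun z : ℝ × ℝ => -(2 * z.2) / (1 - z.2 ^ 2)) (r, x) := by
  have := (frac_diff (r := r) h).fun_neg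
  refine this.congr_of_eventuallyEq (Filter.Eventually.of_forall fun z => by ring)

lemma D12_Brad {p : ℝ × ℝ} (hp : p ∈ PR) : D1 (D2 Brad) p = 0 := by
  rw [D1_congr_on PR_isOpen (fun z hz => D2_Brad hz) hp]
  obtain ⟨r, x⟩ := p
  have hd : DifferentiableAt ℝ (fun z : ℝ × ℝ => -(2 * z.2) / (1 - z.2 ^ 2)) (r, x) :=
    frac_diff' hp.2
  apply D1_of_hasDerivAt hd
  exact hasDerivAt_const r (-(2 * x) / (1 - x ^ 2))

lemma D22_Crad {p : ℝ × ℝ} (hp : p ∈ PR) :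
    D2 (D2 Crad) p = 2 * (1 + p.2 ^ 2) / (1 - p.2 ^ 2) ^ 2 := by
  rw [D2_congr_on PR_isOpen (fun z hz => D2_Crad hz) hp]
  obtain ⟨r, x⟩ := p
  have hd : DifferentiableAt ℝ (fun z : ℝ × ℝ => (2 * z.2) / (1 - z.2 ^ 2)) (r, x) :=
    frac_diff hp.2
  apply D2_of_hasDerivAt hd
  exact frac_hasDerivAt hp.2

lemma D22_Brad {p : ℝ × ℝ} (hp : p ∈ PR) :
    D2 (D2 Brad) p = -(2 * (1 + p.2 ^ 2) / (1 - p.2 ^ 2) ^ 2) := by
  rw [D2_congr_on PR_isOpen (fun z hz => D2_Brad hz) hp]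
  obtain ⟨r, x⟩ := p
  have hd : DifferentiableAt ℝ (fun z : ℝ × ℝ => -(2 * z.2) / (1 - z.2 ^ 2)) (r, x) :=
    frac_diff' hp.2
  apply D2_of_hasDerivAt hd
  refine (frac_hasDerivAt hp.2).fun_neg.congr_of_eventuallyEq ?_
  exact Filter.Eventually.of_forall fun t => by ring

/-! ### the function `iW` -/

section
variable {w : ℝ → ℝ} (hw : ContDiff ℝ ∞ w) (hpos : ∀ u > 0, 0 < w u)
include hw hpos

lemma sinhsq_hasDerivAt (r : ℝ) : HasDerivAt (fun t => sinh t ^ 2) (sinh (2 * r)) r := by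
  have h := (Real.hasDerivAt_sinh r).fun_pow 2
  refine h.congr_deriv ?_
  rw [Real.sinh_two_mul]; simp

lemma iW_pos {r : ℝ} (h : 0 < r) : 0 < iW w r :=
  div_pos (hpos _ (by have := Real.sinh_pos_iff.mpr h; positivity)) (sinh2_pos h)

lemma iW_hasDerivAt {r : ℝ} (h : 0 < r) : HasDerivAt (iW w)
    (deriv w (sinh r ^ 2) - 2 * w (sinh r ^ 2) * cosh (2 * r) / sinh (2 * r) ^ 2) r := by
  have hs := (sinh2_pos h).ne'
  have h1 := ((hw.differentiable (by simp) (sinh r ^ 2)).hasDerivAt).comp r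
    (sinhsq_hasDerivAt hw hpos r)
  have h2 : HasDerivAt (fun t : ℝ => 2 * t) 2 r := by simpa using (hasDerivAt_id' r).const_mul 2
  have h3 := h1.fun_div h2.sinh hs
  refine h3.congr_deriv ?_
  simp only [Function.comp_def]
  field_simp

lemma lam_iW {r : ℝ} (h : 0 < r) : lam (iW w) r =
    -(sinh (2 * r) * deriv w (sinh r ^ 2) / w (sinh r ^ 2)) + 2 * cosh (2 * r) / sinh (2 * r) := by
  unfold lam
  rw [(iW_hasDerivAt hw hpos h).deriv]
  have hs := (sinh2_pos h).ne'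
  have hw0 := (hpos (sinh r ^ 2) (by have := Real.sinh_pos_iff.mpr h; positivity)).ne'
  unfold iW
  field_simp
  ring

lemma lam_iW_hasDerivAt {r : ℝ} (h : 0 < r) : HasDerivAt (lam (iW w))
    (-(2 * cosh (2 * r) * deriv w (sinh r ^ 2) / w (sinh r ^ 2))
      - sinh (2 * r) ^ 2 * deriv (deriv w) (sinh r ^ 2) / w (sinh r ^ 2)
      + sinh (2 * r) ^ 2 * deriv w (sinh r ^ 2) ^ 2 / w (sinh r ^ 2) ^ 2
      - 4 / sinh (2 * r) ^ 2) r := by
  have hw0 := (hpos (sinh r ^ 2) (by have := Real.sinh_pos_iff.mpr h; positivity)).ne'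
  have hw1 : ContDiff ℝ ∞ (deriv w) := (contDiff_infty_iff_deriv.mp hw).2
  have h1 := ((hw.differentiable (by simp) (sinh r ^ 2)).hasDerivAt).comp r
    (sinhsq_hasDerivAt hw hpos r)
  have h2 := ((hw1.differentiable (by simp) (sinh r ^ 2)).hasDerivAt).comp r
    (sinhsq_hasDerivAt hw hpos r)
  have h3 : HasDerivAt (fun t : ℝ => 2 * t) 2 r := by simpa using (hasDerivAt_id' r).const_mul 2
  have h4 := (((h3.sinh.fun_mul h2).fun_div h1 hw0).fun_neg).fun_add (coth_hasDerivAt h)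
  refine (h4.congr_of_eventuallyEq ?_).congr_deriv ?_
  · filter_upwards [Ioi_mem_nhds h] with t ht using lam_iW hw hpos ht
  · simp only [Function.comp_def]
    field_simp
    ring

end

/-- the positivity `P² > 1` -/
lemma P_gt_one {w : ℝ → ℝ} (hw : ContDiff ℝ ∞ w) (hpos : ∀ u > 0, 0 < w u)
    (hleft : ∀ u ≤ 1 / 20, w u = u)
    (hX : ∀ u > 0, deriv w u < 2 ∧ 0 < Xi (w u) (deriv w u) (deriv (deriv w) u) u) :
    ∀ u > 0, w u < u * (1 + u) * (2 - deriv w u) ^ 2 := by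
  have hw1 : ContDiff ℝ ∞ (deriv w) := (contDiff_infty_iff_deriv.mp hw).2
  have hsmall : ∀ u, 0 < u → u < 1 / 20 → w u < u * (1 + u) * (2 - deriv w u) ^ 2 := by
    intro u h0 h1
    have hev : w =ᶠ[𝓝 u] fun x => x := by
      filter_upwards [Iio_mem_nhds h1] with x hx using hleft x (le_of_lt hx)
    rw [hev.deriv_eq, hleft u h1.le]
    simp
    nlinarith
  set Θ : ℝ → ℝ := fun u => u * (1 + u) * (2 - deriv w u) ^ 2 / w u with hΘ
  have hd : ∀ u > 0, HasDerivAt Θ ((2 - deriv w u) * (u * (1 + u)) / w u ^ 2 *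
      Xi (w u) (deriv w u) (deriv (deriv w) u) u) u := by
    intro u hu
    have hw0 := (hpos u hu).ne'
    have h1 := (hw.differentiable (by simp) u).hasDerivAt
    have h2 := (hw1.differentiable (by simp) u).hasDerivAt
    have h3 := (((hasDerivAt_id' u).fun_mul ((hasDerivAt_id' u).const_add 1)).fun_mul
      ((h2.const_sub 2).fun_pow 2)).fun_div h1 hw0
    refine h3.congr_deriv ?_
    unfold Xi
    have : (1:ℝ) + u ≠ 0 := by linarith
    field_simp
    ring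
  have hmono : StrictMonoOn Θ (Ioi 0) := by
    apply strictMonoOn_of_deriv_pos (convex_Ioi 0)
    · intro u hu; exact (hd u hu).continuousAt.continuousWithinAt
    · intro u hu
      rw [interior_Ioi] at hu
      have hu' : 0 < u := hu
      rw [(hd u hu).deriv]
      have := hX u hu
      have h1 : 0 < 2 - deriv w u := by linarith [this.1]
      have h2 := hpos u hu
      have h3 := this.2
      positivity
  intro u hu
  rcases lt_or_ge u (1/20) with h | h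
  · exact hsmall u hu h
  · have h1 : Θ (1/40) < Θ u := hmono (show (0:ℝ) < 1/40 by norm_num) hu (by linarith)
    have h2 : 1 < Θ (1/40) := by
      have := hsmall (1/40) (by norm_num) (by norm_num)
      rw [hΘ]; simp only
      rw [lt_div_iff₀ (hpos _ (by norm_num))]; linarith
    have h3 : 1 < Θ u := lt_trans h2 h1
    rw [hΘ] at h3; simp only at h3
    rw [lt_div_iff₀ (hpos u hu)] at h3
    linarith

/-- The curvature conditions hold at radial points. -/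
theorem radial_cond {U : Set (ℝ × ℝ)} (L : LData U) {w : ℝ → ℝ} (hw : ContDiff ℝ ∞ w)
    (hpos : ∀ u > 0, 0 < w u) (hleft : ∀ u ≤ 1 / 20, w u = u)
    (hX : ∀ u > 0, deriv w u < 2 ∧ 0 < Xi (w u) (deriv w u) (deriv (deriv w) u) u)
    {p : ℝ × ℝ} (hpU : p ∈ U) (hp : p ∈ PR)
    (hi : L.i =ᶠ[𝓝 p.1] iW w) (hB : L.B =ᶠ[𝓝 p] Brad) (hC : L.C =ᶠ[𝓝 p] Crad) :
    0 < L.cK p ∧ 0 < L.cHrr p ∧ L.cHrx p ^ 2 < L.cHrr p * L.cHxx p := by
  have hr : 0 < p.1 := hp.1
  have hx : 0 < 1 - p.2 ^ 2 := by linarith [hp.2]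
  have hj := sinh2_pos hr
  have hs := Real.sinh_pos_iff.mpr hr
  have hu : 0 < sinh p.1 ^ 2 := by positivity
  have hw0 := hpos _ hu
  have hcs : cosh p.1 ^ 2 = 1 + sinh p.1 ^ 2 := Real.cosh_sq' _
  have hj2 : sinh (2 * p.1) ^ 2 = 4 * (sinh p.1 ^ 2 * (1 + sinh p.1 ^ 2)) := by
    rw [Real.sinh_two_mul, ← hcs]; ring
  have hc2 : cosh (2 * p.1) = 1 + 2 * sinh p.1 ^ 2 := by
    rw [Real.cosh_two_mul, hcs]; ring
  have hlamev : lam L.i =ᶠ[𝓝 p.1] lam (iW w) := by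
    filter_upwards [hi.eventuallyEq_nhds] with t ht
    unfold lam; rw [ht.deriv_eq, ht.eq_of_nhds]
  have elm : L.lm p = -(sinh (2 * p.1) * deriv w (sinh p.1 ^ 2) / w (sinh p.1 ^ 2))
      + 2 * cosh (2 * p.1) / sinh (2 * p.1) := by
    unfold LData.lm; rw [hlamev.eq_of_nhds, lam_iW hw hpos hr]
  have elm' := hlamev.deriv_eq.trans (lam_iW_hasDerivAt hw hpos hr).deriv
  have ei : L.i p.1 = w (sinh p.1 ^ 2) / sinh (2 * p.1) := hi.eq_of_nhds
  have eB1 : D1 L.B p = -(2 * cosh (2 * p.1) / sinh (2 * p.1)) := by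
    rw [D1_congr hB, D1_Brad hp]
  have eC1 : D1 L.C p = -(2 * cosh (2 * p.1) / sinh (2 * p.1)) := by
    rw [D1_congr hC, D1_Crad hp]
  have eB2 : D2 L.B p = -(2 * p.2) / (1 - p.2 ^ 2) := by rw [D2_congr hB, D2_Brad hp]
  have eC2 : D2 L.C p = (2 * p.2) / (1 - p.2 ^ 2) := by rw [D2_congr hC, D2_Crad hp]
  have eB11 : D1 (D1 L.B) p = 4 / sinh (2 * p.1) ^ 2 := by
    rw [D1_congr (D1_eventually_congr hB), D11_Brad hp]
  have eC11 : D1 (D1 L.C) p = 4 / sinh (2 * p.1) ^ 2 := by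
    rw [D1_congr (D1_eventually_congr hC), D11_Crad hp]
  have eB12 : D1 (D2 L.B) p = 0 := by rw [D1_congr (D2_eventually_congr hB), D12_Brad hp]
  have eB22 : D2 (D2 L.B) p = -(2 * (1 + p.2 ^ 2) / (1 - p.2 ^ 2) ^ 2) := by
    rw [D2_congr (D2_eventually_congr hB), D22_Brad hp]
  have eC22 : D2 (D2 L.C) p = 2 * (1 + p.2 ^ 2) / (1 - p.2 ^ 2) ^ 2 := by
    rw [D2_congr (D2_eventually_congr hC), D22_Crad hp]
  have eexp : exp (-L.B p) = sinh (2 * p.1) / (1 - p.2 ^ 2) := by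
    rw [hB.eq_of_nhds]; unfold Brad
    rw [show -(log (1 - p.2 ^ 2) - log (sinh (2 * p.1)))
      = log (sinh (2 * p.1)) - log (1 - p.2 ^ 2) by ring, Real.exp_sub, Real.exp_log hj,
      Real.exp_log hx]
  have hXu := hX _ hu
  have hP := P_gt_one hw hpos hleft hX _ hu
  have hN : L.nr p = 1 - 1 / 2 * deriv w (sinh p.1 ^ 2) := by
    unfold LData.nr; rw [elm, eC1, ei]
    field_simp
    ring
  have hS : L.sr p = 1 - 1 / 2 * deriv w (sinh p.1 ^ 2) := by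
    unfold LData.sr; rw [elm, eB1, ei]
    field_simp
    ring
  set W := w (sinh p.1 ^ 2) with hW
  set W1 := deriv w (sinh p.1 ^ 2) with hW1
  set W2 := deriv (deriv w) (sinh p.1 ^ 2) with hW2
  set u := sinh p.1 ^ 2 with hu'
  set j := sinh (2 * p.1) with hj'
  have h1u : (0:ℝ) < 1 + u := by linarith
  have ecK : L.cK p = j / (4 * W) * Xi W W1 W2 u := by
    unfold LData.cK
    rw [hN, elm, elm', eC11, eB1, eB2, eC2, eB22, eC22, ei, hc2]
    have hz : exp (L.B p) * (1 / 2 * (-(2 * (1 + p.2 ^ 2) / (1 - p.2 ^ 2) ^ 2)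
        + 2 * (1 + p.2 ^ 2) / (1 - p.2 ^ 2) ^ 2)
        + 1 / 4 * (-(2 * p.2) / (1 - p.2 ^ 2) + 2 * p.2 / (1 - p.2 ^ 2))
          * (-(2 * p.2) / (1 - p.2 ^ 2))) = 0 := by ring
    rw [hz, add_zero]
    have hexp : Xi W W1 W2 u = 4 * (1 + 2 * u) / j ^ 2 * W * (2 - W1) - W1 * (2 - W1) - 2 * W * W2 := by
      unfold Xi
      rw [hj2]
      field_simp
      ring
    rw [hexp]
    field_simp
    ring
  have ecH : L.cHrr p = j / (4 * W) * Xi W W1 W2 u := by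
    rw [← ecK]
    unfold LData.cHrr LData.cK
    rw [hN, hS, elm, elm', eC11, eB11, eB1, eC1, eB2, eC2, eB22, eC22]
    ring
  have ecX : L.cHrx p = 0 := by
    unfold LData.cHrx
    rw [hN, hS, eB12, eB2, eC2]; ring
  have ecxx : L.cHxx p = (j ^ 2 * (1 - 1 / 2 * W1) ^ 2 - W) / (j * (1 - p.2 ^ 2)) := by
    unfold LData.cHxx
    rw [hN, hS, eB22, eB2, eC2, eexp, ei]
    field_simp
    ring
  have hXpos : 0 < j / (4 * W) * Xi W W1 W2 u := mul_pos (by positivity) hXu.2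
  have hxx : 0 < L.cHxx p := by
    rw [ecxx]
    apply div_pos _ (by positivity)
    rw [hj2]
    nlinarith
  refine ⟨by rw [ecK]; exact hXpos, by rw [ecH]; exact hXpos, ?_⟩
  rw [ecX, ecH]
  have := mul_pos hXpos hxx
  linarith

end Pool.Agent.Work.MP_0fcc57_gt
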