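import Pool.Agent.Work.MP_0fcc57_gt.Theta

/-!
# Radial background, first part: the compactly supported profile `w1`
-/

open scoped ContDiff Topology
open Real Set Filter

noncomputable section

namespace Pool.Agent.Work.MP_0fcc57_gt

/-- The expression whose positivity is equivalent to negative radial curvature. -/
def Xi (w w' w'' u : ℝ) : ℝ := (2 - w') * ((1 / u + 1 / (1 + u)) * w - w') - 2 * w * w''

/-- flat function `exp(-1/(2-u))`. -/
def v0 (u : ℝ) : ℝ := expNegInvGlue (2 - u)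

lemma v0_contDiff : ContDiff ℝ ∞ v0 := by
  unfold v0
  exact (expNegInvGlue.contDiff (n := ⊤)).comp (contDiff_const.sub contDiff_id)

lemma v0_of_lt {u : ℝ} (hu : u < 2) : v0 u = Real.exp (-(2 - u)⁻¹) := by
  unfold v0 expNegInvGlue
  rw [if_neg (by linarith)]

lemma v0_of_ge {u : ℝ} (hu : 2 ≤ u) : v0 u = 0 := by
  unfold v0
  exact expNegInvGlue.zero_of_nonpos (by linarith)

lemma v0_nonneg (u : ℝ) : 0 ≤ v0 u := expNegInvGlue.nonneg _

lemma v0_pos {u : ℝ} (hu : u < 2) : 0 < v0 u := expNegInvGlue.pos_of_pos (by linarith)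

lemma v0_le_one (u : ℝ) : v0 u ≤ 1 := by
  rcases lt_or_ge u 2 with h | h
  · rw [v0_of_lt h]
    apply Real.exp_le_one_iff.mpr
    have : 0 < (2 - u)⁻¹ := inv_pos.mpr (by linarith)
    linarith
  · rw [v0_of_ge h]; norm_num

lemma v0_hasDerivAt {u : ℝ} (hu : u < 2) : HasDerivAt v0 (-(v0 u) / (2 - u) ^ 2) u := by
  have h2 : (2 - u) ≠ 0 := by linarith
  have ha : HasDerivAt (fun x : ℝ => (2 : ℝ) - x) (-1) u := by
    simpa using (hasDerivAt_id u).const_sub 2
  have hc := ((ha.fun_inv h2).fun_neg).exp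
  refine (hc.congr_of_eventuallyEq ?_).congr_deriv ?_
  · filter_upwards [Iio_mem_nhds hu] with x hx using v0_of_lt hx
  · rw [v0_of_lt hu]
    field_simp

lemma v0_deriv_eq {u : ℝ} (hu : u < 2) : deriv v0 u = -(v0 u) / (2 - u) ^ 2 :=
  (v0_hasDerivAt hu).deriv

lemma v0_deriv_hasDerivAt {u : ℝ} (hu : u < 2) :
    HasDerivAt (deriv v0) (v0 u * (1 / (2 - u) ^ 4 - 2 / (2 - u) ^ 3)) u := by
  have h2 : (2 - u) ≠ 0 := by linarith
  have ha : HasDerivAt (fun x : ℝ => (2 : ℝ) - x) (-1) u := by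
    simpa using (hasDerivAt_id u).const_sub 2
  have hb := ((v0_hasDerivAt hu).fun_neg).fun_div (ha.fun_pow 2) (pow_ne_zero 2 h2)
  refine (hb.congr_of_eventuallyEq ?_).congr_deriv ?_
  · filter_upwards [Iio_mem_nhds hu] with x hx using v0_deriv_eq hx
  · field_simp
    ring

lemma v0_deriv_nonpos (u : ℝ) : deriv v0 u ≤ 0 := by
  rcases lt_or_ge u 2 with h | h
  · rw [v0_deriv_eq h]
    apply div_nonpos_of_nonpos_of_nonneg _ (by positivity)
    linarith [v0_nonneg u]
  · have hanti : Antitone v0 := by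
      intro x y hxy
      exact expNegInvGlue.monotone (by linarith)
    exact hanti.deriv_nonpos

/-- The compactly supported profile. -/
def w1 (u : ℝ) : ℝ := u - (1 / 2) * Th (2 * (u - v0 u) + c0)

lemma w1_contDiff : ContDiff ℝ ∞ w1 := by
  unfold w1
  apply contDiff_id.sub
  apply contDiff_const.mul
  apply Th_contDiff.comp
  exact (contDiff_const.mul (contDiff_id.sub v0_contDiff)).add contDiff_const

lemma exp_half_le : Real.exp (1 / 2) ≤ 1.65 := by
  have h1 : Real.exp (1/2) * Real.exp (1/2) = Real.exp 1 := by rw [← Real.exp_add]; norm_num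
  have h2 := Real.exp_one_lt_d9
  nlinarith [Real.exp_pos (1/2 : ℝ)]

lemma w1_left {u : ℝ} (hu : u ≤ 1 / 20) : w1 u = u := by
  unfold w1
  rw [Th_of_nonpos]
  · ring
  · have hv : Real.exp (-(20 / 39 : ℝ)) ≤ v0 u := by
      have h1 : v0 (1/20) ≤ v0 u := expNegInvGlue.monotone (by linarith)
      have h2 : v0 (1/20) = Real.exp (-(20 / 39 : ℝ)) := by
        rw [v0_of_lt (by norm_num)]; norm_num
      linarith
    have he : (11 / 20 : ℝ) ≤ Real.exp (-(20 / 39 : ℝ)) := by
      rw [Real.exp_neg]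
      have h3 : Real.exp (20/39 : ℝ) = Real.exp (1/2) * Real.exp (1/78) := by
        rw [← Real.exp_add]; norm_num
      have h4 : Real.exp (1/78 : ℝ) ≤ 78 / 77 := by
        have := Real.add_one_le_exp (-(1/78) : ℝ)
        rw [Real.exp_neg] at this
        have hp := Real.exp_pos (1/78 : ℝ)
        have h5 : (77/78 : ℝ) ≤ (Real.exp (1/78))⁻¹ := by linarith
        rw [le_inv_comm₀ (by norm_num) hp] at h5
        norm_num at h5 ⊢; linarith
      have h6 : Real.exp (20/39 : ℝ) ≤ 20 / 11 := by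
        rw [h3]
        have := exp_half_le
        have hp := Real.exp_pos (1/78 : ℝ)
        nlinarith [Real.exp_pos (1/2 : ℝ)]
      rw [le_inv_comm₀ (by norm_num) (Real.exp_pos _)]
      norm_num at h6 ⊢; linarith
    have := c0_le_one
    linarith

lemma w1_right {u : ℝ} (hu : 3 / 2 ≤ u) : w1 u = v0 u := by
  unfold w1
  rw [Th_of_one_le]
  · ring
  · have := v0_le_one u
    have := c0_nonneg
    linarith

lemma w1_zero {u : ℝ} (hu : 2 ≤ u) : w1 u = 0 := by
  rw [w1_right (by linarith), v0_of_ge hu]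

lemma v0_differentiable : Differentiable ℝ v0 := v0_contDiff.differentiable (by simp)

lemma w1_arg_hasDerivAt (u : ℝ) :
    HasDerivAt (fun x => 2 * (x - v0 x) + c0) (2 * (1 - deriv v0 u)) u :=
  (((hasDerivAt_id' u).fun_sub (v0_differentiable u).hasDerivAt).const_mul 2).add_const c0

lemma w1_hasDerivAt (u : ℝ) : HasDerivAt w1
    (1 - st (2 * (u - v0 u) + c0) * (1 - deriv v0 u)) u := by
  have h2 := ((Th_hasDerivAt (2 * (u - v0 u) + c0)).comp u (w1_arg_hasDerivAt u)).const_mul (1 / 2)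
  have h3 := (hasDerivAt_id' u).fun_sub h2
  exact h3.congr_deriv (by ring)

lemma w1_deriv (u : ℝ) : deriv w1 u = 1 - st (2 * (u - v0 u) + c0) * (1 - deriv v0 u) :=
  (w1_hasDerivAt u).deriv

lemma w1_deriv_le_one (u : ℝ) : deriv w1 u ≤ 1 := by
  rw [w1_deriv]
  have h1 := Real.smoothTransition.nonneg (2 * (u - v0 u) + c0)
  have h2 := v0_deriv_nonpos u
  have : 0 ≤ st (2 * (u - v0 u) + c0) * (1 - deriv v0 u) := mul_nonneg h1 (by linarith)
  linarith

lemma w1_deriv2 {u : ℝ} (hu : u < 2) : deriv (deriv w1) u =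
    -(deriv st (2 * (u - v0 u) + c0) * (2 * (1 - deriv v0 u) ^ 2))
      + st (2 * (u - v0 u) + c0) * (v0 u * (1 / (2 - u) ^ 4 - 2 / (2 - u) ^ 3)) := by
  have h2 := (st_hasDerivAt (2 * (u - v0 u) + c0)).comp u (w1_arg_hasDerivAt u)
  have h3 := (v0_deriv_hasDerivAt hu).const_sub 1
  have h4 := (h2.fun_mul h3).const_sub 1
  have h5 : deriv w1 = fun u => 1 - st (2 * (u - v0 u) + c0) * (1 - deriv v0 u) :=
    funext w1_deriv
  rw [h5]
  refine (h4.congr_deriv ?_).deriv
  simp only [Function.comp_def]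
  ring

lemma w1_deriv2_nonpos {u : ℝ} (hu : u ≤ 3 / 2) : deriv (deriv w1) u ≤ 0 := by
  rw [w1_deriv2 (by linarith)]
  have h1 := Real.smoothTransition.nonneg (2 * (u - v0 u) + c0)
  have h2 := st_deriv_nonneg (2 * (u - v0 u) + c0)
  have h3 : 0 ≤ deriv st (2 * (u - v0 u) + c0) * (2 * (1 - deriv v0 u) ^ 2) :=
    mul_nonneg h2 (by positivity)
  have hx : (1 / 2 : ℝ) ≤ 2 - u := by linarith
  have hxp : 0 < 2 - u := by linarith
  have h4 : 1 / (2 - u) ^ 4 - 2 / (2 - u) ^ 3 ≤ 0 := by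
    rw [div_sub_div _ _ (by positivity) (by positivity)]
    apply div_nonpos_of_nonpos_of_nonneg _ (by positivity)
    have : (2 - u) ^ 3 * (1 - 2 * (2 - u)) ≤ 0 :=
      mul_nonpos_of_nonneg_of_nonpos (by positivity) (by linarith)
    nlinarith
  have h5 : st (2 * (u - v0 u) + c0) * (v0 u * (1 / (2 - u) ^ 4 - 2 / (2 - u) ^ 3)) ≤ 0 :=
    mul_nonpos_of_nonneg_of_nonpos h1 (mul_nonpos_of_nonneg_of_nonpos (v0_nonneg u) h4)
  linarith

lemma w1_differentiable : Differentiable ℝ w1 := w1_contDiff.differentiable (by simp)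

lemma w1_deriv_contDiff : ContDiff ℝ ∞ (deriv w1) := (contDiff_infty_iff_deriv.mp w1_contDiff).2

lemma w1_concave : ConcaveOn ℝ (Icc 0 (3/2)) w1 := by
  apply concaveOn_of_deriv2_nonpos (convex_Icc 0 (3/2)) w1_contDiff.continuous.continuousOn
    w1_differentiable.differentiableOn
  · exact (w1_deriv_contDiff.differentiable (by simp)).differentiableOn
  · intro x hx
    rw [interior_Icc] at hx
    exact w1_deriv2_nonpos hx.2.le

lemma w1_pos {u : ℝ} (h0 : 0 < u) (h2 : u < 2) : 0 < w1 u := by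
  rcases le_total u (3/2) with h | h
  · have m0 : (0 : ℝ) ∈ Icc (0 : ℝ) (3 / 2) := by constructor <;> norm_num
    have m1 : (3 / 2 : ℝ) ∈ Icc (0 : ℝ) (3 / 2) := by constructor <;> norm_num
    have n0 : 0 ≤ 1 - u / (3/2) := by
      rw [sub_nonneg, div_le_one (by norm_num)]; exact h
    have n1 : 0 ≤ u / (3/2) := by positivity
    have hc := w1_concave.2 m0 m1 n0 n1 (by ring)
    have e1 : (1 - u / (3/2)) • (0:ℝ) + (u / (3/2)) • (3/2 : ℝ) = u := by
      simp only [smul_eq_mul]; field_simp; ring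
    rw [e1, w1_left (by norm_num : (0:ℝ) ≤ 1/20), w1_right (le_refl (3/2 : ℝ))] at hc
    simp only [smul_eq_mul, mul_zero, zero_add] at hc
    have := v0_pos (show (3/2 : ℝ) < 2 by norm_num)
    have h3 : 0 < u / (3/2) * v0 (3/2) := by positivity
    linarith
  · rw [w1_right h]; exact v0_pos h2

/-- tangent line inequality -/
lemma w1_tangent {u : ℝ} (h0 : 0 < u) (h : u ≤ 3 / 2) : u * deriv w1 u ≤ w1 u := by
  obtain ⟨ξ, hξ, hd⟩ := exists_deriv_eq_slope w1 h0 w1_contDiff.continuous.continuousOn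
    w1_differentiable.differentiableOn
  rw [w1_left (by norm_num : (0:ℝ) ≤ 1/20)] at hd
  have hanti : AntitoneOn (deriv w1) (Icc 0 (3/2)) := by
    apply antitoneOn_of_deriv_nonpos (convex_Icc 0 (3/2))
      w1_deriv_contDiff.continuous.continuousOn
      (w1_deriv_contDiff.differentiable (by simp)).differentiableOn
    intro x hx
    rw [interior_Icc] at hx
    exact w1_deriv2_nonpos hx.2.le
  have h1 : deriv w1 u ≤ deriv w1 ξ :=
    hanti ⟨hξ.1.le, by linarith [hξ.2]⟩ ⟨h0.le, h⟩ hξ.2.le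
  rw [hd] at h1
  simp only [sub_zero] at h1
  rw [le_div_iff₀ h0] at h1
  linarith

lemma sq_lt_exp {y : ℝ} (hy : 0 ≤ y) : y ^ 2 < Real.exp y := by
  have h1 := Real.quadratic_le_exp_of_nonneg (show (0:ℝ) ≤ y / 2 by linarith)
  have h2 : Real.exp y = Real.exp (y/2) ^ 2 := by rw [← Real.exp_nat_mul]; congr 1; push_cast; ring
  have h3 : y < Real.exp (y / 2) := by nlinarith [sq_nonneg (y - 2)]
  rw [h2]
  exact pow_lt_pow_left₀ h3 hy (by norm_num)

lemma w1_Xi_pos {u : ℝ} (h0 : 0 < u) (h2 : u < 2) :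
    0 < Xi (w1 u) (deriv w1 u) (deriv (deriv w1) u) u := by
  unfold Xi
  have hw := w1_pos h0 h2
  rcases le_or_gt u (3/2) with h | h
  · have h1 := w1_deriv_le_one u
    have h3 := w1_deriv2_nonpos h
    have h4 := w1_tangent h0 h
    have h5 : deriv w1 u ≤ 1 / u * w1 u := by
      rw [one_div, inv_mul_eq_div, le_div_iff₀ h0]; linarith
    have h6 : 0 < 1 / (1 + u) * w1 u := by positivity
    have h7 : 0 < (2 - deriv w1 u) * ((1 / u + 1 / (1 + u)) * w1 u - deriv w1 u) := by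
      apply mul_pos (by linarith)
      have : (1 / u + 1 / (1 + u)) * w1 u = 1 / u * w1 u + 1 / (1 + u) * w1 u := by ring
      linarith
    have h8 : 2 * w1 u * deriv (deriv w1) u ≤ 0 :=
      mul_nonpos_of_nonneg_of_nonpos (by linarith) h3
    linarith
  · have hev : w1 =ᶠ[𝓝 u] v0 := by
      filter_upwards [Ioi_mem_nhds h] with x hx using w1_right hx.le
    have hd1 : deriv w1 u = deriv v0 u := hev.deriv_eq
    have hd2 : deriv (deriv w1) u = deriv (deriv v0) u := hev.deriv.deriv_eq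
    rw [hd1, hd2, w1_right h.le, (v0_deriv_hasDerivAt h2).deriv, v0_deriv_eq h2]
    have hx : 0 < 2 - u := by linarith
    set x := 2 - u with hxdef
    set v := v0 u with hv
    have hvpos : 0 < v := v0_pos h2
    have hvx : v / x ^ 2 < 1 := by
      rw [hv, v0_of_lt h2, ← hxdef, div_lt_one (by positivity)]
      have := sq_lt_exp (show (0:ℝ) ≤ x⁻¹ by positivity)
      rw [Real.exp_neg, inv_lt_comm₀ (Real.exp_pos _) (by positivity), ← inv_pow]
      exact this
    have ha : 0 < (1 / u + 1 / (1 + u)) * v := by positivity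
    have hq : 0 < v / x ^ 2 := by positivity
    have e : (2 - -v / x ^ 2) * ((1 / u + 1 / (1 + u)) * v - -v / x ^ 2)
        - 2 * v * (v * (1 / x ^ 4 - 2 / x ^ 3))
        = (2 + v / x ^ 2) * ((1 / u + 1 / (1 + u)) * v) + 2 * (v / x ^ 2)
          - (v / x ^ 2) ^ 2 + 4 * v ^ 2 / x ^ 3 := by
      field_simp
      ring
    rw [e]
    have h9 : (v / x ^ 2) ^ 2 < v / x ^ 2 := by nlinarith
    have h10 : 0 < 4 * v ^ 2 / x ^ 3 := by positivity
    have h11 : 0 < (2 + v / x ^ 2) * ((1 / u + 1 / (1 + u)) * v) := by positivity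
    linarith

end Pool.Agent.Work.MP_0fcc57_gt
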