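import Pool.Agent.Work.MP_0fcc57_gt.RadCurv
import Pool.Agent.Work.MP_0fcc57_gt.PertD
import Pool.Agent.Work.MP_0fcc57_gt.PertE
import Pool.Agent.Work.MP_0fcc57_gt.Profile

/-!
# The data of the construction
-/

open scoped ContDiff Topology
open Real Set Filter

noncomputable section

namespace Pool.Agent.Work.MP_0fcc57_gt

/-- Radial data. -/
structure RData where
  w : ℝ → ℝ
  Bd : ℝ
  hw : ContDiff ℝ ∞ w
  hleft : ∀ u ≤ 1 / 20, w u = u
  hright : ∀ u ≥ Bd, w u = u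
  hBd : 0 < Bd
  hpos : ∀ u > 0, 0 < w u
  hX : ∀ u > 0, deriv w u < 2 ∧ 0 < Xi (w u) (deriv w u) (deriv (deriv w) u) u

namespace RData
variable (D : RData)

/-- `1/w - 1/u` -/
def k (u : ℝ) : ℝ := 1 / D.w u - 1 / u

lemma k_left {u : ℝ} (h : u ≤ 1 / 20) : D.k u = 0 := by unfold k; rw [D.hleft u h]; ring
lemma k_right {u : ℝ} (h : D.Bd ≤ u) : D.k u = 0 := by unfold k; rw [D.hright u h]; ring

lemma k_contDiff : ContDiff ℝ ∞ D.k := by
  rw [contDiff_iff_contDiffAt]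
  intro u
  rcases lt_or_ge u (1/20) with h | h
  · have : D.k =ᶠ[𝓝 u] fun _ => 0 := by
      filter_upwards [Iio_mem_nhds h] with x hx using D.k_left (le_of_lt hx)
    exact contDiffAt_const.congr_of_eventuallyEq this
  · unfold k
    have hu : 0 < u := by linarith
    exact (contDiffAt_const.div D.hw.contDiffAt (D.hpos u hu).ne').sub
      (contDiffAt_const.div contDiffAt_id hu.ne')

/-- the integral of `k` from infinity -/
def I (u : ℝ) : ℝ := ∫ t in D.Bd..u, D.k t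

lemma I_hasDerivAt (u : ℝ) : HasDerivAt D.I (D.k u) u :=
  intervalIntegral.integral_hasDerivAt_right (D.k_contDiff.continuous.intervalIntegrable _ _)
    (D.k_contDiff.continuous.stronglyMeasurableAtFilter _ _) D.k_contDiff.continuous.continuousAt

lemma I_contDiff : ContDiff ℝ ∞ D.I := by
  rw [contDiff_infty_iff_deriv]
  have : deriv D.I = D.k := funext fun u => (D.I_hasDerivAt u).deriv
  rw [this]
  exact ⟨fun u => (D.I_hasDerivAt u).differentiableAt, D.k_contDiff⟩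

lemma I_right {u : ℝ} (h : D.Bd ≤ u) : D.I u = 0 := by
  unfold I
  have : ∫ t in D.Bd..u, D.k t = ∫ t in D.Bd..u, (0:ℝ) := by
    apply intervalIntegral.integral_congr
    intro t ht
    rw [uIcc_of_le h] at ht
    exact D.k_right ht.1
  rw [this]; simp

/-- `log m` as a function of `r` -/
def M (r : ℝ) : ℝ := log (sinh r ^ 2) + D.I (sinh r ^ 2)

lemma M_hasDerivAt {r : ℝ} (h : 0 < r) : HasDerivAt D.M (1 / iW D.w r) r := by
  have hs := Real.sinh_pos_iff.mpr h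
  have hu : 0 < sinh r ^ 2 := by positivity
  have h1 := sinhsq_hasDerivAt D.hw D.hpos r
  have h2 := h1.log hu.ne'
  have h3 := (D.I_hasDerivAt (sinh r ^ 2)).comp r h1
  refine (h2.fun_add h3).congr_deriv ?_
  unfold iW k
  have hw0 := (D.hpos _ hu).ne'
  have hj := (sinh2_pos h).ne'
  field_simp
  ring

lemma M_contDiffOn : ContDiffOn ℝ ∞ (fun p : ℝ × ℝ => D.M p.1) PR := by
  have h1 : ContDiff ℝ ∞ (fun p : ℝ × ℝ => sinh p.1 ^ 2) :=
    (Real.contDiff_sinh.comp contDiff_fst).pow 2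
  unfold M
  apply ContDiffOn.add
  · apply h1.contDiffOn.log
    intro p hp
    have := Real.sinh_pos_iff.mpr hp.1
    positivity
  · exact (D.I_contDiff.comp h1).contDiffOn

lemma iW_contDiffOn : ContDiffOn ℝ ∞ (fun p : ℝ × ℝ => iW D.w p.1) PR := by
  have h1 : ContDiff ℝ ∞ (fun p : ℝ × ℝ => sinh p.1 ^ 2) :=
    (Real.contDiff_sinh.comp contDiff_fst).pow 2
  unfold iW
  apply ContDiffOn.div (D.hw.comp h1).contDiffOn
  · exact (Real.contDiff_sinh.comp (contDiff_const.mul contDiff_fst)).contDiffOn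
  · intro p hp; exact (sinh2_pos hp.1).ne'

lemma iW_pos' {p : ℝ × ℝ} (hp : p ∈ PR) : 0 < iW D.w p.1 := iW_pos D.hw D.hpos hp.1

/-- The radial polar metric. -/
def Lrad : LData PR where
  M := D.M
  i := iW D.w
  B := Brad
  C := Crad
  hU := PR_isOpen
  hi := D.iW_contDiffOn
  hipos := fun _ hp => D.iW_pos' hp
  hM := fun _ hp => D.M_hasDerivAt hp.1
  hMs := D.M_contDiffOn
  hB := Brad_smooth
  hC := Crad_smooth

end RData

/-- The full data. -/
structure Setup extends RData where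
  P : PData
  S : ℝ
  τ₁ : ℝ
  hS : 0 < S
  hτ₁ : 0 < τ₁
  hHout : ∀ s, S ≤ |s| → P.H s = 0
  hbout : ∀ τ, τ₁ ≤ τ → P.b τ = 0 ∧ P.Bt τ = 0
  hH0 : deriv P.H 0 = 1
  hb0 : P.b 0 = 1
  hle : ∀ s τ, 0 ≤ τ → deriv P.H s * P.b τ ≤ 1
  heq : ∀ s τ, 0 ≤ τ → deriv P.H s * P.b τ = 1 → s = 0 ∧ τ = 0
  hr2 : 2 < P.r0 - P.e * S
  hT : P.e * τ₁ / P.q < 1 / 2
  hB2 : sinh (P.r0 + P.e * S) ^ 2 < Bd

/-- the point is outside of the support of the perturbation -/
def PData.Out (P : PData) (S τ₁ : ℝ) (p : ℝ × ℝ) : Prop := S < |P.s p| ∨ τ₁ < P.τ p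

namespace PData
variable (P : PData) {S τ₁ : ℝ}

lemma out_isOpen (S τ₁ : ℝ) : IsOpen {p | P.Out S τ₁ p} := by
  apply IsOpen.union
  · exact isOpen_lt continuous_const P.s_contDiff.continuous.abs
  · exact isOpen_lt continuous_const P.τ_contDiff.continuous

section
variable (hHout : ∀ s, S ≤ |s| → P.H s = 0) (hbout : ∀ τ, τ₁ ≤ τ → P.b τ = 0 ∧ P.Bt τ = 0)
include hHout

lemma dH_out {s : ℝ} (h : S < |s|) : deriv P.H s = 0 := by
  have : P.H =ᶠ[𝓝 s] fun _ => 0 := by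
    filter_upwards [(isOpen_lt continuous_const continuous_abs).mem_nhds h] with t ht
      using hHout t (le_of_lt ht)
  rw [this.deriv_eq]; simp

lemma d2H_out {s : ℝ} (h : S < |s|) : deriv (deriv P.H) s = 0 := by
  have : deriv P.H =ᶠ[𝓝 s] fun _ => 0 := by
    filter_upwards [(isOpen_lt continuous_const continuous_abs).mem_nhds h] with t ht
      using P.dH_out hHout ht
  rw [this.deriv_eq]; simp

omit hHout
include hbout
lemma db_out {τ : ℝ} (h : τ₁ < τ) : deriv P.b τ = 0 := by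
  have : P.b =ᶠ[𝓝 τ] fun _ => 0 := by
    filter_upwards [Ioi_mem_nhds h] with t ht using (hbout t (le_of_lt ht)).1
  rw [this.deriv_eq]; simp

lemma d2b_out {τ : ℝ} (h : τ₁ < τ) : deriv (deriv P.b) τ = 0 := by
  have : deriv P.b =ᶠ[𝓝 τ] fun _ => 0 := by
    filter_upwards [Ioi_mem_nhds h] with t ht using P.db_out hbout ht
  rw [this.deriv_eq]; simp

include hHout
lemma out_vals {p : ℝ × ℝ} (h : P.Out S τ₁ p) (i : ℝ) : P.V p = p.1 ∧ P.VT p = 0 ∧
    P.VTT p = 0 ∧ P.N i p = 1 - p.2 ^ 2 ∧ P.NT i p = -1 ∧ P.Vr p = 1 ∧ P.Vrr p = 0 := by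
  rcases h with h | h
  · have h0 := hHout _ h.le
    have h1 := P.dH_out hHout h
    have h2 := P.d2H_out hHout h
    unfold V VT VTT N NT Vr Vrr
    rw [h0, h1, h2]
    refine ⟨by ring, by ring, by ring, by ring, by ring, by ring, by ring⟩
  · have h0 := hbout _ h.le
    have h1 := P.db_out hbout h
    have h2 := P.d2b_out hbout h
    unfold V VT VTT N NT Vr Vrr
    rw [h0.1, h0.2, h1, h2]
    refine ⟨by ring, by ring, by ring, by ring, by ring, by ring, by ring⟩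

lemma out_good {p : ℝ × ℝ} (hp : p ∈ PR) (h : P.Out S τ₁ p) (i : ℝ) : P.Good i p := by
  obtain ⟨e1, e2, e3, e4, e5, _, _⟩ := P.out_vals hHout hbout h i
  have hs := Real.sinh_pos_iff.mpr hp.1
  have hc := Real.cosh_pos p.1
  have hx : 0 < 1 - p.2 ^ 2 := by linarith [hp.2]
  refine ⟨hp.2, by rw [e1]; exact hp.1, ?_, by rw [e4]; exact hx, ?_⟩
  · unfold R; rw [e1, e2]; simp; positivity
  · unfold G; rw [e4, e5, e2]
    unfold RT; rw [e2, e3]
    have : 1 - p.2 ^ 2 ≠ 0 := hx.ne'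
    field_simp
    norm_num

lemma out_bh {p : ℝ × ℝ} (hp : p ∈ PR) (h : P.Out S τ₁ p) (i : ℝ) :
    log (P.bh i p) = Brad p ∧ log (P.ch i p) = Crad p := by
  obtain ⟨e1, e2, e3, e4, e5, _, _⟩ := P.out_vals hHout hbout h i
  have hs := Real.sinh_pos_iff.mpr hp.1
  have hc := Real.cosh_pos p.1
  have hx : 0 < 1 - p.2 ^ 2 := by linarith [hp.2]
  have hj := sinh2_pos hp.1
  have hR : P.R p = sinh (2 * p.1) / 2 := by
    unfold R; rw [e1, e2, Real.sinh_two_mul]; ring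
  constructor
  · unfold bh Brad
    rw [e4, hR, show 2 * (sinh (2 * p.1) / 2) = sinh (2 * p.1) by ring,
      Real.log_div hx.ne' hj.ne']
  · unfold ch Crad G
    rw [hR, e4, e5, e2]
    unfold RT; rw [e2, e3]
    have : (-((1 - p.2 ^ 2) / (2 * (1 - p.2 ^ 2))) - -1
        - 2 * (1 - p.2 ^ 2) * (cosh (P.V p) / sinh (P.V p)) * 0 +
        (1 - p.2 ^ 2) * ((cosh (P.V p) ^ 2 + sinh (P.V p) ^ 2) * 0 + 2 * 0 + 2 * p.2 ^ 2 * 0) /
        (sinh (2 * p.1) / 2)) / ((1 - p.2 ^ 2) * (sinh (2 * p.1) / 2)) =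
        ((1 - p.2 ^ 2) * sinh (2 * p.1))⁻¹ := by
      field_simp
      norm_num
    rw [this, Real.log_inv, Real.log_mul hx.ne' hj.ne']
    ring
end
end PData

end Pool.Agent.Work.MP_0fcc57_gt
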