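import Pool.Agent.Work.MP_0fcc57_gt.Defs

/-!
# A smooth convex approximation of the positive part
-/

open scoped ContDiff Topology
open Real Set Filter

noncomputable section

namespace Pool.Agent.Work.MP_0fcc57_gt

/-- The smooth step. -/
abbrev st : ℝ → ℝ := Real.smoothTransition

lemma st_contDiff : ContDiff ℝ ∞ st := Real.smoothTransition.contDiff

/-- Primitive of the smooth step. -/
def Th (t : ℝ) : ℝ := ∫ s in (0 : ℝ)..t, st s

/-- The defect of `Th`: `Th t = t - c0` for `t ≥ 1`. -/
def c0 : ℝ := 1 - Th 1

lemma Th_hasDerivAt (t : ℝ) : HasDerivAt Th (st t) t :=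
  intervalIntegral.integral_hasDerivAt_right
    (Real.smoothTransition.continuous.intervalIntegrable _ _)
    (Real.smoothTransition.continuous.stronglyMeasurableAtFilter _ _)
    Real.smoothTransition.continuous.continuousAt

lemma Th_deriv : deriv Th = st := funext fun t => (Th_hasDerivAt t).deriv

lemma Th_differentiable : Differentiable ℝ Th := fun t => (Th_hasDerivAt t).differentiableAt

lemma Th_contDiff : ContDiff ℝ ∞ Th := by
  rw [contDiff_infty_iff_deriv, Th_deriv]
  exact ⟨Th_differentiable, st_contDiff⟩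

lemma Th_of_nonpos {t : ℝ} (ht : t ≤ 0) : Th t = 0 := by
  unfold Th
  rw [intervalIntegral.integral_symm]
  have : ∫ s in t..(0:ℝ), st s = ∫ s in t..(0:ℝ), (0:ℝ) := by
    apply intervalIntegral.integral_congr
    intro s hs
    rw [uIcc_of_le ht] at hs
    exact Real.smoothTransition.zero_of_nonpos hs.2
  rw [this]; simp

lemma Th_of_one_le {t : ℝ} (ht : 1 ≤ t) : Th t = t - c0 := by
  unfold c0
  have h1 : Th t = Th 1 + ∫ s in (1:ℝ)..t, st s := by
    unfold Th
    rw [intervalIntegral.integral_add_adjacent_intervals]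
    · exact Real.smoothTransition.continuous.intervalIntegrable _ _
    · exact Real.smoothTransition.continuous.intervalIntegrable _ _
  have h2 : ∫ s in (1:ℝ)..t, st s = ∫ s in (1:ℝ)..t, (1:ℝ) := by
    apply intervalIntegral.integral_congr
    intro s hs
    rw [uIcc_of_le ht] at hs
    exact Real.smoothTransition.one_of_one_le hs.1
  rw [h1, h2]; simp; ring

lemma Th_nonneg (t : ℝ) : 0 ≤ Th t := by
  rcases le_total t 0 with h | h
  · rw [Th_of_nonpos h]
  · exact intervalIntegral.integral_nonneg h (fun s _ => Real.smoothTransition.nonneg s)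

lemma Th_one_le : Th 1 ≤ 1 := by
  have h : (∫ s in (0:ℝ)..1, st s) ≤ ∫ s in (0:ℝ)..1, (1:ℝ) := by
    apply intervalIntegral.integral_mono_on (by norm_num)
      (Real.smoothTransition.continuous.intervalIntegrable _ _)
      (continuous_const.intervalIntegrable _ _)
    exact fun x _ => Real.smoothTransition.le_one x
  simpa [Th] using h

lemma c0_nonneg : 0 ≤ c0 := by unfold c0; linarith [Th_one_le]
lemma c0_le_one : c0 ≤ 1 := by unfold c0; linarith [Th_nonneg 1]

lemma st_deriv_nonneg (t : ℝ) : 0 ≤ deriv st t :=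
  Real.smoothTransition.monotone.deriv_nonneg

lemma st_hasDerivAt (t : ℝ) : HasDerivAt st (deriv st t) t :=
  (st_contDiff.differentiable (by simp) t).hasDerivAt

end Pool.Agent.Work.MP_0fcc57_gt
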